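import Pool.Agent.Lib.MP_17a322_nt.ABN.N0
import Pool.Agent.Lib.MP_17a322_nt.JAC.B2

universe u

namespace Pool.Agent.Lib.MP_17a322_nt.ABN

open MvPolynomial hiding psum
open Height NumberField
open Pool.Agent.Lib.MP_17a322_nt.EQ
open Pool.Agent.Lib.MP_17a322_nt.JAC

section

variable {K : Type u} [Field K] {ι α : Type} [Fintype α] [DecidableEq α]

/-- The value of `NZ` at the point `z`; `N l i / BN` is the derivative `δ l` of the coordinate `i`. -/
noncomputable def NZz (BN : MvPolynomial ι K) (N : α → ι → MvPolynomial ι K) (z : ι → K) (s : Option α → ι) : K :=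
  (Matrix.of fun a b : Option α => a.elim (z (s b)) fun l => eval z (N l (s b)) / eval z BN).det

/-- The value of `GG` at the point `z`. -/
noncomputable def GGz (P : Finset (MvPolynomial α K)) (x : α → ι) (z : ι → K) (I : α → P) : K :=
  (Matrix.of fun k l => eval (fun l => z (x l)) (pderiv l (I k).1) / eval (fun l => z (x l)) (I k).1).det

end

end Pool.Agent.Lib.MP_17a322_nt.ABN
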