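import Pool.Agent.Lib.MP_17a322_nt.ABN.A2D
import Pool.Agent.Lib.MP_17a322_nt.JAC.B2

universe u

namespace Pool.Agent.Lib.MP_17a322_nt.ABN

open MvPolynomial hiding psum
open Height NumberField
open Pool.Agent.Lib.MP_17a322_nt.EQ
open Pool.Agent.Lib.MP_17a322_nt.JAC

section A2a_aux

variable {K L L' ι α Q : Type*} [Field K] [CommRing L] [Algebra K L] [CommRing L'] [Algebra K L']
  [Fintype α] [DecidableEq α]

/-- the determinant of the numbers `zz` and their derivatives -/
private noncomputable def A2a_N (zz : ι → L) (τ : α → ι → L) (s : Option α → ι) : L :=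
  (Matrix.of fun a b : Option α => a.elim (zz (s b)) fun l => τ l (s b)).det

private theorem A2a_mapN (Φ : L →ₐ[K] L') (zz : ι → L) (τ : α → ι → L) (s : Option α → ι) :
    Φ (A2a_N zz τ s) = A2a_N (fun i => Φ (zz i)) (fun l i => Φ (τ l i)) s := by
  unfold A2a_N
  rw [show Φ (Matrix.of fun a b : Option α => a.elim (zz (s b)) fun l => τ l (s b)).det =
    (Φ : L →+* L') (Matrix.of fun a b : Option α => a.elim (zz (s b)) fun l => τ l (s b)).det
    from rfl, RingHom.map_det]
  congr 1
  ext i j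
  cases i with
  | none => simp
  | some i => simp

/-- the determinant of the logarithmic derivatives -/
private noncomputable def A2a_G (θ : Q → α → L) (J : α → Q) : L :=
  (Matrix.of fun k l => θ (J k) l).det

private theorem A2a_mapG (Φ : L →ₐ[K] L') (θ : Q → α → L) (J : α → Q) :
    Φ (A2a_G θ J) = A2a_G (fun q l => Φ (θ q l)) J := by
  unfold A2a_G
  rw [show Φ (Matrix.of fun k l => θ (J k) l).det =
    (Φ : L →+* L') (Matrix.of fun k l => θ (J k) l).det from rfl, RingHom.map_det]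
  congr 1

omit [Fintype α] in
/-- the derivations on values of polynomials -/
private theorem A2a_deriv {F : Type*} [Field F] [Algebra K F]
    (δ : α → Derivation K F F) (x : α → F) (hx : ∀ l l', δ l (x l') = if l = l' then 1 else 0)
    (l : α) (p : MvPolynomial α K) : δ l (aeval x p) = aeval x (pderiv l p) := by
  induction p using MvPolynomial.induction_on with
  | C c => simp
  | add p q hp hq => rw [map_add, map_add, hp, hq, map_add, map_add]
  | mul_X p i hp =>
    rw [map_mul, Derivation.leibniz, hp, aeval_X, hx, Derivation.leibniz, map_add, smul_eq_mul,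
      smul_eq_mul, smul_eq_mul, smul_eq_mul, map_mul, map_mul, aeval_X, pderiv_X]
    congr 1
    by_cases h : l = i
    · subst h
      simp
    · rw [if_neg h, Pi.single_eq_of_ne (Ne.symm h), map_zero]

end A2a_aux

variable {K : Type u} [Field K] [NumberField K] {ι α : Type} [Fintype ι] [Fintype α] [DecidableEq α]

/-- From valuation rings to places, first inequality. -/
theorem place1 (I : Ideal (MvPolynomial ι K)) [I.IsPrime] (x : α → ι) (δ : α → Derivation K (FF I) (FF I))
    (hδ : ∀ l l', δ l (gn I (x l')) = if l = l' then 1 else 0)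
    (BN : MvPolynomial ι K) (N : α → ι → MvPolynomial ι K) (hBN : BN ∉ I)
    (hN : ∀ l i, δ l (gn I i) * aeval (gn I) BN = aeval (gn I) (N l i)) (P : Finset (MvPolynomial α K))
    (hP : ∀ p ∈ P, aeval (fun l => gn I (x l)) p ≠ 0) {β κ : Type} [Fintype β] [Fintype κ] [Nonempty κ] [Nonempty ι] (e : ℕ)
    (f : β → κ → MvPolynomial ι K)
    (hLe : ∀ A : ValuationSubring (FF I), (∀ c : K, algebraMap K (FF I) c ∈ A) →
      Le (fun l => δ l) A (vals (fun l => gn I (x l)) (P : Set (MvPolynomial α K)))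
        (fun s : (Option α → ι) × (β → ι) => NZ (fun l => δ l) (gn I) s.1 * ∏ b, gn I (s.2 b) ^ e)
        (fun i : ι × (β → κ) => gn I i.1 ^ (Fintype.card α + 1) * ∏ b, aeval (gn I) (f b (i.2 b)))) :
    ∃ C : Pl K → ℝ, (∀ v, 1 ≤ C v) ∧ {w : FinitePlace K | C (Sum.inr w) ≠ 1}.Finite ∧
      ∀ (v : Pl K) (z : ι → K), (∀ H ∈ I, eval z H = 0) → eval z BN ≠ 0 → (∀ p ∈ P, eval (fun l => z (x l)) p ≠ 0) →
        (⨆ s, av v (NZz BN N z s)) * (⨆ i, av v (z i)) ^ (e * Fintype.card β) ≤
          C v * ((⨆ i, av v (z i)) ^ (Fintype.card α + 1) * (∏ b, ⨆ j, av v (eval z (f b j))) * ⨆ I', av v (GGz P x z I')) := by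
  classical
  have hren : ∀ (p : MvPolynomial α K), aeval (gn I) (rename x p) = aeval (fun l => gn I (x l)) p :=
    fun p => aeval_rename x (gn I) p
  have hrz : ∀ (z : ι → K) (p : MvPolynomial α K), eval z (rename x p) = eval (fun l => z (x l)) p :=
    fun z p => eval_rename x z p
  have hBN' : aeval (gn I) BN ≠ 0 := fun h => hBN ((aeval_gn_eq_zero I BN).1 h)
  obtain ⟨B, hBdef⟩ : ∃ B : MvPolynomial ι K, B = BN * ∏ q ∈ P, rename x q := ⟨_, rfl⟩
  have hB : B ∉ I := by
    intro h
    have h1 := (aeval_gn_eq_zero I B).2 h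
    rw [hBdef, map_mul, map_prod] at h1
    refine mul_ne_zero hBN' (Finset.prod_ne_zero_iff.2 fun q hq => ?_) h1
    rw [hren]
    exact hP q hq
  have hBP : ∀ p : P, B = rename x p.1 * (BN * ∏ q ∈ P.erase p.1, rename x q) := by
    intro p
    rw [hBdef, ← Finset.mul_prod_erase P (fun q => rename x q) p.2]
    ring
  choose τ hτ1 hτ2 using fun l i => exists_quot I (B₁ := BN) (B₂ := ∏ q ∈ P, rename x q) hBdef hB (N l i)
  choose θ hθ1 hθ2 using fun (p : P) (l : α) => exists_quot I (hBP p) hB (rename x (pderiv l p.1))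
  have hpl : ∀ H : MvPolynomial ι K, ∃ r : RB I B, emb I hB r = aeval (gn I) H ∧
      ∀ (z : ι → K) (hz : ∀ H ∈ I, eval z H = 0) (hBz : eval z B ≠ 0),
        evz I hz hBz r = eval z H := by
    intro H
    refine ⟨algebraMap (MvPolynomial ι K ⧸ I) (RB I B) (Ideal.Quotient.mk I H), ?_, ?_⟩
    · rw [emb_mk]
    · intro z hz hBz
      rw [evz_mk]
  choose pl hpl1 hpl2 using hpl
  have hembN : ∀ s, emb I hB (A2a_N (fun i => pl (X i)) τ s) = NZ (fun l => δ l) (gn I) s := by
    intro s
    rw [A2a_mapN, A2a_N, NZ]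
    congr 2
    funext a b
    cases a with
    | none => simp [hpl1]
    | some l =>
      simp only [Option.elim]
      rw [hτ1, ← hN, mul_div_cancel_right₀ _ hBN']
  have hembG : ∀ J : α → P, emb I hB (A2a_G θ J) =
      GG (fun l => δ l) fun k => aeval (fun l => gn I (x l)) (J k).1 := by
    intro J
    rw [A2a_mapG, A2a_G, GG]
    congr 2
    funext k l
    rw [hθ1, hren, hren, ← A2a_deriv δ (fun l => gn I (x l)) hδ]
  obtain ⟨i₁⟩ := ‹Nonempty ι›
  have hne : Nonempty (α → P) := by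
    obtain ⟨i, b, hb, -⟩ := hLe ⊤ (fun c => ValuationSubring.mem_top _) (fun _ => i₁, fun _ => i₁)
    choose p hpP _ using hb
    exact ⟨fun j => ⟨p j, hpP j⟩⟩
  have hιn : Nonempty ι := ⟨i₁⟩
  -- the index type in the universe zero
  obtain ⟨Q, hQf, ⟨ε⟩⟩ : ∃ (Q : Type) (_ : Fintype Q), Nonempty (P ≃ Q) :=
    ⟨Fin (Fintype.card P), inferInstance, ⟨Fintype.equivFin P⟩⟩
  have hneQ : Nonempty (α → Q) := ⟨fun j => ε (hne.some j)⟩
  -- the inequalities at the valuation rings
  have key : ∀ st : (Option α → ι) × (β → ι),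
      ∃ C : Pl K → ℝ, (∀ v, 1 ≤ C v) ∧ {w : FinitePlace K | C (Sum.inr w) ≠ 1}.Finite ∧
      ∀ (v' : Pl K) (z : ι → K) (hz : ∀ H ∈ I, eval z H = 0) (hBz : eval z B ≠ 0),
        av v' (evz I hz hBz (A2a_N (fun i => pl (X i)) τ st.1 * ∏ b, pl (X (st.2 b)) ^ e)) ≤
          C v' * ⨆ q : (ι × (β → κ)) × (α → Q), av v' (evz I hz hBz
            (pl (X q.1.1) ^ (Fintype.card α + 1) * (∏ b, pl (f b (q.1.2 b))) *
              A2a_G θ fun j => ε.symm (q.2 j))) := by
    intro st
    refine TRB I hB _ (fun q : (ι × (β → κ)) × (α → Q) =>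
      pl (X q.1.1) ^ (Fintype.card α + 1) * (∏ b, pl (f b (q.1.2 b))) *
        A2a_G θ fun j => ε.symm (q.2 j)) ?_
    intro A hA
    obtain ⟨i, b, hb, hle⟩ := hLe A hA st
    choose p hpP hpb using hb
    refine ⟨(i, fun j => ε ⟨p j, hpP j⟩), ?_⟩
    simp only [Equiv.symm_apply_apply]
    have e1 : emb I hB (A2a_N (fun i => pl (X i)) τ st.1 * ∏ b, pl (X (st.2 b)) ^ e) =
        NZ (fun l => δ l) (gn I) st.1 * ∏ b, gn I (st.2 b) ^ e := by
      rw [map_mul, hembN, map_prod]
      simp only [map_pow, hpl1, aeval_X]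
    have e2 : emb I hB (pl (X i.1) ^ (Fintype.card α + 1) * (∏ b, pl (f b (i.2 b))) *
        A2a_G θ fun j => (⟨p j, hpP j⟩ : P)) =
        gn I i.1 ^ (Fintype.card α + 1) * (∏ b, aeval (gn I) (f b (i.2 b))) *
          GG (fun l => δ l) b := by
      rw [map_mul, map_mul, hembG, map_prod]
      simp only [map_pow, hpl1, aeval_X]
      congr 2
      funext k
      exact hpb k
    rw [e1, e2]
    exact hle
  choose C hC1 hC2 hC3 using key
  refine ⟨fun v' => ∏ p, C p v', ?_, ?_, ?_⟩
  · intro v'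
    rw [← Finset.prod_const_one (s := (Finset.univ : Finset ((Option α → ι) × (β → ι))))]
    exact Finset.prod_le_prod (fun _ _ => zero_le_one) (fun p _ => hC1 p v')
  · refine (Set.finite_iUnion hC2).subset ?_
    intro w' hw'
    simp only [Set.mem_ofPred_eq] at hw'
    rw [Set.mem_iUnion]
    by_contra hcon
    push Not at hcon
    apply hw'
    refine Finset.prod_eq_one fun p _ => ?_
    by_contra h1
    exact hcon p h1
  intro v z hz hBNz hPz
  have hBz : eval z B ≠ 0 := by
    rw [hBdef, map_mul, map_prod]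
    refine mul_ne_zero hBNz (Finset.prod_ne_zero_iff.2 fun q hq => ?_)
    rw [hrz]
    exact hPz q hq
  have hevN : ∀ s, evz I hz hBz (A2a_N (fun i => pl (X i)) τ s) = NZz BN N z s := by
    intro s
    rw [A2a_mapN, A2a_N, NZz]
    congr 2
    funext a b
    cases a with
    | none => simp [hpl2]
    | some l =>
      simp only [Option.elim]
      rw [hτ2]
  have hevG : ∀ J : α → P, evz I hz hBz (A2a_G θ J) = GGz P x z J := by
    intro J
    rw [A2a_mapG, A2a_G, GGz]
    congr 2
    funext k l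
    rw [hθ2, hrz, hrz]
  obtain ⟨s₀, hs₀⟩ := exists_eq_ciSup_of_finite (f := fun s => av v (NZz BN N z s))
  obtain ⟨i₀, hi₀⟩ := exists_eq_ciSup_of_finite (f := fun i => av v (z i))
  have h1 := hC3 (s₀, fun _ => i₀) v z hz hBz
  have e1 : av v (evz I hz hBz (A2a_N (fun i => pl (X i)) τ s₀ * ∏ _b : β, pl (X i₀) ^ e)) =
      (⨆ s, av v (NZz BN N z s)) * (⨆ i, av v (z i)) ^ (e * Fintype.card β) := by
    rw [map_mul, hevN, Finset.prod_const, ← pow_mul, map_pow, hpl2, eval_X, map_mul, map_pow,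
      Finset.card_univ, ← hs₀, ← hi₀]
  have hbd1 : BddAbove (Set.range fun i => av v (z i)) := (Set.finite_range _).bddAbove
  have hbd2 : ∀ b, BddAbove (Set.range fun j => av v (eval z (f b j))) := fun b =>
    (Set.finite_range _).bddAbove
  have hbd3 : BddAbove (Set.range fun I' => av v (GGz P x z I')) := (Set.finite_range _).bddAbove
  have hS1 : 0 ≤ ⨆ i, av v (z i) := Real.iSup_nonneg fun i => apply_nonneg _ _
  have hS2 : ∀ b, 0 ≤ ⨆ j, av v (eval z (f b j)) := fun b => Real.iSup_nonneg fun i => apply_nonneg _ _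
  have e2 : (⨆ q : (ι × (β → κ)) × (α → Q), av v (evz I hz hBz
            (pl (X q.1.1) ^ (Fintype.card α + 1) * (∏ b, pl (f b (q.1.2 b))) *
              A2a_G θ fun j => ε.symm (q.2 j)))) ≤
      (⨆ i, av v (z i)) ^ (Fintype.card α + 1) * (∏ b, ⨆ j, av v (eval z (f b j))) *
        ⨆ I', av v (GGz P x z I') := by
    refine ciSup_le fun q => ?_
    simp only [map_mul, map_pow, map_prod, hevG, hpl2, eval_X]
    refine mul_le_mul (mul_le_mul (pow_le_pow_left₀ (apply_nonneg _ _) (le_ciSup hbd1 q.1.1) _)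
      (Finset.prod_le_prod (fun _ _ => apply_nonneg _ _) fun b _ => le_ciSup (hbd2 b) (q.1.2 b))
      (Finset.prod_nonneg fun _ _ => apply_nonneg _ _) (pow_nonneg hS1 _))
      (le_ciSup hbd3 fun j => ε.symm (q.2 j)) (apply_nonneg _ _)
      (mul_nonneg (pow_nonneg hS1 _) (Finset.prod_nonneg fun b _ => hS2 b))
  rw [← e1]
  refine h1.trans ?_
  have hC : C (s₀, fun _ => i₀) v ≤ ∏ p, C p v := by
    rw [← Finset.mul_prod_erase _ _ (Finset.mem_univ ((s₀, fun _ => i₀) : (Option α → ι) × (β → ι)))]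
    refine le_mul_of_one_le_right (zero_le_one.trans (hC1 _ v)) ?_
    rw [← Finset.prod_const_one (s := (Finset.univ : Finset ((Option α → ι) × (β → ι))).erase
      (s₀, fun _ => i₀))]
    exact Finset.prod_le_prod (fun _ _ => zero_le_one) (fun p _ => hC1 p v)
  exact mul_le_mul hC e2 (Real.iSup_nonneg fun q => apply_nonneg _ _)
    (zero_le_one.trans ((hC1 _ v).trans hC))

end Pool.Agent.Lib.MP_17a322_nt.ABN
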