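import Pool.Agent.Lib.MP_17a322_nt.ABN.A2D
import Pool.Agent.Lib.MP_17a322_nt.JAC.B2
import Pool.Agent.Lib.MP_17a322_nt.JAC.B12

universe u

namespace Pool.Agent.Lib.MP_17a322_nt.ABN

open MvPolynomial hiding psum
open Height NumberField
open Pool.Agent.Lib.MP_17a322_nt.EQ
open Pool.Agent.Lib.MP_17a322_nt.JAC

variable {K : Type u} [Field K] [NumberField K] {ι α : Type} [Fintype ι] [Fintype α] [DecidableEq α]

section A2b_aux

variable {L L' : Type*} [CommRing L] [CommRing L']

private theorem A2b_map_NZ {ι' α' : Type*} [Fintype α'] [DecidableEq α'] (Φ : L →+* L') (zz : ι' → L) (τ : α' → ι' → L)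
    (s : Option α' → ι') :
    Φ (Matrix.of fun a b : Option α' => a.elim (zz (s b)) fun l => τ l (s b)).det =
      (Matrix.of fun a b : Option α' => a.elim (Φ (zz (s b))) fun l => Φ (τ l (s b))).det := by
  rw [RingHom.map_det]
  congr 1
  ext i j
  cases i with
  | none => simp
  | some i => simp

private theorem A2b_map_GG {α' : Type*} [Fintype α'] [DecidableEq α'] (Φ : L →+* L') (q : α' → α' → L) :
    Φ (Matrix.of fun k l : α' => q k l).det = (Matrix.of fun k l : α' => Φ (q k l)).det := by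
  rw [RingHom.map_det]
  congr 1

end A2b_aux

omit [Fintype ι] in
/-- The transfer lemma with any finite index type. -/
private theorem A2b_TRB (I : Ideal (MvPolynomial ι K)) [I.IsPrime] {B : MvPolynomial ι K} (hB : B ∉ I)
    {σ : Type*} [Fintype σ] [Nonempty σ] (f : RB I B) (g : σ → RB I B)
    (h : ∀ A : ValuationSubring (FF I), (∀ c : K, algebraMap K (FF I) c ∈ A) →
      ∃ j, A.valuation (emb I hB f) ≤ A.valuation (emb I hB (g j))) :
    ∃ C : Pl K → ℝ, (∀ v, 1 ≤ C v) ∧ {w : FinitePlace K | C (Sum.inr w) ≠ 1}.Finite ∧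
      ∀ (v : Pl K) (z : ι → K) (hz : ∀ H ∈ I, eval z H = 0) (hBz : eval z B ≠ 0),
        av v (evz I hz hBz f) ≤ C v * ⨆ j, av v (evz I hz hBz (g j)) := by
  classical
  have e := Fintype.equivFin σ
  have : Nonempty (Fin (Fintype.card σ)) := ⟨e (Classical.arbitrary σ)⟩
  obtain ⟨C, hC1, hC2, hC3⟩ := TRB I hB f (fun j => g (e.symm j)) (by
    intro A hA
    obtain ⟨j, hj⟩ := h A hA
    exact ⟨e j, by rw [e.symm_apply_apply]; exact hj⟩)
  refine ⟨C, hC1, hC2, fun v z hz hBz => ?_⟩
  have h1 := hC3 v z hz hBz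
  rwa [e.symm.iSup_comp (g := fun j => av v (evz I hz hBz (g j)))] at h1

private theorem A2b_sup {σ σ' : Type*} [Finite σ] [Finite σ'] [Nonempty σ] [Nonempty σ'] (a : σ → ℝ) (b : σ' → ℝ)
    (ha : ∀ i, 0 ≤ a i) (hb : ∀ i, 0 ≤ b i) (n M : ℕ) (c : ℝ) (hc : 0 ≤ c) :
    (⨆ j : σ × σ', (a j.1 ^ n * b j.2) ^ M * c) ≤ ((⨆ i, a i) ^ n * ⨆ i, b i) ^ M * c := by
  refine ciSup_le fun j => ?_
  have h1 : a j.1 ≤ ⨆ i, a i := le_ciSup (Set.finite_range a).bddAbove j.1
  have h2 : b j.2 ≤ ⨆ i, b i := le_ciSup (Set.finite_range b).bddAbove j.2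
  have h3 := ha j.1
  have h4 := hb j.2
  have h5 : 0 ≤ (⨆ i, a i) ^ n := pow_nonneg (h3.trans h1) n
  gcongr

/-- From valuation rings to places, second inequality. -/
theorem place2 (I : Ideal (MvPolynomial ι K)) [I.IsPrime] (x : α → ι) (δ : α → Derivation K (FF I) (FF I))
    (hδ : ∀ l l', δ l (gn I (x l')) = if l = l' then 1 else 0)
    (BN : MvPolynomial ι K) (N : α → ι → MvPolynomial ι K) (hBN : BN ∉ I)
    (hN : ∀ l i, δ l (gn I i) * aeval (gn I) BN = aeval (gn I) (N l i)) (P : Finset (MvPolynomial α K))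
    (hP : ∀ p ∈ P, aeval (fun l => gn I (x l)) p ≠ 0) [Nonempty ι] (M : ℕ)
    (hLe : ∀ A : ValuationSubring (FF I), (∀ c : K, algebraMap K (FF I) c ∈ A) →
      ∃ (k : ι) (b : α → FF I), (∀ j, b j ∈ vals (fun l => gn I (x l)) (P : Set (MvPolynomial α K))) ∧
        ∀ (s : Option α → ι), ∀ p ∈ P,
          A.valuation (NZ (fun l => δ l) (gn I) s ^ M * aeval (fun l => gn I (x l)) p) ≤
            A.valuation ((gn I k ^ (Fintype.card α + 1) * GG (fun l => δ l) b) ^ M) ∧
          A.valuation (NZ (fun l => δ l) (gn I) s ^ M) ≤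
            A.valuation ((gn I k ^ (Fintype.card α + 1) * GG (fun l => δ l) b) ^ M * aeval (fun l => gn I (x l)) p)) :
    ∃ C : Pl K → ℝ, (∀ v, 1 ≤ C v) ∧ {w : FinitePlace K | C (Sum.inr w) ≠ 1}.Finite ∧
      ∀ (v : Pl K) (z : ι → K), (∀ H ∈ I, eval z H = 0) → eval z BN ≠ 0 → (∀ p ∈ P, eval (fun l => z (x l)) p ≠ 0) →
        ∀ p ∈ P,
          (⨆ s, av v (NZz BN N z s)) ^ M * av v (eval (fun l => z (x l)) p) ≤
            C v * ((⨆ i, av v (z i)) ^ (Fintype.card α + 1) * ⨆ I', av v (GGz P x z I')) ^ M ∧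
          (⨆ s, av v (NZz BN N z s)) ^ M ≤
            C v * ((⨆ i, av v (z i)) ^ (Fintype.card α + 1) * ⨆ I', av v (GGz P x z I')) ^ M *
              av v (eval (fun l => z (x l)) p) := by
  classical
  by_cases hPe : P.Nonempty
  swap
  · rw [Finset.not_nonempty_iff_eq_empty] at hPe
    refine ⟨fun _ => 1, fun _ => le_rfl, ?_, ?_⟩
    · have : {w : FinitePlace K | (fun _ : Pl K => (1 : ℝ)) (Sum.inr w) ≠ 1} = ∅ := by
        ext w
        simp
      rw [this]
      exact Set.finite_empty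
    · intro v z _ _ _ p hp
      rw [hPe] at hp
      exact absurd hp (Finset.notMem_empty p)
  obtain ⟨p₀, hp₀⟩ := hPe
  have : Nonempty (α → P) := ⟨fun _ => ⟨p₀, hp₀⟩⟩
  obtain ⟨B, hBdef⟩ : ∃ B : MvPolynomial ι K, B = BN * ∏ p ∈ P, rename x p := ⟨_, rfl⟩
  have hren : ∀ p : MvPolynomial α K, aeval (gn I) (rename x p) = aeval (fun l => gn I (x l)) p := by
    intro p
    rw [aeval_rename]
    rfl
  have hrev : ∀ (z : ι → K) (p : MvPolynomial α K), eval z (rename x p) = eval (fun l => z (x l)) p := by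
    intro z p
    rw [eval_rename]
    rfl
  have hBN' : aeval (gn I) BN ≠ 0 := fun h => hBN ((aeval_gn_eq_zero I BN).1 h)
  have hB : B ∉ I := by
    intro h
    rw [← aeval_gn_eq_zero, hBdef, map_mul, map_prod] at h
    rcases mul_eq_zero.1 h with h | h
    · exact hBN' h
    · obtain ⟨p, hp, hp0⟩ := Finset.prod_eq_zero_iff.1 h
      rw [hren] at hp0
      exact hP p hp hp0
  -- the elements
  have hτ : ∀ l i, ∃ r : RB I B,
      emb I hB r = aeval (gn I) (N l i) / aeval (gn I) BN ∧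
      ∀ (z : ι → K) (hz : ∀ H ∈ I, eval z H = 0) (hBz : eval z B ≠ 0),
        evz I hz hBz r = eval z (N l i) / eval z BN :=
    fun l i => exists_quot I (B₁ := BN) (B₂ := ∏ p ∈ P, rename x p) hBdef hB (N l i)
  choose τ hτ1 hτ2 using hτ
  have hqq : ∀ (p : P) (l : α), ∃ r : RB I B,
      emb I hB r = aeval (gn I) (rename x (pderiv l p.1)) / aeval (gn I) (rename x p.1) ∧
      ∀ (z : ι → K) (hz : ∀ H ∈ I, eval z H = 0) (hBz : eval z B ≠ 0),
        evz I hz hBz r = eval z (rename x (pderiv l p.1)) / eval z (rename x p.1) := by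
    intro p l
    refine exists_quot I (B₁ := rename x p.1) (B₂ := BN * ∏ q ∈ P.erase p.1, rename x q) ?_ hB _
    rw [hBdef, ← Finset.mul_prod_erase P (fun q => rename x q) p.2]
    ring
  choose qq hqq1 hqq2 using hqq
  have hmk : ∀ Q : MvPolynomial ι K, ∃ r : RB I B, emb I hB r = aeval (gn I) Q ∧
      ∀ (z : ι → K) (hz : ∀ H ∈ I, eval z H = 0) (hBz : eval z B ≠ 0), evz I hz hBz r = eval z Q := by
    intro Q
    refine ⟨algebraMap (MvPolynomial ι K ⧸ I) (RB I B) (Ideal.Quotient.mk I Q), emb_mk I hB Q, ?_⟩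
    intro z hz hBz
    rw [evz_mk]
  choose mk hmk1 hmk2 using hmk
  have hδτ : ∀ l i, emb I hB (τ l i) = δ l (gn I i) := by
    intro l i
    rw [hτ1, ← hN, mul_div_cancel_right₀ _ hBN']
  let NZr : (Option α → ι) → RB I B := fun s =>
    (Matrix.of fun a b : Option α => a.elim (mk (X (s b))) fun l => τ l (s b)).det
  let GGr : (α → P) → RB I B := fun I' => (Matrix.of fun k l : α => qq (I' k) l).det
  have hNZ1 : ∀ s, emb I hB (NZr s) = NZ (fun l => δ l) (gn I) s := by
    intro s
    have h1 := A2b_map_NZ (emb I hB : RB I B →+* FF I) (fun i => mk (X i)) τ s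
    refine h1.trans ?_
    unfold NZ
    congr 1
    ext a b
    cases a with
    | none =>
      rw [Matrix.of_apply, Matrix.of_apply, Option.elim_none, Option.elim_none]
      exact (hmk1 _).trans (aeval_X _ _)
    | some l =>
      rw [Matrix.of_apply, Matrix.of_apply, Option.elim_some, Option.elim_some]
      exact hδτ _ _
  have hNZ2 : ∀ (z : ι → K) (hz : ∀ H ∈ I, eval z H = 0) (hBz : eval z B ≠ 0) s,
      evz I hz hBz (NZr s) = NZz BN N z s := by
    intro z hz hBz s
    have h1 := A2b_map_NZ (evz I hz hBz : RB I B →+* K) (fun i => mk (X i)) τ s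
    refine h1.trans ?_
    unfold NZz
    congr 1
    ext a b
    cases a with
    | none =>
      rw [Matrix.of_apply, Matrix.of_apply, Option.elim_none, Option.elim_none]
      exact (hmk2 _ z hz hBz).trans (eval_X _)
    | some l =>
      rw [Matrix.of_apply, Matrix.of_apply, Option.elim_some, Option.elim_some]
      exact hτ2 _ _ z hz hBz
  have hGG1 : ∀ I', emb I hB (GGr I') = GG (fun l => δ l) fun k => aeval (fun l => gn I (x l)) (I' k).1 := by
    intro I'
    have h1 := A2b_map_GG (emb I hB : RB I B →+* FF I) (fun k l => qq (I' k) l)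
    refine h1.trans ?_
    unfold GG
    congr 1
    ext k l
    rw [Matrix.of_apply, Matrix.of_apply]
    show emb I hB (qq (I' k) l) = δ l (aeval (fun l => gn I (x l)) (I' k).1) / aeval (fun l => gn I (x l)) (I' k).1
    rw [B12_deriv δ (fun l => gn I (x l)) hδ]
    refine (hqq1 _ _).trans ?_
    rw [hren, hren]
  have hGG2 : ∀ (z : ι → K) (hz : ∀ H ∈ I, eval z H = 0) (hBz : eval z B ≠ 0) I',
      evz I hz hBz (GGr I') = GGz P x z I' := by
    intro z hz hBz I'
    have h1 := A2b_map_GG (evz I hz hBz : RB I B →+* K) (fun k l => qq (I' k) l)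
    refine h1.trans ?_
    unfold GGz
    congr 1
    ext k l
    rw [Matrix.of_apply, Matrix.of_apply]
    refine (hqq2 _ _ z hz hBz).trans ?_
    rw [hrev, hrev]
  -- the index of the valuation ring
  have hval : ∀ A : ValuationSubring (FF I), (∀ c : K, algebraMap K (FF I) c ∈ A) →
      ∃ j : ι × (α → P), ∀ (s : Option α → ι), ∀ p ∈ P,
        A.valuation (emb I hB (NZr s ^ M * mk (rename x p))) ≤
          A.valuation (emb I hB ((mk (X j.1) ^ (Fintype.card α + 1) * GGr j.2) ^ M)) ∧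
        A.valuation (emb I hB (NZr s ^ M)) ≤
          A.valuation (emb I hB ((mk (X j.1) ^ (Fintype.card α + 1) * GGr j.2) ^ M * mk (rename x p))) := by
    intro A hA
    obtain ⟨k, b, hb, hle⟩ := hLe A hA
    have hb' : ∀ j, ∃ q : P, aeval (fun l => gn I (x l)) q.1 = b j := by
      intro j
      obtain ⟨q, hq, hqb⟩ := hb j
      exact ⟨⟨q, hq⟩, hqb⟩
    choose I' hI' using hb'
    refine ⟨(k, I'), fun s p hp => ?_⟩
    have h1 := hle s p hp
    have h2 : (fun k => aeval (fun l => gn I (x l)) (I' k).1) = b := funext hI'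
    have e1 : emb I hB (mk (rename x p)) = aeval (fun l => gn I (x l)) p := by rw [hmk1, hren]
    have e2 : emb I hB (mk (X k)) = gn I k := by rw [hmk1, aeval_X]
    have e3 : emb I hB (GGr I') = GG (fun l => δ l) b := by rw [hGG1, h2]
    rw [map_mul, map_mul (emb I hB), map_pow (emb I hB) (NZr s), map_pow (emb I hB) (_ * _), map_mul (emb I hB),
      map_pow (emb I hB) (mk (X k)), hNZ1, e1, e2, e3]
    exact h1
  have key1 : ∀ sp : (Option α → ι) × P, ∃ C : Pl K → ℝ, (∀ v, 1 ≤ C v) ∧ {w : FinitePlace K | C (Sum.inr w) ≠ 1}.Finite ∧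
      ∀ (v : Pl K) (z : ι → K) (hz : ∀ H ∈ I, eval z H = 0) (hBz : eval z B ≠ 0),
        av v (evz I hz hBz (NZr sp.1 ^ M * mk (rename x sp.2.1))) ≤
          C v * ⨆ j : ι × (α → P), av v (evz I hz hBz ((mk (X j.1) ^ (Fintype.card α + 1) * GGr j.2) ^ M)) := by
    intro sp
    refine A2b_TRB I hB _ _ fun A hA => ?_
    obtain ⟨j, hj⟩ := hval A hA
    exact ⟨j, (hj sp.1 sp.2.1 sp.2.2).1⟩
  have key2 : ∀ sp : (Option α → ι) × P, ∃ C : Pl K → ℝ, (∀ v, 1 ≤ C v) ∧ {w : FinitePlace K | C (Sum.inr w) ≠ 1}.Finite ∧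
      ∀ (v : Pl K) (z : ι → K) (hz : ∀ H ∈ I, eval z H = 0) (hBz : eval z B ≠ 0),
        av v (evz I hz hBz (NZr sp.1 ^ M)) ≤
          C v * ⨆ j : ι × (α → P), av v (evz I hz hBz ((mk (X j.1) ^ (Fintype.card α + 1) * GGr j.2) ^ M *
            mk (rename x sp.2.1))) := by
    intro sp
    refine A2b_TRB I hB _ _ fun A hA => ?_
    obtain ⟨j, hj⟩ := hval A hA
    exact ⟨j, (hj sp.1 sp.2.1 sp.2.2).2⟩
  choose C1 hC11 hC12 hC13 using key1
  choose C2 hC21 hC22 hC23 using key2
  have hprod1 : ∀ v, 1 ≤ ∏ sp, C1 sp v := fun v => by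
    rw [← Finset.prod_const_one (s := (Finset.univ : Finset ((Option α → ι) × P)))]
    exact Finset.prod_le_prod (fun _ _ => zero_le_one) (fun p _ => hC11 p v)
  have hprod2 : ∀ v, 1 ≤ ∏ sp, C2 sp v := fun v => by
    rw [← Finset.prod_const_one (s := (Finset.univ : Finset ((Option α → ι) × P)))]
    exact Finset.prod_le_prod (fun _ _ => zero_le_one) (fun p _ => hC21 p v)
  have hone : ∀ (C : (Option α → ι) × P → Pl K → ℝ), (∀ sp v, 1 ≤ C sp v) → ∀ sp v, C sp v ≤ ∏ sp, C sp v := by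
    intro C hC sp v
    rw [← Finset.mul_prod_erase Finset.univ (fun sp => C sp v) (Finset.mem_univ sp)]
    have h1 : 1 ≤ ∏ sp' ∈ Finset.univ.erase sp, C sp' v := by
      rw [← Finset.prod_const_one (s := (Finset.univ.erase sp : Finset ((Option α → ι) × P)))]
      exact Finset.prod_le_prod (fun _ _ => zero_le_one) (fun p _ => hC p v)
    exact le_mul_of_one_le_right (zero_le_one.trans (hC sp v)) h1
  have hfin : ∀ (C : (Option α → ι) × P → Pl K → ℝ), (∀ sp, {w : FinitePlace K | C sp (Sum.inr w) ≠ 1}.Finite) →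
      {w : FinitePlace K | ∏ sp, C sp (Sum.inr w) ≠ 1}.Finite := by
    intro C hC
    refine (Set.finite_iUnion hC).subset ?_
    intro w' hw'
    simp only [Set.mem_ofPred_eq] at hw'
    rw [Set.mem_iUnion]
    by_contra hcon
    push Not at hcon
    apply hw'
    refine Finset.prod_eq_one fun p _ => ?_
    by_contra h1
    exact hcon p h1
  refine ⟨fun v => (∏ sp, C1 sp v) * ∏ sp, C2 sp v, fun v => one_le_mul_of_one_le_of_one_le (hprod1 v) (hprod2 v), ?_, ?_⟩
  · refine ((hfin C1 hC12).union (hfin C2 hC22)).subset ?_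
    intro w' hw'
    simp only [Set.mem_ofPred_eq] at hw'
    by_contra hcon
    simp only [Set.mem_union, Set.mem_ofPred_eq, not_or, not_not] at hcon
    apply hw'
    rw [hcon.1, hcon.2, mul_one]
  · intro v z hz hBNz hPz p hp
    have hBz : eval z B ≠ 0 := by
      rw [hBdef, map_mul, map_prod]
      refine mul_ne_zero hBNz (Finset.prod_ne_zero_iff.2 fun q hq => ?_)
      rw [hrev]
      exact hPz q hq
    have hb : ∀ s, av v (NZz BN N z s) ≤ ⨆ s, av v (NZz BN N z s) := fun s =>
      le_ciSup (Set.finite_range fun s => av v (NZz BN N z s)).bddAbove s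
    obtain ⟨s, hs⟩ := exists_eq_ciSup_of_finite (f := fun s => av v (NZz BN N z s))
    have hS0 : 0 ≤ ((⨆ i, av v (z i)) ^ (Fintype.card α + 1) * ⨆ I', av v (GGz P x z I')) ^ M := by
      refine pow_nonneg (mul_nonneg (pow_nonneg (Real.iSup_nonneg fun i => (av v).nonneg _) _)
        (Real.iSup_nonneg fun i => (av v).nonneg _)) _
    have hg : ∀ j : ι × (α → P), evz I hz hBz ((mk (X j.1) ^ (Fintype.card α + 1) * GGr j.2) ^ M) =
        (z j.1 ^ (Fintype.card α + 1) * GGz P x z j.2) ^ M := by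
      intro j
      rw [map_pow, map_mul, map_pow, hmk2, eval_X, hGG2]
    have hpz : evz I hz hBz (mk (rename x p)) = eval (fun l => z (x l)) p := by
      rw [hmk2, hrev]
    constructor
    · have h1 := hC13 (s, ⟨p, hp⟩) v z hz hBz
      rw [map_mul, map_pow, hNZ2, hpz, map_mul, map_pow] at h1
      rw [← hs]
      refine h1.trans ?_
      have h2 : (⨆ j : ι × (α → P), av v (evz I hz hBz ((mk (X j.1) ^ (Fintype.card α + 1) * GGr j.2) ^ M))) ≤
          ((⨆ i, av v (z i)) ^ (Fintype.card α + 1) * ⨆ I', av v (GGz P x z I')) ^ M := by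
        have h3 := A2b_sup (fun i => av v (z i)) (fun I' => av v (GGz P x z I')) (fun i => (av v).nonneg _)
          (fun i => (av v).nonneg _) (Fintype.card α + 1) M 1 zero_le_one
        rw [mul_one] at h3
        refine le_trans (le_of_eq ?_) h3
        refine iSup_congr fun j => ?_
        rw [hg, map_pow, map_mul, map_pow, mul_one]
      refine mul_le_mul ?_ h2 (Real.iSup_nonneg fun i => (av v).nonneg _)
        (zero_le_one.trans (one_le_mul_of_one_le_of_one_le (hprod1 v) (hprod2 v)))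
      exact (hone C1 hC11 _ v).trans (le_mul_of_one_le_right (zero_le_one.trans (hprod1 v)) (hprod2 v))
    · have h1 := hC23 (s, ⟨p, hp⟩) v z hz hBz
      rw [map_pow, hNZ2, map_pow] at h1
      rw [← hs, mul_assoc]
      refine h1.trans ?_
      have h2 : (⨆ j : ι × (α → P), av v (evz I hz hBz ((mk (X j.1) ^ (Fintype.card α + 1) * GGr j.2) ^ M *
          mk (rename x p)))) ≤
          ((⨆ i, av v (z i)) ^ (Fintype.card α + 1) * ⨆ I', av v (GGz P x z I')) ^ M *
            av v (eval (fun l => z (x l)) p) := by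
        have h3 := A2b_sup (fun i => av v (z i)) (fun I' => av v (GGz P x z I')) (fun i => (av v).nonneg _)
          (fun i => (av v).nonneg _) (Fintype.card α + 1) M (av v (eval (fun l => z (x l)) p)) ((av v).nonneg _)
        refine le_trans (le_of_eq ?_) h3
        refine iSup_congr fun j => ?_
        rw [map_mul, hg, hpz, map_mul, map_pow, map_mul, map_pow]
      refine mul_le_mul ?_ h2 (Real.iSup_nonneg fun i => (av v).nonneg _)
        (zero_le_one.trans (one_le_mul_of_one_le_of_one_le (hprod1 v) (hprod2 v)))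
      exact (hone C2 hC21 _ v).trans (le_mul_of_one_le_left (zero_le_one.trans (hprod2 v)) (hprod1 v))

end Pool.Agent.Lib.MP_17a322_nt.ABN
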