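import Pool.Agent.Lib.MP_17a322_nt.EQ.Q2

universe u

namespace Pool.Agent.Lib.MP_17a322_nt.ABN

open Height NumberField
open Pool.Agent.Lib.MP_17a322_nt.EQ

section

variable {K : Type u} [Field K] [NumberField K]

open Classical in
/-- The indicator of a set of finite places times `log q`. -/
noncomputable def A4_ind (P : FinitePlace K → Prop) (v : Pl K) : ℝ :=
  match v with
  | Sum.inl _ => 0
  | Sum.inr w => if P w then Real.log (qv w) else 0

theorem A4_ind_pos {P : FinitePlace K → Prop} {w : FinitePlace K} (h : P w) :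
    A4_ind P (Sum.inr w) = Real.log (qv w) :=
  if_pos h

theorem A4_ind_neg {P : FinitePlace K → Prop} {w : FinitePlace K} (h : ¬ P w) :
    A4_ind P (Sum.inr w) = 0 :=
  if_neg h

theorem A4_ind_nonneg (P : FinitePlace K → Prop) (v : Pl K) : 0 ≤ A4_ind P v := by
  rcases v with w | w
  · exact le_rfl
  · by_cases h : P w
    · rw [A4_ind_pos h]
      exact (Real.log_pos (one_lt_qv w)).le
    · rw [A4_ind_neg h]

theorem A4_ind_le (P : FinitePlace K → Prop) (w : FinitePlace K) :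
    A4_ind P (Sum.inr w) ≤ Real.log (qv w) := by
  by_cases h : P w
  · rw [A4_ind_pos h]
  · rw [A4_ind_neg h]
    exact (Real.log_pos (one_lt_qv w)).le

theorem A4_psum_ind (P : FinitePlace K → Prop) : EQ.psum (A4_ind P) =
    ∑ᶠ v ∈ {v : FinitePlace K | P v}, Real.log (Ideal.absNorm v.maximalIdeal.asIdeal) := by
  unfold EQ.psum
  rw [finsum_mem_def]
  simp only [A4_ind, mul_zero, Finset.sum_const_zero, zero_add]
  refine finsum_congr fun w => ?_
  by_cases h : P w
  · have h' : w ∈ {v : FinitePlace K | P v} := h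
    rw [if_pos h, Set.indicator_of_mem h']
    rfl
  · have h' : w ∉ {v : FinitePlace K | P v} := h
    rw [if_neg h, Set.indicator_of_notMem h']

theorem A4_FS_ind {P : FinitePlace K → Prop} (h : {w | P w}.Finite) : FS (A4_ind P) := by
  refine h.subset fun w hw => ?_
  by_contra hc
  exact hw (A4_ind_neg hc)

/-- The logarithm of a supremum at a finite place is a multiple of `log q`. -/
theorem A4_sup_int (w : FinitePlace K) {ι : Type} [Finite ι] {x : ι → K} (hx : x ≠ 0) :
    ∃ k : ℤ, Real.log (⨆ i, av (Sum.inr w : Pl K) (x i)) = k * Real.log (qv w) := by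
  obtain ⟨i, hi, hs⟩ := hl_attained w.val hx
  obtain ⟨k, hk⟩ := hb_zpow w hi
  refine ⟨k, ?_⟩
  change Real.log (⨆ i, w.val (x i)) = _
  rw [hs, hk, Real.log_zpow]

/-- The difference of the two sides at the place `v`. -/
noncomputable def A4_gam {ι Λ β κ ν : Type} [Fintype β] (n e : ℕ) (a : Λ → K) (z : ι → K)
    (fb : β → κ → K) (g : ν → K) (v : Pl K) : ℝ :=
  Real.log (⨆ s, av v (a s)) + (e * Fintype.card β : ℝ) * Real.log (⨆ i, av v (z i)) +
    (-((n : ℝ) + 1)) * Real.log (⨆ i, av v (z i)) +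
    (-1) * (∑ b, Real.log (⨆ j, av v (fb b j))) + (-1) * Real.log (⨆ k, av v (g k))

theorem A4_gam_int (w : FinitePlace K) {ι Λ β κ ν : Type} [Finite ι] [Finite Λ] [Fintype β]
    [Finite κ] [Finite ν] (n e : ℕ) {a : Λ → K} {z : ι → K} {fb : β → κ → K} {g : ν → K}
    (ha : a ≠ 0) (hz : z ≠ 0) (hf : ∀ b, fb b ≠ 0) (hg : g ≠ 0) :
    ∃ k : ℤ, A4_gam n e a z fb g (Sum.inr w) = k * Real.log (qv w) := by
  obtain ⟨ka, hka⟩ := A4_sup_int w ha
  obtain ⟨kz, hkz⟩ := A4_sup_int w hz
  obtain ⟨kg, hkg⟩ := A4_sup_int w hg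
  choose kb hkb using fun b => A4_sup_int w (hf b)
  refine ⟨ka + e * Fintype.card β * kz + (-((n : ℤ) + 1)) * kz + (-1) * (∑ b, kb b) + (-1) * kg, ?_⟩
  unfold A4_gam
  rw [hka, hkz, hkg]
  simp only [hkb]
  rw [← Finset.sum_mul]
  push_cast
  ring

/-- The inequality at one place. -/
theorem A4_place {ι Λ β κ ν π : Type} [Finite ι] [Finite Λ] [Fintype β] [Finite κ]
    [Finite ν] [Finite π] (S : Finset (FinitePlace K)) (n e M : ℕ) (hM : 0 < M) (C C' : Pl K → ℝ)
    (hC : ∀ v, 1 ≤ C v) (hC' : ∀ v, 1 ≤ C' v) {a : Λ → K} {z : ι → K} {fb : β → κ → K}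
    {g : ν → K} {p : π → K} (ha : a ≠ 0) (hz : z ≠ 0) (hf : ∀ b, fb b ≠ 0) (hg : g ≠ 0)
    (hp : ∀ j, p j ≠ 0) (v : Pl K)
    (h1 : (⨆ s, av v (a s)) * (⨆ i, av v (z i)) ^ (e * Fintype.card β) ≤
        C v * ((⨆ i, av v (z i)) ^ (n + 1) * (∏ b, ⨆ j, av v (fb b j)) * ⨆ k, av v (g k)))
    (h2 : ∀ j, (⨆ s, av v (a s)) ^ M * av v (p j) ≤
        C' v * ((⨆ i, av v (z i)) ^ (n + 1) * ⨆ k, av v (g k)) ^ M ∧
        (⨆ s, av v (a s)) ^ M ≤
          C' v * ((⨆ i, av v (z i)) ^ (n + 1) * ⨆ k, av v (g k)) ^ M * av v (p j)) :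
    A4_gam n e a z fb g v + A4_ind (fun w => ∃ j, w (p j) ≠ 1) v ≤
      A4_ind (fun w => w ∉ S ∧ ∃ b, 0 < e * Real.log (⨆ i, w (z i)) -
        Real.log (⨆ j, w (fb b j))) v +
      (Real.log (C v) +
        A4_ind (fun w => w ∈ S ∨ C (Sum.inr w) ≠ 1 ∨ C' (Sum.inr w) ≠ 1) v) := by
  have hA : 0 < ⨆ s, av v (a s) := hl_pos (av v) ha
  have hZ : 0 < ⨆ i, av v (z i) := hl_pos (av v) hz
  have hF : ∀ b, 0 < ⨆ j, av v (fb b j) := fun b => hl_pos (av v) (hf b)
  have hG : 0 < ⨆ k, av v (g k) := hl_pos (av v) hg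
  have hCv : 0 < C v := lt_of_lt_of_le one_pos (hC v)
  have hCv' : 0 < C' v := lt_of_lt_of_le one_pos (hC' v)
  have hprod : 0 < ∏ b, ⨆ j, av v (fb b j) := Finset.prod_pos fun b _ => hF b
  have hgam : A4_gam n e a z fb g v ≤ Real.log (C v) := by
    have h3 := Real.log_le_log (by positivity) h1
    rw [Real.log_mul hA.ne' (by positivity), Real.log_mul hCv.ne' (by positivity),
      Real.log_mul (by positivity) hG.ne', Real.log_mul (by positivity) hprod.ne',
      Real.log_pow, Real.log_pow, Real.log_prod (fun b _ => (hF b).ne')] at h3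
    unfold A4_gam
    push_cast at h3
    linarith
  rcases v with w | w
  · have e1 : ∀ P : FinitePlace K → Prop, A4_ind P (Sum.inl w) = 0 := fun _ => rfl
    rw [e1, e1, e1]
    linarith
  · by_cases hbad : w ∈ S ∨ C (Sum.inr w) ≠ 1 ∨ C' (Sum.inr w) ≠ 1
    · have e1 : A4_ind (fun w => w ∈ S ∨ C (Sum.inr w) ≠ 1 ∨ C' (Sum.inr w) ≠ 1) (Sum.inr w) =
          Real.log (qv w) := A4_ind_pos (P := fun w => w ∈ S ∨ C (Sum.inr w) ≠ 1 ∨
            C' (Sum.inr w) ≠ 1) hbad
      rw [e1]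
      have h3 := A4_ind_le (fun w => ∃ j, w (p j) ≠ 1) w
      have h4 := A4_ind_nonneg (fun w => w ∉ S ∧ ∃ b, 0 < e * Real.log (⨆ i, w (z i)) -
        Real.log (⨆ j, w (fb b j))) (Sum.inr w)
      linarith
    · have e1 : A4_ind (fun w => w ∈ S ∨ C (Sum.inr w) ≠ 1 ∨ C' (Sum.inr w) ≠ 1) (Sum.inr w) =
          0 := A4_ind_neg (P := fun w => w ∈ S ∨ C (Sum.inr w) ≠ 1 ∨
            C' (Sum.inr w) ≠ 1) hbad
      rw [e1]
      push Not at hbad
      obtain ⟨hS, hC1, hC1'⟩ := hbad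
      rw [hC1, Real.log_one] at hgam
      rw [hC1, Real.log_one]
      have h4 := A4_ind_nonneg (fun w => w ∉ S ∧ ∃ b, 0 < e * Real.log (⨆ i, w (z i)) -
        Real.log (⨆ j, w (fb b j))) (Sum.inr w)
      by_cases hR : ∃ j, w (p j) ≠ 1
      · have e2 : A4_ind (fun w => ∃ j, w (p j) ≠ 1) (Sum.inr w) = Real.log (qv w) :=
          A4_ind_pos (P := fun w => ∃ j, w (p j) ≠ 1) hR
        rw [e2]
        by_cases hB : ∃ b, 0 < e * Real.log (⨆ i, w (z i)) - Real.log (⨆ j, w (fb b j))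
        · have e3 : A4_ind (fun w => w ∉ S ∧ ∃ b, 0 < e * Real.log (⨆ i, w (z i)) -
              Real.log (⨆ j, w (fb b j))) (Sum.inr w) = Real.log (qv w) :=
            A4_ind_pos (P := fun w => w ∉ S ∧ ∃ b, 0 < e * Real.log (⨆ i, w (z i)) -
              Real.log (⨆ j, w (fb b j))) ⟨hS, hB⟩
          rw [e3]
          linarith
        · push Not at hB
          have hB' : ∀ b, (e : ℝ) * Real.log (⨆ i, av (Sum.inr w : Pl K) (z i)) -
              Real.log (⨆ j, av (Sum.inr w : Pl K) (fb b j)) ≤ 0 := fun b => hB b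
          obtain ⟨j, hj⟩ := hR
          have hpj : 0 < av (Sum.inr w : Pl K) (p j) := (av (Sum.inr w : Pl K)).pos (hp j)
          have hlogp : Real.log (av (Sum.inr w : Pl K) (p j)) ≠ 0 := by
            intro h0
            rcases Real.log_eq_zero.1 h0 with h | h | h
            · rw [h] at hpj
              exact lt_irrefl _ hpj
            · exact hj h
            · rw [h] at hpj
              linarith
          have hMpos : (0 : ℝ) < M := by exact_mod_cast hM
          obtain ⟨h5, h6⟩ := h2 j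
          rw [hC1', one_mul] at h5 h6
          have h7 := Real.log_le_log (by positivity) h5
          have h8 := Real.log_le_log (by positivity) h6
          rw [Real.log_mul (by positivity) hpj.ne', Real.log_pow, Real.log_pow,
            Real.log_mul (by positivity) hG.ne', Real.log_pow] at h7
          rw [Real.log_mul (by positivity) hpj.ne', Real.log_pow, Real.log_pow,
            Real.log_mul (by positivity) hG.ne', Real.log_pow] at h8
          have hrho : Real.log (⨆ s, av (Sum.inr w : Pl K) (a s)) -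
              (((n + 1 : ℕ) : ℝ) * Real.log (⨆ i, av (Sum.inr w : Pl K) (z i)) +
                Real.log (⨆ k, av (Sum.inr w : Pl K) (g k))) < 0 := by
            by_contra hcon
            push Not at hcon
            have h9 := mul_nonneg hMpos.le hcon
            rcases lt_or_gt_of_ne hlogp with h10 | h10
            · linarith
            · linarith
          have hsum : ∑ b, ((e : ℝ) * Real.log (⨆ i, av (Sum.inr w : Pl K) (z i)) -
              Real.log (⨆ j, av (Sum.inr w : Pl K) (fb b j))) ≤ 0 :=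
            Finset.sum_nonpos fun b _ => hB' b
          rw [Finset.sum_sub_distrib, Finset.sum_const, Finset.card_univ, nsmul_eq_mul] at hsum
          have hneg : A4_gam n e a z fb g (Sum.inr w) < 0 := by
            unfold A4_gam
            push_cast at hrho
            linarith
          obtain ⟨k, hk⟩ := A4_gam_int w n e ha hz hf hg
          have hlog : 0 < Real.log (qv w) := Real.log_pos (one_lt_qv w)
          rw [hk] at hneg ⊢
          have h9 : (k : ℝ) < 0 := by
            by_contra hcon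
            push Not at hcon
            exact absurd hneg (not_lt.2 (mul_nonneg hcon hlog.le))
          have h10 : k ≤ -1 := by
            have : k < 0 := by exact_mod_cast h9
            omega
          have h11 : (k : ℝ) ≤ -1 := by exact_mod_cast h10
          nlinarith
      · have e2 : A4_ind (fun w => ∃ j, w (p j) ≠ 1) (Sum.inr w) = 0 :=
          A4_ind_neg (P := fun w => ∃ j, w (p j) ≠ 1) hR
        rw [e2]
        linarith

end

/-- The sum over all places of the local inequalities. -/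
theorem sum_ineq {K : Type u} [Field K] [NumberField K] {ι Λ β κ ν π : Type} [Finite ι] [Finite Λ] [Fintype β] [Finite κ]
    [Finite ν] [Finite π] (S : Finset (FinitePlace K)) (n e M : ℕ) (hM : 0 < M) (C C' : Pl K → ℝ) (hC : ∀ v, 1 ≤ C v)
    (hCf : {w : FinitePlace K | C (Sum.inr w) ≠ 1}.Finite) (hC' : ∀ v, 1 ≤ C' v)
    (hCf' : {w : FinitePlace K | C' (Sum.inr w) ≠ 1}.Finite) :
    ∃ C₀ : ℝ, ∀ (a : Λ → K) (z : ι → K) (fb : β → κ → K) (g : ν → K) (p : π → K), a ≠ 0 → z ≠ 0 → (∀ b, fb b ≠ 0) → g ≠ 0 →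
      (∀ j, p j ≠ 0) →
      (∀ v, (⨆ s, av v (a s)) * (⨆ i, av v (z i)) ^ (e * Fintype.card β) ≤
        C v * ((⨆ i, av v (z i)) ^ (n + 1) * (∏ b, ⨆ j, av v (fb b j)) * ⨆ k, av v (g k))) →
      (∀ v j, (⨆ s, av v (a s)) ^ M * av v (p j) ≤ C' v * ((⨆ i, av v (z i)) ^ (n + 1) * ⨆ k, av v (g k)) ^ M ∧
        (⨆ s, av v (a s)) ^ M ≤ C' v * ((⨆ i, av v (z i)) ^ (n + 1) * ⨆ k, av v (g k)) ^ M * av v (p j)) →
      logHeight a - (n + 1) * logHeight z + ∑ b, (e * logHeight z - logHeight (fb b)) +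
          (∑ᶠ v ∈ {v : FinitePlace K | ∃ j, v (p j) ≠ 1}, Real.log (Ideal.absNorm v.maximalIdeal.asIdeal)) ≤
        (∑ᶠ v ∈ {v : FinitePlace K | v ∉ S ∧ ∃ b, 0 < e * Real.log (⨆ i, v (z i)) - Real.log (⨆ j, v (fb b j))},
          Real.log (Ideal.absNorm v.maximalIdeal.asIdeal)) + logHeight g + C₀ := by
  have fC : FS fun v : Pl K => Real.log (C v) := by
    refine hCf.subset fun w hw h => hw ?_
    have h' : C (Sum.inr w) = 1 := h
    simp only [h', Real.log_one]
  have fP3 : FS (A4_ind fun w : FinitePlace K => w ∈ S ∨ C (Sum.inr w) ≠ 1 ∨ C' (Sum.inr w) ≠ 1) := by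
    refine A4_FS_ind ?_
    exact S.finite_toSet.union (hCf.union hCf')
  refine ⟨EQ.psum fun v : Pl K => Real.log (C v) +
    A4_ind (fun w => w ∈ S ∨ C (Sum.inr w) ≠ 1 ∨ C' (Sum.inr w) ≠ 1) v, ?_⟩
  intro a z fb g p ha hz hf hg hp h1 h2
  have fA : FS fun v : Pl K => Real.log (⨆ s, av v (a s)) := hl_fs_sup ha
  have fZ : FS fun v : Pl K => Real.log (⨆ i, av v (z i)) := hl_fs_sup hz
  have fF : ∀ b, FS fun v : Pl K => Real.log (⨆ j, av v (fb b j)) := fun b => hl_fs_sup (hf b)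
  have fG : FS fun v : Pl K => Real.log (⨆ k, av v (g k)) := hl_fs_sup hg
  have fFs : FS fun v : Pl K => ∑ b, Real.log (⨆ j, av v (fb b j)) :=
    hs_fs_sum Finset.univ (fun b v => Real.log (⨆ j, av v (fb b j))) fun b _ => fF b
  have g1 : FS fun v : Pl K => Real.log (⨆ s, av v (a s)) +
      (e * Fintype.card β : ℝ) * Real.log (⨆ i, av v (z i)) := hs_fs_add fA (hs_fs_mul _ fZ)
  have g2 : FS fun v : Pl K => Real.log (⨆ s, av v (a s)) +
      (e * Fintype.card β : ℝ) * Real.log (⨆ i, av v (z i)) +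
      (-((n : ℝ) + 1)) * Real.log (⨆ i, av v (z i)) := hs_fs_add g1 (hs_fs_mul _ fZ)
  have g3 : FS fun v : Pl K => Real.log (⨆ s, av v (a s)) +
      (e * Fintype.card β : ℝ) * Real.log (⨆ i, av v (z i)) +
      (-((n : ℝ) + 1)) * Real.log (⨆ i, av v (z i)) +
      (-1) * (∑ b, Real.log (⨆ j, av v (fb b j))) := hs_fs_add g2 (hs_fs_mul _ fFs)
  have fgam : FS (A4_gam n e a z fb g) := hs_fs_add g3 (hs_fs_mul _ fG)
  have fR1 : FS (A4_ind fun w : FinitePlace K => ∃ j, w (p j) ≠ 1) := by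
    refine hs_fs_of (fun j v => Real.log (av v (p j))) (fun j => hl_fs_abs (hp j)) _
      fun w hw => A4_ind_neg ?_
    rintro ⟨j, hj⟩
    have h3 : Real.log (w (p j)) = 0 := hw j
    have h4 : 0 < w (p j) := w.val.pos (hp j)
    rcases Real.log_eq_zero.1 h3 with h5 | h5 | h5
    · rw [h5] at h4
      exact lt_irrefl _ h4
    · exact hj h5
    · rw [h5] at h4
      linarith
  have fR2 : FS (A4_ind fun w : FinitePlace K => w ∉ S ∧ ∃ b, 0 < e * Real.log (⨆ i, w (z i)) -
      Real.log (⨆ j, w (fb b j))) := by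
    refine hs_fs_of (fun (b : Option β) v => b.elim (Real.log (⨆ i, av v (z i)))
      fun b => Real.log (⨆ j, av v (fb b j))) ?_ _ fun w hw => A4_ind_neg ?_
    · rintro (_ | b)
      · exact fZ
      · exact fF b
    · rintro ⟨_, b, hb⟩
      have h3 : Real.log (⨆ i, w (z i)) = 0 := hw none
      have h4 : Real.log (⨆ j, w (fb b j)) = 0 := hw (some b)
      rw [h3, h4] at hb
      simp at hb
  have key := hs_mono (hs_fs_add fgam fR1) (hs_fs_add fR2 (hs_fs_add fC fP3)) fun v =>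
    A4_place S n e M hM C C' hC hC' ha hz hf hg hp v (h1 v) (h2 v)
  rw [hs_add fgam fR1, hs_add fR2 (hs_fs_add fC fP3)] at key
  have hgam : EQ.psum (A4_gam n e a z fb g) = logHeight a + (e * Fintype.card β : ℝ) * logHeight z +
      (-((n : ℝ) + 1)) * logHeight z + (-1) * (∑ b, logHeight (fb b)) + (-1) * logHeight g := by
    have e0 : EQ.psum (A4_gam n e a z fb g) = EQ.psum (fun v : Pl K =>
      (Real.log (⨆ s, av v (a s)) +
      (e * Fintype.card β : ℝ) * Real.log (⨆ i, av v (z i)) +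
      (-((n : ℝ) + 1)) * Real.log (⨆ i, av v (z i)) +
      (-1) * (∑ b, Real.log (⨆ j, av v (fb b j)))) + (-1) * Real.log (⨆ k, av v (g k))) := rfl
    rw [e0, hs_add g3 (hs_fs_mul _ fG), hs_add g2 (hs_fs_mul _ fFs), hs_add g1 (hs_fs_mul _ fZ),
      hs_add fA (hs_fs_mul _ fZ), hs_mul, hs_mul, hs_mul, hs_mul,
      hs_sum Finset.univ (fun b v => Real.log (⨆ j, av v (fb b j))) fun b _ => fF b,
      hl_psum_sup ha, hl_psum_sup hz, hl_psum_sup hg]
    simp only [hl_psum_sup (hf _)]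
  rw [hgam, A4_psum_ind, A4_psum_ind] at key
  rw [Finset.sum_sub_distrib, Finset.sum_const, Finset.card_univ, nsmul_eq_mul]
  linarith

end Pool.Agent.Lib.MP_17a322_nt.ABN
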