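import Pool.Agent.Lib.MP_17a322_nt.ABN.N0

universe u

namespace Pool.Agent.Lib.MP_17a322_nt.ABN

open MvPolynomial
open Pool.Agent.Lib.MP_17a322_nt.JAC

variable {K F α : Type*} [Field K] [Field F] [Algebra K F] [Fintype α] [DecidableEq α]

/-- The elements of `F0` are quotients of values of polynomials. -/
theorem mem_F0 (x : α → F) (b : F) (hb : b ∈ F0 K x) :
    ∃ p q : MvPolynomial α K, aeval x q ≠ 0 ∧ b = aeval x p / aeval x q := by
  unfold F0 at hb
  induction hb using Subfield.closure_induction with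
  | mem y hy =>
    rcases hy with ⟨c, rfl⟩ | ⟨l, rfl⟩
    · exact ⟨C c, 1, by rw [map_one]; exact one_ne_zero, by rw [map_one, div_one, aeval_C]⟩
    · exact ⟨X l, 1, by rw [map_one]; exact one_ne_zero, by rw [map_one, div_one, aeval_X]⟩
  | one => exact ⟨1, 1, by rw [map_one]; exact one_ne_zero, by rw [map_one, div_one]⟩
  | add y z _ _ hy hz =>
    obtain ⟨p, q, hq, rfl⟩ := hy
    obtain ⟨p', q', hq', rfl⟩ := hz
    refine ⟨p * q' + q * p', q * q', by rw [map_mul]; exact mul_ne_zero hq hq', ?_⟩
    rw [map_add, map_mul, map_mul, map_mul, div_add_div _ _ hq hq']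
  | neg y _ hy =>
    obtain ⟨p, q, hq, rfl⟩ := hy
    exact ⟨-p, q, hq, by rw [map_neg, neg_div]⟩
  | inv y _ hy =>
    obtain ⟨p, q, hq, rfl⟩ := hy
    by_cases hp : aeval x p = 0
    · exact ⟨0, 1, by rw [map_one]; exact one_ne_zero, by rw [hp, zero_div, inv_zero, map_zero, zero_div]⟩
    · exact ⟨q, p, hp, by rw [inv_div]⟩
  | mul y z _ _ hy hz =>
    obtain ⟨p, q, hq, rfl⟩ := hy
    obtain ⟨p', q', hq', rfl⟩ := hz
    refine ⟨p * p', q * q', by rw [map_mul]; exact mul_ne_zero hq hq', ?_⟩
    rw [map_mul, map_mul, div_mul_div_comm]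

private theorem N6_upd (δ : α → F → F) (c : α → F) (k : α) (P : F) :
    GG δ (Function.update c k P) =
      ((Matrix.of fun k l => δ l (c k) / c k).updateRow k fun l => δ l P / P).det := by
  unfold GG
  congr 1
  ext i l
  rw [Matrix.of_apply, Matrix.updateRow_apply]
  by_cases hi : i = k
  · rw [hi, Function.update_self, if_pos rfl]
  · rw [Function.update_of_ne hi, if_neg hi, Matrix.of_apply]

private theorem N6_step (δ : α → Derivation K F F) (A : ValuationSubring F) (c : α → F) (k : α) (P Q : F)
    (hP : P ≠ 0) (hQ : Q ≠ 0) (hc : c k = P / Q) :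
    A.valuation (GG (fun l => δ l) c) ≤ A.valuation (GG (fun l => δ l) (Function.update c k P)) ∨
      A.valuation (GG (fun l => δ l) c) ≤ A.valuation (GG (fun l => δ l) (Function.update c k Q)) := by
  have h1 : GG (fun l => δ l) c =
      GG (fun l => δ l) (Function.update c k P) - GG (fun l => δ l) (Function.update c k Q) := by
    have h2 : GG (fun l => δ l) c = GG (fun l => δ l) (Function.update c k (c k)) := by
      rw [Function.update_eq_self]
    rw [h2, N6_upd, N6_upd, N6_upd]
    have h3 : (fun l => δ l (c k) / c k) = (fun l => δ l P / P) + (-1 : F) • fun l => δ l Q / Q := by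
      funext l
      rw [Pi.add_apply, Pi.smul_apply, smul_eq_mul, hc, Derivation.leibniz_div]
      rw [smul_eq_mul, smul_eq_mul, smul_eq_mul]
      field_simp
      ring
    rw [h3, Matrix.det_updateRow_add, Matrix.det_updateRow_smul]
    ring
  rw [h1]
  exact le_max_iff.1 (A.valuation.map_sub _ _)

/-- From elements of `F0` to values of polynomials. -/
theorem to_poly (x : α → F) (δ : α → Derivation K F F) (A : ValuationSubring F) (b : α → F)
    (hb : ∀ k, b k ∈ F0 K x ∧ b k ≠ 0) :
    ∃ p : α → MvPolynomial α K, (∀ k, p k ≠ 0 ∧ aeval x (p k) ≠ 0) ∧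
      A.valuation (GG (fun l => δ l) b) ≤ A.valuation (GG (fun l => δ l) fun k => aeval x (p k)) := by
  have key : ∀ s : Finset α, ∃ p : α → MvPolynomial α K, (∀ k ∈ s, aeval x (p k) ≠ 0) ∧
      A.valuation (GG (fun l => δ l) b) ≤
        A.valuation (GG (fun l => δ l) fun k => if k ∈ s then aeval x (p k) else b k) := by
    intro s
    induction s using Finset.induction_on with
    | empty =>
      refine ⟨fun _ => 0, fun k hk => absurd hk (Finset.notMem_empty k), ?_⟩
      simp only [Finset.notMem_empty, if_false]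
      exact le_rfl
    | insert k s hk ih =>
      obtain ⟨p, hp, hle⟩ := ih
      obtain ⟨P, Q, hQ, hbk⟩ := mem_F0 x (b k) (hb k).1
      have hP : aeval x P ≠ 0 := by
        intro h0
        apply (hb k).2
        rw [hbk, h0, zero_div]
      have hupd : ∀ R : MvPolynomial α K,
          (fun j => if j ∈ insert k s then aeval x (Function.update p k R j) else b j) =
            Function.update (fun j => if j ∈ s then aeval x (p j) else b j) k (aeval x R) := by
        intro R
        funext j
        by_cases hj : j = k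
        · subst hj
          rw [if_pos (Finset.mem_insert_self _ _), Function.update_self, Function.update_self]
        · rw [Function.update_of_ne hj, Function.update_of_ne hj]
          simp only [Finset.mem_insert, hj, false_or]
      have hne : ∀ R : MvPolynomial α K, aeval x R ≠ 0 → ∀ j ∈ insert k s,
          aeval x (Function.update p k R j) ≠ 0 := by
        intro R hR j hj
        by_cases hjk : j = k
        · rw [hjk, Function.update_self]
          exact hR
        · rw [Function.update_of_ne hjk]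
          exact hp j ((Finset.mem_insert.1 hj).resolve_left hjk)
      have hck : (fun j => if j ∈ s then aeval x (p j) else b j) k = aeval x P / aeval x Q := by
        simp only [hk, if_false]
        exact hbk
      rcases N6_step δ A (fun j => if j ∈ s then aeval x (p j) else b j) k _ _ hP hQ hck with h | h
      · refine ⟨Function.update p k P, hne P hP, ?_⟩
        rw [hupd]
        exact hle.trans h
      · refine ⟨Function.update p k Q, hne Q hQ, ?_⟩
        rw [hupd]
        exact hle.trans h
  obtain ⟨p, hp, hle⟩ := key Finset.univ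
  refine ⟨p, fun k => ⟨?_, hp k (Finset.mem_univ k)⟩, ?_⟩
  · intro h0
    apply hp k (Finset.mem_univ k)
    rw [h0, map_zero]
  · simp only [Finset.mem_univ, if_true] at hle
    exact hle

private theorem N6_collect {Λ : Type*} [Finite Λ] (p : Λ → α → MvPolynomial α K) :
    ∃ P : Finset (MvPolynomial α K), (∀ i j, p i j ∈ P) ∧ ∀ q ∈ P, ∃ i j, q = p i j := by
  classical
  have := Fintype.ofFinite Λ
  refine ⟨Finset.univ.image fun a : Λ × α => p a.1 a.2, fun i j => ?_, fun q hq => ?_⟩
  · exact Finset.mem_image.2 ⟨(i, j), Finset.mem_univ _, rfl⟩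
  · obtain ⟨a, _, rfl⟩ := Finset.mem_image.1 hq
    exact ⟨a.1, a.2, rfl⟩

/-- Collecting the polynomials: from single inequalities to `Le`. -/
theorem Le_of {Λ Λ' : Type*} [Finite Λ] (x : α → F) (δ : α → Derivation K F F) (A : ValuationSubring F) (N : Λ → F) (D : Λ' → F)
    (h : ∀ i, ∃ (k : Λ') (b : α → F), (∀ j, b j ∈ F0 K x ∧ b j ≠ 0) ∧
      A.valuation (N i) ≤ A.valuation (D k * GG (fun l => δ l) b)) :
    ∃ P : Finset (MvPolynomial α K), (∀ p ∈ P, p ≠ 0 ∧ aeval x p ≠ 0) ∧ Le (fun l => δ l) A (vals x (P : Set (MvPolynomial α K))) N D := by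
  choose k b hb hle using h
  choose p hp hpl using fun i => to_poly x δ A (b i) (hb i)
  obtain ⟨P, hP1, hP2⟩ := N6_collect p
  refine ⟨P, fun q hq => ?_, fun i => ⟨k i, fun j => aeval x (p i j), fun j => ?_, ?_⟩⟩
  · obtain ⟨i, j, rfl⟩ := hP2 q hq
    exact hp i j
  · exact ⟨p i j, hP1 i j, rfl⟩
  · refine (hle i).trans ?_
    rw [map_mul, map_mul]
    gcongr
    exact hpl i

/-- The same for `Lt`. -/
theorem Lt_of {Λ Λ' : Type*} [Finite Λ] (x : α → F) (δ : α → Derivation K F F) (A : ValuationSubring F) (N : Λ → F) (D : Λ' → F)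
    (h : ∀ i, ∃ (k : Λ') (b : α → F), (∀ j, b j ∈ F0 K x ∧ b j ≠ 0) ∧
      A.valuation (N i) < A.valuation (D k * GG (fun l => δ l) b)) :
    ∃ P : Finset (MvPolynomial α K), (∀ p ∈ P, p ≠ 0 ∧ aeval x p ≠ 0) ∧ Lt (fun l => δ l) A (vals x (P : Set (MvPolynomial α K))) N D := by
  choose k b hb hle using h
  choose p hp hpl using fun i => to_poly x δ A (b i) (hb i)
  obtain ⟨P, hP1, hP2⟩ := N6_collect p
  refine ⟨P, fun q hq => ?_, fun i => ⟨k i, fun j => aeval x (p i j), fun j => ?_, ?_⟩⟩
  · obtain ⟨i, j, rfl⟩ := hP2 q hq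
    exact hp i j
  · exact ⟨p i j, hP1 i j, rfl⟩
  · refine (hle i).trans_le ?_
    rw [map_mul, map_mul]
    gcongr
    exact hpl i

/-- The determinant `GG` of the coordinates is not zero. -/
theorem GG_x (x : α → F) (hx0 : ∀ l, x l ≠ 0) (δ : α → Derivation K F F) (hδ : ∀ l l', δ l (x l') = if l = l' then 1 else 0) :
    GG (fun l => δ l) x ≠ 0 := by
  have h : (Matrix.of fun k l => δ l (x k) / x k) = Matrix.diagonal fun k => (x k)⁻¹ := by
    ext k l
    rw [Matrix.of_apply, hδ, Matrix.diagonal_apply]
    by_cases hkl : k = l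
    · rw [if_pos hkl, if_pos hkl.symm, one_div]
    · rw [if_neg hkl, if_neg fun h => hkl h.symm, zero_div]
  unfold GG
  rw [h, Matrix.det_diagonal]
  exact Finset.prod_ne_zero_iff.2 fun k _ => inv_ne_zero (hx0 k)

end Pool.Agent.Lib.MP_17a322_nt.ABN
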