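import Pool.Agent.Lib.MP_17a322_nt.ABN.N12
import Pool.Agent.Lib.MP_17a322_nt.ABN.N6

universe u

namespace Pool.Agent.Lib.MP_17a322_nt.ABN

open MvPolynomial
open Pool.Agent.Lib.MP_17a322_nt.JAC

private theorem N13_ne {K F α : Type*} [Field K] [Field F] [Algebra K F] (x : α → F)
    (P : Set (MvPolynomial α K)) (hP : ∀ p ∈ P, aeval x p ≠ 0) (v : MvPolynomial α K)
    (hv : v ∈ Submonoid.closure P) : aeval x v ≠ 0 := by
  induction hv using Submonoid.closure_induction with
  | mem v hv => exact hP v hv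
  | one => rw [map_one]; exact one_ne_zero
  | mul v w _ _ hv hw => rw [map_mul]; exact mul_ne_zero hv hw

private theorem N13_pow {K F : Type*} [Field K] [Field F] [Algebra K F] (D : Derivation K F F) (a : F)
    (n : ℕ) : D (a ^ n) * a = n * a ^ n * D a := by
  rw [Derivation.leibniz_pow]
  rcases n with _ | n
  · simp
  · simp only [Nat.add_sub_cancel, smul_eq_mul, nsmul_eq_mul]
    rw [pow_succ]
    ring

private theorem N13_dlog {K F : Type*} [Field K] [Field F] [Algebra K F] (D : Derivation K F F)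
    (q a b ψ : F) (n : ℕ) (hq : q ≠ 0) (ha : a ≠ 0) (hb : b ≠ 0) (hψ : ψ * a ^ n = q * b ^ n) :
    D q / q = D ψ / ψ + n * (D a / a) - n * (D b / b) := by
  have han : a ^ n ≠ 0 := pow_ne_zero n ha
  have hbn : b ^ n ≠ 0 := pow_ne_zero n hb
  have hψ0 : ψ ≠ 0 := by
    intro h
    rw [h, zero_mul] at hψ
    exact mul_ne_zero hq hbn hψ.symm
  have h1 := congrArg D hψ
  rw [Derivation.leibniz, Derivation.leibniz] at h1
  simp only [smul_eq_mul] at h1
  have ea := N13_pow D a n
  have eb := N13_pow D b n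
  have ea' : D (a ^ n) = n * a ^ n * D a / a := by
    rw [eq_div_iff ha, ea]
  have eb' : D (b ^ n) = n * b ^ n * D b / b := by
    rw [eq_div_iff hb, eb]
  rw [ea', eb'] at h1
  have h2 : D q * b ^ n = D ψ * a ^ n + ψ * (n * a ^ n * D a / a) - q * (n * b ^ n * D b / b) := by
    linear_combination -h1
  have h3 : D q / q = D q * b ^ n / (q * b ^ n) := by
    rw [mul_div_mul_right _ _ hbn]
  rw [h3, h2, sub_div, add_div]
  have e1 : D ψ * a ^ n / (q * b ^ n) = D ψ / ψ := by
    rw [← hψ, mul_div_mul_right _ _ han]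
  have e2 : ψ * (n * a ^ n * D a / a) / (q * b ^ n) = n * (D a / a) := by
    rw [← hψ]
    field_simp
  have e3 : q * (n * b ^ n * D b / b) / (q * b ^ n) = n * (D b / b) := by
    field_simp
  rw [e1, e2, e3]

/-- Pencils, case I: the strict inequality with logarithmic differentials of elements of `P'` gives
the one with the elements of `P` and finitely many pencils. -/
theorem pen1 {K F α Λ Λ' : Type*} [Field K] [Field F] [Algebra K F] [Fintype α] [DecidableEq α] [Finite Λ] (x : α → F)
    (δ : α → Derivation K F F) (N : Λ → F) (D : Λ' → F) (A : ValuationSubring F) (P P' : Finset (MvPolynomial α K))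
    (hP : ∀ p ∈ P, aeval x p ≠ 0) (hP' : ∀ p ∈ P', aeval x p ≠ 0)
    (h₁ h₂ : MvPolynomial α K) (hh₁ : h₁ ∈ Submonoid.closure (P : Set (MvPolynomial α K)))
    (hh₂ : h₂ ∈ Submonoid.closure (P : Set (MvPolynomial α K)))
    (harch : ∀ p ∈ P', ∃ n : ℕ, A.valuation (aeval x h₁ / aeval x h₂) ^ n < A.valuation (aeval x p))
    (hL : Lt (fun l => δ l) A (vals x (P' : Set (MvPolynomial α K))) N D) :
    ∃ S : Finset (MvPolynomial α K × MvPolynomial α K),
      (S : Set (MvPolynomial α K × MvPolynomial α K)) ⊆ Pen (P : Set (MvPolynomial α K)) ∧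
      Ltw (fun l => δ l) A (vals x (P : Set (MvPolynomial α K)))
        ((fun q => aeval x q.1 / aeval x q.2) '' (S : Set (MvPolynomial α K × MvPolynomial α K))) N D := by
  classical
  have g1 : aeval x h₁ ≠ 0 := N13_ne x _ (fun p hp => hP p hp) h₁ hh₁
  have g2 : aeval x h₂ ≠ 0 := N13_ne x _ (fun p hp => hP p hp) h₂ hh₂
  choose! n hn using harch
  refine ⟨P'.image fun q => (q * h₂ ^ n q, h₁ ^ n q), ?_, ?_⟩
  · intro q hq
    rw [Finset.coe_image] at hq
    obtain ⟨p, _, rfl⟩ := hq
    exact pow_mem hh₁ _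
  · intro i
    obtain ⟨k, b, hb, hlt⟩ := hL i
    refine ⟨k, ?_⟩
    set Ψ : Set F := (fun q : MvPolynomial α K × MvPolynomial α K => aeval x q.1 / aeval x q.2) ''
      ((P'.image fun q => (q * h₂ ^ n q, h₁ ^ n q) : Finset (MvPolynomial α K × MvPolynomial α K)) :
        Set (MvPolynomial α K × MvPolynomial α K)) with hΨ
    set W : Set (α → F) := {r | (∃ p ∈ vals x (P : Set (MvPolynomial α K)), r = fun l => δ l p / p) ∨
      ∃ ψ ∈ Ψ, r = wv (fun l => δ l) A ψ} with hW
    have key : ∀ q ∈ P', ∃ ψ ∈ Ψ, (fun l => δ l (aeval x q) / aeval x q) ∈ spn A W ∧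
        wv (fun l => δ l) A ψ ∈ W := by
      intro q hq
      have hq0 := hP' q hq
      have hlt := hn q hq
      refine ⟨aeval x (q * h₂ ^ n q) / aeval x (h₁ ^ n q), ?_, ?_, ?_⟩
      · refine ⟨(q * h₂ ^ n q, h₁ ^ n q), ?_, rfl⟩
        rw [Finset.coe_image]
        exact ⟨q, hq, rfl⟩
      · set ψ : F := aeval x (q * h₂ ^ n q) / aeval x (h₁ ^ n q) with hψ
        have hψΨ : ψ ∈ Ψ := by
          refine ⟨(q * h₂ ^ n q, h₁ ^ n q), ?_, rfl⟩
          rw [Finset.coe_image]
          exact ⟨q, hq, rfl⟩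
        have e1 : ψ * aeval x h₁ ^ n q = aeval x q * aeval x h₂ ^ n q := by
          rw [hψ, map_mul, map_pow, map_pow, div_mul_cancel₀ _ (pow_ne_zero _ g1)]
        have e2 : ψ = aeval x q / (aeval x h₁ / aeval x h₂) ^ n q := by
          rw [hψ, map_mul, map_pow, map_pow, div_pow]
          field_simp
        have hnot : ψ ∉ A := by
          intro h
          have h1 := (A.valuation_le_one_iff ψ).2 h
          rw [e2, map_div₀, map_pow] at h1
          have h2 : A.valuation (aeval x h₁ / aeval x h₂) ^ n q ≠ 0 :=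
            pow_ne_zero _ ((Valuation.ne_zero_iff _).2 (div_ne_zero g1 g2))
          have h3 : A.valuation (aeval x q) ≤ A.valuation (aeval x h₁ / aeval x h₂) ^ n q := by
            rw [div_le_iff₀ (zero_lt_iff.2 h2), one_mul] at h1
            exact h1
          exact absurd hlt (not_lt.2 h3)
        have ew : wv (fun l => δ l) A ψ = fun l => δ l ψ / ψ := by
          funext l
          unfold wv
          rw [if_neg hnot]
        have hsum : (fun l => δ l (aeval x q) / aeval x q) =
            wv (fun l => δ l) A ψ + (n q) • (fun l => δ l (aeval x h₁) / aeval x h₁) -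
              (n q) • (fun l => δ l (aeval x h₂) / aeval x h₂) := by
          rw [ew]
          funext l
          simp only [Pi.add_apply, Pi.sub_apply, nsmul_eq_mul]
          exact N13_dlog (δ l) (aeval x q) (aeval x h₁) (aeval x h₂) ψ (n q) hq0 g1 g2 e1
        have hle : spn A {r : α → F | ∃ p ∈ vals x (P : Set (MvPolynomial α K)), r = fun l => δ l p / p} ≤
            spn A W := by
          refine spn_mono A ?_
          intro r hr
          exact mem_spn A W (Or.inl hr)
        have m1 := hle (dlog_mon x δ (P : Set (MvPolynomial α K)) (fun p hp => hP p hp) h₁ hh₁ A)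
        have m2 := hle (dlog_mon x δ (P : Set (MvPolynomial α K)) (fun p hp => hP p hp) h₂ hh₂ A)
        rw [hsum]
        refine sub_mem (add_mem ?_ (nsmul_mem m1 _)) (nsmul_mem m2 _)
        exact mem_spn A W (Or.inr ⟨ψ, hψΨ, rfl⟩)
      · refine Or.inr ⟨_, ?_, rfl⟩
        refine ⟨(q * h₂ ^ n q, h₁ ^ n q), ?_, rfl⟩
        rw [Finset.coe_image]
        exact ⟨q, hq, rfl⟩
    rcases isEmpty_or_nonempty α with hα | ⟨⟨j0⟩⟩
    · refine ⟨fun j => isEmptyElim j, fun j => isEmptyElim j, ?_⟩
      unfold GG at hlt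
      rw [Matrix.det_isEmpty] at hlt ⊢
      exact hlt
    · have hWne : W.Nonempty := by
        obtain ⟨q, hq, _⟩ := hb j0
        obtain ⟨ψ, _, _, h⟩ := key q hq
        exact ⟨_, h⟩
      obtain ⟨w, hw, hdet⟩ := det_spn A W hWne (fun j l => δ l (b j) / b j) (by
        intro j
        obtain ⟨q, hq, hqb⟩ := hb j
        obtain ⟨_, _, h, _⟩ := key q hq
        rw [← hqb]
        exact h)
      refine ⟨w, hw, lt_of_lt_of_le hlt ?_⟩
      rw [map_mul, map_mul]
      exact mul_le_mul_right hdet _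

end Pool.Agent.Lib.MP_17a322_nt.ABN
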