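import Pool.Agent.Lib.MP_17a322_nt.ABN.N12
import Pool.Agent.Lib.MP_17a322_nt.ABN.N6

universe u

namespace Pool.Agent.Lib.MP_17a322_nt.ABN

open MvPolynomial
open Pool.Agent.Lib.MP_17a322_nt.JAC

private theorem N14_deg {K α : Type*} [Field K] (r : MvPolynomial α K) (l : α) (h : pderiv l r ≠ 0) :
    (pderiv l r).totalDegree < r.totalDegree := by
  classical
  have key : ∀ m ∈ (pderiv l r).support, (m.sum fun _ e => e) < r.totalDegree := by
    intro m hm
    rw [mem_support_iff, coeff_pderiv] at hm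
    have h1 : coeff (m + Finsupp.single l 1) r ≠ 0 := fun h0 => hm (by rw [h0, zero_mul])
    have h2 := le_totalDegree (mem_support_iff.mpr h1)
    rw [Finsupp.sum_add_index' (fun _ => rfl) (fun _ _ _ => rfl), Finsupp.sum_single_index rfl] at h2
    omega
  obtain ⟨m, hm⟩ : (pderiv l r).support.Nonempty := by
    rw [Finset.nonempty_iff_ne_empty]
    intro h0
    exact h (support_eq_empty.mp h0)
  have hpos : 0 < r.totalDegree := lt_of_le_of_lt (Nat.zero_le _) (key m hm)
  rw [totalDegree, Finset.sup_lt_iff hpos]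
  exact key

private theorem N14_nc {K α : Type*} [Field K] [CharZero K] (r : MvPolynomial α K)
    (h : ∀ l, pderiv l r = 0) : r = C (coeff 0 r) := by
  classical
  ext m
  by_cases hm : m = 0
  · subst hm
    simp
  · obtain ⟨l, hl⟩ : ∃ l, m l ≠ 0 := by
      by_contra hc
      push Not at hc
      exact hm (Finsupp.ext hc)
    rw [coeff_C, if_neg (Ne.symm hm)]
    have h1 := coeff_pderiv (i := l) r (m - Finsupp.single l 1)
    rw [h l, coeff_zero] at h1
    have h2 : m - Finsupp.single l 1 + Finsupp.single l 1 = m := by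
      ext j
      by_cases hj : l = j
      · subst hj
        simp only [Finsupp.coe_add, Finsupp.coe_tsub, Pi.add_apply, Pi.sub_apply,
          Finsupp.single_eq_same]
        omega
      · simp [hj]
    rw [h2] at h1
    have h3 : (((m - Finsupp.single l 1 : α →₀ ℕ) l : ℕ) : K) + 1 ≠ 0 := by
      exact Nat.cast_add_one_ne_zero _
    exact (mul_eq_zero.mp h1.symm).resolve_right h3

/-- Pencils, case II: a polynomial with a large derivative. -/
theorem pen2a {K F α : Type*} [Field K] [CharZero K] [Field F] [Algebra K F] [Fintype α] (x : α → F) (A : ValuationSubring F)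
    (hA : ∀ c : K, algebraMap K F c ∈ A) (h : F) (hh : A.valuation h < 1) (r₀ : MvPolynomial α K) (hr₀ : r₀ ≠ 0)
    (hr : ∀ n : ℕ, A.valuation (aeval x r₀) ≤ A.valuation h ^ n) :
    ∃ (r : MvPolynomial α K) (l : α) (m : ℕ), r ≠ 0 ∧ (∀ n : ℕ, A.valuation (aeval x r) ≤ A.valuation h ^ n) ∧
      A.valuation h ^ m < A.valuation (aeval x (pderiv l r)) := by
  classical
  have main : ∀ (d : ℕ) (r : MvPolynomial α K), r.totalDegree = d → r ≠ 0 →
      (∀ n : ℕ, A.valuation (aeval x r) ≤ A.valuation h ^ n) →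
      ∃ (r : MvPolynomial α K) (l : α) (m : ℕ), r ≠ 0 ∧
        (∀ n : ℕ, A.valuation (aeval x r) ≤ A.valuation h ^ n) ∧
        A.valuation h ^ m < A.valuation (aeval x (pderiv l r)) := by
    intro d
    induction d using Nat.strong_induction_on with
    | _ d ih =>
      intro r hd h0 hrn
      by_cases hex : ∃ l, pderiv l r ≠ 0 ∧
          ∀ n : ℕ, A.valuation (aeval x (pderiv l r)) ≤ A.valuation h ^ n
      · obtain ⟨l, hl, hln⟩ := hex
        exact ih (pderiv l r).totalDegree (hd ▸ N14_deg r l hl) (pderiv l r) rfl hl hln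
      · push Not at hex
        by_cases hz : ∀ l, pderiv l r = 0
        · exfalso
          have hc := N14_nc r hz
          set c : K := coeff 0 r with hcdef
          have hc0 : c ≠ 0 := by
            intro h1
            rw [h1, C_0] at hc
            exact h0 hc
          have hv : aeval x r = algebraMap K F c := by
            rw [hc, aeval_C]
          have h1 := hrn 1
          rw [hv, pow_one] at h1
          have h2 : A.valuation (algebraMap K F c) < 1 := lt_of_le_of_lt h1 hh
          have h3 : A.valuation (algebraMap K F c⁻¹) ≤ 1 := (A.valuation_le_one_iff _).2 (hA _)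
          have h4 : A.valuation (algebraMap K F c) * A.valuation (algebraMap K F c⁻¹) = 1 := by
            rw [← map_mul, ← map_mul, mul_inv_cancel₀ hc0, map_one, map_one]
          have h5 : A.valuation (algebraMap K F c) * A.valuation (algebraMap K F c⁻¹) < 1 :=
            mul_lt_one_of_lt_of_le h2 h3
          exact absurd h4 (ne_of_lt h5)
        · push Not at hz
          obtain ⟨l, hl⟩ := hz
          obtain ⟨m, hm⟩ := hex l hl
          exact ⟨r, l, m, h0, hrn, hm⟩
  exact main _ r₀ rfl hr₀ hr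

private theorem N14_der {K F α : Type*} [Field K] [Field F] [Algebra K F] [DecidableEq α] (x : α → F)
    (D : Derivation K F F) (l : α) (hD : ∀ l', D (x l') = if l = l' then 1 else 0)
    (p : MvPolynomial α K) : D (aeval x p) = aeval x (pderiv l p) := by
  induction p using MvPolynomial.induction_on with
  | C a => rw [aeval_C, Derivation.map_algebraMap, pderiv_C, map_zero]
  | add p q hp hq => rw [map_add, map_add, map_add, map_add, hp, hq]
  | mul_X p j hp =>
    rw [map_mul, aeval_X, Derivation.leibniz, hp, hD, pderiv_mul, map_add, map_mul, map_mul, aeval_X]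
    by_cases hj : l = j
    · subst hj
      rw [if_pos rfl, pderiv_X_self, map_one]
      simp only [smul_eq_mul]
      ring
    · rw [if_neg hj, pderiv_X_of_ne (Ne.symm hj), map_zero]
      simp only [smul_eq_mul]
      ring

private def N14_B {F : Type*} [Field F] (A : ValuationSubring F) (g : F) (hg : 1 ≤ A.valuation g) :
    Subring F where
  carrier := {y | ∃ n : ℕ, A.valuation y ≤ A.valuation g ^ n}
  mul_mem' := by
    rintro a b ⟨n, hn⟩ ⟨m, hm⟩
    exact ⟨n + m, by rw [map_mul, pow_add]; exact mul_le_mul' hn hm⟩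
  one_mem' := ⟨0, by simp⟩
  add_mem' := by
    rintro a b ⟨n, hn⟩ ⟨m, hm⟩
    exact ⟨n + m, (A.valuation.map_add a b).trans (max_le
      (hn.trans (pow_le_pow_right₀ hg (Nat.le_add_right _ _)))
      (hm.trans (pow_le_pow_right₀ hg (Nat.le_add_left _ _))))⟩
  zero_mem' := ⟨0, by simp⟩
  neg_mem' := by
    rintro a ⟨n, hn⟩
    exact ⟨n, by rwa [Valuation.map_neg]⟩

private theorem N14_mem {F : Type*} [Field F] (A : ValuationSubring F) (g : F)
    (hg : 1 ≤ A.valuation g) (y : F) :
    y ∈ N14_B A g hg ↔ ∃ n : ℕ, A.valuation y ≤ A.valuation g ^ n := Iff.rfl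

private theorem N14_det {F α : Type*} [Field F] [Fintype α] [DecidableEq α] (B : Subring F)
    (M : Matrix α α F) (hM : ∀ i j, M i j ∈ B) : M.det ∈ B := by
  rw [Matrix.det_apply]
  refine B.sum_mem fun σ _ => ?_
  rw [Units.smul_def]
  exact B.zsmul_mem (B.prod_mem fun i _ => hM _ _) _

private theorem N14_one {F : Type*} [Field F] (A : ValuationSubring F) (h : F) (hh0 : h ≠ 0)
    (hh : A.valuation h < 1) : 1 < A.valuation h⁻¹ := by
  rw [map_inv₀]
  exact (one_lt_inv₀ (zero_lt_iff.2 ((Valuation.ne_zero_iff _).2 hh0))).2 hh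

/-- Upper bound for the determinants. -/
theorem pen2b {K F α : Type*} [Field K] [Field F] [Algebra K F] [Fintype α] [DecidableEq α] (x : α → F)
    (δ : α → Derivation K F F) (hδ : ∀ l l', δ l (x l') = if l = l' then 1 else 0) (A : ValuationSubring F)
    (hA : ∀ c : K, algebraMap K F c ∈ A) (P : Finset (MvPolynomial α K)) (h : F) (hh0 : h ≠ 0) (hh : A.valuation h < 1)
    (hx : ∀ l, A.valuation (x l) ≤ A.valuation h⁻¹) (hP : ∀ p ∈ P, A.valuation (aeval x p)⁻¹ ≤ A.valuation h⁻¹) :
    ∃ n : ℕ, ∀ b : α → F, (∀ j, b j ∈ vals x (P : Set (MvPolynomial α K))) →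
      A.valuation (GG (fun l => δ l) b) ≤ A.valuation h⁻¹ ^ n := by
  classical
  have hg := N14_one A h hh0 hh
  have key : ∀ f : α → {p // p ∈ P}, ∃ n : ℕ,
      A.valuation (GG (fun l => δ l) fun j => aeval x (f j).1) ≤ A.valuation h⁻¹ ^ n := by
    intro f
    rw [← N14_mem A h⁻¹ hg.le]
    unfold GG
    refine N14_det _ _ fun i j => ?_
    rw [Matrix.of_apply, div_eq_mul_inv]
    refine Subring.mul_mem _ ?_ ?_
    · change δ j (aeval x (f i).1) ∈ _
      rw [N14_der x (δ j) j (hδ j)]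
      exact poly_bound x A hA h hh0 hh hx _
    · exact ⟨1, by rw [pow_one]; exact hP _ (f i).2⟩
  choose nf hnf using key
  refine ⟨Finset.univ.sup nf, fun b hb => ?_⟩
  choose q hq hqb using hb
  have hb' : b = fun j => aeval x ((fun j => (⟨q j, hq j⟩ : {p // p ∈ P})) j).1 := by
    funext j
    exact (hqb j).symm
  rw [hb']
  exact (hnf _).trans (pow_le_pow_right₀ hg.le (Finset.le_sup (Finset.mem_univ _)))

private theorem N14_clo {K F α : Type*} [Field K] [Field F] [Algebra K F] (x : α → F)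
    (P : Set (MvPolynomial α K)) (B : Subring F) (hB : ∀ p ∈ P, (aeval x p)⁻¹ ∈ B)
    (v : MvPolynomial α K) (hv : v ∈ Submonoid.closure P) : (aeval x v)⁻¹ ∈ B := by
  induction hv using Submonoid.closure_induction with
  | mem p hp => exact hB p hp
  | one => rw [map_one, inv_one]; exact B.one_mem
  | mul p q _ _ hp hq => rw [map_mul, mul_inv]; exact B.mul_mem hp hq

private theorem N14_upd {F α : Type*} [Field F] [Fintype α] [DecidableEq α] (d w : α → F) (l : α) :
    ((Matrix.diagonal d).updateRow l w).det = (∏ j ∈ Finset.univ.erase l, d j) * w l := by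
  rw [← Matrix.cramer_transpose_apply, Matrix.diagonal_transpose, Matrix.cramer_eq_adjugate_mulVec,
    Matrix.adjugate_diagonal, Matrix.mulVec_diagonal]

/-- Pencils, case II. -/
theorem pen2 {K F α Λ Λ' : Type*} [Field K] [CharZero K] [Field F] [Algebra K F] [Fintype α] [DecidableEq α] (x : α → F)
    (δ : α → Derivation K F F) (hδ : ∀ l l', δ l (x l') = if l = l' then 1 else 0) (N : Λ → F) (D : Λ' → F) (hD : ∃ k, D k ≠ 0)
    (A : ValuationSubring F) (hA : ∀ c : K, algebraMap K F c ∈ A) (P : Finset (MvPolynomial α K))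
    (hP : ∀ p ∈ P, aeval x p ≠ 0) (hX : ∀ l, X l ∈ P)
    (hLe : Le (fun l => δ l) A (vals x (P : Set (MvPolynomial α K))) N D)
    (h₁ h₂ : MvPolynomial α K) (hh₁ : h₁ ∈ Submonoid.closure (P : Set (MvPolynomial α K)))
    (hh₂ : h₂ ∈ Submonoid.closure (P : Set (MvPolynomial α K))) (hn₁ : aeval x h₁ ≠ 0) (hn₂ : aeval x h₂ ≠ 0)
    (hlt : A.valuation (aeval x h₁ / aeval x h₂) < 1)
    (hdom : ∀ p ∈ P, A.valuation (aeval x h₁ / aeval x h₂) ≤ A.valuation (aeval x p) ∧
        A.valuation (aeval x h₁ / aeval x h₂) ≤ A.valuation (aeval x p)⁻¹)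
    (r₀ : MvPolynomial α K) (hr₀ : r₀ ≠ 0)
    (hr : ∀ n : ℕ, A.valuation (aeval x r₀) ≤ A.valuation (aeval x h₁ / aeval x h₂) ^ n) :
    ∃ S : Finset (MvPolynomial α K × MvPolynomial α K),
      (S : Set (MvPolynomial α K × MvPolynomial α K)) ⊆ Pen (P : Set (MvPolynomial α K)) ∧
      Ltw (fun l => δ l) A (vals x (P : Set (MvPolynomial α K)))
        ((fun q => aeval x q.1 / aeval x q.2) '' (S : Set (MvPolynomial α K × MvPolynomial α K))) N D := by
  classical
  obtain ⟨r, l, m, -, hrn, hm⟩ := pen2a x A hA _ hlt r₀ hr₀ hr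
  set b1 : F := aeval x h₁ with hb1
  set b2 : F := aeval x h₂ with hb2
  set h : F := b1 / b2 with hhd
  have hh0 : h ≠ 0 := div_ne_zero hn₁ hn₂
  have ht0 : A.valuation h ≠ 0 := (Valuation.ne_zero_iff _).2 hh0
  have hg := N14_one A h hh0 hlt
  have hgt : A.valuation h⁻¹ = (A.valuation h)⁻¹ := map_inv₀ _ _
  have hx0 : ∀ j, x j ≠ 0 := by
    intro j
    have := hP _ (hX j)
    rwa [aeval_X] at this
  have hinv : ∀ p ∈ P, A.valuation (aeval x p)⁻¹ ≤ A.valuation h⁻¹ := by
    intro p hp
    rw [map_inv₀, map_inv₀]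
    exact inv_anti₀ (zero_lt_iff.2 ht0) (hdom p hp).1
  have hx : ∀ j, A.valuation (x j) ≤ A.valuation h⁻¹ := by
    intro j
    have h1 := (hdom _ (hX j)).2
    rw [aeval_X, map_inv₀] at h1
    have h2 := inv_anti₀ (zero_lt_iff.2 ht0) h1
    rwa [inv_inv, ← hgt] at h2
  have hxi : ∀ j, A.valuation h ≤ A.valuation (x j)⁻¹ := by
    intro j
    have h1 := (hdom _ (hX j)).2
    rwa [aeval_X] at h1
  obtain ⟨n, hn⟩ := pen2b x δ hδ A hA P h hh0 hlt hx hinv
  -- the derivative of `h⁻¹`
  have hpoly : ∀ q : MvPolynomial α K, aeval x q ∈ N14_B A h⁻¹ hg.le := fun q =>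
    poly_bound x A hA h hh0 hlt hx q
  have hinvB : ∀ p ∈ (P : Set (MvPolynomial α K)), (aeval x p)⁻¹ ∈ N14_B A h⁻¹ hg.le := fun p hp =>
    ⟨1, by rw [pow_one]; exact hinv p hp⟩
  have hb1B : b1⁻¹ ∈ N14_B A h⁻¹ hg.le := N14_clo x _ _ hinvB h₁ hh₁
  have heB : δ l h⁻¹ ∈ N14_B A h⁻¹ hg.le := by
    have e1 : h⁻¹ = b2 * b1⁻¹ := by rw [hhd, inv_div, div_eq_mul_inv]
    have e2 : δ l h⁻¹ = b2 * (-b1⁻¹ ^ 2 * aeval x (pderiv l h₁)) + b1⁻¹ * aeval x (pderiv l h₂) := by
      rw [e1, Derivation.leibniz, Derivation.leibniz_inv, hb1, hb2, N14_der x (δ l) l (hδ l),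
        N14_der x (δ l) l (hδ l)]
      simp only [smul_eq_mul]
    rw [e2]
    refine Subring.add_mem _ (Subring.mul_mem _ (hpoly _) (Subring.mul_mem _ (Subring.neg_mem _ ?_) (hpoly _)))
      (Subring.mul_mem _ hb1B (hpoly _))
    exact Subring.pow_mem _ hb1B 2
  obtain ⟨s, hs⟩ := heB
  set k : ℕ := n + m + Fintype.card α with hk
  set R : F := aeval x r with hR
  set ψ : F := aeval x (r * h₂ ^ k) / aeval x (h₁ ^ k) with hψ
  have hψ' : ψ = R * h⁻¹ ^ k := by
    rw [hψ, map_mul, map_pow, map_pow, hhd, inv_div, div_pow, mul_div_assoc]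
  have hψA : ψ ∈ A := by
    rw [← A.valuation_le_one_iff, hψ', map_mul, map_pow, hgt, inv_pow]
    calc A.valuation R * (A.valuation h ^ k)⁻¹ ≤ A.valuation h ^ k * (A.valuation h ^ k)⁻¹ :=
          mul_le_mul_left (hrn k) _
      _ = 1 := mul_inv_cancel₀ (pow_ne_zero _ ht0)
  -- the value of the derivative of `ψ`
  have hder : δ l ψ = h⁻¹ ^ k * aeval x (pderiv l r) + R * ((k : F) * h⁻¹ ^ (k - 1) * δ l h⁻¹) := by
    rw [hψ', Derivation.leibniz, Derivation.leibniz_pow, hR, N14_der x (δ l) l (hδ l)]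
    simp only [smul_eq_mul, nsmul_eq_mul]
    ring
  have hfirst : A.valuation h⁻¹ ^ k * A.valuation h ^ m <
      A.valuation (h⁻¹ ^ k * aeval x (pderiv l r)) := by
    rw [map_mul, map_pow]
    exact mul_lt_mul_of_pos_left hm (pow_pos (zero_lt_one.trans hg) _)
  have hkA : A.valuation (k : F) ≤ 1 := (A.valuation_le_one_iff _).2 (natCast_mem A k)
  have hsecond : A.valuation (R * ((k : F) * h⁻¹ ^ (k - 1) * δ l h⁻¹)) ≤
      A.valuation h⁻¹ ^ k * A.valuation h ^ m := by
    have h1 : A.valuation h ^ s * A.valuation h⁻¹ ^ s = 1 := by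
      rw [← mul_pow, hgt, mul_inv_cancel₀ ht0, one_pow]
    calc A.valuation (R * ((k : F) * h⁻¹ ^ (k - 1) * δ l h⁻¹))
        = A.valuation R * (A.valuation (k : F) * A.valuation h⁻¹ ^ (k - 1) * A.valuation (δ l h⁻¹)) := by
          rw [map_mul, map_mul, map_mul, map_pow]
      _ ≤ A.valuation h ^ (m + s) * (1 * A.valuation h⁻¹ ^ k * A.valuation h⁻¹ ^ s) := by
          refine mul_le_mul' (hrn _) (mul_le_mul' (mul_le_mul' hkA ?_) hs)
          exact pow_le_pow_right₀ hg.le (Nat.sub_le _ _)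
      _ = A.valuation h⁻¹ ^ k * A.valuation h ^ m * (A.valuation h ^ s * A.valuation h⁻¹ ^ s) := by
          rw [pow_add, one_mul]
          ac_rfl
      _ = A.valuation h⁻¹ ^ k * A.valuation h ^ m := by rw [h1, mul_one]
  have hval : A.valuation h⁻¹ ^ k * A.valuation h ^ m < A.valuation (δ l ψ) := by
    rw [hder, Valuation.map_add_eq_of_lt_left _ (lt_of_le_of_lt hsecond hfirst)]
    exact hfirst
  -- the matrix
  set W : Matrix α α F := (Matrix.diagonal fun j => (x j)⁻¹).updateRow l (fun l' => δ l' ψ) with hW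
  have hdet : W.det = (∏ j ∈ Finset.univ.erase l, (x j)⁻¹) * δ l ψ := N14_upd _ _ l
  have hprod : A.valuation h ^ Fintype.card α ≤ ∏ j ∈ Finset.univ.erase l, A.valuation (x j)⁻¹ := by
    calc A.valuation h ^ Fintype.card α ≤ A.valuation h ^ (Finset.univ.erase l).card :=
          pow_le_pow_right_of_le_one' hlt.le (Finset.card_le_univ _)
      _ = ∏ j ∈ Finset.univ.erase l, A.valuation h := by rw [Finset.prod_const]
      _ ≤ _ := Finset.prod_le_prod' fun j _ => hxi j
  have hWval : A.valuation h⁻¹ ^ n < A.valuation W.det := by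
    have h1 : A.valuation h ^ Fintype.card α * (A.valuation h⁻¹ ^ k * A.valuation h ^ m) =
        A.valuation h⁻¹ ^ n := by
      have e1 : ∀ c : ℕ, A.valuation h ^ c * A.valuation h⁻¹ ^ c = 1 := fun c => by
        rw [← mul_pow, hgt, mul_inv_cancel₀ ht0, one_pow]
      calc A.valuation h ^ Fintype.card α * (A.valuation h⁻¹ ^ k * A.valuation h ^ m)
          = A.valuation h⁻¹ ^ n * (A.valuation h ^ m * A.valuation h⁻¹ ^ m) *
            (A.valuation h ^ Fintype.card α * A.valuation h⁻¹ ^ Fintype.card α) := by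
            rw [hk, pow_add, pow_add]
            ac_rfl
        _ = A.valuation h⁻¹ ^ n := by rw [e1, e1, mul_one, mul_one]
    rw [← h1, hdet, map_mul, map_prod]
    have h2 : 0 < A.valuation h ^ Fintype.card α := zero_lt_iff.2 (pow_ne_zero _ ht0)
    calc A.valuation h ^ Fintype.card α * (A.valuation h⁻¹ ^ k * A.valuation h ^ m)
        < A.valuation h ^ Fintype.card α * A.valuation (δ l ψ) := mul_lt_mul_of_pos_left hval h2
      _ ≤ _ := mul_le_mul_left hprod _
  have hW0 : A.valuation W.det ≠ 0 := ne_of_gt (lt_of_le_of_lt zero_le hWval)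
  refine ⟨{(r * h₂ ^ k, h₁ ^ k)}, ?_, ?_⟩
  · intro q hq
    rw [Finset.coe_singleton, Set.mem_singleton_iff] at hq
    subst hq
    exact Submonoid.pow_mem _ hh₁ k
  · intro i
    have hrows : ∀ j, (∃ p ∈ vals x (P : Set (MvPolynomial α K)), W j = fun l' => δ l' p / p) ∨
        ∃ ψ' ∈ (fun q : MvPolynomial α K × MvPolynomial α K => aeval x q.1 / aeval x q.2) ''
          (({(r * h₂ ^ k, h₁ ^ k)} : Finset (MvPolynomial α K × MvPolynomial α K)) :
            Set (MvPolynomial α K × MvPolynomial α K)), W j = wv (fun l => δ l) A ψ' := by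
      intro j
      by_cases hj : j = l
      · right
        refine ⟨ψ, ⟨(r * h₂ ^ k, h₁ ^ k), ?_, rfl⟩, ?_⟩
        · rw [Finset.coe_singleton]
          exact Set.mem_singleton _
        · subst hj
          funext l'
          rw [hW, Matrix.updateRow_self, wv, if_pos hψA]
      · left
        refine ⟨x j, ⟨X j, hX j, aeval_X _ _⟩, ?_⟩
        funext l'
        rw [hW, Matrix.updateRow_ne hj, Matrix.diagonal_apply, hδ]
        by_cases hjl : j = l'
        · rw [if_pos hjl, if_pos hjl.symm, one_div]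
        · rw [if_neg hjl, if_neg (Ne.symm hjl), zero_div]
    obtain ⟨k', b, hb, hle⟩ := hLe i
    by_cases hD0 : D k' = 0
    · obtain ⟨k₀, hk₀⟩ := hD
      refine ⟨k₀, W, hrows, ?_⟩
      rw [hD0, zero_mul, map_zero] at hle
      have h1 : A.valuation (N i) = 0 := le_antisymm hle zero_le
      have h2 : A.valuation (D k₀) ≠ 0 := (Valuation.ne_zero_iff _).2 hk₀
      rw [h1, map_mul]
      exact zero_lt_iff.2 (mul_ne_zero h2 hW0)
    · refine ⟨k', W, hrows, ?_⟩
      have h2 : 0 < A.valuation (D k') := zero_lt_iff.2 ((Valuation.ne_zero_iff _).2 hD0)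
      rw [map_mul] at hle ⊢
      exact hle.trans_lt (mul_lt_mul_of_pos_left ((hn b hb).trans_lt hWval) h2)

end Pool.Agent.Lib.MP_17a322_nt.ABN
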