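import Pool.Agent.Lib.MP_17a322_nt.ABN.N12

universe u

namespace Pool.Agent.Lib.MP_17a322_nt.ABN

open MvPolynomial
open Pool.Agent.Lib.MP_17a322_nt.JAC

private theorem N15_ne {K F α : Type*} [Field K] [Field F] [Algebra K F] (x : α → F)
    (P : Set (MvPolynomial α K)) (hP : ∀ p ∈ P, aeval x p ≠ 0) (v : MvPolynomial α K)
    (hv : v ∈ Submonoid.closure P) : aeval x v ≠ 0 := by
  induction hv using Submonoid.closure_induction with
  | mem p hp => exact hP p hp
  | one => rw [map_one]; exact one_ne_zero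
  | mul a b _ _ ha hb => rw [map_mul]; exact mul_ne_zero ha hb

private theorem N15_aux {F : Type*} [Field F] (a s X Y : F) (ha : a ≠ 0) (hs : s ≠ 0) :
    X / s = (a * X + s * Y) / (a * s) - Y / a := by
  rw [add_div, mul_div_mul_left X s ha, mul_comm a s, mul_div_mul_left Y a hs]
  ring

private theorem N15_dlog {K F α : Type*} [Field K] [Field F] [Algebra K F] (x : α → F)
    (d : Derivation K F F) (u v : MvPolynomial α K) (c : K) (hv : aeval x v ≠ 0)
    (hg : aeval x (u + C c * v) ≠ 0) :
    aeval x u / aeval x v + algebraMap K F c ≠ 0 ∧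
    d (aeval x u / aeval x v) / (aeval x u / aeval x v + algebraMap K F c) =
      d (aeval x (u + C c * v)) / aeval x (u + C c * v) - d (aeval x v) / aeval x v := by
  have h1 : aeval x (u + C c * v) = aeval x v * (aeval x u / aeval x v + algebraMap K F c) := by
    rw [map_add, map_mul, algHom_C]
    field_simp
  have h2 : aeval x u / aeval x v + algebraMap K F c ≠ 0 := by
    intro h0
    rw [h0, mul_zero] at h1
    exact hg h1
  refine ⟨h2, ?_⟩
  have h3 : d (aeval x u / aeval x v + algebraMap K F c) = d (aeval x u / aeval x v) := by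
    rw [map_add, d.map_algebraMap, add_zero]
  rw [h1, d.leibniz, smul_eq_mul, smul_eq_mul, h3]
  exact N15_aux _ _ _ _ hv h2

/-- From pencils to two members of each pencil: the strict inequality with the vectors `wv` of the
quotients of the pencils gives the strict inequality with the logarithmic differentials of members of
the pencils. -/
theorem pen_to_T {K F α Λ Λ' : Type*} [Field K] [Field F] [Algebra K F] [Fintype α] [DecidableEq α] (x : α → F)
    (δ : α → Derivation K F F) (N : Λ → F) (D : Λ' → F) (A : ValuationSubring F) (hA : ∀ c : K, algebraMap K F c ∈ A)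
    (P : Finset (MvPolynomial α K)) (hP : ∀ p ∈ P, aeval x p ≠ 0)
    (S : Finset (MvPolynomial α K × MvPolynomial α K))
    (hS : (S : Set (MvPolynomial α K × MvPolynomial α K)) ⊆ {q | q.2 ∈ Submonoid.closure (P : Set (MvPolynomial α K))})
    (lam lam' : MvPolynomial α K × MvPolynomial α K → K) (hlam : ∀ q ∈ S, lam q ≠ lam' q) (T : Set F)
    (hT : vals x (P : Set (MvPolynomial α K)) ⊆ T)
    (h1 : ∀ q ∈ S, aeval x (q.1 + C (lam q) * q.2) ∈ T ∧ aeval x (q.1 + C (lam q) * q.2) ≠ 0)
    (h2 : ∀ q ∈ S, aeval x (q.1 + C (lam' q) * q.2) ∈ T ∧ aeval x (q.1 + C (lam' q) * q.2) ≠ 0)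
    (hL : Ltw (fun l => δ l) A (vals x (P : Set (MvPolynomial α K)))
        ((fun q => aeval x q.1 / aeval x q.2) '' (S : Set (MvPolynomial α K × MvPolynomial α K))) N D) :
    Lt (fun l => δ l) A T N D := by
  classical
  intro i
  obtain ⟨k, r, hr, hlt⟩ := hL i
  set W : Set (α → F) := {w | ∃ b ∈ T, w = fun l => δ l b / b} with hWdef
  have hvals : ∀ w ∈ {r : α → F | ∃ p ∈ vals x (P : Set (MvPolynomial α K)),
      r = fun l => δ l p / p}, w ∈ spn A W := by
    rintro w ⟨p, hp, rfl⟩
    exact mem_spn A W ⟨p, hT hp, rfl⟩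
  have hrow : ∀ j, r j ∈ spn A W ∧ W.Nonempty := by
    intro j
    rcases hr j with ⟨p, hp, hrj⟩ | ⟨ψ, ⟨q, hq, hψ⟩, hrj⟩
    · rw [hrj]
      exact ⟨mem_spn A W ⟨p, hT hp, rfl⟩, ⟨_, p, hT hp, rfl⟩⟩
    · have hvS : q.2 ∈ Submonoid.closure (P : Set (MvPolynomial α K)) := hS hq
      have hv : aeval x q.2 ≠ 0 := N15_ne x _ hP q.2 hvS
      obtain ⟨hgT, hg⟩ := h1 q hq
      refine ⟨?_, ⟨_, _, hgT, rfl⟩⟩
      have hne : ψ + algebraMap K F (lam q) ≠ 0 := by
        by_cases hα : Nonempty α
        · obtain ⟨l⟩ := hα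
          rw [← hψ]
          exact (N15_dlog x (δ l) q.1 q.2 (lam q) hv hg).1
        · exact absurd ⟨j⟩ hα
      have hd : (fun l => δ l ψ / (ψ + algebraMap K F (lam q))) ∈ spn A W := by
        have e1 : (fun l => δ l ψ / (ψ + algebraMap K F (lam q))) =
            (fun l => δ l (aeval x (q.1 + C (lam q) * q.2)) / aeval x (q.1 + C (lam q) * q.2)) -
              fun l => δ l (aeval x q.2) / aeval x q.2 := by
          funext l
          rw [Pi.sub_apply, ← hψ]
          exact (N15_dlog x (δ l) q.1 q.2 (lam q) hv hg).2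
        rw [e1]
        refine sub_mem (mem_spn A W ⟨_, hgT, rfl⟩) ?_
        exact spn_mono A hvals (dlog_mon x δ _ hP q.2 hvS A)
      rw [hrj]
      by_cases hψA : ψ ∈ A
      · have e2 : wv (fun l => δ l) A ψ = (ψ + algebraMap K F (lam q)) •
            fun l => δ l ψ / (ψ + algebraMap K F (lam q)) := by
          funext l
          simp only [wv, if_pos hψA, Pi.smul_apply, smul_eq_mul]
          field_simp
        rw [e2]
        exact smul_mem_spn A W (A.add_mem _ _ hψA (hA _)) hd
      · have hψ0 : ψ ≠ 0 := fun h0 => hψA (h0 ▸ A.zero_mem)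
        have hψi : ψ⁻¹ ∈ A := (A.mem_or_inv_mem ψ).resolve_left hψA
        have e2 : wv (fun l => δ l) A ψ = (1 + algebraMap K F (lam q) * ψ⁻¹) •
            fun l => δ l ψ / (ψ + algebraMap K F (lam q)) := by
          funext l
          simp only [wv, if_neg hψA, Pi.smul_apply, smul_eq_mul]
          field_simp
        rw [e2]
        exact smul_mem_spn A W (A.add_mem _ _ A.one_mem (A.mul_mem _ _ (hA _) hψi)) hd
  rcases isEmpty_or_nonempty α with hα | ⟨⟨j0⟩⟩
  · refine ⟨k, fun j => isEmptyElim j, fun j => isEmptyElim j, ?_⟩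
    have e3 : GG (fun l => δ l) (fun j : α => (isEmptyElim j : F)) = (Matrix.of r).det := by
      unfold GG
      rw [Matrix.det_isEmpty, Matrix.det_isEmpty]
    rw [e3]
    exact hlt
  · obtain ⟨w, hw, hle⟩ := det_spn A W (hrow j0).2 r fun j => (hrow j).1
    choose b hbT hb using hw
    refine ⟨k, b, hbT, hlt.trans_le ?_⟩
    have e3 : GG (fun l => δ l) b = (Matrix.of w).det := by
      unfold GG
      congr 1
      ext j l
      rw [Matrix.of_apply, Matrix.of_apply, hb j]
    rw [e3, map_mul, map_mul]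
    exact mul_le_mul_right hle _

end Pool.Agent.Lib.MP_17a322_nt.ABN
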