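import Pool.Agent.Lib.MP_17a322_nt.ABN.N0

universe u

namespace Pool.Agent.Lib.MP_17a322_nt.ABN

open MvPolynomial
open Pool.Agent.Lib.MP_17a322_nt.JAC

/-- The derivations on values of polynomials. -/
theorem N16_deriv {K F α : Type*} [Field K] [Field F] [Algebra K F] [DecidableEq α]
    (δ : α → Derivation K F F) (x : α → F) (hx : ∀ l l', δ l (x l') = if l = l' then 1 else 0)
    (l : α) (p : MvPolynomial α K) : δ l (aeval x p) = aeval x (pderiv l p) := by
  induction p using MvPolynomial.induction_on with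
  | C c => simp
  | add p q hp hq => rw [map_add, map_add, hp, hq, map_add, map_add]
  | mul_X p i hp =>
    rw [map_mul, Derivation.leibniz, hp, aeval_X, hx, Derivation.leibniz, map_add, smul_eq_mul,
      smul_eq_mul, smul_eq_mul, smul_eq_mul, map_mul, map_mul, aeval_X, pderiv_X]
    congr 1
    by_cases h : l = i
    · subst h
      simp
    · rw [if_neg h, Pi.single_eq_of_ne (Ne.symm h), map_zero]

theorem N16_un_mul {F : Type*} [Field F] {A : ValuationSubring F} {f g : F} (hf : Un A f) (hg : Un A g) :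
    Un A (f * g) := by
  refine ⟨A.mul_mem _ _ hf.1 hg.1, ?_⟩
  rw [mul_inv]
  exact A.mul_mem _ _ hf.2 hg.2

theorem N16_un_one {F : Type*} [Field F] {A : ValuationSubring F} : Un A (1 : F) := by
  refine ⟨A.one_mem, ?_⟩
  rw [inv_one]
  exact A.one_mem

/-- determinants of matrices with entries in `A` are in `A` -/
theorem N16_det_mem {F α : Type*} [Field F] [Fintype α] [DecidableEq α] (A : ValuationSubring F)
    (M : Matrix α α F) (h : ∀ i j, M i j ∈ A) :
    ∃ M' : Matrix α α A, (∀ i j, ((M' i j : A) : F) = M i j) ∧ ((M'.det : A) : F) = M.det := by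
  refine ⟨Matrix.of fun i j => ⟨M i j, h i j⟩, fun i j => rfl, ?_⟩
  have h1 := RingHom.map_det A.subtype (Matrix.of fun i j => (⟨M i j, h i j⟩ : A))
  have h2 : A.subtype.mapMatrix (Matrix.of fun i j => (⟨M i j, h i j⟩ : A)) = M := by
    ext i j
    rfl
  rw [h2] at h1
  exact h1

/-- Independent vectors are completed by unit vectors to an invertible matrix. -/
theorem N16_complete {L α J : Type*} [Field L] [Fintype α] [DecidableEq α] (R : J → α → L) (S : Set J)
    (hR : LinearIndependent L fun j : S => R j) :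
    ∃ c : α → J ⊕ α, (∀ k j, c k = Sum.inl j → j ∈ S) ∧ (∀ j ∈ S, ∃ k, c k = Sum.inl j) ∧
      (Matrix.of fun k => Sum.elim R (fun l => Pi.single l (1 : L)) (c k)).det ≠ 0 := by
  classical
  obtain ⟨v, hv⟩ : ∃ v : J ⊕ α → α → L, v = Sum.elim R (fun l => Pi.single l (1 : L)) := ⟨_, rfl⟩
  have h1 : LinearIndepOn L v (Sum.inl '' S) := by
    have h2 : LinearIndepOn L (v ∘ Sum.inl) S := by
      rw [hv]
      exact hR
    exact LinearIndepOn.image_of_comp _ _ h2
  obtain ⟨b, hb1, hb2, hb3, hb4⟩ := exists_linearIndepOn_extension (t := Sum.inl '' S ∪ Set.range Sum.inr) h1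
    Set.subset_union_left
  have hspan : ⊤ ≤ Submodule.span L (Set.range fun i : b => v i) := by
    have e1 : Set.range (fun i : b => v i) = v '' b := by
      ext w
      simp
    rw [e1]
    have e2 : Submodule.span L (Set.range fun l : α => (Pi.single l (1 : L) : α → L)) = ⊤ := by
      have := (Pi.basisFun L α).span_eq
      rw [← this]
      congr 1
      ext w
      simp [Pi.basisFun_apply]
    rw [← e2]
    refine Submodule.span_le.2 ?_
    rintro w ⟨l, rfl⟩
    apply hb3
    refine ⟨Sum.inr l, Or.inr ⟨l, rfl⟩, ?_⟩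
    rw [hv]
    rfl
  let B : Module.Basis b L (α → L) := Module.Basis.mk hb4 hspan
  let e : α ≃ b := (Pi.basisFun L α).indexEquiv B
  refine ⟨fun k => (e k : J ⊕ α), ?_, ?_, ?_⟩
  · intro k j hk
    change (e k : J ⊕ α) = Sum.inl j at hk
    rcases hb1 (e k).2 with h | h
    · obtain ⟨j', hj', h2⟩ := h
      rw [hk] at h2
      rw [← Sum.inl_injective h2]
      exact hj'
    · obtain ⟨l, hl⟩ := h
      rw [hk] at hl
      exact absurd hl Sum.inr_ne_inl
  · intro j hj
    refine ⟨e.symm ⟨Sum.inl j, hb2 ⟨j, hj, rfl⟩⟩, ?_⟩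
    simp
  · have h2 : LinearIndependent L (Matrix.of fun k => Sum.elim R (fun l => Pi.single l (1 : L)) (e k : J ⊕ α)).row := by
      have h3 : LinearIndependent L (fun k : α => v (e k)) := hb4.comp e e.injective
      rw [hv] at h3
      exact h3
    have h3 := Matrix.linearIndependent_rows_iff_isUnit.1 h2
    exact ((Matrix.isUnit_iff_isUnit_det _).1 h3).ne_zero

/-- Strictness at the valuation rings at which all `p ∈ P` are units. -/
theorem strict_U {K F : Type u} {α J Λ Λ' : Type} [Field K] [Field F] [Algebra K F] [Fintype α] [DecidableEq α] [Finite J] (x : α → F)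
    (δ : α → Derivation K F F) (hδ : ∀ l l', δ l (x l') = if l = l' then 1 else 0) (N : Λ → F) (D : Λ' → F) (hD : ∃ k, D k ≠ 0)
    (A : ValuationSubring F) (hA : ∀ c : K, algebraMap K F c ∈ A) (P : Finset (MvPolynomial α K)) (hX : ∀ l, X l ∈ P)
    (hu : ∀ p ∈ P, Un A (aeval x p)) (hLe : Le (fun l => δ l) A (vals x (P : Set (MvPolynomial α K))) N D)
    (u v : J → MvPolynomial α K) (hv : ∀ j, v j ∈ Submonoid.closure (P : Set (MvPolynomial α K))) (lam : J → K)
    (hs : ∀ (L : Type u) [Field L] [Algebra K L] (a : α → L), (∀ j, aeval a (v j) ≠ 0) →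
      LinearIndependent L (fun j : {j // aeval a (u j) + algebraMap K L (lam j) * aeval a (v j) = 0} => fun l =>
        aeval a (v j.1) * aeval a (pderiv l (u j.1)) - aeval a (u j.1) * aeval a (pderiv l (v j.1))))
    (hg0 : ∀ j, aeval x (u j + C (lam j) * v j) ≠ 0) (j₀ : J) (hj : ¬ Un A (aeval x (u j₀ + C (lam j₀) * v j₀)))
    (T : Set F) (hT : vals x (P : Set (MvPolynomial α K)) ⊆ T) (hTj : ∀ j, aeval x (u j + C (lam j) * v j) ∈ T)
    (hP0 : ∀ p ∈ P, aeval x p ≠ 0) :
    Lt (fun l => δ l) A T N D := by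
  classical
  have hxA : ∀ l, x l ∈ A := fun l => by
    have := (hu _ (hX l)).1
    rwa [aeval_X] at this
  obtain ⟨φ, hφ⟩ : ∃ φ : K →+* A, ∀ c, ((φ c : A) : F) = algebraMap K F c :=
    ⟨(algebraMap K F).codRestrict A.toSubring hA, fun c => rfl⟩
  let _ : Algebra K (IsLocalRing.ResidueField A) := ((IsLocalRing.residue A).comp φ).toAlgebra
  obtain ⟨xA, hxA'⟩ : ∃ xA : α → A, ∀ l, ((xA l : A) : F) = x l := ⟨fun l => ⟨x l, hxA l⟩, fun l => rfl⟩
  obtain ⟨ev, hev⟩ : ∃ ev : MvPolynomial α K →+* A, ev = eval₂Hom φ xA := ⟨_, rfl⟩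
  have hevF : ∀ q, ((ev q : A) : F) = aeval x q := by
    intro q
    have h1 : (A.subtype.comp ev) = (aeval x : MvPolynomial α K →ₐ[K] F).toRingHom := by
      rw [hev]
      apply MvPolynomial.ringHom_ext
      · intro r
        simp [hφ]
      · intro i
        simp [hxA']
    exact RingHom.congr_fun h1 q
  obtain ⟨a, ha⟩ : ∃ a : α → IsLocalRing.ResidueField A, ∀ l, a l = IsLocalRing.residue A (xA l) := ⟨_, fun _ => rfl⟩
  have hevL : ∀ q, IsLocalRing.residue A (ev q) = aeval a q := by
    intro q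
    have h1 : ((IsLocalRing.residue A).comp ev) = (aeval a : MvPolynomial α K →ₐ[K] _).toRingHom := by
      rw [hev]
      apply MvPolynomial.ringHom_ext
      · intro r
        simp
        rfl
      · intro i
        simp [ha]
    exact RingHom.congr_fun h1 q
  have hmem : ∀ q : MvPolynomial α K, aeval x q ∈ A := fun q => by
    rw [← hevF]
    exact (ev q).2
  -- units
  have hcl : ∀ q ∈ Submonoid.closure (P : Set (MvPolynomial α K)), aeval x q ≠ 0 ∧ Un A (aeval x q) := by
    intro q hq
    induction hq using Submonoid.closure_induction with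
    | mem q hq => exact ⟨hP0 q hq, hu q hq⟩
    | one =>
      rw [map_one]
      exact ⟨one_ne_zero, N16_un_one⟩
    | mul p q _ _ hp hq =>
      rw [map_mul]
      exact ⟨mul_ne_zero hp.1 hq.1, N16_un_mul hp.2 hq.2⟩
  have hunit : ∀ q : MvPolynomial α K, aeval x q ≠ 0 → (Un A (aeval x q) ↔ aeval a q ≠ 0) := by
    intro q hq0
    rw [← hevL, Ne, IsLocalRing.residue_eq_zero_iff, IsLocalRing.mem_maximalIdeal, mem_nonunits_iff, not_not]
    constructor
    · intro h
      refine IsUnit.of_mul_eq_one ⟨(aeval x q)⁻¹, h.2⟩ ?_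
      apply Subtype.ext
      change ((ev q : A) : F) * (aeval x q)⁻¹ = 1
      rw [hevF]
      exact mul_inv_cancel₀ hq0
    · intro h
      refine ⟨hmem q, ?_⟩
      obtain ⟨w, hw⟩ := h
      have h1 : (((w⁻¹ : Aˣ) : A) : F) = (aeval x q)⁻¹ := by
        apply eq_inv_of_mul_eq_one_left
        rw [← hevF, ← hw]
        have := Units.inv_mul w
        have h2 := congrArg (fun t : A => (t : F)) this
        exact h2
      rw [← h1]
      exact ((w⁻¹ : Aˣ) : A).2
  have hv0 : ∀ j, aeval a (v j) ≠ 0 := by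
    intro j
    have h1 := hcl _ (hv j)
    exact (hunit _ h1.1).1 h1.2
  -- the polynomials `w j`
  obtain ⟨w, hw⟩ : ∃ w : J → MvPolynomial α K, w = fun j => u j + C (lam j) * v j := ⟨_, rfl⟩
  have hwj : ∀ j, w j = u j + C (lam j) * v j := fun j => by rw [hw]
  have hwa : ∀ j, aeval a (w j) = aeval a (u j) + algebraMap K (IsLocalRing.ResidueField A) (lam j) * aeval a (v j) := by
    intro j
    rw [hwj, map_add, map_mul, aeval_C]
  have hpw : ∀ j l, aeval a (pderiv l (w j)) =
      aeval a (pderiv l (u j)) + algebraMap K (IsLocalRing.ResidueField A) (lam j) * aeval a (pderiv l (v j)) := by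
    intro j l
    rw [hwj, map_add, Derivation.leibniz, pderiv_C, smul_zero, add_zero, smul_eq_mul, map_add, map_mul, aeval_C]
  let S : Set J := {j | aeval a (u j) + algebraMap K (IsLocalRing.ResidueField A) (lam j) * aeval a (v j) = 0}
  have hR : LinearIndependent (IsLocalRing.ResidueField A) fun j : S => fun l => aeval a (pderiv l (w j.1)) := by
    have h1 := hs (IsLocalRing.ResidueField A) a hv0
    have h2 : LinearIndependent (IsLocalRing.ResidueField A)
        ((fun j : S => (Units.mk0 (aeval a (v j.1)) (hv0 j.1))⁻¹) • fun j : S => fun l =>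
        aeval a (v j.1) * aeval a (pderiv l (u j.1)) - aeval a (u j.1) * aeval a (pderiv l (v j.1))) :=
      LinearIndependent.units_smul h1 _
    have h3 : ((fun j : S => (Units.mk0 (aeval a (v j.1)) (hv0 j.1))⁻¹) • fun j : S => fun l =>
        aeval a (v j.1) * aeval a (pderiv l (u j.1)) - aeval a (u j.1) * aeval a (pderiv l (v j.1))) =
        fun j : S => fun l => aeval a (pderiv l (w j.1)) := by
      funext j l
      have h4 : aeval a (u j.1) = - (algebraMap K (IsLocalRing.ResidueField A) (lam j.1) * aeval a (v j.1)) :=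
        eq_neg_of_add_eq_zero_left j.2
      change (aeval a (v j.1))⁻¹ * (aeval a (v j.1) * aeval a (pderiv l (u j.1)) -
        aeval a (u j.1) * aeval a (pderiv l (v j.1))) = _
      rw [hpw, h4]
      have h5 := hv0 j.1
      field_simp
      ring
    rw [h3] at h2
    exact h2
  obtain ⟨c, hc1, hc2, hc3⟩ := N16_complete (fun j l => aeval a (pderiv l (w j))) S hR
  -- the polynomials `q k`
  obtain ⟨q, hq⟩ : ∃ q : α → MvPolynomial α K, q = fun k => Sum.elim w (fun l => X l) (c k) := ⟨_, rfl⟩
  have hqk : ∀ k, q k = Sum.elim w (fun l => X l) (c k) := fun k => by rw [hq]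
  have hqT : ∀ k, aeval x (q k) ∈ T := by
    intro k
    rw [hqk]
    rcases c k with j | l
    · rw [Sum.elim_inl, hwj]
      exact hTj j
    · rw [Sum.elim_inr]
      exact hT ⟨X l, hX l, rfl⟩
  have hq0 : ∀ k, aeval x (q k) ≠ 0 := by
    intro k
    rw [hqk]
    rcases c k with j | l
    · rw [Sum.elim_inl, hwj]
      exact hg0 j
    · rw [Sum.elim_inr]
      exact hP0 _ (hX l)
  have hdetL : (Matrix.of fun k l => aeval a (pderiv l (q k))).det ≠ 0 := by
    have h1 : (Matrix.of fun k l => aeval a (pderiv l (q k))) =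
        Matrix.of fun k => Sum.elim (fun j l => aeval a (pderiv l (w j))) (fun l => Pi.single l (1 : IsLocalRing.ResidueField A)) (c k) := by
      ext k l
      rw [Matrix.of_apply, Matrix.of_apply, hqk]
      rcases c k with j | l'
      · rfl
      · rw [Sum.elim_inr, Sum.elim_inr, pderiv_X, Pi.single_apply, Pi.single_apply]
        by_cases h : l = l'
        · rw [if_pos h.symm, if_pos h, map_one]
        · rw [if_neg (Ne.symm h), if_neg h, map_zero]
    rw [h1]
    exact hc3
  -- the determinant over `A`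
  obtain ⟨M, hM1, hM2⟩ := N16_det_mem A (Matrix.of fun k l => aeval x (pderiv l (q k))) fun k l => hmem _
  have hMM : M = Matrix.of fun k l => ev (pderiv l (q k)) := by
    ext k l
    rw [hM1, Matrix.of_apply, Matrix.of_apply, hevF]
  have hMu : A.valuation (Matrix.of fun k l => aeval x (pderiv l (q k))).det = 1 := by
    rw [← hM2]
    have h1 : IsUnit M.det := by
      have h2 : IsLocalRing.residue A M.det ≠ 0 := by
        rw [RingHom.map_det, hMM]
        have h3 : (IsLocalRing.residue A).mapMatrix (Matrix.of fun k l => ev (pderiv l (q k))) =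
            Matrix.of fun k l => aeval a (pderiv l (q k)) := by
          ext k l
          rw [RingHom.mapMatrix_apply, Matrix.map_apply, Matrix.of_apply, Matrix.of_apply, hevL]
        rw [h3]
        exact hdetL
      rw [Ne, IsLocalRing.residue_eq_zero_iff, IsLocalRing.mem_maximalIdeal, mem_nonunits_iff, not_not] at h2
      exact h2
    exact (ValuationSubring.valuation_eq_one_iff A M.det).1 h1
  have hGG : GG (fun l => δ l) (fun k => aeval x (q k)) =
      (∏ k, (aeval x (q k))⁻¹) * (Matrix.of fun k l => aeval x (pderiv l (q k))).det := by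
    unfold GG
    rw [← Matrix.det_mul_column]
    congr 1
    ext k l
    change δ l (aeval x (q k)) / aeval x (q k) = (aeval x (q k))⁻¹ * aeval x (pderiv l (q k))
    rw [N16_deriv δ x hδ, div_eq_inv_mul]
  have hle1 : ∀ k, 1 ≤ A.valuation (aeval x (q k))⁻¹ := by
    intro k
    rw [map_inv₀]
    have h1 : A.valuation (aeval x (q k)) ≤ 1 := (A.valuation_le_one_iff _).2 (hmem _)
    have h2 : 0 < A.valuation (aeval x (q k)) := zero_lt_iff.2 ((Valuation.ne_zero_iff _).2 (hq0 k))
    exact (one_le_inv₀ h2).2 h1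
  have hGt : 1 < A.valuation (GG (fun l => δ l) (fun k => aeval x (q k))) := by
    rw [hGG, map_mul, hMu, mul_one, map_prod]
    have hj0 : j₀ ∈ S := by
      by_contra h
      apply hj
      have h1 := (hunit (w j₀) (by rw [hwj]; exact hg0 j₀)).2 (by rw [hwa]; exact h)
      rw [hwj] at h1
      exact h1
    obtain ⟨k₀, hk₀⟩ := hc2 j₀ hj0
    have h2 : 1 < A.valuation (aeval x (q k₀))⁻¹ := by
      have h3 : q k₀ = u j₀ + C (lam j₀) * v j₀ := by rw [hqk, hk₀, Sum.elim_inl, hwj]
      by_contra h4
      apply hj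
      rw [← h3]
      exact ⟨hmem _, (A.valuation_le_one_iff _).1 (not_lt.1 h4)⟩
    calc (1 : A.ValueGroup) < A.valuation (aeval x (q k₀))⁻¹ := h2
      _ ≤ ∏ k, A.valuation (aeval x (q k))⁻¹ := by
        rw [← Finset.mul_prod_erase Finset.univ _ (Finset.mem_univ k₀)]
        exact le_mul_of_one_le_right' (Finset.one_le_prod' fun k _ => hle1 k)
  have hfin : ∀ d : F, d ≠ 0 → A.valuation d < A.valuation (d * GG (fun l => δ l) (fun k => aeval x (q k))) := by
    intro d hd
    rw [map_mul]
    have h1 : 0 < A.valuation d := zero_lt_iff.2 ((Valuation.ne_zero_iff _).2 hd)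
    exact lt_mul_of_one_lt_right h1 hGt
  intro i
  obtain ⟨k, b, hb, hle⟩ := hLe i
  have h1 : A.valuation (GG (fun l => δ l) b) ≤ 1 := by
    unfold GG
    obtain ⟨M', hM1', hM2'⟩ := N16_det_mem A (Matrix.of fun k l => δ l (b k) / b k) fun k l => by
      obtain ⟨p, hp, hpb⟩ := hb k
      have hpb' : aeval x p = b k := hpb
      rw [Matrix.of_apply, ← hpb', N16_deriv δ x hδ, div_eq_mul_inv]
      exact A.mul_mem _ _ (hmem _) (hu p hp).2
    rw [← hM2']
    exact A.valuation_le_one _
  have h2 : A.valuation (N i) ≤ A.valuation (D k) := by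
    refine hle.trans ?_
    rw [map_mul]
    exact mul_le_of_le_one_right' h1
  by_cases hDk : D k = 0
  · obtain ⟨k', hk'⟩ := hD
    refine ⟨k', fun k => aeval x (q k), hqT, ?_⟩
    refine lt_of_le_of_lt ?_ (hfin _ hk')
    rw [hDk, map_zero] at h2
    exact h2.trans zero_le
  · exact ⟨k, fun k => aeval x (q k), hqT, lt_of_le_of_lt h2 (hfin _ hDk)⟩

end Pool.Agent.Lib.MP_17a322_nt.ABN
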