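import Pool.Agent.Lib.MP_17a322_nt.JAC.B0
import Pool.Agent.Lib.MP_17a322_nt.JAC.S1a

/-!
Sard's theorem for finitely many rational functions, algebraically.
-/

universe u

namespace Pool.Agent.Lib.MP_17a322_nt.ABN

open MvPolynomial
open Pool.Agent.Lib.MP_17a322_nt.JAC

section

variable {K L : Type u} [Field K] [CharZero K] [Field L] [Algebra K L] {α : Type*}

open scoped IntermediateField.algebraAdjoinAdjoin in
/-- The field is formally etale over the ring generated by a transcendence basis. -/
private theorem S1_etale {y : α → L} (hb : IsTranscendenceBasis K y) :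
    Algebra.FormallyEtale (Algebra.adjoin K (Set.range y)) L := by
  have h0 : CharZero (IntermediateField.adjoin K (Set.range y)) :=
    charZero_of_injective_algebraMap
      (algebraMap K (IntermediateField.adjoin K (Set.range y))).injective
  have h1 : Algebra.FormallyEtale (Algebra.adjoin K (Set.range y))
      (IntermediateField.adjoin K (Set.range y)) :=
    .of_isLocalization (nonZeroDivisors _)
  have h2 := hb.isAlgebraic_field
  have h3 : Algebra.FormallyEtale (IntermediateField.adjoin K (Set.range y)) L :=
    Algebra.FormallyEtale.of_isSeparable _ L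
  exact .comp _ (IntermediateField.adjoin K (Set.range y)) _

/-- Derivations with prescribed values on a transcendence basis. -/
private theorem S1_exists {y : α → L} (hb : IsTranscendenceBasis K y) (w : α → L) :
    ∃ δ : Derivation K L L, ∀ l, δ (y l) = w l := by
  classical
  have := S1_etale hb
  let e := hb.1.aevalEquiv
  have he : ∀ l : α, e.symm ⟨y l, Algebra.subset_adjoin ⟨l, rfl⟩⟩ = MvPolynomial.X l := by
    intro l
    rw [AlgEquiv.symm_apply_eq]
    apply Subtype.ext
    rw [hb.1.aevalEquiv_apply_coe]
    simp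
  let _ : Module (MvPolynomial α K) L := Module.compHom L (MvPolynomial.aeval y).toRingHom
  have hsm : ∀ (q : MvPolynomial α K) (z : L), q • z = MvPolynomial.aeval y q * z :=
    fun _ _ => rfl
  have _ : IsScalarTower K (MvPolynomial α K) L := by
    constructor
    intro a q z
    rw [hsm, hsm, map_smul, smul_mul_assoc]
  let D₀ : Derivation K (MvPolynomial α K) L := MvPolynomial.mkDerivation K w
  let D : Derivation K (Algebra.adjoin K (Set.range y)) L :=
    Derivation.mk' (D₀.toLinearMap.comp e.symm.toLinearMap) (by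
      intro a b
      show D₀ (e.symm (a * b)) = a • D₀ (e.symm b) + b • D₀ (e.symm a)
      rw [map_mul, D₀.leibniz, hsm, hsm, ← hb.1.aevalEquiv_apply_coe, ← hb.1.aevalEquiv_apply_coe]
      show (e (e.symm a) : L) * _ + (e (e.symm b) : L) * _ = _
      rw [e.apply_symm_apply, e.apply_symm_apply]
      rfl)
  obtain ⟨δ, hδ⟩ := dext (S := L) D
  refine ⟨δ, fun l => ?_⟩
  have h1 := hδ ⟨y l, Algebra.subset_adjoin ⟨l, rfl⟩⟩
  have h2 : algebraMap (Algebra.adjoin K (Set.range y)) L
      ⟨y l, Algebra.subset_adjoin ⟨l, rfl⟩⟩ = y l := rfl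
  rw [h2] at h1
  rw [h1]
  show D₀ (e.symm ⟨y l, Algebra.subset_adjoin ⟨l, rfl⟩⟩) = w l
  rw [he l]
  show MvPolynomial.mkDerivation K w (MvPolynomial.X l) = w l
  rw [MvPolynomial.mkDerivation_X]

/-- Derivations with prescribed values on an algebraically independent family. -/
theorem der_of_indep {y : α → L} (hy : AlgebraicIndependent K y) (w : α → L) :
    ∃ δ : Derivation K L L, ∀ l, δ (y l) = w l := by
  classical
  obtain ⟨t, hst, ht⟩ := exists_isTranscendenceBasis_superset hy.coe_range
  have hi : Function.Injective y := hy.injective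
  obtain ⟨δ, hδ⟩ := S1_exists ht fun z : t => if h : ∃ l, y l = z.1 then w h.choose else 0
  refine ⟨δ, fun l => ?_⟩
  have h1 := hδ ⟨y l, hst ⟨l, rfl⟩⟩
  have h2 : ∃ l', y l' = y l := ⟨l, rfl⟩
  rw [dif_pos h2] at h1
  rw [hi h2.choose_spec] at h1
  exact h1

end

/-- The chain rule. -/
theorem der_aeval {K F : Type*} [Field K] [Field F] [Algebra K F] {α : Type*} [Fintype α]
    (δ : Derivation K F F) (x : α → F) (P : MvPolynomial α K) :
    δ (aeval x P) = ∑ l, aeval x (pderiv l P) * δ (x l) := by
  classical
  induction P using MvPolynomial.induction_on with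
  | C a =>
    rw [aeval_C, δ.map_algebraMap, Finset.sum_eq_zero]
    intro l _
    rw [pderiv_C, map_zero, zero_mul]
  | add p q hp hq =>
    simp only [map_add, hp, hq, add_mul, Finset.sum_add_distrib]
  | mul_X p i hp =>
    have h1 : ∀ l, aeval x (pderiv l (p * X i)) * δ (x l) =
        x i * (aeval x (pderiv l p) * δ (x l)) +
          aeval x p * (aeval x (pderiv l (X i : MvPolynomial α K)) * δ (x l)) := by
      intro l
      rw [Derivation.leibniz, smul_eq_mul, smul_eq_mul, map_add, map_mul, map_mul, aeval_X]
      ring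
    rw [Finset.sum_congr rfl fun l _ => h1 l, Finset.sum_add_distrib, ← Finset.mul_sum,
      ← Finset.mul_sum, ← hp, Finset.sum_eq_single i]
    · rw [pderiv_X_self, map_one, one_mul, map_mul, aeval_X, Derivation.leibniz, smul_eq_mul,
        smul_eq_mul]
      ring
    · intro l _ hl
      rw [pderiv_X_of_ne (Ne.symm hl), map_zero, zero_mul]
    · intro h
      exact absurd (Finset.mem_univ i) h

/-- If all minors of `M` vanish then the determinant of `M * B` vanishes. -/
theorem det_mul_eq_zero_of_minors {F : Type*} [CommRing F] {S α : Type*} [Fintype S] [DecidableEq S]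
    [Fintype α] (M : Matrix S α F) (B : Matrix α S F)
    (h : ∀ s : S → α, (Matrix.of fun i j => M i (s j)).det = 0) : (M * B).det = 0 := by
  classical
  rw [← Matrix.det_transpose]
  have h1 : (M * B).transpose = fun j : S => ∑ l : α, B l j • fun i => M i l := by
    funext j i
    rw [Matrix.transpose_apply, Matrix.mul_apply, Finset.sum_apply]
    exact Finset.sum_congr rfl fun l _ => by rw [Pi.smul_apply, smul_eq_mul, mul_comm]
  have h2 : (M * B).transpose.det =
      Matrix.detRowAlternating.toMultilinearMap fun j : S => ∑ l : α, B l j • fun i => M i l := by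
    rw [h1]
    rfl
  rw [h2, MultilinearMap.map_sum]
  refine Finset.sum_eq_zero fun r _ => ?_
  rw [MultilinearMap.map_smul_univ]
  have h3 : (Matrix.detRowAlternating.toMultilinearMap fun j : S => fun i => M i (r j)) =
      (Matrix.of fun i j => M i (r j)).det := by
    rw [← Matrix.det_transpose]
    rfl
  rw [h3, h r, smul_zero]

/-- The numerators of the partial derivatives of `u / v`. -/
noncomputable def nm {K : Type*} [Field K] {α : Type*} (u v : MvPolynomial α K) (l : α) :
    MvPolynomial α K :=
  v * pderiv l u - u * pderiv l v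

/-- If the minors of the Jacobian matrix vanish on a variety, then the functions are algebraically
dependent on it. -/
theorem sard_rel {K : Type u} [Field K] [CharZero K] {α S : Type} [Fintype α] [Fintype S]
    [DecidableEq S] (q : Ideal (MvPolynomial α K)) [q.IsPrime] (u v : S → MvPolynomial α K)
    (hv : ∀ j, v j ∉ q)
    (hdet : ∀ s : S → α, (Matrix.of fun i j => nm (u i) (v i) (s j)).det ∈ q) :
    ∃ H : MvPolynomial S K, H ≠ 0 ∧
      aeval (fun j => aeval (gn q) (u j) / aeval (gn q) (v j)) H = 0 := by
  classical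
  by_contra hcon
  push Not at hcon
  set ψ : S → FF q := fun j => aeval (gn q) (u j) / aeval (gn q) (v j) with hψ
  have hind : AlgebraicIndependent K ψ := by
    rw [algebraicIndependent_iff]
    intro H hH
    by_contra h0
    exact hcon H h0 hH
  have hv' : ∀ j, aeval (gn q) (v j) ≠ 0 := fun j h => hv j ((aeval_gn_eq_zero q _).1 h)
  choose D hD using fun j : S => der_of_indep hind (fun j' => if j' = j then (1 : FF q) else 0)
  set M : Matrix S α (FF q) := fun i l => aeval (gn q) (nm (u i) (v i) l) with hM
  set B : Matrix α S (FF q) := fun l j => D j (gn q l) with hB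
  have hdetM : ∀ s : S → α, (Matrix.of fun i j => M i (s j)).det = 0 := by
    intro s
    have h1 : (Matrix.of fun i j => M i (s j)) =
        (aeval (gn q)).toRingHom.mapMatrix (Matrix.of fun i j => nm (u i) (v i) (s j)) := by
      ext i j
      rfl
    rw [h1, ← RingHom.map_det]
    exact (aeval_gn_eq_zero q _).2 (hdet s)
  have hMB := det_mul_eq_zero_of_minors M B hdetM
  have hprod : M * B = Matrix.diagonal fun i => aeval (gn q) (v i) ^ 2 := by
    ext i j
    rw [Matrix.mul_apply, Matrix.diagonal_apply]
    have h1 : D j (ψ i) = if i = j then 1 else 0 := hD j i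
    rw [hψ] at h1
    simp only at h1
    rw [Derivation.leibniz_div, der_aeval, der_aeval, smul_eq_mul, smul_eq_mul, smul_eq_mul] at h1
    have h2 : ∑ l, M i l * B l j =
        aeval (gn q) (v i) * ∑ l, aeval (gn q) (pderiv l (u i)) * D j (gn q l) -
          aeval (gn q) (u i) * ∑ l, aeval (gn q) (pderiv l (v i)) * D j (gn q l) := by
      rw [Finset.mul_sum, Finset.mul_sum, ← Finset.sum_sub_distrib]
      refine Finset.sum_congr rfl fun l _ => ?_
      simp only [hM, hB, nm, map_sub, map_mul]
      ring
    rw [h2]
    have h3 : (aeval (gn q) (v i) ^ 2) ≠ 0 := pow_ne_zero _ (hv' i)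
    rw [inv_pow, inv_mul_eq_iff_eq_mul₀ h3] at h1
    rw [h1]
    by_cases hij : i = j
    · rw [if_pos hij, if_pos hij, mul_one]
    · rw [if_neg hij, if_neg hij, mul_zero]
  rw [hprod, Matrix.det_diagonal] at hMB
  exact (Finset.prod_ne_zero_iff.2 fun i _ => pow_ne_zero _ (hv' i)) hMB

/-- Relations between functions which are regular at a point hold for their values. -/
theorem spec_rel {K L : Type*} [Field K] [Field L] [Algebra K L] {α S : Type} {q : Ideal (MvPolynomial α K)}
    [q.IsPrime] (a : α → L) (hq : ∀ P ∈ q, aeval a P = 0) (u v : S → MvPolynomial α K)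
    (hv : ∀ j, aeval a (v j) ≠ 0) (c : S → L) (hc : ∀ j, aeval a (u j) = c j * aeval a (v j))
    (H : MvPolynomial S K) (hH : aeval (fun j => aeval (gn q) (u j) / aeval (gn q) (v j)) H = 0) :
    aeval c H = 0 := by
  classical
  have hvq : ∀ P : MvPolynomial α K, aeval a P ≠ 0 → aeval (gn q) P ≠ 0 := fun P h h' =>
    h (hq P ((aeval_gn_eq_zero q P).1 h'))
  have key : ∀ H : MvPolynomial S K, ∃ f g : MvPolynomial α K, aeval a g ≠ 0 ∧
      aeval (fun j => aeval (gn q) (u j) / aeval (gn q) (v j)) H * aeval (gn q) g =
        aeval (gn q) f ∧ aeval c H * aeval a g = aeval a f := by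
    intro H
    induction H using MvPolynomial.induction_on with
    | C b =>
      refine ⟨C b, 1, by rw [map_one]; exact one_ne_zero, ?_, ?_⟩
      · rw [map_one, mul_one, aeval_C, aeval_C]
      · rw [map_one, mul_one, aeval_C, aeval_C]
    | add p q hp hq' =>
      obtain ⟨f, g, hg, h1, h2⟩ := hp
      obtain ⟨f', g', hg', h1', h2'⟩ := hq'
      refine ⟨f * g' + f' * g, g * g', by rw [map_mul]; exact mul_ne_zero hg hg', ?_, ?_⟩
      · rw [map_add, map_mul, map_add, map_mul, map_mul]
        linear_combination (aeval (gn _) g') * h1 + (aeval (gn _) g) * h1'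
      · rw [map_add, map_mul, map_add, map_mul, map_mul]
        linear_combination (aeval a g') * h2 + (aeval a g) * h2'
    | mul_X p j hp =>
      obtain ⟨f, g, hg, h1, h2⟩ := hp
      refine ⟨f * u j, g * v j, by rw [map_mul]; exact mul_ne_zero hg (hv j), ?_, ?_⟩
      · rw [map_mul, aeval_X, map_mul, map_mul, ← h1]
        have := hvq _ (hv j)
        field_simp
      · rw [map_mul, aeval_X, map_mul, map_mul, ← h2, hc j]
        ring
  obtain ⟨f, g, hg, h1, h2⟩ := key H
  rw [hH, zero_mul] at h1
  have h3 : aeval a f = 0 := hq f ((aeval_gn_eq_zero q f).1 h1.symm)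
  rw [h3] at h2
  exact (mul_eq_zero.1 h2).resolve_right hg

/-- Sard's theorem: for generic constants `lam j` the functions `u j / v j` which take the value
`lam j` at a point over some extension field have independent differentials there. -/
theorem sard_core {K : Type u} [Field K] [CharZero K] {α J : Type} [Fintype α] [Finite J]
    (u v : J → MvPolynomial α K) :
    ∃ H : MvPolynomial J K, H ≠ 0 ∧ ∀ lam : J → K, eval lam H ≠ 0 →
      ∀ (L : Type u) [Field L] [Algebra K L] (a : α → L), (∀ j, aeval a (v j) ≠ 0) →
        LinearIndependent L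
          (fun j : {j // aeval a (u j) = algebraMap K L (lam j) * aeval a (v j)} =>
            fun l => aeval a (nm (u j) (v j) l)) := by
  classical
  have : Fintype J := Fintype.ofFinite J
  -- the ideals of the minors
  set c : Finset J → Ideal (MvPolynomial α K) := fun S =>
    Ideal.span (Set.range fun s : S → α => (Matrix.of fun i j => nm (u i.1) (v i.1) (s j)).det) with hc
  have hfin : ∀ S, (c S).minimalPrimes.Finite := fun S =>
    Ideal.finite_minimalPrimes_of_isNoetherianRing _ _
  have hrel : ∀ (S : Finset J) (q : Ideal (MvPolynomial α K)), ∃ H : MvPolynomial J K, H ≠ 0 ∧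
      (∀ (h : q.IsPrime), q ∈ (c S).minimalPrimes → (∀ j : S, v j.1 ∉ q) →
        ∃ H' : MvPolynomial S K, H = rename Subtype.val H' ∧
          aeval (fun j : S => aeval (gn q) (u j.1) / aeval (gn q) (v j.1)) H' = 0) := by
    intro S q
    by_cases h : q.IsPrime ∧ q ∈ (c S).minimalPrimes ∧ ∀ j : S, v j.1 ∉ q
    · obtain ⟨h1, h2, h3⟩ := h
      have hle : c S ≤ q := h2.1.2
      obtain ⟨H', hH', hH0⟩ := sard_rel q (fun j : S => u j.1) (fun j : S => v j.1) h3
        (fun s => hle (Ideal.subset_span ⟨s, rfl⟩))
      refine ⟨rename Subtype.val H', ?_, fun _ _ _ => ⟨H', rfl, hH0⟩⟩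
      intro h0
      apply hH'
      apply rename_injective _ Subtype.val_injective
      rw [h0, map_zero]
    · exact ⟨1, one_ne_zero, fun h1 h2 h3 => absurd ⟨h1, h2, h3⟩ h⟩
  choose H hH0 hH using hrel
  refine ⟨∏ S : Finset J, ∏ q ∈ (hfin S).toFinset, H S q, ?_, ?_⟩
  · exact Finset.prod_ne_zero_iff.2 fun S _ => Finset.prod_ne_zero_iff.2 fun q _ => hH0 S q
  intro lam hlam L _ _ a hv
  by_contra hli
  set S : Finset J := Finset.univ.filter fun j =>
    aeval a (u j) = algebraMap K L (lam j) * aeval a (v j) with hS
  have hmem : ∀ j, j ∈ S ↔ aeval a (u j) = algebraMap K L (lam j) * aeval a (v j) := by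
    intro j
    rw [hS, Finset.mem_filter]
    exact ⟨fun h => h.2, fun h => ⟨Finset.mem_univ _, h⟩⟩
  have hli' : ¬ LinearIndependent L (fun j : S => fun l => aeval a (nm (u j.1) (v j.1) l)) := by
    intro h
    apply hli
    let e : {j // aeval a (u j) = algebraMap K L (lam j) * aeval a (v j)} ≃ S :=
      Equiv.subtypeEquivRight fun j => (hmem j).symm
    have := h.comp e e.injective
    exact this
  rw [Fintype.not_linearIndependent_iff] at hli'
  obtain ⟨g, hg, i₀, hi₀⟩ := hli'
  have hdet : ∀ s : S → α,
      aeval a (Matrix.of fun i j : S => nm (u i.1) (v i.1) (s j)).det = 0 := by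
    intro s
    have h1 : aeval a (Matrix.of fun i j : S => nm (u i.1) (v i.1) (s j)).det =
        (Matrix.of fun i j : S => aeval a (nm (u i.1) (v i.1) (s j))).det := by
      change (aeval a).toRingHom _ = _
      rw [RingHom.map_det]
      rfl
    rw [h1, ← Matrix.exists_vecMul_eq_zero_iff]
    refine ⟨g, fun h => hi₀ (congrFun h i₀), ?_⟩
    funext j
    have h2 := congrFun hg (s j)
    rw [Finset.sum_apply] at h2
    simp only [Pi.smul_apply, smul_eq_mul, Pi.zero_apply] at h2
    simp only [Matrix.vecMul, dotProduct, Matrix.of_apply, Pi.zero_apply]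
    exact h2
  have hle : c S ≤ RingHom.ker (aeval (R := K) a) := by
    rw [hc]
    simp only
    rw [Ideal.span_le]
    rintro _ ⟨s, rfl⟩
    exact hdet s
  have hpr : (RingHom.ker (aeval (R := K) a)).IsPrime := RingHom.ker_isPrime _
  obtain ⟨q, hq, hqa⟩ := Ideal.exists_minimalPrimes_le hle
  have hqp : q.IsPrime := hq.1.1
  have hvq : ∀ j : S, v j.1 ∉ q := fun j hj => hv j.1 (hqa hj)
  obtain ⟨H', hHe, hH'⟩ := hH S q hqp hq hvq
  have h1 : aeval (fun j : S => algebraMap K L (lam j.1)) H' = 0 :=
    spec_rel a (fun P hP => hqa hP) (fun j : S => u j.1) (fun j : S => v j.1) (fun j => hv j.1) _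
      (fun j => (hmem j.1).1 j.2) H' hH'
  have h2 : eval lam (H S q) = 0 := by
    rw [hHe, eval_rename]
    have h3 : aeval (fun j : S => algebraMap K L (lam j.1)) H' =
        algebraMap K L (eval (lam ∘ Subtype.val) H') := by
      have h4 : aeval (fun j : S => algebraMap K L (lam j.1)) H' =
          algebraMap K L (aeval (lam ∘ Subtype.val) H') :=
        aeval_algebraMap_apply L (lam ∘ Subtype.val) H'
      have h5 : aeval (lam ∘ Subtype.val) H' = eval (lam ∘ Subtype.val) H' :=
        RingHom.congr_fun (coe_aeval_eq_eval (lam ∘ Subtype.val)) H'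
      rw [h4, h5]
    rw [h3] at h1
    exact (map_eq_zero _).1 h1
  apply hlam
  rw [map_prod]
  refine Finset.prod_eq_zero (Finset.mem_univ S) ?_
  rw [map_prod]
  exact Finset.prod_eq_zero ((hfin S).mem_toFinset.2 hq) h2

/-- Sard's theorem: for generic constants `lam j` the functions `u j + lam j * v j` which vanish at
a point over some extension field at which the `v j` do not vanish have independent differentials
there. -/
theorem sard {K : Type u} [Field K] [CharZero K] {α J : Type} [Fintype α] [Finite J]
    (u v : J → MvPolynomial α K) :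
    ∃ H : MvPolynomial J K, H ≠ 0 ∧ ∀ lam : J → K, eval lam H ≠ 0 →
      ∀ (L : Type u) [Field L] [Algebra K L] (a : α → L), (∀ j, aeval a (v j) ≠ 0) →
        LinearIndependent L
          (fun j : {j // aeval a (u j) + algebraMap K L (lam j) * aeval a (v j) = 0} =>
            fun l => aeval a (v j) * aeval a (pderiv l (u j)) -
              aeval a (u j) * aeval a (pderiv l (v j))) := by
  obtain ⟨H, hH, h⟩ := sard_core u (fun j => -v j)
  refine ⟨H, hH, fun lam hlam L _ _ a hv => ?_⟩
  have h1 := h lam hlam L a (fun j => by rw [map_neg]; exact neg_ne_zero.2 (hv j))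
  let e : {j // aeval a (u j) + algebraMap K L (lam j) * aeval a (v j) = 0} ≃
      {j // aeval a (u j) = algebraMap K L (lam j) * aeval a (-v j)} :=
    Equiv.subtypeEquivRight fun j => by
      rw [map_neg, mul_neg, eq_neg_iff_add_eq_zero]
  have h2 := (h1.comp e e.injective).units_smul (fun _ => -1)
  convert h2 using 1
  funext j l
  simp only [Pi.smul_apply', Function.comp_apply, nm, map_sub, map_mul, map_neg, Units.smul_def,
    Units.val_neg, Units.val_one, Pi.smul_apply, smul_eq_mul]
  change _ = -1 * (-(aeval a (v j)) * aeval a (pderiv l (u j)) -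
    aeval a (u j) * -(aeval a (pderiv l (v j))))
  ring

end Pool.Agent.Lib.MP_17a322_nt.ABN
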