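import Pool.Agent.Lib.MP_17a322_nt.ABN.N11
import Pool.Agent.Lib.MP_17a322_nt.ABN.N13
import Pool.Agent.Lib.MP_17a322_nt.ABN.N14
import Pool.Agent.Lib.MP_17a322_nt.ABN.N15
import Pool.Agent.Lib.MP_17a322_nt.ABN.N16
import Pool.Agent.Lib.MP_17a322_nt.ABN.Sard

universe u

namespace Pool.Agent.Lib.MP_17a322_nt.ABN

open MvPolynomial
open Pool.Agent.Lib.MP_17a322_nt.JAC

private theorem N17_aeval_mem {K F α : Type*} [Field K] [Field F] [Algebra K F] (x : α → F)
    (p : MvPolynomial α K) : aeval x p ∈ F0 K x := by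
  induction p using MvPolynomial.induction_on with
  | C c =>
    rw [aeval_C]
    exact Subfield.subset_closure (Or.inl ⟨c, rfl⟩)
  | add p q hp hq =>
    rw [map_add]
    exact (F0 K x).add_mem hp hq
  | mul_X p l hp =>
    rw [map_mul, aeval_X]
    exact (F0 K x).mul_mem hp (Subfield.subset_closure (Or.inr ⟨l, rfl⟩))

private theorem N17_Le_mono {F α Λ Λ' : Type*} [Field F] [Fintype α] [DecidableEq α]
    (δ : α → F → F) (A : ValuationSubring F) {T T' : Set F} (hT : T ⊆ T') {N : Λ → F} {D : Λ' → F}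
    (h : Le δ A T N D) : Le δ A T' N D := by
  intro i
  obtain ⟨k, b, hb, h1⟩ := h i
  exact ⟨k, b, fun j => hT (hb j), h1⟩

private theorem N17_vals_mono {K F α : Type*} [Field K] [Field F] [Algebra K F] (x : α → F)
    {P P' : Set (MvPolynomial α K)} (h : P ⊆ P') : vals x P ⊆ vals x P' := Set.image_mono h

private theorem N17_closure_ne {K F α : Type*} [Field K] [Field F] [Algebra K F] (x : α → F)
    {P : Set (MvPolynomial α K)} (h : ∀ p ∈ P, aeval x p ≠ 0) (v : MvPolynomial α K)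
    (hv : v ∈ Submonoid.closure P) : aeval x v ≠ 0 := by
  induction hv using Submonoid.closure_induction with
  | mem p hp => exact h p hp
  | one =>
    rw [map_one]
    exact one_ne_zero
  | mul p q _ _ hp hq =>
    rw [map_mul]
    exact mul_ne_zero hp hq

/-- Pencils at one valuation ring. -/
theorem pen_ex {K F α Λ Λ' : Type*} [Field K] [CharZero K] [Field F] [Algebra K F] [Fintype α] [DecidableEq α] [Finite Λ] (x : α → F)
    (δ : α → Derivation K F F) (hδ : ∀ l l', δ l (x l') = if l = l' then 1 else 0) (N : Λ → F) (D : Λ' → F) (hD : ∃ k, D k ≠ 0)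
    (A : ValuationSubring F) (hA : ∀ c : K, algebraMap K F c ∈ A) (P : Finset (MvPolynomial α K))
    (hP : ∀ p ∈ P, aeval x p ≠ 0) (hX : ∀ l, X l ∈ P)
    (hLe : Le (fun l => δ l) A (vals x (P : Set (MvPolynomial α K))) N D)
    (hLt : (∃ f ∈ F0 K x, f ≠ 0 ∧ ¬ Un A f) → ∃ P' : Finset (MvPolynomial α K), (∀ p ∈ P', p ≠ 0 ∧ aeval x p ≠ 0) ∧
      Lt (fun l => δ l) A (vals x (P' : Set (MvPolynomial α K))) N D)
    (hu : ∃ p ∈ P, ¬ Un A (aeval x p)) :
    ∃ S : Finset (MvPolynomial α K × MvPolynomial α K),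
      (S : Set (MvPolynomial α K × MvPolynomial α K)) ⊆ Pen (P : Set (MvPolynomial α K)) ∧
      Ltw (fun l => δ l) A (vals x (P : Set (MvPolynomial α K)))
        ((fun q => aeval x q.1 / aeval x q.2) '' (S : Set (MvPolynomial α K × MvPolynomial α K))) N D := by
  obtain ⟨h₁, hh₁, h₂, hh₂, hn₁, hn₂, hlt, hdom⟩ := exists_h x A P hP hu
  set h : F := aeval x h₁ / aeval x h₂ with hh
  have hh0 : h ≠ 0 := div_ne_zero hn₁ hn₂
  by_cases hcase : ∀ b ∈ F0 K x, b ≠ 0 → ∃ n : ℕ, A.valuation h ^ n < A.valuation b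
  · obtain ⟨p, hp, hpu⟩ := hu
    obtain ⟨P', hP', hL⟩ := hLt ⟨aeval x p, N17_aeval_mem x p, hP p hp, hpu⟩
    exact pen1 x δ N D A P P' hP (fun p hp => (hP' p hp).2) h₁ h₂ hh₁ hh₂
      (fun p hp => hcase _ (N17_aeval_mem x p) (hP' p hp).2) hL
  · push Not at hcase
    obtain ⟨b, hb, hb0, hbn⟩ := hcase
    obtain ⟨p, q, hq, hpq⟩ := mem_F0 x b hb
    have hvh : A.valuation h ≠ 0 := (Valuation.ne_zero_iff _).2 hh0
    obtain ⟨m, hm⟩ := poly_bound x A hA h hh0 hlt (fun l => by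
      have h1 := (hdom (X l) (hX l)).2
      have h2 : x l ≠ 0 := by
        have := hP (X l) (hX l)
        rwa [aeval_X] at this
      rw [aeval_X, map_inv₀] at h1
      rw [map_inv₀]
      have h3 : 0 < A.valuation h := zero_lt_iff.2 hvh
      have h4 : 0 < A.valuation (x l) := zero_lt_iff.2 ((Valuation.ne_zero_iff _).2 h2)
      rwa [le_inv_comm₀ h4 h3]) q
    have hpe : aeval x p = b * aeval x q := by
      rw [hpq, div_mul_cancel₀ _ hq]
    have hp0 : p ≠ 0 := by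
      rintro rfl
      rw [map_zero, zero_div] at hpq
      exact hb0 hpq
    refine pen2 x δ hδ N D hD A hA P hP hX hLe h₁ h₂ hh₁ hh₂ hn₁ hn₂ hlt hdom p hp0 ?_
    intro n
    rw [hpe, map_mul]
    have h5 : A.valuation b * A.valuation (aeval x q) ≤
        A.valuation h ^ (n + m) * A.valuation h⁻¹ ^ m := mul_le_mul' (hbn (n + m)) hm
    refine h5.trans (le_of_eq ?_)
    rw [map_inv₀, pow_add, mul_assoc, ← mul_pow, mul_inv_cancel₀ hvh, one_pow, mul_one]

private theorem N17_choose {K α J : Type*} [Field K] [CharZero K] [Finite J] {I : Type*} [Fintype I]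
    (H : MvPolynomial J K) (hH : H ≠ 0) (a b : I → J) (hab : ∀ i, a i ≠ b i)
    (u v : J → MvPolynomial α K) (hv : ∀ j, v j ≠ 0) :
    ∃ lam : J → K, eval lam H ≠ 0 ∧ (∀ i, lam (a i) ≠ lam (b i)) ∧
      ∀ j, u j + C (lam j) * v j ≠ 0 := by
  classical
  have := Fintype.ofFinite J
  choose m hm using fun j => MvPolynomial.ne_zero_iff.1 (hv j)
  let G : J → MvPolynomial J K := fun j => C (coeff (m j) (u j)) + X j * C (coeff (m j) (v j))
  have hG : ∀ j, G j ≠ 0 := by
    intro j h0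
    have h1 : eval (fun _ => (0 : K)) (G j) = 0 := by rw [h0, map_zero]
    have h2 : eval (fun _ => (1 : K)) (G j) = 0 := by rw [h0, map_zero]
    simp only [G, map_add, map_mul, eval_C, eval_X, zero_mul, add_zero, one_mul] at h1 h2
    rw [h1, zero_add] at h2
    exact hm j h2
  have hAB : ∀ i, (X (a i) - X (b i) : MvPolynomial J K) ≠ 0 := by
    intro i h0
    have h1 : eval (fun j => if j = a i then (1 : K) else 0) (X (a i) - X (b i)) = 0 := by
      rw [h0, map_zero]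
    rw [map_sub, eval_X, eval_X, if_pos rfl, if_neg (hab i).symm, sub_zero] at h1
    exact one_ne_zero h1
  have hne : H * (∏ i, (X (a i) - X (b i) : MvPolynomial J K)) * ∏ j, G j ≠ 0 :=
    mul_ne_zero (mul_ne_zero hH (Finset.prod_ne_zero_iff.2 fun i _ => hAB i))
      (Finset.prod_ne_zero_iff.2 fun j _ => hG j)
  obtain ⟨lam, hlam⟩ : ∃ lam : J → K,
      eval lam (H * (∏ i, (X (a i) - X (b i) : MvPolynomial J K)) * ∏ j, G j) ≠ 0 := by
    by_contra hcon
    push Not at hcon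
    exact hne (MvPolynomial.funext fun y => by rw [hcon y, map_zero])
  rw [map_mul, map_mul, map_prod, map_prod] at hlam
  have h1 := right_ne_zero_of_mul hlam
  have h2 := left_ne_zero_of_mul hlam
  refine ⟨lam, left_ne_zero_of_mul h2, fun i heq => ?_, fun j h0 => ?_⟩
  · have h3 := Finset.prod_ne_zero_iff.1 (right_ne_zero_of_mul h2) i (Finset.mem_univ i)
    rw [map_sub, eval_X, eval_X, heq, sub_self] at h3
    exact h3 rfl
  · have h3 := Finset.prod_ne_zero_iff.1 h1 j (Finset.mem_univ j)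
    apply h3
    have h4 := congrArg (coeff (m j)) h0
    rw [coeff_add, coeff_C_mul, coeff_zero] at h4
    simp only [G, map_add, map_mul, eval_C, eval_X]
    exact h4

/-- The finite family of polynomials. -/
theorem fam {K F : Type u} {α Λ₁ Λ₁' Λ₀ Λ₀' : Type} [Field K] [CharZero K] [Field F] [Algebra K F] [Fintype α] [DecidableEq α]
    [Finite Λ₁] [Finite Λ₁'] [Finite Λ₀] [Finite Λ₀'] (x : α → F) (hx : AlgebraicIndependent K x) (δ : α → Derivation K F F)
    (hδ : ∀ l l', δ l (x l') = if l = l' then 1 else 0) (N₁ : Λ₁ → F) (D₁ : Λ₁' → F) (N₀ : Λ₀ → F) (D₀ : Λ₀' → F)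
    (hD₀ : ∃ k, D₀ k ≠ 0)
    (h1 : ∀ A : ValuationSubring F, (∀ c : K, algebraMap K F c ∈ A) →
      ∃ P : Finset (MvPolynomial α K), (∀ p ∈ P, p ≠ 0 ∧ aeval x p ≠ 0) ∧
        Le (fun l => δ l) A (vals x (P : Set (MvPolynomial α K))) N₁ D₁)
    (h0 : ∀ A : ValuationSubring F, (∀ c : K, algebraMap K F c ∈ A) →
      ∃ P : Finset (MvPolynomial α K), (∀ p ∈ P, p ≠ 0 ∧ aeval x p ≠ 0) ∧
        Le (fun l => δ l) A (vals x (P : Set (MvPolynomial α K))) N₀ D₀ ∧
        ((∃ f ∈ F0 K x, f ≠ 0 ∧ ¬ Un A f) → Lt (fun l => δ l) A (vals x (P : Set (MvPolynomial α K))) N₀ D₀)) :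
    ∃ P : Finset (MvPolynomial α K), (∀ p ∈ P, p ≠ 0 ∧ aeval x p ≠ 0) ∧ (∀ l, X l ∈ P) ∧
      ∀ A : ValuationSubring F, (∀ c : K, algebraMap K F c ∈ A) →
        Le (fun l => δ l) A (vals x (P : Set (MvPolynomial α K))) N₁ D₁ ∧
        Le (fun l => δ l) A (vals x (P : Set (MvPolynomial α K))) N₀ D₀ ∧
        ((∃ p ∈ P, ¬ Un A (aeval x p)) → Lt (fun l => δ l) A (vals x (P : Set (MvPolynomial α K))) N₀ D₀) := by
  classical
  obtain ⟨P₁, hP₁, hLe₁⟩ := fam_a (K := K) x (fun l => δ l) N₁ D₁ h1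
  obtain ⟨P₂, hP₂, hLe₂⟩ := fam_a (K := K) x (fun l => δ l) N₀ D₀ (fun A hA => by
    obtain ⟨P, hP, h2, -⟩ := h0 A hA
    exact ⟨P, hP, h2⟩)
  let P₀ : Finset (MvPolynomial α K) := P₁ ∪ P₂ ∪ Finset.univ.image X
  have hP₀ : ∀ p ∈ P₀, p ≠ 0 ∧ aeval x p ≠ 0 := by
    intro p hp
    simp only [P₀, Finset.mem_union, Finset.mem_image, Finset.mem_univ, true_and] at hp
    rcases hp with (hp | hp) | ⟨l, rfl⟩
    · exact hP₁ p hp
    · exact hP₂ p hp
    · refine ⟨X_ne_zero l, ?_⟩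
      rw [aeval_X]
      exact hx.ne_zero l
  have hX₀ : ∀ l, X l ∈ P₀ := fun l =>
    Finset.mem_union_right _ (Finset.mem_image_of_mem _ (Finset.mem_univ l))
  have hsub₁ : (P₁ : Set (MvPolynomial α K)) ⊆ P₀ := by
    intro p hp
    exact Finset.mem_union_left _ (Finset.mem_union_left _ hp)
  have hsub₂ : (P₂ : Set (MvPolynomial α K)) ⊆ P₀ := by
    intro p hp
    exact Finset.mem_union_left _ (Finset.mem_union_right _ hp)
  have hLe₀ : ∀ A : ValuationSubring F, (∀ c : K, algebraMap K F c ∈ A) →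
      Le (fun l => δ l) A (vals x (P₀ : Set (MvPolynomial α K))) N₀ D₀ := fun A hA =>
    N17_Le_mono _ A (N17_vals_mono x hsub₂) (hLe₂ A hA)
  obtain ⟨S, hS, hSL⟩ := fam_b (K := K) x (fun l => δ l) N₀ D₀ P₀
    (Pen (P₀ : Set (MvPolynomial α K))) (fun A hA hu => by
      refine pen_ex x δ hδ N₀ D₀ hD₀ A hA P₀ (fun p hp => (hP₀ p hp).2) hX₀ (hLe₀ A hA) ?_ hu
      intro hf
      obtain ⟨P, hP, -, h3⟩ := h0 A hA
      exact ⟨P, hP, h3 hf⟩)
  -- the index set
  let J : Type := Fin S.card × Bool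
  let e : Fin S.card ≃ {q // q ∈ S} := S.equivFin.symm
  let uu : J → MvPolynomial α K := fun j => (e j.1).1.1
  let vv : J → MvPolynomial α K := fun j => (e j.1).1.2
  have hvv : ∀ j, vv j ∈ Submonoid.closure (P₀ : Set (MvPolynomial α K)) := fun j =>
    hS (e j.1).2
  have hvx : ∀ j, aeval x (vv j) ≠ 0 := fun j =>
    N17_closure_ne x (fun p hp => (hP₀ p hp).2) _ (hvv j)
  have hv0 : ∀ j, vv j ≠ 0 := fun j h => hvx j (by rw [h, map_zero])
  obtain ⟨H, hH, hsard⟩ := sard uu vv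
  obtain ⟨lam, hlam, hlam2, hlam3⟩ := N17_choose H hH (fun i : Fin S.card => ((i, true) : J))
    (fun i => ((i, false) : J)) (fun i h => by
      have := congrArg Prod.snd h
      simp at this) uu vv hv0
  have hg0 : ∀ j, aeval x (uu j + C (lam j) * vv j) ≠ 0 := by
    intro j h
    apply hlam3 j
    exact hx.eq_zero_of_aeval_eq_zero _ h
  let P : Finset (MvPolynomial α K) := P₀ ∪ Finset.univ.image fun j => uu j + C (lam j) * vv j
  have hsub₀ : (P₀ : Set (MvPolynomial α K)) ⊆ P := by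
    intro p hp
    exact Finset.mem_union_left _ hp
  have hmem : ∀ j, uu j + C (lam j) * vv j ∈ P := fun j =>
    Finset.mem_union_right _ (Finset.mem_image_of_mem _ (Finset.mem_univ j))
  have hmemv : ∀ j, aeval x (uu j + C (lam j) * vv j) ∈ vals x (P : Set (MvPolynomial α K)) :=
    fun j => ⟨_, hmem j, rfl⟩
  refine ⟨P, ?_, fun l => hsub₀ (hX₀ l), ?_⟩
  · intro p hp
    rcases Finset.mem_union.1 hp with hp | hp
    · exact hP₀ p hp
    · obtain ⟨j, -, rfl⟩ := Finset.mem_image.1 hp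
      exact ⟨hlam3 j, hg0 j⟩
  · intro A hA
    refine ⟨N17_Le_mono _ A (N17_vals_mono x (hsub₁.trans hsub₀)) (hLe₁ A hA),
      N17_Le_mono _ A (N17_vals_mono x hsub₀) (hLe₀ A hA), ?_⟩
    rintro ⟨p, hp, hpu⟩
    by_cases hcase : ∃ p ∈ P₀, ¬ Un A (aeval x p)
    · have hidx : ∀ q (hq : q ∈ S) (c : Bool),
          uu (e.symm ⟨q, hq⟩, c) = q.1 ∧ vv (e.symm ⟨q, hq⟩, c) = q.2 := by
        intro q hq c
        simp only [uu, vv, Equiv.apply_symm_apply, and_self]
      refine pen_to_T x δ N₀ D₀ A hA P₀ (fun p hp => (hP₀ p hp).2) S hS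
        (fun q => if hq : q ∈ S then lam (e.symm ⟨q, hq⟩, true) else 0)
        (fun q => if hq : q ∈ S then lam (e.symm ⟨q, hq⟩, false) else 0) ?_
        (vals x (P : Set (MvPolynomial α K))) (N17_vals_mono x hsub₀) ?_ ?_ (hSL A hA hcase)
      · intro q hq
        simp only [dif_pos hq]
        exact hlam2 _
      · intro q hq
        simp only [dif_pos hq]
        have h2 := hmemv (e.symm ⟨q, hq⟩, true)
        have h3 := hg0 (e.symm ⟨q, hq⟩, true)
        rw [(hidx q hq true).1, (hidx q hq true).2] at h2 h3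
        exact ⟨h2, h3⟩
      · intro q hq
        simp only [dif_pos hq]
        have h2 := hmemv (e.symm ⟨q, hq⟩, false)
        have h3 := hg0 (e.symm ⟨q, hq⟩, false)
        rw [(hidx q hq false).1, (hidx q hq false).2] at h2 h3
        exact ⟨h2, h3⟩
    · push Not at hcase
      rcases Finset.mem_union.1 hp with hp | hp
      · exact absurd (hcase p hp) hpu
      · obtain ⟨j₀, -, rfl⟩ := Finset.mem_image.1 hp
        exact strict_U x δ hδ N₀ D₀ hD₀ A hA P₀ hX₀ hcase (hLe₀ A hA) uu vv hvv lam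
          (hsard lam hlam) hg0 j₀ hpu (vals x (P : Set (MvPolynomial α K)))
          (N17_vals_mono x hsub₀) hmemv (fun p hp => (hP₀ p hp).2)

end Pool.Agent.Lib.MP_17a322_nt.ABN
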