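import Pool.Agent.Lib.MP_17a322_nt.ABN.CompC

/-!
A strict inequality at all valuation rings at which some of finitely many functions is not a unit is
a strict inequality by a uniform power.
-/

namespace Pool.Agent.Lib.MP_17a322_nt.ABN

variable {F : Type*} [Field F]

/-- The coarsening of the valuation ring `A` by the largest convex subgroup which does not contain
the value of `y`. -/
def coarse (A : ValuationSubring F) (y : F) (hy : 1 < A.valuation y) : ValuationSubring F where
  carrier := {f | ∀ k : ℕ, A.valuation f ^ k < A.valuation y}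
  mul_mem' := by
    intro a b ha hb k
    rw [map_mul, mul_pow]
    rcases le_total (A.valuation a) (A.valuation b) with h | h
    · calc A.valuation a ^ k * A.valuation b ^ k ≤ A.valuation b ^ k * A.valuation b ^ k :=
            mul_le_mul_left (pow_le_pow_left₀ zero_le h k) _
        _ = A.valuation b ^ (k + k) := (pow_add _ _ _).symm
        _ < _ := hb _
    · calc A.valuation a ^ k * A.valuation b ^ k ≤ A.valuation a ^ k * A.valuation a ^ k :=
            mul_le_mul_right (pow_le_pow_left₀ zero_le h k) _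
        _ = A.valuation a ^ (k + k) := (pow_add _ _ _).symm
        _ < _ := ha _
  one_mem' := by
    intro k
    simpa using hy
  add_mem' := by
    intro a b ha hb k
    have h := A.valuation.map_add a b
    rcases le_total (A.valuation a) (A.valuation b) with h' | h'
    · rw [max_eq_right h'] at h
      exact (pow_le_pow_left₀ zero_le h k).trans_lt (hb k)
    · rw [max_eq_left h'] at h
      exact (pow_le_pow_left₀ zero_le h k).trans_lt (ha k)
  zero_mem' := by
    intro k
    rw [map_zero]
    refine lt_of_le_of_lt ?_ hy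
    exact pow_le_one₀ zero_le zero_le
  neg_mem' := by
    intro a ha k
    rw [Valuation.map_neg]
    exact ha k
  mem_or_inv_mem' := by
    intro a
    rcases A.mem_or_inv_mem a with h | h
    · left
      intro k
      exact (pow_le_one₀ zero_le ((A.valuation_le_one_iff a).2 h)).trans_lt hy
    · right
      intro k
      exact (pow_le_one₀ zero_le ((A.valuation_le_one_iff _).2 h)).trans_lt hy

theorem mem_coarse {A : ValuationSubring F} {y : F} {hy : 1 < A.valuation y} {f : F} :
    f ∈ coarse A y hy ↔ ∀ k : ℕ, A.valuation f ^ k < A.valuation y :=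
  Iff.rfl

theorem le_coarse {A : ValuationSubring F} {y : F} {hy : 1 < A.valuation y} {f : F} (hf : f ∈ A) :
    f ∈ coarse A y hy := by
  rw [mem_coarse]
  intro k
  exact (pow_le_one₀ zero_le ((A.valuation_le_one_iff f).2 hf)).trans_lt hy

/-- The inequality for one valuation ring. -/
theorem power_single (A : ValuationSubring F) {y : F} (hy : 1 < A.valuation y) {t G : F}
    (h : (coarse A y hy).valuation t < (coarse A y hy).valuation G) :
    ∃ k : ℕ, A.valuation t ^ k * A.valuation y ≤ A.valuation G ^ k := by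
  by_cases ht : t = 0
  · refine ⟨1, ?_⟩
    rw [ht, map_zero, pow_one, zero_mul]
    exact zero_le
  have hG : G / t ∉ coarse A y hy := by
    intro hm
    have h1 := ((coarse A y hy).valuation_le_one_iff _).2 hm
    rw [map_div₀, div_le_one₀ (by rw [Valuation.pos_iff]; exact ht)] at h1
    exact absurd h (not_lt.2 h1)
  rw [mem_coarse, not_forall] at hG
  obtain ⟨k, hk⟩ := hG
  refine ⟨k, ?_⟩
  rw [not_lt, map_div₀, div_pow, le_div_iff₀ (pow_pos (by rw [Valuation.pos_iff]; exact ht) _)] at hk
  rwa [mul_comm]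

theorem power_mono {Γ : Type*} [LinearOrderedCommGroupWithZero Γ] {a b c : Γ} (hab : a ≤ b) {m n : ℕ}
    (hmn : m ≤ n) (h : a ^ m * c ≤ b ^ m) : a ^ n * c ≤ b ^ n := by
  obtain ⟨d, rfl⟩ := Nat.exists_eq_add_of_le hmn
  calc a ^ (m + d) * c = (a ^ m * c) * a ^ d := by rw [pow_add, mul_right_comm]
    _ ≤ b ^ m * b ^ d := mul_le_mul' h (pow_le_pow_left₀ zero_le hab d)
    _ = b ^ (m + d) := (pow_add _ _ _).symm

/-- A strict inequality at all valuation rings at which some of finitely many functions is not a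
unit is a strict inequality by a uniform power. -/
theorem uniform_power {k : Type*} [Field k] [Algebra k F] {σ ρ ν : Type*} [Finite σ] [Finite ρ]
    [Finite ν] (t : σ → F) (G : ρ → F) (y : ν → F) (hy : ∀ j, y j ≠ 0) (ht : ∃ s, t s ≠ 0)
    (h1 : ∀ A : ValuationSubring F, (∀ c : k, algebraMap k F c ∈ A) →
      ∃ i, ∀ s, A.valuation (t s) ≤ A.valuation (G i))
    (h2 : ∀ A : ValuationSubring F, (∀ c : k, algebraMap k F c ∈ A) →
      (∃ j, A.valuation (y j) ≠ 1) → ∃ i, ∀ s, A.valuation (t s) < A.valuation (G i)) :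
    ∃ M : ℕ, ∀ A : ValuationSubring F, (∀ c : k, algebraMap k F c ∈ A) →
      ∃ i, ∀ s j, A.valuation (t s) ^ M * A.valuation (y j) ≤ A.valuation (G i) ^ M ∧
        A.valuation (t s) ^ M ≤ A.valuation (G i) ^ M * A.valuation (y j) := by
  classical
  obtain ⟨s₀, hs₀⟩ := ht
  -- for one valuation ring
  have key : ∀ A : ValuationSubring F, (∀ c : k, algebraMap k F c ∈ A) →
      ∃ i : {i // G i ≠ 0}, (∀ s, A.valuation (t s) ≤ A.valuation (G i)) ∧
        ∃ M : ℕ, ∀ s j, A.valuation (t s) ^ M * A.valuation (y j) ≤ A.valuation (G i) ^ M ∧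
          A.valuation (t s) ^ M * A.valuation (y j)⁻¹ ≤ A.valuation (G i) ^ M := by
    intro A hA
    obtain ⟨i₁, hi₁⟩ := h1 A hA
    have : Nonempty ρ := ⟨i₁⟩
    obtain ⟨i, hi⟩ := Finite.exists_max (fun i => A.valuation (G i))
    have hle : ∀ s, A.valuation (t s) ≤ A.valuation (G i) := fun s => (hi₁ s).trans (hi i₁)
    have hGi : G i ≠ 0 := by
      intro h0
      have := hle s₀
      rw [h0, map_zero] at this
      exact hs₀ ((Valuation.zero_iff _).1 (le_antisymm this zero_le))
    refine ⟨⟨i, hGi⟩, hle, ?_⟩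
    -- one function
    have one : ∀ x : F, (1 < A.valuation x → ∃ j, A.valuation (y j) ≠ 1 ∧ (x = y j ∨ x = (y j)⁻¹)) →
        ∃ M : ℕ, ∀ s, A.valuation (t s) ^ M * A.valuation x ≤ A.valuation (G i) ^ M := by
      intro x hx
      by_cases h : 1 < A.valuation x
      · obtain ⟨j, hj, hxj⟩ := hx h
        have hnu : (coarse A x h).valuation (y j) ≠ 1 := by
          intro h3
          have hxm : x ∈ coarse A x h := by
            rw [← (coarse A x h).valuation_le_one_iff]
            rcases hxj with rfl | rfl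
            · exact h3.le
            · rw [map_inv₀, h3, inv_one]
          have := mem_coarse.1 hxm 1
          rw [pow_one] at this
          exact absurd this (lt_irrefl _)
        obtain ⟨i', hi'⟩ := h2 (coarse A x h) (fun c => le_coarse (hA c)) ⟨j, hnu⟩
        have hk : ∀ s, ∃ m : ℕ, A.valuation (t s) ^ m * A.valuation x ≤ A.valuation (G i') ^ m :=
          fun s => power_single A h (hi' s)
        choose m hm using hk
        have : Fintype σ := Fintype.ofFinite σ
        refine ⟨Finset.univ.sup m, fun s => ?_⟩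
        have hm' : A.valuation (t s) ^ m s * A.valuation x ≤ A.valuation (G i) ^ m s :=
          (hm s).trans (pow_le_pow_left₀ zero_le (hi i') _)
        exact power_mono (hle s) (Finset.le_sup (Finset.mem_univ s)) hm'
      · refine ⟨0, fun s => ?_⟩
        rw [pow_zero, pow_zero, one_mul]
        exact not_lt.1 h
    have h3 : ∀ j, ∃ M : ℕ, ∀ s, A.valuation (t s) ^ M * A.valuation (y j) ≤ A.valuation (G i) ^ M :=
      fun j => one (y j) fun h => ⟨j, h.ne', Or.inl rfl⟩
    have h4 : ∀ j, ∃ M : ℕ, ∀ s,
        A.valuation (t s) ^ M * A.valuation (y j)⁻¹ ≤ A.valuation (G i) ^ M :=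
      fun j => one (y j)⁻¹ fun h => ⟨j, by
        intro h5
        rw [map_inv₀, h5, inv_one] at h
        exact lt_irrefl _ h, Or.inr rfl⟩
    choose M₁ hM₁ using h3
    choose M₂ hM₂ using h4
    have : Fintype ν := Fintype.ofFinite ν
    refine ⟨Finset.univ.sup M₁ ⊔ Finset.univ.sup M₂, fun s j => ⟨?_, ?_⟩⟩
    · exact power_mono (hle s) ((Finset.le_sup (Finset.mem_univ j)).trans le_sup_left) (hM₁ j s)
    · exact power_mono (hle s) ((Finset.le_sup (Finset.mem_univ j)).trans le_sup_right) (hM₂ j s)
  -- compactness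
  obtain ⟨S, hS⟩ := compact_c (k := k) (F := F) (I := {i // G i ≠ 0} × ℕ)
    (fun q => Set.range (fun s => t s / G q.1) ∪
      (Set.range (fun a : σ × ν => t a.1 ^ q.2 * y a.2 / G q.1 ^ q.2) ∪
        Set.range (fun a : σ × ν => t a.1 ^ q.2 * (y a.2)⁻¹ / G q.1 ^ q.2))) (fun _ => ∅)
    (fun q => (Set.finite_range _).union ((Set.finite_range _).union (Set.finite_range _)))
    (fun _ => Set.finite_empty) (by
      intro A hA
      obtain ⟨i, hle, M, hM⟩ := key A hA
      refine ⟨(i, M), ?_, fun f hf => absurd hf (Set.notMem_empty f)⟩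
      have hGp : 0 < A.valuation (G i) := by
        rw [Valuation.pos_iff]
        exact i.2
      rintro f (⟨s, rfl⟩ | ⟨⟨s, j⟩, rfl⟩ | ⟨⟨s, j⟩, rfl⟩)
      · change _ ∈ A
        rw [← A.valuation_le_one_iff, map_div₀, div_le_one₀ hGp]
        exact hle s
      · change _ ∈ A
        rw [← A.valuation_le_one_iff, map_div₀, map_mul, map_pow, map_pow,
          div_le_one₀ (pow_pos hGp _)]
        exact (hM s j).1
      · change _ ∈ A
        rw [← A.valuation_le_one_iff, map_div₀, map_mul, map_pow, map_pow,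
          div_le_one₀ (pow_pos hGp _)]
        exact (hM s j).2)
  refine ⟨S.sup fun q => q.2, fun A hA => ?_⟩
  obtain ⟨⟨i, m⟩, hq, hW, -⟩ := hS A hA
  have hGp : 0 < A.valuation (G i) := by
    rw [Valuation.pos_iff]
    exact i.2
  have hm : m ≤ S.sup fun q => q.2 := Finset.le_sup (f := fun q : {i // G i ≠ 0} × ℕ => q.2) hq
  have hle : ∀ s, A.valuation (t s) ≤ A.valuation (G i) := by
    intro s
    have h3 : t s / G i ∈ A := hW (Or.inl ⟨s, rfl⟩)
    rwa [← A.valuation_le_one_iff, map_div₀, div_le_one₀ hGp] at h3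
  refine ⟨i, fun s j => ⟨?_, ?_⟩⟩
  · have h3 : t s ^ m * y j / G i ^ m ∈ A := hW (Or.inr (Or.inl ⟨(s, j), rfl⟩))
    rw [← A.valuation_le_one_iff, map_div₀, map_mul, map_pow, map_pow,
      div_le_one₀ (pow_pos hGp _)] at h3
    exact power_mono (hle s) hm h3
  · have h3 : t s ^ m * (y j)⁻¹ / G i ^ m ∈ A := hW (Or.inr (Or.inr ⟨(s, j), rfl⟩))
    rw [← A.valuation_le_one_iff, map_div₀, map_mul, map_pow, map_pow,
      div_le_one₀ (pow_pos hGp _)] at h3
    have h4 := power_mono (hle s) hm h3
    have hyp : 0 < A.valuation (y j) := by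
      rw [Valuation.pos_iff]
      exact hy j
    rwa [map_inv₀, ← div_eq_mul_inv, div_le_iff₀ hyp] at h4

end Pool.Agent.Lib.MP_17a322_nt.ABN
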