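import Pool.Agent.Lib.MP_17a322_nt.ABN.N0
import Pool.Agent.Lib.MP_17a322_nt.ABN.Pow

universe u

namespace Pool.Agent.Lib.MP_17a322_nt.ABN

open MvPolynomial
open Pool.Agent.Lib.MP_17a322_nt.JAC

/-- A nonzero element that is a unit of the valuation ring has valuation one. -/
private theorem N18_aux_unit {F : Type*} [Field F] (A : ValuationSubring F) {f : F} (hf : f ≠ 0)
    (h : Un A f) : A.valuation f = 1 := by
  have h1 : A.valuation f ≤ 1 := (A.valuation_le_one_iff f).2 h.1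
  have h2 : A.valuation f⁻¹ ≤ 1 := (A.valuation_le_one_iff _).2 h.2
  have h3 : A.valuation f * A.valuation f⁻¹ = 1 := by
    rw [← map_mul, mul_inv_cancel₀ hf, map_one]
  refine le_antisymm h1 ?_
  calc (1 : A.ValueGroup) = A.valuation f * A.valuation f⁻¹ := h3.symm
    _ ≤ A.valuation f * 1 := mul_le_mul_right h2 _
    _ = A.valuation f := mul_one _

/-- The uniform power for the family. -/
theorem fam_power {K F : Type u} {α Λ Λ' : Type} [Field K] [Field F] [Algebra K F] [Fintype α] [DecidableEq α] [Finite Λ] [Finite Λ']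
    (x : α → F) (δ : α → F → F) (N : Λ → F) (D : Λ' → F) (hN : ∃ i, N i ≠ 0) (P : Finset (MvPolynomial α K))
    (hP : ∀ p ∈ P, aeval x p ≠ 0)
    (h : ∀ A : ValuationSubring F, (∀ c : K, algebraMap K F c ∈ A) →
        Le δ A (vals x (P : Set (MvPolynomial α K))) N D ∧
        ((∃ p ∈ P, ¬ Un A (aeval x p)) → Lt δ A (vals x (P : Set (MvPolynomial α K))) N D)) :
    ∃ M : ℕ, 0 < M ∧ ∀ A : ValuationSubring F, (∀ c : K, algebraMap K F c ∈ A) →
      ∃ (k : Λ') (b : α → F), (∀ j, b j ∈ vals x (P : Set (MvPolynomial α K))) ∧ ∀ (i : Λ), ∀ p ∈ P,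
        A.valuation (N i ^ M * aeval x p) ≤ A.valuation ((D k * GG δ b) ^ M) ∧
        A.valuation (N i ^ M) ≤ A.valuation ((D k * GG δ b) ^ M * aeval x p) := by
  obtain ⟨i₀, hi₀⟩ := hN
  have : Nonempty Λ := ⟨i₀⟩
  have hfin : Finite (vals x (P : Set (MvPolynomial α K))) :=
    (P.finite_toSet.image fun p => aeval x p).to_subtype
  have h1 : ∀ A : ValuationSubring F, (∀ c : K, algebraMap K F c ∈ A) →
      ∃ i : Λ' × (α → vals x (P : Set (MvPolynomial α K))), ∀ s,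
        A.valuation (N s) ≤ A.valuation (D i.1 * GG δ fun j => (i.2 j).1) := by
    intro A hA
    obtain ⟨s₀, hs₀⟩ := Finite.exists_max fun s => A.valuation (N s)
    obtain ⟨k, b, hb, hle⟩ := (h A hA).1 s₀
    exact ⟨(k, fun j => ⟨b j, hb j⟩), fun s => (hs₀ s).trans hle⟩
  have h2 : ∀ A : ValuationSubring F, (∀ c : K, algebraMap K F c ∈ A) →
      (∃ j : P, A.valuation (aeval x j.1) ≠ 1) →
      ∃ i : Λ' × (α → vals x (P : Set (MvPolynomial α K))), ∀ s,
        A.valuation (N s) < A.valuation (D i.1 * GG δ fun j => (i.2 j).1) := by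
    rintro A hA ⟨j, hj⟩
    have hlt := (h A hA).2 ⟨j.1, j.2, fun hu => hj (N18_aux_unit A (hP _ j.2) hu)⟩
    obtain ⟨s₀, hs₀⟩ := Finite.exists_max fun s => A.valuation (N s)
    obtain ⟨k, b, hb, hle⟩ := hlt s₀
    exact ⟨(k, fun j => ⟨b j, hb j⟩), fun s => (hs₀ s).trans_lt hle⟩
  obtain ⟨M, hM⟩ := uniform_power (k := K) N
    (fun i : Λ' × (α → vals x (P : Set (MvPolynomial α K))) => D i.1 * GG δ fun j => (i.2 j).1)
    (fun j : P => aeval x j.1) (fun j => hP _ j.2) ⟨i₀, hi₀⟩ h1 h2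
  rcases Nat.eq_zero_or_pos M with h0 | hpos
  · refine ⟨1, one_pos, fun A hA => ?_⟩
    obtain ⟨i, hi⟩ := h1 A hA
    refine ⟨i.1, fun j => (i.2 j).1, fun j => (i.2 j).2, fun s p hp => ?_⟩
    obtain ⟨i', hi'⟩ := hM A hA
    have h3 := hi' i₀ ⟨p, hp⟩
    rw [h0] at h3
    simp only [pow_zero, one_mul] at h3
    have h4 : A.valuation (aeval x p) = 1 := le_antisymm h3.1 h3.2
    rw [map_mul, map_mul, h4, mul_one, mul_one, pow_one, pow_one]
    exact ⟨hi s, hi s⟩
  · refine ⟨M, hpos, fun A hA => ?_⟩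
    obtain ⟨i, hi⟩ := hM A hA
    refine ⟨i.1, fun j => (i.2 j).1, fun j => (i.2 j).2, fun s p hp => ?_⟩
    have h3 := hi s ⟨p, hp⟩
    rw [map_mul, map_mul, map_pow, map_pow]
    exact h3

end Pool.Agent.Lib.MP_17a322_nt.ABN
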