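import Pool.Agent.Lib.MP_17a322_nt.ABN.N0
import Pool.Agent.Lib.MP_17a322_nt.JAC.S2b

universe u

namespace Pool.Agent.Lib.MP_17a322_nt.ABN

open MvPolynomial
open Pool.Agent.Lib.MP_17a322_nt.JAC

variable {F E α : Type*} [Field F] [Field E] [Algebra F E] [Fintype α] [DecidableEq α]

/-- A combination of logarithmic differentials in the strong sense is one in the weak sense. -/
theorem Rp_of_Rs (δ : α → F → F) (F₀ : Subfield F) (O : ValuationSubring E) (r : α → F) (h : Rs δ F₀ O r) :
    Rp δ F₀ O r := by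
  refine spn_mono O ?_ h
  rintro v ⟨a, b, hb, hb0, ha, -, rfl⟩
  exact subset_spn O _ ha (b := fun l => algebraMap F E (δ l b / b)) ⟨b, hb, hb0, rfl⟩

theorem N4_le {A : ValuationSubring F} {O : ValuationSubring E} (hO : ∀ f : F, algebraMap F E f ∈ O ↔ f ∈ A)
    {x y : F} {c : E} (hc : c ∈ O) (h : algebraMap F E x = c * algebraMap F E y) :
    A.valuation x ≤ A.valuation y := by
  by_cases hy : y = 0
  · have hx : x = 0 := by
      rw [hy, map_zero, mul_zero] at h
      exact (map_eq_zero _).1 h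
    rw [hx, hy]
  · have hy' : algebraMap F E y ≠ 0 := (map_ne_zero _).2 hy
    have h1 : algebraMap F E (x / y) = c := by
      rw [map_div₀, h]
      field_simp
    have h2 : x / y ∈ A := by
      rw [← hO, h1]
      exact hc
    have h3 : A.valuation (x / y) ≤ 1 := (A.valuation_le_one_iff _).2 h2
    have h4 : x = x / y * y := by field_simp
    rw [h4, map_mul]
    exact mul_le_of_le_one_left' h3

theorem N4_lt {A : ValuationSubring F} {O : ValuationSubring E} (hO : ∀ f : F, algebraMap F E f ∈ O ↔ f ∈ A)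
    {x y : F} {c : E} (hx : x ≠ 0) (hc : O.valuation c < 1) (h : algebraMap F E x = c * algebraMap F E y) :
    A.valuation x < A.valuation y := by
  have hy : y ≠ 0 := by
    intro hy
    rw [hy, map_zero, mul_zero] at h
    exact hx ((map_eq_zero _).1 h)
  have hy' : algebraMap F E y ≠ 0 := (map_ne_zero _).2 hy
  have h1 : algebraMap F E (x / y) = c := by
    rw [map_div₀, h]
    field_simp
  have hcO : c ∈ O := (O.valuation_le_one_iff _).1 hc.le
  have h2 : x / y ∈ A := by
    rw [← hO, h1]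
    exact hcO
  have h3 : A.valuation (x / y) < 1 := by
    refine lt_of_le_of_ne ((A.valuation_le_one_iff _).2 h2) fun h4 => ?_
    have h5 : (x / y)⁻¹ ∈ A := by
      rw [← A.valuation_le_one_iff, map_inv₀, h4, inv_one]
    have h6 : c⁻¹ ∈ O := by
      rw [← hO, map_inv₀, h1] at h5
      exact h5
    have h7 : O.valuation c⁻¹ ≤ 1 := (O.valuation_le_one_iff _).2 h6
    have hc0 : c ≠ 0 := by
      rw [← h1]
      exact (map_ne_zero _).2 (div_ne_zero hx hy)
    have h8 : O.valuation c * O.valuation c⁻¹ = 1 := by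
      rw [← map_mul, mul_inv_cancel₀ hc0, map_one]
    have h9 : O.valuation c * O.valuation c⁻¹ < 1 := by
      calc O.valuation c * O.valuation c⁻¹ ≤ O.valuation c := mul_le_of_le_one_right' h7
        _ < 1 := hc
    exact absurd h8 h9.ne
  have h4 : x = x / y * y := by field_simp
  have hvy : A.valuation y ≠ 0 := (map_ne_zero _).2 hy
  have h5 : A.valuation x = A.valuation (x / y) * A.valuation y := by
    rw [← map_mul, ← h4]
  rw [h5]
  exact mul_lt_of_lt_one_left (zero_lt_iff.2 hvy) h3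

theorem N4_map (r : α → α → F) :
    (Matrix.of fun k l => algebraMap F E (r k l)).det = algebraMap F E (Matrix.of r).det := by
  rw [RingHom.map_det]
  rfl

/-- The determinant of rows in the span of logarithmic differentials is at most a determinant of logarithmic differentials. -/
theorem det_le (δ : α → F → F) (F₀ : Subfield F) (A : ValuationSubring F) (O : ValuationSubring E)
    (hO : ∀ f : F, algebraMap F E f ∈ O ↔ f ∈ A) (r : α → α → F) (hr : ∀ k, Rp δ F₀ O (r k)) :
    ∃ b : α → F, (∀ k, b k ∈ F₀ ∧ b k ≠ 0) ∧ A.valuation (Matrix.of r).det ≤ A.valuation (GG δ b) := by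
  obtain ⟨w, hw, e, he, hdet⟩ := detSpan O {v : α → E | ∃ b ∈ F₀, b ≠ 0 ∧ v = fun l => algebraMap F E (δ l b / b)}
    ⟨_, 1, F₀.one_mem, one_ne_zero, rfl⟩ (fun k l => algebraMap F E (r k l)) hr
  choose b hb hb0 hwb using hw
  refine ⟨b, fun k => ⟨hb k, hb0 k⟩, ?_⟩
  have h1 : (Matrix.of w).det = algebraMap F E (GG δ b) := by
    unfold GG
    rw [← N4_map]
    congr 1
    ext k l
    exact congrFun (hwb k) l
  rw [N4_map, h1] at hdet
  exact N4_le hO he hdet

theorem N4_prod (O : ValuationSubring E) (a : α → E) (ha : ∀ k, a k ∈ O) (s : Finset α) : ∏ k ∈ s, a k ∈ O :=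
  prod_mem fun k _ => ha k

/-- The strict inequality, unless all elements are units. -/
theorem det_lt (δ : α → F → F) (F₀ : Subfield F) (A : ValuationSubring F) (O : ValuationSubring E)
    (hO : ∀ f : F, algebraMap F E f ∈ O ↔ f ∈ A) (r : α → α → F) (hr : ∀ k, Rs δ F₀ O (r k)) :
    ∃ b : α → F, (∀ k, b k ∈ F₀ ∧ b k ≠ 0) ∧ A.valuation (Matrix.of r).det ≤ A.valuation (GG δ b) ∧
      ((Matrix.of r).det = 0 ∨ A.valuation (Matrix.of r).det < A.valuation (GG δ b) ∨ ∀ k, Un A (b k)) := by
  obtain ⟨w, hw, e, he, hdet⟩ := detSpan O {v : α → E | ∃ (a : E) (b : F), b ∈ F₀ ∧ b ≠ 0 ∧ a ∈ O ∧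
      (O.valuation a < 1 ∨ Un O (algebraMap F E b)) ∧ v = fun l => a * algebraMap F E (δ l b / b)}
    ⟨_, 1, 1, F₀.one_mem, one_ne_zero, O.one_mem, Or.inr ⟨by rw [map_one]; exact O.one_mem, by
      rw [map_one, inv_one]; exact O.one_mem⟩, rfl⟩ (fun k l => algebraMap F E (r k l)) hr
  choose a b hb hb0 ha hab hwb using hw
  have h1 : (Matrix.of w).det = (∏ k, a k) * algebraMap F E (GG δ b) := by
    unfold GG
    rw [← N4_map, ← Matrix.det_mul_column]
    congr 1
    ext k l
    exact congrFun (hwb k) l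
  rw [N4_map, h1, ← mul_assoc] at hdet
  have hc : e * ∏ k, a k ∈ O := O.mul_mem _ _ he (N4_prod O a ha _)
  refine ⟨b, fun k => ⟨hb k, hb0 k⟩, N4_le hO hc hdet, ?_⟩
  by_cases hr0 : (Matrix.of r).det = 0
  · exact Or.inl hr0
  right
  by_cases hu : ∀ k, Un O (algebraMap F E (b k))
  · right
    intro k
    obtain ⟨h2, h3⟩ := hu k
    refine ⟨(hO _).1 h2, (hO _).1 ?_⟩
    rw [map_inv₀]
    exact h3
  · left
    push Not at hu
    obtain ⟨k₀, hk₀⟩ := hu
    have h2 : O.valuation (a k₀) < 1 := (hab k₀).resolve_right hk₀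
    have h3 : O.valuation (e * ∏ k, a k) < 1 := by
      rw [← Finset.mul_prod_erase Finset.univ a (Finset.mem_univ k₀)]
      have h4 : e * (a k₀ * ∏ k ∈ Finset.univ.erase k₀, a k) = (e * ∏ k ∈ Finset.univ.erase k₀, a k) * a k₀ := by ring
      rw [h4, map_mul]
      have h5 : O.valuation (e * ∏ k ∈ Finset.univ.erase k₀, a k) ≤ 1 :=
        (O.valuation_le_one_iff _).2 (O.mul_mem _ _ he (N4_prod O a ha _))
      exact lt_of_le_of_lt (mul_le_of_le_one_left' h5) h2
    exact N4_lt hO hr0 h3 hdet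

end Pool.Agent.Lib.MP_17a322_nt.ABN
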