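import Pool.Agent.Lib.MP_17a322_nt.ABN.N0

universe u

namespace Pool.Agent.Lib.MP_17a322_nt.ABN

open MvPolynomial
open Pool.Agent.Lib.MP_17a322_nt.JAC

theorem N5_chain {K F α : Type*} [Field K] [Field F] [Algebra K F] [Fintype α] [DecidableEq α]
    (δ : Derivation K F F) (b : α → F) (Q : MvPolynomial α K) :
    δ (aeval b Q) = ∑ j, aeval b (pderiv j Q) * δ (b j) := by
  induction Q using MvPolynomial.induction_on with
  | C a =>
    rw [aeval_C, Derivation.map_algebraMap]
    symm
    refine Finset.sum_eq_zero fun j _ => ?_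
    rw [pderiv_C, map_zero, zero_mul]
  | add p q hp hq =>
    rw [map_add, map_add, hp, hq, ← Finset.sum_add_distrib]
    refine Finset.sum_congr rfl fun j _ => ?_
    rw [map_add, map_add, add_mul]
  | mul_X p i hp =>
    rw [map_mul, aeval_X, Derivation.leibniz, hp, smul_eq_mul, smul_eq_mul]
    have h1 : ∀ j, aeval b (pderiv j (p * X i)) * δ (b j) =
        (if j = i then aeval b p * δ (b j) else 0) + b i * (aeval b (pderiv j p) * δ (b j)) := by
      intro j
      rw [pderiv_mul, pderiv_X, map_add, map_mul, map_mul, aeval_X]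
      by_cases hj : j = i
      · subst hj
        simp only [Pi.single_eq_same, if_true, map_one]
        ring
      · rw [if_neg hj, Pi.single_eq_of_ne (fun h => hj h.symm), map_zero]
        ring
    simp only [h1]
    rw [Finset.sum_add_distrib, Finset.sum_ite_eq' Finset.univ i, if_pos (Finset.mem_univ i), Finset.mul_sum]

theorem N5_basis {K F α : Type*} [Field K] [Field F] [Algebra K F] (x : α → F)
    (hx : AlgebraicIndependent K x) (halg : ∀ f : F, IsAlgebraic (F0 K x) f) : IsTranscendenceBasis K x := by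
  rw [hx.isTranscendenceBasis_iff_isAlgebraic]
  have hle : ∀ a : F, a ∈ F0 K x → a ∈ IntermediateField.adjoin K (Set.range x) := fun a ha => ha
  let φ : F0 K x →+* IntermediateField.adjoin K (Set.range x) :=
    { toFun := fun a => ⟨a.1, hle a.1 a.2⟩
      map_one' := rfl
      map_mul' := fun _ _ => rfl
      map_zero' := rfl
      map_add' := fun _ _ => rfl }
  have h1 : Algebra.IsAlgebraic (IntermediateField.adjoin K (Set.range x)) F := by
    constructor
    intro f
    obtain ⟨p, hp0, hp⟩ := halg f
    refine ⟨p.map φ, ?_, ?_⟩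
    · rw [Ne, Polynomial.map_eq_zero]
      exact hp0
    · rw [Polynomial.aeval_def, Polynomial.eval₂_map]
      exact hp
  open scoped IntermediateField.algebraAdjoinAdjoin in
  exact Algebra.IsAlgebraic.trans (Algebra.adjoin K (Set.range x)) (IntermediateField.adjoin K (Set.range x)) F

theorem N5_dep {K F α : Type*} [Field K] [Field F] [Algebra K F] [Fintype α] (x : α → F)
    (hx : IsTranscendenceBasis K x) (g : F) (b : α → F) :
    ∃ p : Polynomial (MvPolynomial α K), p ≠ 0 ∧ p.eval₂ (aeval b : MvPolynomial α K →ₐ[K] F).toRingHom g = 0 := by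
  classical
  have h0 : ¬ AlgebraicIndependent K (fun o : Option α => o.elim g b) := by
    intro h
    have h1 := h.lift_cardinalMk_le_trdeg
    rw [← hx.lift_cardinalMk_eq_trdeg, Cardinal.lift_le, Cardinal.mk_fintype, Cardinal.mk_fintype,
      Nat.cast_le, Fintype.card_option] at h1
    omega
  rw [algebraicIndependent_iff] at h0
  push Not at h0
  obtain ⟨P, hP, hP0⟩ := h0
  refine ⟨optionEquivLeft K α P, ?_, ?_⟩
  · intro h
    exact hP0 ((optionEquivLeft K α).injective (by rw [h, map_zero]))
  · rw [← hP]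
    have key : ∀ Q : MvPolynomial (Option α) K,
        (optionEquivLeft K α Q).eval₂ (aeval b : MvPolynomial α K →ₐ[K] F).toRingHom g =
          aeval (fun o : Option α => o.elim g b) Q := by
      intro Q
      induction Q using MvPolynomial.induction_on with
      | C a =>
        rw [optionEquivLeft_C, Polynomial.eval₂_C, aeval_C]
        exact aeval_C _ _
      | add p q hp hq => rw [map_add, map_add, Polynomial.eval₂_add, hp, hq]
      | mul_X p i hp =>
        rw [map_mul, map_mul, Polynomial.eval₂_mul, hp, aeval_X]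
        congr 1
        cases i with
        | none => rw [optionEquivLeft_X_none, Polynomial.eval₂_X]; rfl
        | some i =>
          rw [optionEquivLeft_X_some, Polynomial.eval₂_C]
          exact aeval_X _ _
    exact key P

theorem N5_mem {K F α : Type*} [Field K] [Field F] [Algebra K F] (A : ValuationSubring F)
    (hA : ∀ c : K, algebraMap K F c ∈ A) (b : α → F) (hb : ∀ k, b k ∈ A) (Q : MvPolynomial α K) :
    aeval b Q ∈ A := by
  induction Q using MvPolynomial.induction_on with
  | C a => rw [aeval_C]; exact hA a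
  | add p q hp hq => rw [map_add]; exact A.add_mem _ _ hp hq
  | mul_X p i hp => rw [map_mul, aeval_X]; exact A.mul_mem _ _ hp (hb i)

theorem N5_memF {K F α : Type*} [Field K] [Field F] [Algebra K F] (x : α → F)
    (b : α → F) (hb : ∀ k, b k ∈ F0 K x) (Q : MvPolynomial α K) :
    aeval b Q ∈ F0 K x := by
  induction Q using MvPolynomial.induction_on with
  | C a => rw [aeval_C]; exact Subfield.subset_closure (Or.inl ⟨a, rfl⟩)
  | add p q hp hq => rw [map_add]; exact (F0 K x).add_mem hp hq
  | mul_X p i hp => rw [map_mul, aeval_X]; exact (F0 K x).mul_mem hp (hb i)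

theorem N5_eval_mem {K F α : Type*} [Field K] [Field F] [Algebra K F] (A : ValuationSubring F)
    (hA : ∀ c : K, algebraMap K F c ∈ A) (b : α → F) (hb : ∀ k, b k ∈ A) (g : F) (hg : g ∈ A)
    (p : Polynomial (MvPolynomial α K)) :
    p.eval₂ (aeval b : MvPolynomial α K →ₐ[K] F).toRingHom g ∈ A := by
  rw [Polynomial.eval₂_eq_sum_range]
  refine sum_mem fun i _ => A.mul_mem _ _ (N5_mem A hA b hb _) (pow_mem hg i)

/-- a nonzero polynomial with value in the maximal ideal -/
theorem N5_exists {K F α : Type*} [Field K] [Field F] [Algebra K F] (A : ValuationSubring F)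
    (hA : ∀ c : K, algebraMap K F c ∈ A) (b : α → F) (hb : ∀ k, b k ∈ A) (g : F) (hg0 : g ≠ 0)
    (hg : A.valuation g < 1) : ∀ (n : ℕ) (p : Polynomial (MvPolynomial α K)), p.natDegree ≤ n → p ≠ 0 →
      p.eval₂ (aeval b : MvPolynomial α K →ₐ[K] F).toRingHom g = 0 →
      ∃ Q : MvPolynomial α K, Q ≠ 0 ∧ A.valuation (aeval b Q) < 1 := by
  intro n
  induction n with
  | zero =>
    intro p hn hp0 hp
    have h1 : p = Polynomial.C (p.coeff 0) := Polynomial.eq_C_of_natDegree_le_zero hn
    refine ⟨p.coeff 0, ?_, ?_⟩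
    · intro h
      apply hp0
      rw [h1, h, map_zero]
    · rw [h1, Polynomial.eval₂_C] at hp
      have h2 : aeval b (p.coeff 0) = 0 := hp
      rw [h2, map_zero]
      exact zero_lt_one
  | succ n ih =>
    intro p hn hp0 hp
    have h1 := p.divX_mul_X_add
    have hgA : g ∈ A := (A.valuation_le_one_iff _).1 hg.le
    rw [← h1, Polynomial.eval₂_add, Polynomial.eval₂_mul, Polynomial.eval₂_X, Polynomial.eval₂_C] at hp
    by_cases h2 : p.coeff 0 = 0
    · rw [h2, map_zero, add_zero] at hp
      have h3 := (mul_eq_zero.1 hp).resolve_right hg0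
      refine ih p.divX ?_ ?_ h3
      · rw [Polynomial.natDegree_divX_eq_natDegree_tsub_one]
        omega
      · intro h
        apply hp0
        rw [← h1, h, h2, zero_mul, map_zero, add_zero]
    · refine ⟨p.coeff 0, h2, ?_⟩
      have h3 : aeval b (p.coeff 0) =
          -(p.divX.eval₂ (aeval b : MvPolynomial α K →ₐ[K] F).toRingHom g * g) :=
        eq_neg_of_add_eq_zero_right hp
      rw [h3, Valuation.map_neg, map_mul]
      have h4 : A.valuation (p.divX.eval₂ (aeval b : MvPolynomial α K →ₐ[K] F).toRingHom g) ≤ 1 :=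
        (A.valuation_le_one_iff _).2 (N5_eval_mem A hA b hb g hgA _)
      exact lt_of_le_of_lt (mul_le_of_le_one_left' h4) hg

theorem N5_min {K F α : Type*} [Field K] [CharZero K] [Field F] [Algebra K F] (A : ValuationSubring F)
    (hA : ∀ c : K, algebraMap K F c ∈ A) (b : α → F) (hb : ∀ k, b k ∈ A) :
    ∀ (n : ℕ) (Q : MvPolynomial α K), Q.totalDegree ≤ n → Q ≠ 0 → A.valuation (aeval b Q) < 1 →
      ∃ (Q : MvPolynomial α K) (i : α), A.valuation (aeval b Q) < 1 ∧ A.valuation (aeval b (pderiv i Q)) = 1 := by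
  classical
  intro n
  have hone : ∀ c : K, c ≠ 0 → A.valuation (algebraMap K F c) = 1 := by
    intro c hc
    have h1 : A.valuation (algebraMap K F c) ≤ 1 := (A.valuation_le_one_iff _).2 (hA c)
    have h2 : A.valuation (algebraMap K F c⁻¹) ≤ 1 := (A.valuation_le_one_iff _).2 (hA c⁻¹)
    refine le_antisymm h1 ?_
    have h3 : A.valuation (algebraMap K F c) * A.valuation (algebraMap K F c⁻¹) = 1 := by
      rw [← map_mul, ← map_mul, mul_inv_cancel₀ hc, map_one, map_one]
    calc (1 : A.ValueGroup) = A.valuation (algebraMap K F c) * A.valuation (algebraMap K F c⁻¹) := h3.symm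
      _ ≤ A.valuation (algebraMap K F c) := mul_le_of_le_one_right' h2
  induction n with
  | zero =>
    intro Q hn hQ0 hQ
    exfalso
    have h1 := totalDegree_eq_zero_iff_eq_C.1 (Nat.le_zero.1 hn)
    rw [h1, aeval_C] at hQ
    refine absurd (hone _ ?_) hQ.ne
    intro h
    apply hQ0
    rw [h1, h, map_zero]
  | succ n ih =>
    intro Q hn hQ0 hQ
    by_cases hc : ∃ m ∈ Q.support, m ≠ 0
    · obtain ⟨m, hm, hm0⟩ := hc
      obtain ⟨i, hi⟩ := Finsupp.ne_iff.1 hm0
      rw [Finsupp.zero_apply] at hi
      have h1 : pderiv i Q ≠ 0 := by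
        intro h
        have h2 := coeff_pderiv (i := i) Q (m - Finsupp.single i 1)
        rw [h, coeff_zero] at h2
        have h3 : m - Finsupp.single i 1 + Finsupp.single i 1 = m := by
          refine tsub_add_cancel_of_le ?_
          rw [Finsupp.single_le_iff]
          omega
        rw [h3] at h2
        have h4 : coeff m Q ≠ 0 := mem_support_iff.1 hm
        have h5 : (((m - Finsupp.single i 1 : α →₀ ℕ) i : ℕ) : K) + 1 ≠ 0 := by
          exact Nat.cast_add_one_ne_zero _
        exact (mul_ne_zero h4 h5) h2.symm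
      have h2 : (pderiv i Q).totalDegree ≤ n := by
        refine Finset.sup_le fun m' hm' => ?_
        rw [mem_support_iff, coeff_pderiv] at hm'
        have h3 : m' + Finsupp.single i 1 ∈ Q.support := by
          rw [mem_support_iff]
          intro h
          rw [h, zero_mul] at hm'
          exact hm' rfl
        have h4 := le_totalDegree h3
        have h5 : (m' + Finsupp.single i 1).sum (fun _ e => e) = m'.sum (fun _ e => e) + 1 := by
          rw [Finsupp.sum_add_index' (fun _ => rfl) (fun _ _ _ => rfl), Finsupp.sum_single_index rfl]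
        rw [h5] at h4
        omega
      by_cases h3 : A.valuation (aeval b (pderiv i Q)) = 1
      · exact ⟨Q, i, hQ, h3⟩
      · have h4 : A.valuation (aeval b (pderiv i Q)) ≤ 1 :=
          (A.valuation_le_one_iff _).2 (N5_mem A hA b hb _)
        exact ih (pderiv i Q) h2 h1 (lt_of_le_of_ne h4 h3)
    · push Not at hc
      have h1 : Q.totalDegree ≤ n := by
        refine Finset.sup_le fun m hm => ?_
        rw [hc m hm, Finsupp.sum_zero_index]
        exact Nat.zero_le _
      exact ih Q h1 hQ0 hQ

/-- A strictly larger determinant of logarithmic differentials exists if some element of the field is not a unit. -/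
theorem ST {K F α : Type*} [Field K] [CharZero K] [Field F] [Algebra K F] [Fintype α] [DecidableEq α] (x : α → F)
    (hx : AlgebraicIndependent K x) (halg : ∀ f : F, IsAlgebraic (F0 K x) f) (δ : α → Derivation K F F) (A : ValuationSubring F)
    (hA : ∀ c : K, algebraMap K F c ∈ A) (b : α → F) (hb : ∀ k, b k ∈ F0 K x) (hu : ∀ k, Un A (b k)) (f : F) (hf : f ∈ F0 K x)
    (hf0 : f ≠ 0) (hfu : ¬ Un A f) :
    GG (fun l => δ l) b = 0 ∨ ∃ b' : α → F, (∀ k, b' k ∈ F0 K x ∧ b' k ≠ 0) ∧
      A.valuation (GG (fun l => δ l) b) < A.valuation (GG (fun l => δ l) b') := by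
  by_cases hb0 : ∀ k, b k ≠ 0
  swap
  · left
    push Not at hb0
    obtain ⟨k, hk⟩ := hb0
    unfold GG
    refine Matrix.det_eq_zero_of_row_eq_zero k fun l => ?_
    rw [Matrix.of_apply, hk, div_zero]
  by_cases hG : GG (fun l => δ l) b = 0
  · exact Or.inl hG
  right
  have hvb : ∀ k, A.valuation (b k) = 1 := by
    intro k
    refine le_antisymm ((A.valuation_le_one_iff _).2 (hu k).1) ?_
    have h2 : A.valuation (b k)⁻¹ ≤ 1 := (A.valuation_le_one_iff _).2 (hu k).2
    have h3 : A.valuation (b k) * A.valuation (b k)⁻¹ = 1 := by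
      rw [← map_mul, mul_inv_cancel₀ (hb0 k), map_one]
    calc (1 : A.ValueGroup) = A.valuation (b k) * A.valuation (b k)⁻¹ := h3.symm
      _ ≤ A.valuation (b k) := mul_le_of_le_one_right' h2
  -- an element of the maximal ideal
  obtain ⟨g, hg0, hg⟩ : ∃ g : F, g ≠ 0 ∧ A.valuation g < 1 := by
    by_cases h1 : f ∈ A
    · refine ⟨f, hf0, lt_of_le_of_ne ((A.valuation_le_one_iff _).2 h1) fun h2 => hfu ⟨h1, ?_⟩⟩
      rw [← A.valuation_le_one_iff, map_inv₀, h2, inv_one]
    · refine ⟨f⁻¹, inv_ne_zero hf0, ?_⟩
      have h2 : 1 < A.valuation f := by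
        rw [← not_le, A.valuation_le_one_iff]
        exact h1
      rw [map_inv₀]
      exact (inv_lt_one₀ (lt_trans zero_lt_one h2)).2 h2
  obtain ⟨p, hp0, hp⟩ := N5_dep x (N5_basis x hx halg) g b
  obtain ⟨Q₀, hQ₀, hvQ₀⟩ := N5_exists A hA b (fun k => (hu k).1) g hg0 hg p.natDegree p le_rfl hp0 hp
  obtain ⟨Q, i, hQ, hQi⟩ := N5_min A hA b (fun k => (hu k).1) Q₀.totalDegree Q₀ le_rfl hQ₀ hvQ₀
  obtain ⟨c, hc⟩ : ∃ c : F, c = aeval b Q := ⟨_, rfl⟩
  obtain ⟨M, hM⟩ : ∃ M : Matrix α α F, M = Matrix.of fun k l => δ l (b k) / b k := ⟨_, rfl⟩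
  have hGM : GG (fun l => δ l) b = M.det := by rw [hM]; rfl
  have h1 : (M.updateRow i (fun l => δ l c)).det = aeval b (pderiv i Q) * b i * M.det := by
    have h2 : (fun l => δ l c) = ∑ j, (aeval b (pderiv j Q) * b j) • M j := by
      funext l
      rw [hc, N5_chain, Finset.sum_apply]
      refine Finset.sum_congr rfl fun j _ => ?_
      rw [Pi.smul_apply, smul_eq_mul, hM, Matrix.of_apply]
      field_simp [hb0 j]
    rw [h2, Matrix.det_updateRow_sum, smul_eq_mul]
  have hq0 : aeval b (pderiv i Q) ≠ 0 := by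
    intro h
    rw [h, map_zero] at hQi
    exact zero_ne_one hQi
  rw [hGM] at hG
  have hc0 : c ≠ 0 := by
    intro h
    have h2 : (M.updateRow i (fun l => δ l c)).det = 0 := by
      refine Matrix.det_eq_zero_of_row_eq_zero i fun l => ?_
      rw [Matrix.updateRow_self, h, map_zero]
    rw [h2] at h1
    exact (mul_ne_zero (mul_ne_zero hq0 (hb0 i)) hG) h1.symm
  refine ⟨Function.update b i c, ?_, ?_⟩
  · intro k
    by_cases hk : k = i
    · subst hk
      rw [Function.update_self]
      refine ⟨?_, hc0⟩
      rw [hc]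
      exact N5_memF x b hb Q
    · rw [Function.update_of_ne hk]
      exact ⟨hb k, hb0 k⟩
  · have h2 : GG (fun l => δ l) (Function.update b i c) = (M.updateRow i (fun l => c⁻¹ • δ l c)).det := by
      unfold GG
      congr 1
      ext k l
      rw [Matrix.of_apply]
      by_cases hk : k = i
      · subst hk
        rw [Function.update_self, Matrix.updateRow_self, smul_eq_mul, div_eq_mul_inv, mul_comm]
      · rw [Function.update_of_ne hk, Matrix.updateRow_ne hk, hM, Matrix.of_apply]
    have h3 : c * GG (fun l => δ l) (Function.update b i c) = aeval b (pderiv i Q) * b i * M.det := by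
      have h4 : (fun l => c⁻¹ • δ l c) = c⁻¹ • (fun l => δ l c) := rfl
      rw [h2, h4, Matrix.det_updateRow_smul, h1]
      field_simp
    have h4 : A.valuation c * A.valuation (GG (fun l => δ l) (Function.update b i c)) = A.valuation M.det := by
      rw [← map_mul, h3, map_mul, map_mul, hQi, hvb i, one_mul, one_mul]
    have h5 : A.valuation M.det ≠ 0 := (map_ne_zero _).2 hG
    have h6 : A.valuation (GG (fun l => δ l) (Function.update b i c)) ≠ 0 := by
      intro h
      rw [h, mul_zero] at h4
      exact h5 h4.symm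
    rw [hGM, ← h4]
    refine mul_lt_of_lt_one_left (zero_lt_iff.2 h6) ?_
    rw [hc]
    exact hQ

end Pool.Agent.Lib.MP_17a322_nt.ABN
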