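import Pool.Agent.Lib.MP_17a322_nt.ABN.N2b
import Pool.Agent.Lib.MP_17a322_nt.ABN.N4
import Pool.Agent.Lib.MP_17a322_nt.ABN.N5
import Pool.Agent.Lib.MP_17a322_nt.ABN.N6

universe u

namespace Pool.Agent.Lib.MP_17a322_nt.ABN

open MvPolynomial
open Pool.Agent.Lib.MP_17a322_nt.JAC

/-- The determinant of a matrix whose row `none` is the unit vector of `none`. -/
private theorem N7_det_option {F α : Type*} [Field F] [Fintype α] [DecidableEq α] (N : Matrix (Option α) (Option α) F)
    (h1 : N none none = 1) (h0 : ∀ c, N none (some c) = 0) :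
    N.det = (N.submatrix some some).det := by
  have e1 : N.submatrix (Equiv.optionEquivSumPUnit.{0} α).symm (Equiv.optionEquivSumPUnit.{0} α).symm =
      Matrix.fromBlocks (N.submatrix some some) (Matrix.of fun l _ => N (some l) none) 0 1 := by
    ext i j
    rcases i with i | i <;> rcases j with j | j
    · rfl
    · rfl
    · exact h0 j
    · rw [Matrix.fromBlocks_apply₂₂]
      have : j = i := Subsingleton.elim _ _
      subst this
      rw [Matrix.one_apply_eq]
      exact h1
  rw [← Matrix.det_submatrix_equiv_self (Equiv.optionEquivSumPUnit.{0} α).symm N, e1, Matrix.det_fromBlocks_zero₂₁,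
    Matrix.det_one, mul_one]

/-- Expansion along the row `none` whose entries are in the valuation ring. -/
private theorem N7_expand {F ι α : Type*} [Field F] [Fintype α] [DecidableEq α] (A : ValuationSubring F)
    (D : α → ι → F) (y : ι → F) (hy : ∀ a, y a ∈ A) (s : Option α → ι) :
    ∃ Y : α → ι, A.valuation (Matrix.of fun a b : Option α => a.elim (y (s b)) fun l => D l (s b)).det ≤
      A.valuation (Matrix.of fun (i l : α) => D l (Y i)).det := by
  classical
  set M : Matrix (Option α) (Option α) F := Matrix.of fun a b : Option α => a.elim (y (s b)) fun l => D l (s b) with hM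
  obtain ⟨j₀, hj₀⟩ := Finite.exists_max fun j : Option α => A.valuation (M.updateRow none (Pi.single j 1)).det
  refine ⟨fun c => s (Equiv.swap none j₀ (some c)), ?_⟩
  have h1 : A.valuation M.det ≤ A.valuation (M.updateRow none (Pi.single j₀ 1)).det := by
    rw [Matrix.det_eq_sum_mul_adjugate_row M none]
    refine Valuation.map_sum_le _ fun j _ => ?_
    rw [map_mul, Matrix.adjugate_apply]
    have h2 : A.valuation (M none j) ≤ 1 := (A.valuation_le_one_iff _).2 (hy (s j))
    calc A.valuation (M none j) * A.valuation (M.updateRow none (Pi.single j 1)).det ≤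
        1 * A.valuation (M.updateRow none (Pi.single j₀ 1)).det := mul_le_mul' h2 (hj₀ j)
      _ = _ := one_mul _
  refine h1.trans (le_of_eq ?_)
  set N : Matrix (Option α) (Option α) F := (M.updateRow none (Pi.single j₀ 1)).submatrix id (Equiv.swap none j₀) with hN
  have h2 : N.det = (Equiv.Perm.sign (Equiv.swap none j₀) : F) * (M.updateRow none (Pi.single j₀ 1)).det := by
    rw [hN, Matrix.det_permute']
  have h3 : N.det = (N.submatrix some some).det := by
    apply N7_det_option
    · rw [hN, Matrix.submatrix_apply, Equiv.swap_apply_left, id_eq, Matrix.updateRow_self, Pi.single_eq_same]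
    · intro c
      rw [hN, Matrix.submatrix_apply, id_eq, Matrix.updateRow_self]
      apply Pi.single_eq_of_ne
      intro h
      have h4 := congrArg (Equiv.swap none j₀) h
      rw [Equiv.swap_apply_self, Equiv.swap_apply_right] at h4
      exact Option.some_ne_none c h4
  have h4 : (N.submatrix some some).det = (Matrix.of fun (i l : α) => D l (s (Equiv.swap none j₀ (some i)))).det := by
    rw [← Matrix.det_transpose]
    congr 1
  have h5 : A.valuation N.det = A.valuation (M.updateRow none (Pi.single j₀ 1)).det := by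
    rw [h2]
    rcases Int.units_eq_one_or (Equiv.Perm.sign (Equiv.swap none j₀)) with h | h
    · rw [h]
      simp
    · rw [h]
      simp [Valuation.map_neg]
  rw [← h5, h3, h4]

/-- The determinant of the values and the derivatives in terms of the quotients `z a / z b`. -/
private theorem N7_det_z {k F ι α : Type*} [Field k] [Field F] [Algebra k F] [Fintype α] [DecidableEq α]
    (δ : α → Derivation k F F) (z : ι → F) (b : ι) (hb : z b ≠ 0) (s : Option α → ι) :
    (Matrix.of fun a c : Option α => a.elim (z (s c)) fun l => δ l (z (s c))).det =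
      z b ^ (Fintype.card (Option α)) *
        (Matrix.of fun a c : Option α => a.elim (z (s c) / z b) fun l => δ l (z (s c) / z b)).det := by
  rw [← Matrix.det_smul]
  apply Matrix.det_eq_of_forall_row_eq_smul_add_const (fun a : Option α => a.elim 0 fun l => δ l (z b) / z b) none rfl
  intro a c
  have hz : z (s c) = z b * (z (s c) / z b) := by field_simp
  cases a with
  | none =>
    simp only [Matrix.of_apply, Option.elim_none, Matrix.smul_apply, smul_eq_mul, zero_mul, add_zero]
    exact hz
  | some l =>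
    simp only [Matrix.of_apply, Option.elim_some, Option.elim_none, Matrix.smul_apply, smul_eq_mul]
    have h1 : δ l (z (s c)) = z b * δ l (z (s c) / z b) + z (s c) / z b * δ l (z b) := by
      have h2 := (δ l).leibniz (z b) (z (s c) / z b)
      rw [← hz, smul_eq_mul, smul_eq_mul] at h2
      exact h2
    rw [h1]
    field_simp

/-- The determinant `NZ` of the quotients `z a / z i`. -/
theorem NZ_scale {F ι α : Type*} [Field F] [Fintype α] [DecidableEq α] {k : Type*} [Field k] [Algebra k F] (δ : α → Derivation k F F)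
    (z : ι → F) (i : ι) (hi : z i ≠ 0) (s : Option α → ι) :
    NZ (fun l => δ l) z s = z i ^ (Fintype.card α + 1) * NZ (fun l => δ l) (fun a => z a / z i) s := by
  unfold NZ
  rw [← Fintype.card_option]
  exact N7_det_z δ z i hi s

/-- For elements of the valuation ring the determinant `NZ` is at most a determinant of derivatives. -/
theorem NZ_le {F ι α : Type*} [Field F] [Fintype α] [DecidableEq α] {k : Type*} [Field k] [Algebra k F] (δ : α → Derivation k F F)
    (A : ValuationSubring F) (y : ι → F) (hy : ∀ a, y a ∈ A) (s : Option α → ι) :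
    ∃ Y : α → ι, A.valuation (NZ (fun l => δ l) y s) ≤ A.valuation (Matrix.of fun k l => δ l (y (Y k))).det :=
  N7_expand A (fun l a => δ l (y a)) y hy s

/-- The inequality for `D = 0` at one valuation ring. -/
theorem T0 {K F : Type u} {ι α : Type} [Field K] [CharZero K] [Field F] [Algebra K F] [Fintype α] [DecidableEq α] [Finite ι]
    (x : α → F) (hx : AlgebraicIndependent K x) [FiniteDimensional (F0 K x) F] (δ : α → Derivation K F F)
    (hδ : ∀ l l', δ l (x l') = if l = l' then 1 else 0) (z : ι → F) (hz : ∃ i, z i ≠ 0) (A : ValuationSubring F)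
    (hA : ∀ c : K, algebraMap K F c ∈ A) :
    ∃ P : Finset (MvPolynomial α K), (∀ p ∈ P, p ≠ 0 ∧ aeval x p ≠ 0) ∧
      Le (fun l => δ l) A (vals x (P : Set (MvPolynomial α K))) (fun s : Option α → ι => NZ (fun l => δ l) z s)
        (fun i : ι => z i ^ (Fintype.card α + 1)) ∧
      ((∃ f ∈ F0 K x, f ≠ 0 ∧ ¬ Un A f) →
        Lt (fun l => δ l) A (vals x (P : Set (MvPolynomial α K))) (fun s : Option α → ι => NZ (fun l => δ l) z s)
          (fun i : ι => z i ^ (Fintype.card α + 1))) := by
  classical
  obtain ⟨i₀, hi₀⟩ := hz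
  have : Nonempty ι := ⟨i₀⟩
  obtain ⟨i, hi⟩ := Finite.exists_max fun j : ι => A.valuation (z j)
  have hzi : z i ≠ 0 := by
    intro h
    have h1 := hi i₀
    rw [h, map_zero] at h1
    exact hi₀ ((map_eq_zero A.valuation).mp (le_antisymm h1 zero_le'))
  have hvi : A.valuation (z i) ≠ 0 := (map_ne_zero _).mpr hzi
  have hy : ∀ a, z a / z i ∈ A := by
    intro a
    rw [← A.valuation_le_one_iff, map_div₀]
    exact div_le_one_of_le₀ (hi a) zero_le'
  obtain ⟨E, _, _, O, hO, hRs, _⟩ := LE δ (F0 K x) A hA
  have hzp : A.valuation (z i ^ (Fintype.card α + 1)) ≠ 0 := by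
    rw [map_pow]
    exact pow_ne_zero _ hvi
  -- the basic statement for every `s`
  have key : ∀ s : Option α → ι, ∃ (d : F) (b : α → F), (∀ k, b k ∈ F0 K x ∧ b k ≠ 0) ∧
      A.valuation (NZ (fun l => δ l) z s) ≤ A.valuation (z i ^ (Fintype.card α + 1) * d) ∧
      A.valuation d ≤ A.valuation (GG (fun l => δ l) b) ∧
      (d = 0 ∨ A.valuation d < A.valuation (GG (fun l => δ l) b) ∨ ∀ k, Un A (b k)) := by
    intro s
    obtain ⟨Y, hY⟩ := NZ_le δ A (fun a => z a / z i) hy s
    obtain ⟨b, hb, hb1, hb2⟩ := det_lt (fun l => δ l) (F0 K x) A O hO (fun k l => δ l (z (Y k) / z i))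
      (fun k => hRs _ (hy (Y k)))
    refine ⟨_, b, hb, ?_, hb1, hb2⟩
    rw [NZ_scale δ z i hzi s, map_mul, map_mul]
    exact mul_le_mul' le_rfl hY
  have hx0 : ∀ l, x l ≠ 0 := fun l => hx.ne_zero l
  have hxF : ∀ l, x l ∈ F0 K x := fun l => Subfield.subset_closure (Or.inr ⟨l, rfl⟩)
  have halg : ∀ f : F, IsAlgebraic (F0 K x) f := fun f =>
    (Algebra.IsAlgebraic.of_finite (F0 K x) F).isAlgebraic f
  obtain ⟨P₁, hP₁, hLe⟩ := Le_of x δ A (fun s : Option α → ι => NZ (fun l => δ l) z s)
    (fun i : ι => z i ^ (Fintype.card α + 1)) (by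
      intro s
      obtain ⟨d, b, hb, h1, h2, _⟩ := key s
      refine ⟨i, b, hb, h1.trans ?_⟩
      rw [map_mul, map_mul]
      exact mul_le_mul' le_rfl h2)
  by_cases hf : ∃ f ∈ F0 K x, f ≠ 0 ∧ ¬ Un A f
  · obtain ⟨f, hfF, hf0, hfu⟩ := hf
    have hGx : A.valuation (GG (fun l => δ l) x) ≠ 0 := (map_ne_zero _).mpr (GG_x x hx0 δ hδ)
    obtain ⟨P₂, hP₂, hLt⟩ := Lt_of x δ A (fun s : Option α → ι => NZ (fun l => δ l) z s)
      (fun i : ι => z i ^ (Fintype.card α + 1)) (by
        intro s
        obtain ⟨d, b, hb, h1, h2, h3⟩ := key s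
        -- it is enough to find `b'` with a larger value than `d`
        have hsuff : (∃ b' : α → F, (∀ k, b' k ∈ F0 K x ∧ b' k ≠ 0) ∧
            A.valuation d < A.valuation (GG (fun l => δ l) b')) →
            ∃ (k : ι) (b : α → F), (∀ j, b j ∈ F0 K x ∧ b j ≠ 0) ∧
              A.valuation (NZ (fun l => δ l) z s) < A.valuation (z k ^ (Fintype.card α + 1) * GG (fun l => δ l) b) := by
          rintro ⟨b', hb', hlt⟩
          refine ⟨i, b', hb', h1.trans_lt ?_⟩
          rw [map_mul, map_mul]
          exact mul_lt_mul_of_pos_left hlt (zero_lt_iff.mpr hzp)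
        have hzero : d = 0 → ∃ b' : α → F, (∀ k, b' k ∈ F0 K x ∧ b' k ≠ 0) ∧
            A.valuation d < A.valuation (GG (fun l => δ l) b') := by
          intro hd
          refine ⟨x, fun k => ⟨hxF k, hx0 k⟩, ?_⟩
          rw [hd, map_zero]
          exact zero_lt_iff.mpr hGx
        apply hsuff
        rcases h3 with h3 | h3 | h3
        · exact hzero h3
        · exact ⟨b, hb, h3⟩
        · rcases ST x hx halg δ A hA b (fun k => (hb k).1) h3 f hfF hf0 hfu with h4 | ⟨b', hb', h4⟩
          · apply hzero
            rw [h4, map_zero] at h2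
            exact (map_eq_zero A.valuation).mp (le_antisymm h2 zero_le')
          · exact ⟨b', hb', h2.trans_lt h4⟩)
    have hs1 : vals x (P₁ : Set (MvPolynomial α K)) ⊆ vals x ((P₁ ∪ P₂ : Finset (MvPolynomial α K)) : Set (MvPolynomial α K)) := by
      rintro _ ⟨p, hp, rfl⟩
      exact ⟨p, Finset.mem_coe.mpr (Finset.mem_union_left _ (Finset.mem_coe.mp hp)), rfl⟩
    have hs2 : vals x (P₂ : Set (MvPolynomial α K)) ⊆ vals x ((P₁ ∪ P₂ : Finset (MvPolynomial α K)) : Set (MvPolynomial α K)) := by
      rintro _ ⟨p, hp, rfl⟩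
      exact ⟨p, Finset.mem_coe.mpr (Finset.mem_union_right _ (Finset.mem_coe.mp hp)), rfl⟩
    refine ⟨P₁ ∪ P₂, ?_, ?_, ?_⟩
    · intro p hp
      rcases Finset.mem_union.mp hp with hp | hp
      · exact hP₁ p hp
      · exact hP₂ p hp
    · intro s
      obtain ⟨k, b, hb, h⟩ := hLe s
      exact ⟨k, b, fun j => hs1 (hb j), h⟩
    · intro _ s
      obtain ⟨k, b, hb, h⟩ := hLt s
      exact ⟨k, b, fun j => hs2 (hb j), h⟩
  · exact ⟨P₁, hP₁, hLe, fun h => absurd h hf⟩

end Pool.Agent.Lib.MP_17a322_nt.ABN
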