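import Pool.Agent.Lib.MP_17a322_nt.ABN.N0
import Pool.Agent.Lib.MP_17a322_nt.JAC.B5a
import Pool.Agent.Lib.MP_17a322_nt.JAC.B4
import Pool.Agent.Lib.MP_17a322_nt.EQ.Q3

universe u

namespace Pool.Agent.Lib.MP_17a322_nt.ABN

open MvPolynomial hiding psum
open Height NumberField
open Pool.Agent.Lib.MP_17a322_nt.EQ
open Pool.Agent.Lib.MP_17a322_nt.JAC

/-- The dimension of a smooth variety is the number of elements of the frame. -/
theorem card_frame {K : Type u} [Field K] [NumberField K] {ι : Type} [Fintype ι] (J : Ideal (MvPolynomial ι K)) [J.IsPrime] (n : ℕ)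
    (hJ : Smooth J n) (i₀ : ι) (hi : X i₀ ∉ J) {α : Type} [Fintype α] [DecidableEq α] (x : α → ι)
    (δ : α → Derivation K (FF (dh J i₀)) (FF (dh J i₀)))
    (hδ : ∀ l l', δ l (gn (dh J i₀) (x l')) = if l = l' then 1 else 0)
    (hu : ∀ (d : Derivation K (FF (dh J i₀)) (FF (dh J i₀))) (f : FF (dh J i₀)),
      d f = ∑ l, d (gn (dh J i₀) (x l)) * δ l f) : Fintype.card α = n := by
  have h1 : gn (dh J i₀) i₀ = 1 := by
    have h2 := (aeval_gn_eq_zero (dh J i₀) (X i₀ - 1)).2 (dh_sub_one J i₀ hi)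
    rw [map_sub, aeval_X, map_one, sub_eq_zero] at h2
    exact h2
  have hpt : IsPt J (gn (dh J i₀)) := by
    refine ⟨?_, ?_⟩
    · intro h
      have h2 := congrFun h i₀
      rw [h1, Pi.zero_apply] at h2
      exact one_ne_zero h2
    · intro F hF
      exact (aeval_gn_eq_zero (dh J i₀) F).2 ((le_dh J hJ.homog i₀ hi).1 hF)
  have h3 := hJ.dim (FF (dh J i₀)) (gn (dh J i₀)) hpt
  rw [Tan_gn J hJ.homog i₀ hi x δ hδ hu] at h3
  exact Nat.succ_injective h3

end Pool.Agent.Lib.MP_17a322_nt.ABN
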