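import Pool.Agent.Lib.MP_17a322_nt.ABN.N8

universe u

namespace Pool.Agent.Lib.MP_17a322_nt.ABN

open MvPolynomial
open Pool.Agent.Lib.MP_17a322_nt.JAC

open Pool.Agent.Lib.MP_17a322_nt.EQ

/-- Reduction modulo the maximal ideal of the valuation ring. -/
private theorem N9_res {K F : Type u} [Field K] [Field F] [Algebra K F] (A : ValuationSubring F)
    (hA : ∀ c : K, algebraMap K F c ∈ A) :
    ∃ (k : Type u) (_ : Field k) (_ : Algebra K k) (ρ : A →+* k), Function.Surjective ρ ∧
      (∀ a : A, ρ a = 0 ↔ A.valuation (a : F) < 1) ∧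
      ∀ {ι : Type} (y : ι → A) (P : MvPolynomial ι K), ∃ a : A,
        (a : F) = aeval (fun i => (y i : F)) P ∧ ρ a = aeval (fun i => ρ (y i)) P := by
  let _ : Algebra K A := RingHom.toAlgebra ((algebraMap K F).codRestrict A hA)
  refine ⟨IsLocalRing.ResidueField A, inferInstance, inferInstance, IsLocalRing.residue A,
    IsLocalRing.residue_surjective, ?_, ?_⟩
  · intro a
    rw [← ValuationSubring.valuation_lt_one_iff, IsLocalRing.residue_eq_zero_iff]
  · intro ι y P
    let φ : A →ₐ[K] F := { A.subtype with commutes' := fun _ => rfl }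
    let ψ : A →ₐ[K] IsLocalRing.ResidueField A :=
      { IsLocalRing.residue A with commutes' := fun _ => rfl }
    refine ⟨aeval y P, ?_, ?_⟩
    · change φ (aeval y P) = _
      rw [MvPolynomial.comp_aeval_apply]
      rfl
    · change ψ (aeval y P) = _
      rw [MvPolynomial.comp_aeval_apply]
      rfl

/-- The chain rule. -/
private theorem N9_chain {K F : Type u} [Field K] [Field F] [Algebra K F] {ι : Type} [Fintype ι]
    (d : Derivation K F F) (y : ι → F) (P : MvPolynomial ι K) :
    d (aeval y P) = dif y P fun i => d (y i) := by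
  induction P using MvPolynomial.induction_on with
  | C a => rw [dif_C, aeval_C, Derivation.map_algebraMap]
  | add P Q hP hQ => rw [map_add, map_add, dif_add, hP, hQ]
  | mul_X P i hP =>
    rw [map_mul, Derivation.leibniz, hP, dif_mul, dif_X, aeval_X, smul_eq_mul, smul_eq_mul]

/-- Linear algebra on the tangent space. -/
private theorem N9_lin {K : Type u} [Field K] {ι α σ : Type} [Fintype ι] [Fintype α] [Finite σ]
    (J : Ideal (MvPolynomial ι K)) {L : Type u} [Field L] [Algebra K L] (p : ι → L)
    (hT : Module.finrank L (Tan J p) = Fintype.card α + 1) (P : σ → MvPolynomial ι K)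
    (S : Set σ) (x : ι → σ) (hx : ∀ i, P (x i) = X i)
    (hS : LinearIndepOn L (fun u => (dif p (P u)).domRestrict (Tan J p)) S) (u₀ : σ)
    (hu₀ : u₀ ∈ S) :
    ∃ E : α → σ, Function.Injective E ∧ (∀ u ∈ S, u ≠ u₀ → u ∈ Set.range E) ∧
      ∀ i, ∃ (c₀ : L) (c : α → L) (m : ℕ) (a : Fin m → L) (G : Fin m → MvPolynomial ι K),
        (∀ j, G j ∈ J) ∧
          dif p (X i : MvPolynomial ι K) = c₀ • dif p (P u₀) + ∑ k, c k • dif p (P (E k)) +
            ∑ j, a j • dif p (G j) := by
  classical
  have _ : Fintype σ := Fintype.ofFinite σ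
  set v : σ → Module.Dual L (Tan J p) := fun u => (dif p (P u)).domRestrict (Tan J p) with hv
  obtain ⟨U, -, hSU, hspan, hU⟩ := exists_linearIndepOn_extension hS (Set.subset_univ S)
  have htop : Submodule.span L (v '' U) = ⊤ := by
    rw [eq_top_iff]
    intro φ _
    obtain ⟨ψ, hψ⟩ := LinearMap.exists_extend φ
    have h1 : ψ = ∑ i, ψ (Pi.single i 1) • (LinearMap.proj i : (ι → L) →ₗ[L] L) := by
      apply LinearMap.pi_ext
      intro i z
      rw [LinearMap.sum_apply, Finset.sum_eq_single i]
      · rw [LinearMap.smul_apply, LinearMap.proj_apply, Pi.single_eq_same, smul_eq_mul, mul_comm,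
          ← smul_eq_mul, ← map_smul, ← Pi.single_smul, smul_eq_mul, mul_one]
      · intro j _ hj
        rw [LinearMap.smul_apply, LinearMap.proj_apply, Pi.single_eq_of_ne hj, smul_zero]
      · intro h
        exact absurd (Finset.mem_univ i) h
    have h2 : φ = ∑ i, ψ (Pi.single i 1) • v (x i) := by
      apply LinearMap.ext
      intro z
      rw [← hψ, LinearMap.comp_apply]
      conv_lhs => rw [h1]
      rw [LinearMap.sum_apply, LinearMap.sum_apply]
      refine Finset.sum_congr rfl fun i _ => ?_
      rw [LinearMap.smul_apply, LinearMap.smul_apply, hv]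
      simp only [LinearMap.domRestrict_apply, hx, dif_X, LinearMap.proj_apply,
        Submodule.subtype_apply]
    rw [h2]
    refine Submodule.sum_mem _ fun i _ => Submodule.smul_mem _ _ ?_
    exact hspan (Set.mem_image_of_mem v (Set.mem_univ _))
  have hcard : Fintype.card U = Fintype.card α + 1 := by
    have h1 : LinearIndependent L fun u : U => v u := hU
    have h2 : ⊤ ≤ Submodule.span L (Set.range fun u : U => v u) := by
      have h3 : (Set.range fun u : U => v u) = v '' U := by
        rw [Set.image_eq_range]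
      rw [h3, htop]
    have h4 := Module.finrank_eq_card_basis (Module.Basis.mk h1 h2)
    rw [← h4, ← hT]
    exact Subspace.dual_finrank_eq
  have hu₀U : u₀ ∈ U := hSU hu₀
  have hcard2 : Fintype.card {w : U // w ≠ ⟨u₀, hu₀U⟩} = Fintype.card α := by
    rw [Fintype.card_subtype_compl, hcard, Fintype.card_subtype_eq, Nat.add_sub_cancel]
  let E := Fintype.equivOfCardEq hcard2
  refine ⟨fun k => ((E.symm k : U) : σ), ?_, ?_, ?_⟩
  · intro k k' h
    exact E.symm.injective (Subtype.ext (Subtype.ext h))
  · intro u hu hne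
    refine ⟨E ⟨⟨u, hSU hu⟩, fun h => hne (congrArg Subtype.val h)⟩, ?_⟩
    simp only [Equiv.symm_apply_apply]
  · intro i
    have h1 : v (x i) ∈ Submodule.span L (v '' U) := by rw [htop]; exact Submodule.mem_top
    rw [Set.image_eq_range, Submodule.mem_span_range_iff_exists_fun] at h1
    obtain ⟨c, hc⟩ := h1
    have h2 : ∑ w : U, c w • v w = c ⟨u₀, hu₀U⟩ • v u₀ +
        ∑ k, c (E.symm k : U) • v ((E.symm k : U) : σ) := by
      rw [Fintype.sum_eq_add_sum_subtype_ne _ (⟨u₀, hu₀U⟩ : U)]
      congr 1
      exact (Equiv.sum_comp E.symm fun w : {w : U // w ≠ ⟨u₀, hu₀U⟩} =>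
        c (w : U) • v ((w : U) : σ)).symm
    obtain ⟨m, a, G, hG, hφ⟩ := N8_ann J p (dif p (X i : MvPolynomial ι K) -
      (c ⟨u₀, hu₀U⟩ • dif p (P u₀) +
        ∑ k, c (E.symm k : U) • dif p (P ((E.symm k : U) : σ)))) (by
      intro z hz
      have h3 : v (x i) ⟨z, hz⟩ = (c ⟨u₀, hu₀U⟩ • v u₀ +
        ∑ k, c (E.symm k : U) • v ((E.symm k : U) : σ)) ⟨z, hz⟩ := by
        rw [← h2, hc]
      rw [hv] at h3
      simp only [LinearMap.add_apply, LinearMap.sum_apply, LinearMap.smul_apply,
        LinearMap.domRestrict_apply, hx] at h3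
      simp only [LinearMap.sub_apply, LinearMap.add_apply, LinearMap.sum_apply,
        LinearMap.smul_apply]
      rw [h3, sub_self])
    refine ⟨c ⟨u₀, hu₀U⟩, fun k => c (E.symm k : U), m, a, G, hG, ?_⟩
    rw [← hφ]
    abel

/-- Local equations at the reduction of a point of a smooth variety with a normal crossing divisor. `y` is a
point with values in `A`, `y i₁ = 1`; there are elements `g k` of `A`, among them a local equation at `y` of
every `D_b` through the reduction of `y`, such that all Jacobian determinants of the coordinates `y i` are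
multiples of the Jacobian determinant of the `g k`. -/
theorem loc {K F : Type u} {ι β κ α : Type} [Field K] [Field F] [Algebra K F] [Fintype ι] [Fintype β] [DecidableEq β] [Fintype α] [DecidableEq α]
    (J : Ideal (MvPolynomial ι K)) (hJ : Smooth J (Fintype.card α)) (e : ℕ) (f : β → κ → MvPolynomial ι K) (hf : Snc J e f)
    (δ : α → Derivation K F F) (A : ValuationSubring F) (hA : ∀ c : K, algebraMap K F c ∈ A) (y : ι → F) (hy : ∀ i, y i ∈ A)
    (i₁ : ι) (hy1 : y i₁ = 1) (hyJ : ∀ G ∈ J, aeval y G = 0) :
    ∃ (s : β → κ) (B : Finset β) (g : α → F) (j : B → α), Function.Injective j ∧ (∀ k, g k ∈ A) ∧ (∀ b : B, g (j b) = aeval y (f b (s b))) ∧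
      (∀ b, b ∉ B → Un A (aeval y (f b (s b)))) ∧
      (∀ b j, A.valuation (aeval y (f b j)) ≤ A.valuation (aeval y (f b (s b)))) ∧
      ∀ Y : α → ι, ∃ c ∈ A, (Matrix.of fun k l => δ l (y (Y k))).det = c * (Matrix.of fun k l => δ l (g k)).det := by
  classical
  obtain ⟨k, _, _, ρ, hρs, hρ, hred⟩ := N9_res A hA
  set y' : ι → A := fun i => ⟨y i, hy i⟩ with hy'
  set p : ι → k := fun i => ρ (y' i) with hp
  -- reduction of the values of polynomials
  have hredy : ∀ P : MvPolynomial ι K, ∃ a : A, (a : F) = aeval y P ∧ ρ a = aeval p P := fun P => hred y' P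
  have hmemy : ∀ P : MvPolynomial ι K, aeval y P ∈ A := by
    intro P
    obtain ⟨a, ha, -⟩ := hredy P
    rw [← ha]
    exact a.2
  have hval1 : ∀ P : MvPolynomial ι K, aeval p P ≠ 0 → A.valuation (aeval y P) = 1 := by
    intro P hP
    obtain ⟨a, ha, ha'⟩ := hredy P
    rw [← ha', Ne, hρ] at hP
    rw [← ha]
    exact (A.valuation_lt_one_or_eq_one a).resolve_left hP
  have hp1 : p i₁ = 1 := by
    have h1 : y' i₁ = 1 := Subtype.ext hy1
    rw [hp]
    simp only [h1, map_one]
  have hpt : IsPt J p := by
    refine ⟨fun h => ?_, fun G hG => ?_⟩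
    · have h1 := congrFun h i₁
      rw [hp1] at h1
      exact one_ne_zero h1
    · obtain ⟨a, ha, ha'⟩ := hredy G
      rw [hyJ G hG] at ha
      have h1 : a = 0 := Subtype.ext ha
      rw [← ha', h1, map_zero]
  obtain ⟨s₀, hs₀, hind⟩ := hf.trans k p hpt
  have hex : ∀ b : β, ∃ j : κ, ((∀ i, aeval p (f b i) = 0) → j = s₀ b) ∧
      ((¬ ∀ i, aeval p (f b i) = 0) → aeval p (f b j) ≠ 0) := by
    intro b
    by_cases hb : ∀ i, aeval p (f b i) = 0
    · exact ⟨s₀ b, fun _ => rfl, fun h => absurd hb h⟩
    · obtain ⟨j, hj⟩ := not_forall.1 hb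
      exact ⟨j, fun h => absurd h hb, fun _ => hj⟩
  choose s hs1 hs2 using hex
  set B : Finset β := Finset.univ.filter fun b => ∀ i, aeval p (f b i) = 0 with hB
  have hBmem : ∀ b, b ∈ B ↔ ∀ i, aeval p (f b i) = 0 := by
    intro b
    rw [hB, Finset.mem_filter]
    exact ⟨fun h => h.2, fun h => ⟨Finset.mem_univ _, h⟩⟩
  -- the linear algebra at the reduction
  set P : Option B ⊕ ι → MvPolynomial ι K :=
    Sum.elim (fun o => o.elim (X i₁) fun b => f b (s b)) X with hP
  have hS : LinearIndepOn k (fun u => (dif p (P u)).domRestrict (Tan J p))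
      (Set.range (Sum.inl : Option B → Option B ⊕ ι)) := by
    rw [linearIndepOn_range_iff Sum.inl_injective]
    rw [linearIndependent_option]
    constructor
    · have h1 := hind.comp (fun b : B => (⟨b.1, (hBmem b.1).1 b.2⟩ : {b // ∀ j, aeval p (f b j) = 0}))
        (fun b b' h => Subtype.ext (Subtype.mk.inj h))
      have h2 : ((fun b : {b // ∀ j, aeval p (f b j) = 0} => (dif p (f b (s₀ b))).domRestrict (Tan J p)) ∘
          (fun b : B => (⟨b.1, (hBmem b.1).1 b.2⟩ : {b // ∀ j, aeval p (f b j) = 0}))) =
          ((fun u => (dif p (P u)).domRestrict (Tan J p)) ∘ Sum.inl) ∘ (some : B → Option B) := by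
        funext b
        simp only [Function.comp_apply, hP, Sum.elim_inl, Option.elim_some]
        rw [hs1 b.1 ((hBmem b.1).1 b.2)]
      rw [← h2]
      exact h1
    · intro h
      have h1 : ∀ φ ∈ Submodule.span k (Set.range
          (((fun u => (dif p (P u)).domRestrict (Tan J p)) ∘ Sum.inl) ∘ (some : B → Option B))),
          φ ⟨p, self_mem_Tan hJ.homog hpt⟩ = 0 := by
        intro φ hφ
        induction hφ using Submodule.span_induction with
        | mem φ hφ =>
          obtain ⟨b, rfl⟩ := hφ
          simp only [Function.comp_apply, hP, Sum.elim_inl, Option.elim_some,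
            LinearMap.domRestrict_apply]
          rw [dif_self (hf.homog b.1 (s b.1)), (hBmem b.1).1 b.2, mul_zero]
        | zero => rfl
        | add φ ψ _ _ h1 h2 => rw [LinearMap.add_apply, h1, h2, add_zero]
        | smul c φ _ h1 => rw [LinearMap.smul_apply, h1, smul_zero]
      have h2 := h1 _ h
      simp only [Function.comp_apply, hP, Sum.elim_inl, Option.elim_none,
        LinearMap.domRestrict_apply, dif_X, hp1] at h2
      exact one_ne_zero h2
  obtain ⟨E, hEinj, hEr, hE⟩ := N9_lin (α := α) J p (hJ.dim k p hpt) P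
    (Set.range (Sum.inl : Option B → Option B ⊕ ι)) Sum.inr (fun i => rfl) hS (Sum.inl none) ⟨none, rfl⟩
  have hjex : ∀ b : B, ∃ a : α, E a = Sum.inl (some b) := fun b =>
    hEr (Sum.inl (some b)) ⟨some b, rfl⟩ (by simp)
  choose j hj using hjex
  refine ⟨s, B, fun a => aeval y (P (E a)), j, ?_, fun a => hmemy _, ?_, ?_, ?_, ?_⟩
  · intro b b' h
    have h1 := hj b
    rw [h, hj b'] at h1
    exact (Option.some.inj (Sum.inl.inj h1)).symm
  · intro b
    simp only [hj b, hP, Sum.elim_inl, Option.elim_some]
  · intro b hb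
    rw [hBmem] at hb
    have h1 := hval1 _ (hs2 b hb)
    refine ⟨hmemy _, ?_⟩
    rw [← ValuationSubring.valuation_le_one_iff, map_inv₀, h1, inv_one]
  · intro b i
    by_cases hb : ∀ i, aeval p (f b i) = 0
    · obtain ⟨u, hu, hu2⟩ := hs₀ b hb
      have h1 := hu2 i
      rw [← hs1 b hb] at h1
      obtain ⟨G, hG, H, hH, hGH⟩ := Submodule.mem_sup.1 h1
      obtain ⟨c, hc⟩ := Ideal.mem_span_singleton'.1 hH
      have h2 : aeval y u * aeval y (f b i) = aeval y c * aeval y (f b (s b)) := by
        rw [← map_mul, ← hGH, map_add, hyJ G hG, zero_add, ← hc, map_mul]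
      have h3 : A.valuation (aeval y (f b i)) = A.valuation (aeval y c) * A.valuation (aeval y (f b (s b))) := by
        rw [← map_mul, ← h2, map_mul, hval1 u hu, one_mul]
      rw [h3]
      exact mul_le_of_le_one_left' ((A.valuation_le_one_iff _).2 (hmemy c))
    · rw [hval1 _ (hs2 b hb)]
      exact (A.valuation_le_one_iff _).2 (hmemy _)
  · -- the Jacobian determinants
    have hchain : ∀ (l : α) (Q : MvPolynomial ι K), δ l (aeval y Q) = dif y Q fun i => δ l (y i) :=
      fun l Q => N9_chain (δ l) y Q
    -- reduction of the values of the differentials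
    have hdred : ∀ (Q : MvPolynomial ι K) (i : ι), ∃ a : A, (a : F) = aeval y (pderiv i Q) ∧
        ρ a = aeval p (pderiv i Q) := fun Q i => hredy _
    have key := N8_nak (V := α → F) A (fun i : ι => fun l => δ l (y i))
      (fun a : α => fun l => δ l (aeval y (P (E a)))) (by
      intro i
      obtain ⟨c₀, c, m, a, G, hG, hφ⟩ := hE i
      obtain ⟨c₀', hc₀'⟩ := hρs c₀
      choose c' hc' using fun t => hρs (c t)
      choose a' ha' using fun t => hρs (a t)
      -- the error term
      set r : ι → F := fun t => aeval y (pderiv t (X i : MvPolynomial ι K)) -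
        (c₀' : F) * aeval y (pderiv t (P (Sum.inl none))) -
        ∑ w, (c' w : F) * aeval y (pderiv t (P (E w))) -
        ∑ w, (a' w : F) * aeval y (pderiv t (G w)) with hr
      have hrlt : ∀ t, A.valuation (r t) < 1 := by
        intro t
        obtain ⟨b₁, hb₁, hb₁'⟩ := hredy (pderiv t (X i : MvPolynomial ι K))
        obtain ⟨b₂, hb₂, hb₂'⟩ := hredy (pderiv t (P (Sum.inl none)))
        choose b₃ hb₃ hb₃' using fun w => hredy (pderiv t (P (E w)))
        choose b₄ hb₄ hb₄' using fun w => hredy (pderiv t (G w))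
        have h1 : r t = ((b₁ - c₀' * b₂ - ∑ w, c' w * b₃ w - ∑ w, a' w * b₄ w : A) : F) := by
          rw [hr]
          push_cast
          simp only [hb₁, hb₂, hb₃, hb₄]
        rw [h1, ← hρ]
        rw [map_sub, map_sub, map_sub, map_mul, map_sum, map_sum]
        simp only [map_mul, hc₀', hc', ha', hb₁', hb₂', hb₃', hb₄']
        have h2 := LinearMap.congr_fun hφ (Pi.single t 1)
        simp only [LinearMap.add_apply, LinearMap.sum_apply, LinearMap.smul_apply, dif_apply,
          smul_eq_mul, Pi.single_apply, mul_ite, mul_one, mul_zero, Finset.sum_ite_eq',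
          Finset.mem_univ, if_true] at h2
        rw [h2]
        ring
      refine ⟨fun w => (c' w : F), r, fun w => (c' w).2, hrlt, ?_⟩
      funext l
      have h0 : δ l (aeval y (P (Sum.inl none))) = 0 := by
        simp only [hP, Sum.elim_inl, Option.elim_none, aeval_X, hy1, Derivation.map_one_eq_zero]
      have h1 : ∀ w, δ l (aeval y (G w)) = 0 := by
        intro w
        rw [hyJ _ (hG w), map_zero]
      have h2 : δ l (y i) = δ l (aeval y (X i : MvPolynomial ι K)) := by rw [aeval_X]
      rw [hchain] at h0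
      simp only [hchain] at h1
      rw [Pi.add_apply, Finset.sum_apply, Finset.sum_apply]
      simp only [Pi.smul_apply, smul_eq_mul]
      rw [h2]
      simp only [hchain]
      have h3 : dif y (X i : MvPolynomial ι K) (fun t => δ l (y t)) =
          (c₀' : F) * dif y (P (Sum.inl none)) (fun t => δ l (y t)) +
          ∑ w, (c' w : F) * dif y (P (E w)) (fun t => δ l (y t)) +
          ∑ w, (a' w : F) * dif y (G w) (fun t => δ l (y t)) + ∑ t, r t * δ l (y t) := by
        simp only [dif_apply, Finset.mul_sum]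
        have e1 : ∀ (W : Type) [Fintype W] (q : W → ι → F), ∑ w, ∑ t, q w t = ∑ t, ∑ w, q w t :=
          fun W _ q => Finset.sum_comm
        rw [e1 α, e1 (Fin m), ← Finset.sum_add_distrib,
          ← Finset.sum_add_distrib, ← Finset.sum_add_distrib]
        refine Finset.sum_congr rfl fun t _ => ?_
        rw [hr]
        simp only [sub_mul, Finset.sum_mul, mul_assoc]
        ring
      rw [h3, h0, mul_zero, zero_add]
      simp only [h1, mul_zero, Finset.sum_const_zero, add_zero])
    intro Y
    choose a ha hka using key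
    refine ⟨(Matrix.of fun w w' => a (Y w) w').det, ?_, ?_⟩
    · have h1 : (Matrix.of fun w w' => a (Y w) w') =
          A.subtype.mapMatrix (Matrix.of fun w w' => (⟨a (Y w) w', ha (Y w) w'⟩ : A)) := by
        ext w w'
        rfl
      rw [h1, ← RingHom.map_det]
      exact SetLike.coe_mem _
    · rw [← Matrix.det_mul]
      congr 1
      ext w l
      have h1 := congrFun (hka (Y w)) l
      rw [Finset.sum_apply] at h1
      rw [Matrix.mul_apply]
      simp only [Matrix.of_apply]
      rw [h1]
      rfl

end Pool.Agent.Lib.MP_17a322_nt.ABN
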