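import Pool.Agent.Lib.MP_17a322_nt.ABN.N7
import Pool.Agent.Lib.MP_17a322_nt.ABN.N9

universe u

namespace Pool.Agent.Lib.MP_17a322_nt.ABN

open MvPolynomial
open Pool.Agent.Lib.MP_17a322_nt.JAC

open Pool.Agent.Lib.MP_17a322_nt.EQ

theorem N10_val_one {F : Type*} [Field F] (A : ValuationSubring F) {f : F} (h : Un A f) (h0 : f ≠ 0) :
    A.valuation f = 1 := by
  have h1 : A.valuation f ≤ 1 := (A.valuation_le_one_iff f).2 h.1
  have h2 : A.valuation f⁻¹ ≤ 1 := (A.valuation_le_one_iff _).2 h.2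
  refine le_antisymm h1 ?_
  have h3 : A.valuation f * A.valuation f⁻¹ = 1 := by
    rw [← map_mul, mul_inv_cancel₀ h0, map_one]
  rw [← h3]
  calc A.valuation f * A.valuation f⁻¹ ≤ A.valuation f * 1 := mul_le_mul_right h2 _
    _ = A.valuation f := mul_one _

/-- The inequality for the divisor at one valuation ring. -/
theorem T1 {K F : Type u} {ι β κ α : Type} [Field K] [CharZero K] [Field F] [Algebra K F] [Fintype ι] [Fintype β] [DecidableEq β]
    [Finite κ] [Fintype α] [DecidableEq α] (x : α → F) [FiniteDimensional (F0 K x) F] (δ : α → Derivation K F F)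
    (J : Ideal (MvPolynomial ι K)) (hJ : Smooth J (Fintype.card α)) (e : ℕ) (f : β → κ → MvPolynomial ι K) (hf : Snc J e f)
    (z : ι → F) (hz : ∃ i, z i ≠ 0) (hzJ : ∀ G ∈ J, aeval z G = 0) (hf0 : ∀ b, ∃ j, aeval z (f b j) ≠ 0) (A : ValuationSubring F)
    (hA : ∀ c : K, algebraMap K F c ∈ A) :
    ∃ P : Finset (MvPolynomial α K), (∀ p ∈ P, p ≠ 0 ∧ aeval x p ≠ 0) ∧
      Le (fun l => δ l) A (vals x (P : Set (MvPolynomial α K)))
        (fun s : (Option α → ι) × (β → ι) => NZ (fun l => δ l) z s.1 * ∏ b, z (s.2 b) ^ e)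
        (fun i : ι × (β → κ) => z i.1 ^ (Fintype.card α + 1) * ∏ b, aeval z (f b (i.2 b))) := by
  classical
  obtain ⟨i', hi'⟩ := hz
  have : Nonempty ι := ⟨i'⟩
  obtain ⟨i, hi⟩ := Finite.exists_max fun a => A.valuation (z a)
  have hi0 : z i ≠ 0 := by
    intro h
    have h1 := hi i'
    simp only [h, map_zero, le_zero_iff, map_eq_zero] at h1
    exact hi' h1
  set y : ι → F := fun a => z a / z i with hydef
  have hy : ∀ a, y a ∈ A := by
    intro a
    rw [← A.valuation_le_one_iff]
    simp only [hydef, map_div₀]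
    exact div_le_one_of_le₀ (hi a) zero_le
  have hy1 : y i = 1 := div_self hi0
  have hyz : y = fun a => (z i)⁻¹ * z a := by
    funext a
    simp only [hydef, div_eq_inv_mul]
  have hzy : z = fun a => z i * y a := by
    funext a
    simp only [hydef]
    rw [mul_div_cancel₀ _ hi0]
  have hyJ : ∀ G ∈ J, aeval y G = 0 := by
    intro G hG
    rw [← sum_homogeneousComponent G, map_sum]
    refine Finset.sum_eq_zero fun m _ => ?_
    rw [hyz, aeval_mul (homogeneousComponent_isHomogeneous m G), hzJ _ (hJ.homog G hG m), mul_zero]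
  obtain ⟨s, B, g, j, hj, hgA, hgj, hB, hsj, hdet⟩ := loc J hJ e f hf δ A hA y hy i hy1 hyJ
  obtain ⟨E, iE, iA, O, hO, hRs, hRp⟩ := LE δ (F0 K x) A hA
  have hfy : ∀ b k, aeval z (f b k) = z i ^ e * aeval y (f b k) := by
    intro b k
    conv_lhs => rw [hzy]
    exact aeval_mul (hf.homog b k) (z i) y
  have hs0 : ∀ b, aeval y (f b (s b)) ≠ 0 := by
    intro b h0
    obtain ⟨k, hk⟩ := hf0 b
    have h1 := hsj b k
    rw [h0, map_zero, le_zero_iff, map_eq_zero] at h1
    rw [hfy, h1, mul_zero] at hk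
    exact hk rfl
  set r : α → α → F := fun k l => if k ∈ Set.range j then δ l (g k) / g k else δ l (g k) with hrdef
  have hgr : ∀ k, k ∈ Set.range j → g k ≠ 0 := by
    rintro k ⟨b, rfl⟩
    rw [hgj b]
    exact hs0 b
  have hr : ∀ k, Rp (fun l => δ l) (F0 K x) O (r k) := by
    intro k
    by_cases hk : k ∈ Set.range j
    · have h1 : r k = fun l => δ l (g k) / g k := by
        funext l
        simp only [hrdef, if_pos hk]
      rw [h1]
      exact hRp (g k) (hgr k hk)
    · have h1 : r k = fun l => δ l (g k) := by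
        funext l
        simp only [hrdef, if_neg hk]
      rw [h1]
      exact Rp_of_Rs _ _ _ _ (hRs (g k) (hgA k))
  obtain ⟨b, hb, hbr⟩ := det_le (fun l => δ l) (F0 K x) A O hO r hr
  refine Le_of x δ A _ _ ?_
  rintro ⟨s', t⟩
  refine ⟨(i, s), b, hb, ?_⟩
  obtain ⟨Y, hY⟩ := NZ_le δ A y hy s'
  obtain ⟨c, hc, hcd⟩ := hdet Y
  have hprod : (∏ k, if k ∈ Set.range j then g k else 1) = ∏ b : B, aeval y (f b (s b)) := by
    symm
    refine Fintype.prod_of_injective j hj _ _ ?_ ?_
    · intro k hk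
      rw [if_neg hk]
    · intro b
      rw [if_pos ⟨b, rfl⟩, hgj b]
  have hdg : (Matrix.of fun k l => δ l (g k)).det = (∏ b : B, aeval y (f b (s b))) * (Matrix.of r).det := by
    rw [← hprod, ← Matrix.det_mul_column]
    congr 1
    ext k l
    simp only [Matrix.of_apply, hrdef]
    by_cases hk : k ∈ Set.range j
    · rw [if_pos hk, if_pos hk, mul_div_cancel₀ _ (hgr k hk)]
    · rw [if_neg hk, if_neg hk, one_mul]
  have hv1 : A.valuation (∏ b : B, aeval y (f b (s b))) = A.valuation (∏ b, aeval y (f b (s b))) := by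
    rw [map_prod, map_prod]
    rw [Finset.prod_coe_sort B fun b => A.valuation (aeval y (f b (s b)))]
    refine Finset.prod_subset (Finset.subset_univ B) fun b _ hbB => ?_
    exact N10_val_one A (hB b hbB) (hs0 b)
  have hNZ : A.valuation (NZ (fun l => δ l) y s') ≤
      A.valuation (∏ b, aeval y (f b (s b))) * A.valuation (GG (fun l => δ l) b) := by
    refine hY.trans ?_
    rw [hcd, hdg, map_mul, map_mul, hv1]
    calc A.valuation c * (A.valuation (∏ b, aeval y (f b (s b))) * A.valuation (Matrix.of r).det)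
        ≤ 1 * (A.valuation (∏ b, aeval y (f b (s b))) * A.valuation (GG (fun l => δ l) b)) :=
          mul_le_mul' ((A.valuation_le_one_iff c).2 hc) (mul_le_mul' le_rfl hbr)
      _ = _ := one_mul _
  have hzt : A.valuation (∏ b, z (t b) ^ e) ≤ A.valuation (∏ _b : β, z i ^ e) := by
    rw [map_prod, map_prod]
    refine Finset.prod_le_prod' fun b _ => ?_
    rw [map_pow, map_pow]
    exact pow_le_pow_left' (hi (t b)) e
  have hDe : (∏ b, aeval z (f b (s b))) = (∏ _b : β, z i ^ e) * ∏ b, aeval y (f b (s b)) := by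
    rw [← Finset.prod_mul_distrib]
    exact Finset.prod_congr rfl fun b _ => hfy b (s b)
  show A.valuation (NZ (fun l => δ l) z s' * ∏ b, z (t b) ^ e) ≤
    A.valuation (z i ^ (Fintype.card α + 1) * (∏ b, aeval z (f b (s b))) * GG (fun l => δ l) b)
  rw [NZ_scale δ z i hi0 s', hDe]
  simp only [map_mul]
  calc A.valuation (z i ^ (Fintype.card α + 1)) * A.valuation (NZ (fun l => δ l) y s') *
        A.valuation (∏ b, z (t b) ^ e)
      ≤ A.valuation (z i ^ (Fintype.card α + 1)) *
        (A.valuation (∏ b, aeval y (f b (s b))) * A.valuation (GG (fun l => δ l) b)) *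
        A.valuation (∏ _b : β, z i ^ e) := mul_le_mul' (mul_le_mul' le_rfl hNZ) hzt
    _ = _ := by ac_rfl

end Pool.Agent.Lib.MP_17a322_nt.ABN
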