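import Pool.Agent.Lib.MP_17a322_nt.ABN.GDefs
import Pool.Agent.Lib.MP_17a322_nt.ABN.A5
import Pool.Agent.Lib.MP_17a322_nt.ABN.A6a
import Pool.Agent.Lib.MP_17a322_nt.ABN.N10
import Pool.Agent.Lib.MP_17a322_nt.JAC.B4
import Pool.Agent.Lib.MP_17a322_nt.EQ.Q3

universe u

namespace Pool.Agent.Lib.MP_17a322_nt.ABN

open MvPolynomial hiding psum
open Height NumberField
open Pool.Agent.Lib.MP_17a322_nt.EQ
open Pool.Agent.Lib.MP_17a322_nt.JAC

/-- The case of a nonempty set of equations. -/
private theorem A6b_aux {K : Type u} [Field K] [NumberField K] (n : ℕ) (h : ABCForms K n)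
    (ι β κ : Type) [Fintype ι] [Fintype β] [Fintype κ] [Nonempty κ] (J : Ideal (MvPolynomial ι K))
    (e : ℕ) (f : β → κ → MvPolynomial ι K) (hJ : Smooth J n) (hf : Snc J e f)
    (S : Finset (FinitePlace K)) (ε : ℝ) (hε : 0 < ε) :
    ∃ (G : MvPolynomial ι K) (C : ℝ), G ∉ J ∧ (∃ d, G.IsHomogeneous d) ∧
      ∀ p : ι → K, IsPt J p → eval p G ≠ 0 → (∀ b, ∃ j, eval p (f b j) ≠ 0) ∧
        ∑ b, (e * logHeight p - logHeight fun j => eval p (f b j)) + hCan J p ≤
          trunc S e f p + ε * logHeight p + C := by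
  classical
  have hpr : J.IsPrime := hJ.prime
  by_cases hX : ∀ i, (X i : MvPolynomial ι K) ∈ J
  · refine ⟨1, 0, ?_, ⟨0, isHomogeneous_one _ _⟩, ?_⟩
    · exact fun h1 => hJ.prime.ne_top ((Ideal.eq_top_iff_one _).2 h1)
    · intro p hp _
      exfalso
      apply hp.1
      funext i
      have h1 := hp.2 (X i) (hX i)
      rwa [aeval_X] at h1
  · push Not at hX
    obtain ⟨i₀, hi⟩ := hX
    obtain ⟨α, hα, hα', x, δ, hx, hfin, hδ, hu⟩ := exists_frame (dh J i₀)
    have hcard : Fintype.card α = n := card_frame J n hJ i₀ hi x δ hδ hu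
    have hf0 : ∀ b, ∃ j, f b j ∉ J := fun b => hz_exists_notMem hJ.prime hf i₀ hi b
    have hle := le_dh J hJ.homog i₀ hi
    have hfin' : FiniteDimensional (F0 K fun l => gn (dh J i₀) (x l)) (FF (dh J i₀)) := hfin
    have hsm : Smooth J (Fintype.card α) := by
      rw [hcard]
      exact hJ
    have hz : ∃ i, gn (dh J i₀) i ≠ 0 :=
      ⟨i₀, B3_gn_ne (dh J i₀) i₀ fun h1 => hi (hle.2 _ h1 1 (isHomogeneous_X K i₀))⟩
    have hzJ : ∀ G ∈ J, aeval (gn (dh J i₀)) G = 0 := fun G hG =>
      (aeval_gn_eq_zero _ _).2 (hle.1 hG)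
    have hg0 : ∀ b, ∃ j, aeval (gn (dh J i₀)) (f b j) ≠ 0 := by
      intro b
      obtain ⟨j, hj⟩ := hf0 b
      exact ⟨j, fun h1 => hj (hle.2 _ ((aeval_gn_eq_zero _ _).1 h1) e (hf.homog b j))⟩
    exact core J hJ.homog i₀ hi n hcard h x δ hx hfin' hδ hu e f hf.homog hf0
      (fun A hA => T1 (fun l => gn (dh J i₀) (x l)) δ J hsm e f hf (gn (dh J i₀)) hz hzJ hg0 A hA)
      S ε hε

/-- The abc inequality for forms in `n + 1` variables implies Vojta's conjecture with truncated
counting functions for smooth projective varieties of dimension `n`. -/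
theorem trunc_of_abc {K : Type u} [Field K] [NumberField K] (n : ℕ) (h : ABCForms K n) : VojtaTrunc K n := by
  intro ι β κ _ _ _ J e f hJ hf S ε hε
  by_cases hκ : Nonempty κ
  · exact A6b_aux n h ι β κ J e f hJ hf S ε hε
  · by_cases hX : ∀ i, (X i : MvPolynomial ι K) ∈ J
    · refine ⟨1, 0, ?_, ⟨0, isHomogeneous_one _ _⟩, ?_⟩
      · exact fun h1 => hJ.prime.ne_top ((Ideal.eq_top_iff_one _).2 h1)
      · intro p hp _
        exfalso
        apply hp.1
        funext i
        have h1 := hp.2 (X i) (hX i)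
        rwa [aeval_X] at h1
    · push Not at hX
      obtain ⟨i₀, hi⟩ := hX
      have hβ : IsEmpty β := ⟨fun b => by
        obtain ⟨j, -⟩ := hz_exists_notMem hJ.prime hf i₀ hi b
        exact hκ ⟨j⟩⟩
      have hf' : Snc J e (fun (_ : β) (_ : PUnit) => (0 : MvPolynomial ι K)) :=
        { pos := hf.pos
          homog := fun b => isEmptyElim b
          trans := fun L _ _ p hp =>
            ⟨fun _ => PUnit.unit, fun b => isEmptyElim b, by
              have : IsEmpty {b : β // ∀ _ : PUnit, aeval p (0 : MvPolynomial ι K) = 0} :=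
                ⟨fun b => isEmptyElim b.1⟩
              exact linearIndependent_empty_type⟩ }
      obtain ⟨G, C, h1, h2, h3⟩ := A6b_aux n h ι β PUnit J e
        (fun (_ : β) (_ : PUnit) => (0 : MvPolynomial ι K)) hJ hf' S ε hε
      refine ⟨G, C, h1, h2, fun p hp hG => ⟨fun b => isEmptyElim b, ?_⟩⟩
      have h4 := (h3 p hp hG).2
      have h5 : trunc S e (fun (_ : β) (_ : PUnit) => (0 : MvPolynomial ι K)) p = trunc S e f p := by
        unfold trunc
        have h6 : {v : FinitePlace K | v ∉ S ∧ ∃ b : β, 0 < lam v.val e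
              ((fun (_ : β) (_ : PUnit) => (0 : MvPolynomial ι K)) b) p} =
            {v : FinitePlace K | v ∉ S ∧ ∃ b, 0 < lam v.val e (f b) p} := by
          ext v
          constructor
          · rintro ⟨_, b, _⟩
            exact isEmptyElim b
          · rintro ⟨_, b, _⟩
            exact isEmptyElim b
        rw [h6]
      rw [h5] at h4
      rw [Finset.sum_eq_zero fun b _ => isEmptyElim b] at h4 ⊢
      exact h4

end Pool.Agent.Lib.MP_17a322_nt.ABN
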