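import Pool.Agent.Lib.MP_17a322_nt.ABN.GDefs
import Pool.Agent.Lib.MP_17a322_nt.ABN.A5
import Pool.Agent.Lib.MP_17a322_nt.ABN.A6a
import Pool.Agent.Lib.MP_17a322_nt.ABN.N10
import Pool.Agent.Lib.MP_17a322_nt.JAC.B4
import Pool.Agent.Lib.MP_17a322_nt.EQ.Q3

universe u

namespace Pool.Agent.Lib.MP_17a322_nt.ABN

open MvPolynomial hiding psum
open Height NumberField
open Pool.Agent.Lib.MP_17a322_nt.EQ
open Pool.Agent.Lib.MP_17a322_nt.JAC

section aux

variable {K : Type u} [Field K] {ι : Type} [Fintype ι]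

/-- A form in the variables `none`, `some l` which vanishes for `none = 1` is zero. -/
private theorem A6c_dehom {α : Type} [Fintype α] {Q : MvPolynomial (Option α) K} {d : ℕ}
    (hQ : Q.IsHomogeneous d)
    (h : aeval (fun o : Option α => o.elim (1 : MvPolynomial α K) X) Q = 0) : Q = 0 := by
  let L := FractionRing (MvPolynomial (Option α) K)
  have hinj : Function.Injective (algebraMap (MvPolynomial (Option α) K) L) :=
    IsFractionRing.injective _ _
  let p : Option α → L := fun o => algebraMap (MvPolynomial (Option α) K) L (X o)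
  have hc : p none ≠ 0 := by
    intro h0
    exact X_ne_zero (R := K) (none : Option α) (hinj (by rw [map_zero]; exact h0))
  have h1 : aeval p Q = algebraMap (MvPolynomial (Option α) K) L Q := by
    have h2 : (aeval p : MvPolynomial (Option α) K →ₐ[K] L) =
        IsScalarTower.toAlgHom K (MvPolynomial (Option α) K) L := by
      apply MvPolynomial.algHom_ext
      intro o
      rw [aeval_X]
      rfl
    rw [h2]
    rfl
  have h3 : aeval (fun o => p o / p none) Q =
      aeval (fun l : α => p (some l) / p none)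
        (aeval (fun o : Option α => o.elim (1 : MvPolynomial α K) X) Q) := by
    rw [MvPolynomial.comp_aeval_apply]
    congr 2
    funext o
    cases o with
    | none =>
      change p none / p none = aeval _ (1 : MvPolynomial α K)
      rw [div_self hc, map_one]
    | some l =>
      change p (some l) / p none = aeval _ (X l : MvPolynomial α K)
      rw [aeval_X]
  rw [B3_aeval_div hQ hc p, h3, h, map_zero, mul_zero] at h1
  exact hinj (by rw [map_zero]; exact h1.symm)

/-- The coordinate `i₀` of the generic point is equal to one. -/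
private theorem A6c_one (J : Ideal (MvPolynomial ι K)) [J.IsPrime] (i₀ : ι) (hi : X i₀ ∉ J) :
    gn (dh J i₀) i₀ = 1 := by
  have h := (aeval_gn_eq_zero (dh J i₀) _).2 (dh_sub_one J i₀ hi)
  rw [map_sub, aeval_X, map_one, sub_eq_zero] at h
  exact h

/-- The coordinates `i₀` and `x l` of the generic point of the cone are algebraically independent. -/
private theorem A6c_indep (J : Ideal (MvPolynomial ι K)) [J.IsPrime]
    (hJ : ∀ F ∈ J, ∀ i, homogeneousComponent i F ∈ J) (i₀ : ι) (hi : X i₀ ∉ J) {α : Type} [Fintype α]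
    (x : α → ι) (hx : AlgebraicIndependent K fun l => gn (dh J i₀) (x l)) :
    AlgebraicIndependent K fun o : Option α => gn J (o.elim i₀ x) := by
  rw [algebraicIndependent_iff]
  intro P hP
  have h1 : rename (fun o : Option α => o.elim i₀ x) P ∈ J := by
    rw [← aeval_gn_eq_zero, aeval_rename]
    exact hP
  have h2 : ∀ d, homogeneousComponent d P = 0 := by
    intro d
    have h3 := (le_dh J hJ i₀ hi).1 (hJ _ h1 d)
    rw [← rename_homogeneousComponent, ← aeval_gn_eq_zero, aeval_rename] at h3
    refine A6c_dehom (homogeneousComponent_isHomogeneous d P) ?_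
    refine algebraicIndependent_iff.1 hx _ ?_
    rw [MvPolynomial.comp_aeval_apply, ← h3]
    congr 2
    funext o
    cases o with
    | none =>
      change aeval _ (1 : MvPolynomial α K) = gn (dh J i₀) i₀
      rw [map_one, A6c_one J i₀ hi]
    | some l =>
      change aeval _ (X l : MvPolynomial α K) = gn (dh J i₀) (x l)
      rw [aeval_X]
  rw [← sum_homogeneousComponent P]
  exact Finset.sum_eq_zero fun d _ => h2 d

omit [Fintype ι] in
/-- The embedding of the function field of the affine variety in that of the cone. -/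
private theorem A6c_emb (J : Ideal (MvPolynomial ι K)) [J.IsPrime] (i₀ : ι) :
    ∃ ρ : FF (dh J i₀) →ₐ[K] FF J, ∀ i, ρ (gn (dh J i₀) i) = gn J i / gn J i₀ := by
  let ψ : (MvPolynomial ι K ⧸ dh J i₀) →ₐ[K] FF J :=
    Ideal.Quotient.liftₐ (dh J i₀) (aeval fun i => gn J i / gn J i₀)
      (fun F hF => (B3_mem_dh J i₀ F).1 hF)
  have hψ : Function.Injective ψ := by
    rw [injective_iff_map_eq_zero]
    intro a ha
    obtain ⟨F, rfl⟩ := Ideal.Quotient.mk_surjective a
    rw [Ideal.Quotient.eq_zero_iff_mem, B3_mem_dh]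
    exact ha
  refine ⟨IsFractionRing.liftAlgHom (K := FF (dh J i₀)) hψ, fun i => ?_⟩
  have h1 : IsFractionRing.liftAlgHom (K := FF (dh J i₀)) hψ (gn (dh J i₀) i) =
      ψ (Ideal.Quotient.mk _ (X i)) :=
    IsFractionRing.lift_algebraMap (g := ψ.toRingHom) hψ _
  rw [h1]
  exact aeval_X _ _

omit [Fintype ι] in
/-- The function field of the cone is algebraic over the field generated by the coordinates `i₀` and
`x l`. -/
private theorem A6c_alg (J : Ideal (MvPolynomial ι K)) [J.IsPrime] (i₀ : ι) (hi : X i₀ ∉ J) {α : Type}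
    (x : α → ι) (hfin : FiniteDimensional (F0 K fun l => gn (dh J i₀) (x l)) (FF (dh J i₀))) :
    Algebra.IsAlgebraic (Algebra.adjoin K (Set.range fun o : Option α => gn J (o.elim i₀ x)))
      (FF J) := by
  obtain ⟨ρ, hρ⟩ := A6c_emb J i₀
  have hc := B3_gn_ne J i₀ hi
  set S : Set (FF J) := Set.range fun o : Option α => gn J (o.elim i₀ x) with hS
  let E := IntermediateField.adjoin K S
  have hE : ∀ o : Option α, gn J (o.elim i₀ x) ∈ E := fun o =>
    IntermediateField.subset_adjoin K S ⟨o, rfl⟩
  have hsub : ∀ a : F0 K fun l => gn (dh J i₀) (x l), ρ (a : FF (dh J i₀)) ∈ E := by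
    rintro ⟨a, ha⟩
    have h1 : F0 K (fun l => gn (dh J i₀) (x l)) ≤ E.toSubfield.comap (ρ : FF (dh J i₀) →+* FF J) := by
      refine Subfield.closure_le.2 ?_
      rintro z (⟨c, rfl⟩ | ⟨l, rfl⟩)
      · change ρ (algebraMap K _ c) ∈ E
        rw [AlgHom.commutes]
        exact E.algebraMap_mem c
      · change ρ (gn (dh J i₀) (x l)) ∈ E
        rw [hρ]
        exact div_mem (hE (some l)) (hE none)
    exact h1 ha
  let φ : (F0 K fun l => gn (dh J i₀) (x l)) →+* E :=
    ((ρ : FF (dh J i₀) →+* FF J).comp (F0 K fun l => gn (dh J i₀) (x l)).subtype).codRestrict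
      E.toSubfield hsub
  have hint : ∀ z : FF (dh J i₀), IsIntegral E (ρ z) := by
    intro z
    have hz : IsIntegral (F0 K fun l => gn (dh J i₀) (x l)) z := Algebra.IsIntegral.isIntegral z
    exact hz.map_of_comp_eq φ (ρ : FF (dh J i₀) →+* FF J) rfl
  have hgn : ∀ i, IsIntegral E (gn J i) := by
    intro i
    have h1 : gn J i = algebraMap E (FF J) ⟨gn J i₀, hE none⟩ * ρ (gn (dh J i₀) i) := by
      rw [hρ]
      exact (mul_div_cancel₀ (gn J i) hc).symm
    rw [h1]
    exact isIntegral_algebraMap.mul (hint _)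
  have halgE : Algebra.IsAlgebraic E (FF J) := by
    refine ⟨fun z => ?_⟩
    have hP : ∀ P : MvPolynomial ι K, IsIntegral E (aeval (gn J) P) := by
      intro P
      have h1 : aeval (gn J) P ∈ Algebra.adjoin K (Set.range (gn J)) := by
        rw [Algebra.adjoin_range_eq_range_aeval]
        exact ⟨P, rfl⟩
      refine Algebra.adjoin_induction ?_ ?_ ?_ ?_ h1
      · rintro z ⟨i, rfl⟩
        exact hgn i
      · intro r
        exact isIntegral_algebraMap (R := E) (A := FF J) (x := algebraMap K E r)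
      · intro a b _ _ ha hb
        exact ha.add hb
      · intro a b _ _ ha hb
        exact ha.mul hb
    obtain ⟨r, s, -, rfl⟩ := IsFractionRing.div_surjective (A := MvPolynomial ι K ⧸ J) z
    obtain ⟨P, rfl⟩ := Ideal.Quotient.mk_surjective r
    obtain ⟨Q, rfl⟩ := Ideal.Quotient.mk_surjective s
    rw [← aeval_gn, ← aeval_gn, div_eq_mul_inv]
    exact (hP P).isAlgebraic.mul (hP Q).isAlgebraic.inv
  open scoped IntermediateField.algebraAdjoinAdjoin in
  exact (IsFractionRing.comap_isAlgebraic_iff (A := Algebra.adjoin K S) (K := E) (C := FF J)).2 halgE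

/-- The number of elements of the frame. -/
private theorem A6c_card (J : Ideal (MvPolynomial ι K)) [J.IsPrime]
    (hJ : ∀ F ∈ J, ∀ i, homogeneousComponent i F ∈ J) (i₀ : ι) (hi : X i₀ ∉ J) {α : Type} [Fintype α]
    (x : α → ι) (hx : AlgebraicIndependent K fun l => gn (dh J i₀) (x l))
    (hfin : FiniteDimensional (F0 K fun l => gn (dh J i₀) (x l)) (FF (dh J i₀))) (n : ℕ)
    (hn : Algebra.trdeg K (MvPolynomial ι K ⧸ J) = n + 1) : Fintype.card α = n := by
  have hb : IsTranscendenceBasis K fun o : Option α => gn J (o.elim i₀ x) :=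
    (A6c_indep J hJ i₀ hi x hx).isTranscendenceBasis_iff_isAlgebraic.2 (A6c_alg J i₀ hi x hfin)
  have h1 := hb.lift_cardinalMk_eq_trdeg
  have h2 := trdeg_add_eq K (MvPolynomial ι K ⧸ J) (A := FF J)
  have h4 : Algebra.IsAlgebraic (MvPolynomial ι K ⧸ J) (FF J) :=
    (IsFractionRing.comap_isAlgebraic_iff (K := FF J)).2 inferInstance
  have h3 : Algebra.trdeg (MvPolynomial ι K ⧸ J) (FF J) = 0 := trdeg_eq_zero
  rw [h3, add_zero, hn] at h2
  rw [← h2, Cardinal.mk_fintype, Fintype.card_option] at h1
  rw [Cardinal.lift_natCast, Cardinal.lift_add, Cardinal.lift_natCast, Cardinal.lift_one] at h1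
  exact Nat.succ_injective (by exact_mod_cast h1)

end aux

/-- The case `D = 0` for all projective varieties of dimension `n`. -/
theorem gauss_of_abc {K : Type u} [Field K] [NumberField K] (n : ℕ) (h : ABCForms K n) : VojtaGaussDim K n := by
  intro ι _ J hJp hJ htr ε hε
  classical
  have : J.IsPrime := hJp
  by_cases hX : ∀ i, X i ∈ J
  · refine ⟨1, 0, fun h1 => hJp.ne_top ((Ideal.eq_top_iff_one J).2 h1), ⟨0, isHomogeneous_one _ _⟩,
      fun p hp _ => ?_⟩
    exfalso
    apply hp.1
    funext i
    have h1 := hp.2 _ (hX i)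
    rwa [aeval_X] at h1
  · push Not at hX
    obtain ⟨i₀, hi⟩ := hX
    obtain ⟨α, _, _, x, δ, hx, hfin, hδ, hu⟩ := exists_frame (dh J i₀)
    have hn := A6c_card J hJ i₀ hi x hx hfin n htr
    have h1 : ∀ A : ValuationSubring (FF (dh J i₀)), (∀ c : K, algebraMap K (FF (dh J i₀)) c ∈ A) →
        ∃ P : Finset (MvPolynomial α K), (∀ p ∈ P, p ≠ 0 ∧ aeval (fun l => gn (dh J i₀) (x l)) p ≠ 0) ∧
          Le (fun l => δ l) A (vals (fun l => gn (dh J i₀) (x l)) (P : Set (MvPolynomial α K)))
            (fun s : (Option α → ι) × (Empty → ι) =>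
              NZ (fun l => δ l) (gn (dh J i₀)) s.1 * ∏ b, gn (dh J i₀) (s.2 b) ^ 0)
            (fun i : ι × (Empty → Unit) => gn (dh J i₀) i.1 ^ (Fintype.card α + 1) *
              ∏ b, aeval (gn (dh J i₀)) ((fun (_ : Empty) (_ : Unit) => (0 : MvPolynomial ι K)) b
                (i.2 b))) := by
      intro A hA
      have : FiniteDimensional (F0 K fun l => gn (dh J i₀) (x l)) (FF (dh J i₀)) := hfin
      obtain ⟨P, hP, hle, -⟩ := T0 (fun l => gn (dh J i₀) (x l)) hx δ hδ (gn (dh J i₀))
        ⟨i₀, by rw [A6c_one J i₀ hi]; exact one_ne_zero⟩ A hA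
      refine ⟨P, hP, fun s => ?_⟩
      obtain ⟨k, b, hb, hv⟩ := hle s.1
      refine ⟨(k, fun _ => Unit.unit), b, hb, ?_⟩
      simpa only [Finset.univ_eq_empty, Finset.prod_empty, mul_one] using hv
    obtain ⟨G, C, hG, hGd, hp⟩ := core J hJ i₀ hi n hn h x δ hx hfin hδ hu 0
      (fun (_ : Empty) (_ : Unit) => (0 : MvPolynomial ι K)) (fun b => b.elim) (fun b => b.elim) h1
      ∅ ε hε
    refine ⟨G, C, hG, hGd, fun p hpt hGp => ?_⟩
    have h2 := (hp p hpt hGp).2
    have h3 : trunc ∅ 0 (fun (_ : Empty) (_ : Unit) => (0 : MvPolynomial ι K)) p = 0 := by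
      unfold trunc
      have h4 : {v : FinitePlace K | v ∉ (∅ : Finset (FinitePlace K)) ∧ ∃ b : Empty,
          0 < lam v.val 0 ((fun (_ : Empty) (_ : Unit) => (0 : MvPolynomial ι K)) b) p} = ∅ := by
        ext v
        constructor
        · rintro ⟨-, b, -⟩
          exact b.elim
        · exact fun h5 => h5.elim
      rw [h4]
      exact finsum_mem_empty
    rw [h3, Finset.univ_eq_empty, Finset.sum_empty, zero_add, zero_add] at h2
    exact h2

end Pool.Agent.Lib.MP_17a322_nt.ABN
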