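import Mathlib

/-!
The abc inequality for forms in `n + 1` variables: definition. Heights are not divided by `[K : ℚ]`.
-/

universe u

namespace Pool.Agent.Lib.MP_17a322_nt.ABN

open MvPolynomial Height NumberField

/-- The abc inequality over the number field `K` for forms in `n + 1` variables (on the projective space
of dimension `n`). For forms `f_a`, `a ∈ κ`, of the same degree in the variables `X_0, ..., X_n`, and
`ε > 0`, outside a hypersurface `G = 0` the height of the vector with the coordinates
`det (∂ f_a / ∂ X_j (w))_{a ∈ s} * ∏_{a ∉ s} f_a(w)`, where `s` runs over the subsets of `κ` with `n + 1`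
elements (in the definition `s` is a map to `κ`; if it is not injective the coordinate is zero), is at
most the sum of `log q_v` over the finite places `v` at which the absolute values of the numbers
`f_a(w)` are not all equal, plus `ε h(w) + O(1)`. For `n = 1` and the forms `X_0`, `X_1`, `X_0 + X_1`
this is the abc conjecture over `K`. -/
def ABCForms (K : Type u) [Field K] [NumberField K] (n : ℕ) : Prop :=
  ∀ (κ : Type) [Fintype κ] [DecidableEq κ] (f : κ → MvPolynomial (Fin (n + 1)) K) (d : ℕ),
    (∀ a, (f a).IsHomogeneous d) → ∀ ε : ℝ, 0 < ε →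
    ∃ (G : MvPolynomial (Fin (n + 1)) K) (C : ℝ), G ≠ 0 ∧ (∃ d', G.IsHomogeneous d') ∧
      ∀ w : Fin (n + 1) → K, eval w G ≠ 0 →
        logHeight (fun s : Fin (n + 1) → κ => (Matrix.of fun i j => eval w (pderiv j (f (s i)))).det *
            ∏ a ∈ (Finset.univ.image s)ᶜ, eval w (f a)) ≤
          (∑ᶠ v ∈ {v : FinitePlace K | ∃ a b, v (eval w (f a)) ≠ v (eval w (f b))},
            Real.log (Ideal.absNorm v.maximalIdeal.asIdeal)) + ε * logHeight w + C

end Pool.Agent.Lib.MP_17a322_nt.ABN
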