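import Pool.Agent.Lib.MP_17a322_nt.AB.Defs
import Pool.Agent.Lib.MP_17a322_nt.ABN.Defs

/-!
The abc inequality for forms in any finite set of variables is the one in `n + 1` variables for all `n`.
-/

universe u

namespace Pool.Agent.Lib.MP_17a322_nt.ABN

open MvPolynomial Height NumberField
open Pool.Agent.Lib.MP_17a322_nt.AB (ABCIneq)

private lemma AI_nn {K : Type u} [Field K] [NumberField K] {τ : Type} [Fintype τ] (s : Set (FinitePlace K)) (w : τ → K)
    (ε : ℝ) (hε : 0 < ε) :
    0 ≤ (∑ᶠ v ∈ s, Real.log (Ideal.absNorm v.maximalIdeal.asIdeal)) + ε * logHeight w + 0 := by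
  have h1 : 0 ≤ ∑ᶠ v ∈ s, Real.log (Ideal.absNorm v.maximalIdeal.asIdeal) :=
    finsum_nonneg fun v => finsum_nonneg fun _ => Real.log_natCast_nonneg _
  have h2 := mul_nonneg hε.le (logHeight_nonneg w)
  linarith

/-- The abc inequality for forms in several variables is the one for forms in `n + 1` variables for
all `n`. -/
theorem abcForms_iff (K : Type u) [Field K] [NumberField K] : (∀ n, ABCForms K n) ↔ ABCIneq K := by
  constructor
  · intro h τ κ _ _ _ _ f d hf ε hε
    rcases isEmpty_or_nonempty τ with hτ | hτ
    · refine ⟨1, 0, one_ne_zero, ⟨0, isHomogeneous_one τ K⟩, fun w _ => ?_⟩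
      rw [logHeight_eq_zero_of_subsingleton]
      exact AI_nn _ _ _ hε
    · obtain ⟨n, hn⟩ : ∃ n, Fintype.card τ = n + 1 :=
        ⟨Fintype.card τ - 1, (Nat.succ_pred_eq_of_pos Fintype.card_pos).symm⟩
      let e : τ ≃ Fin (n + 1) := Fintype.equivFinOfCardEq hn
      obtain ⟨G, C, hG0, ⟨d', hd'⟩, hG⟩ := h n κ (fun a => rename e (f a)) d
        (fun a => (hf a).rename_isHomogeneous) ε hε
      refine ⟨rename e.symm G, C, (map_ne_zero_iff _ (rename_injective _ e.symm.injective)).2 hG0,
        ⟨d', hd'.rename_isHomogeneous⟩, fun w hw => ?_⟩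
      have h1 : ∀ p : MvPolynomial τ K, eval (w ∘ e.symm) (rename e p) = eval w p := by
        intro p
        rw [eval_rename, Function.comp_assoc, Equiv.symm_comp_self, Function.comp_id]
      rw [eval_rename] at hw
      have h2 := hG (w ∘ e.symm) hw
      simp only [h1] at h2
      rw [logHeight_comp_equiv] at h2
      refine le_trans (le_of_eq ?_) h2
      rw [← logHeight_comp_equiv (K := K) (Equiv.arrowCongr e (Equiv.refl κ))]
      congr 1
      funext s
      simp only [Function.comp_apply, Equiv.arrowCongr_apply, Equiv.coe_refl, id_eq]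
      congr 1
      · rw [← Matrix.det_submatrix_equiv_self e.symm]
        congr 1
        ext1 i j
        simp only [Matrix.submatrix_apply, Matrix.of_apply]
        have h3 := pderiv_rename e.injective (e.symm j) (f (s (e.symm i)))
        rw [Equiv.apply_symm_apply] at h3
        rw [h3, h1]
      · apply Finset.prod_congr _ fun _ _ => rfl
        congr 1
        ext a
        simp only [Finset.mem_image, Finset.mem_univ, true_and]
        constructor
        · rintro ⟨i, hi⟩
          refine ⟨e i, ?_⟩
          change s (e.symm (e i)) = a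
          rw [Equiv.symm_apply_apply]
          exact hi
        · rintro ⟨i, hi⟩
          exact ⟨e.symm i, hi⟩
  · intro h n κ _ _ f d hf ε hε
    exact h (Fin (n + 1)) κ f d hf ε hε

end Pool.Agent.Lib.MP_17a322_nt.ABN
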