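import Mathlib

namespace Pool.Agent.Lib.MP_17a322_nt.ABN

/-- the valuation subring of a point of the closed set -/
private def C1_ring {F : Type*} [Field F] (x : F → Bool) (h0 : x 0 = true) (h1 : x 1 = true)
    (ha : ∀ a b, x a = true → x b = true → x (a + b) = true)
    (hm : ∀ a b, x a = true → x b = true → x (a * b) = true)
    (hn : ∀ a, x a = true → x (-a) = true) (hi : ∀ a, x a = true ∨ x a⁻¹ = true) :
    ValuationSubring F where
  carrier := {f | x f = true}
  mul_mem' := fun {a b} h h' => hm a b h h'
  one_mem' := h1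
  add_mem' := fun {a b} h h' => ha a b h h'
  zero_mem' := h0
  neg_mem' := fun {a} h => hn a h
  mem_or_inv_mem' := hi

/-- Compactness of the Zariski-Riemann space in the constructible topology. -/
theorem compact_c {k F : Type*} [Field k] [Field F] [Algebra k F] {I : Type*} (W V : I → Set F)
    (hW : ∀ i, (W i).Finite) (hV : ∀ i, (V i).Finite)
    (h : ∀ A : ValuationSubring F, (∀ c : k, algebraMap k F c ∈ A) → ∃ i, W i ⊆ A ∧ ∀ f ∈ V i, f ∉ A) :
    ∃ s : Finset I, ∀ A : ValuationSubring F, (∀ c : k, algebraMap k F c ∈ A) →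
      ∃ i ∈ s, W i ⊆ A ∧ ∀ f ∈ V i, f ∉ A := by
  classical
  have hc3 : ∀ (a b c : F) (P : Set (Bool × Bool × Bool)),
      IsClosed {x : F → Bool | (x a, x b, x c) ∈ P} := fun a b c P =>
    (isClosed_discrete P).preimage
      ((continuous_apply a).prodMk ((continuous_apply b).prodMk (continuous_apply c)))
  have hc1 : ∀ a : F, IsClosed {x : F → Bool | x a = true} := fun a =>
    (isClosed_discrete ({true} : Set Bool)).preimage
      (continuous_apply a : Continuous fun x : F → Bool => x a)
  have ho1 : ∀ a : F, IsOpen {x : F → Bool | x a = true} := fun a =>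
    (isOpen_discrete ({true} : Set Bool)).preimage
      (continuous_apply a : Continuous fun x : F → Bool => x a)
  set Z : Set (F → Bool) := {x | x 0 = true ∧ x 1 = true ∧ (∀ c : k, x (algebraMap k F c) = true) ∧
    (∀ a b, x a = true → x b = true → x (a + b) = true) ∧
    (∀ a b, x a = true → x b = true → x (a * b) = true) ∧ (∀ a, x a = true → x (-a) = true) ∧
    ∀ a, x a = true ∨ x a⁻¹ = true} with hZ
  have hZc : IsClosed Z := by
    rw [hZ]
    refine (hc1 0).inter ((hc1 1).inter (IsClosed.inter ?_ (IsClosed.inter ?_ (IsClosed.inter ?_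
      (IsClosed.inter ?_ ?_)))))
    · have e : {x : F → Bool | ∀ c : k, x (algebraMap k F c) = true} =
          ⋂ c : k, {x : F → Bool | x (algebraMap k F c) = true} := by
        ext x
        simp
      change IsClosed {x : F → Bool | ∀ c : k, x (algebraMap k F c) = true}
      rw [e]
      exact isClosed_iInter fun c => hc1 _
    · have e : {x : F → Bool | ∀ a b, x a = true → x b = true → x (a + b) = true} =
          ⋂ a, ⋂ b, {x : F → Bool | (x a, x b, x (a + b)) ∈
            {t : Bool × Bool × Bool | t.1 = true → t.2.1 = true → t.2.2 = true}} := by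
        ext x
        simp
      change IsClosed {x : F → Bool | ∀ a b, x a = true → x b = true → x (a + b) = true}
      rw [e]
      exact isClosed_iInter fun a => isClosed_iInter fun b => hc3 _ _ _ _
    · have e : {x : F → Bool | ∀ a b, x a = true → x b = true → x (a * b) = true} =
          ⋂ a, ⋂ b, {x : F → Bool | (x a, x b, x (a * b)) ∈
            {t : Bool × Bool × Bool | t.1 = true → t.2.1 = true → t.2.2 = true}} := by
        ext x
        simp
      change IsClosed {x : F → Bool | ∀ a b, x a = true → x b = true → x (a * b) = true}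
      rw [e]
      exact isClosed_iInter fun a => isClosed_iInter fun b => hc3 _ _ _ _
    · have e : {x : F → Bool | ∀ a, x a = true → x (-a) = true} =
          ⋂ a, {x : F → Bool | (x a, x a, x (-a)) ∈
            {t : Bool × Bool × Bool | t.1 = true → t.2.1 = true → t.2.2 = true}} := by
        ext x
        simp
      change IsClosed {x : F → Bool | ∀ a, x a = true → x (-a) = true}
      rw [e]
      exact isClosed_iInter fun a => hc3 _ _ _ _
    · have e : {x : F → Bool | ∀ a, x a = true ∨ x a⁻¹ = true} =
          ⋂ a, {x : F → Bool | (x a, x a, x a⁻¹) ∈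
            {t : Bool × Bool × Bool | t.1 = true ∨ t.2.2 = true}} := by
        ext x
        simp
      change IsClosed {x : F → Bool | ∀ a, x a = true ∨ x a⁻¹ = true}
      rw [e]
      exact isClosed_iInter fun a => hc3 _ _ _ _
  have ho0 : ∀ a : F, IsOpen {x : F → Bool | x a = false} := fun a =>
    (isOpen_discrete ({false} : Set Bool)).preimage
      (continuous_apply a : Continuous fun x : F → Bool => x a)
  have hU : ∀ i, IsOpen ({x : F → Bool | ∀ f ∈ W i, x f = true} ∩ {x : F → Bool | ∀ f ∈ V i, x f = false}) := by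
    intro i
    have e : {x : F → Bool | ∀ f ∈ W i, x f = true} = ⋂ f ∈ W i, {x : F → Bool | x f = true} := by
      ext x
      simp
    have e' : {x : F → Bool | ∀ f ∈ V i, x f = false} = ⋂ f ∈ V i, {x : F → Bool | x f = false} := by
      ext x
      simp
    rw [e, e']
    exact ((hW i).isOpen_biInter fun f _ => ho1 f).inter ((hV i).isOpen_biInter fun f _ => ho0 f)
  have hcov : Z ⊆ ⋃ i, ({x : F → Bool | ∀ f ∈ W i, x f = true} ∩
      {x : F → Bool | ∀ f ∈ V i, x f = false}) := by
    rintro x ⟨h0, h1, hk, ha, hm, hn, hi⟩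
    obtain ⟨i, hWi, hVi⟩ := h (C1_ring x h0 h1 ha hm hn hi) fun c => hk c
    exact Set.mem_iUnion.2 ⟨i, fun f hf => hWi hf, fun f hf => Bool.eq_false_of_not_eq_true (hVi f hf)⟩
  obtain ⟨s, hs⟩ := hZc.isCompact.elim_finite_subcover _ hU hcov
  refine ⟨s, fun A hA => ?_⟩
  have hx : (fun f : F => decide (f ∈ A)) ∈ Z := by
    refine ⟨?_, ?_, ?_, ?_, ?_, ?_, ?_⟩
    · exact decide_eq_true A.zero_mem
    · exact decide_eq_true A.one_mem
    · exact fun c => decide_eq_true (hA c)
    · exact fun a b h h' => decide_eq_true (A.add_mem _ _ (of_decide_eq_true h) (of_decide_eq_true h'))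
    · exact fun a b h h' => decide_eq_true (A.mul_mem _ _ (of_decide_eq_true h) (of_decide_eq_true h'))
    · exact fun a h => decide_eq_true (A.neg_mem _ (of_decide_eq_true h))
    · exact fun a => (A.mem_or_inv_mem a).imp (fun h => decide_eq_true h) fun h => decide_eq_true h
  obtain ⟨i, hi⟩ := Set.mem_iUnion.1 (hs hx)
  obtain ⟨his, hif, hig⟩ := Set.mem_iUnion.1 hi
  exact ⟨i, his, fun f hf => of_decide_eq_true (hif f hf), fun f hf => of_decide_eq_false (hig f hf)⟩

end Pool.Agent.Lib.MP_17a322_nt.ABN
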