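import Pool.Agent.Lib.MP_17a322_nt.EQ.Defs

/-!
The case `D = 0` of Vojta's conjecture for all projective varieties of dimension `n`, smooth or not:
definition.
-/

universe u

namespace Pool.Agent.Lib.MP_17a322_nt.ABN

open MvPolynomial Height NumberField
open Pool.Agent.Lib.MP_17a322_nt.EQ

/-- The case `D = 0` of Vojta's conjecture for rational points, for all projective varieties over `K`
of dimension `n`, which may be singular: for every homogeneous prime ideal `J` such that `K[X] ⧸ J` has
the transcendence degree `n + 1` over `K` and every `ε > 0` there is a proper closed subset `G = 0`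
outside which `hCan ≤ ε h + O(1)` holds for the points over `K`, where `hCan` is the height of the
tangent space of the cone at `p` minus its dimension times the height of `p`. For smooth varieties
`hCan` is the height with respect to the canonical class. -/
def VojtaGaussDim (K : Type u) [Field K] [NumberField K] (n : ℕ) : Prop :=
  ∀ (ι : Type) [Fintype ι] (J : Ideal (MvPolynomial ι K)), J.IsPrime →
    (∀ F ∈ J, ∀ i, homogeneousComponent i F ∈ J) → Algebra.trdeg K (MvPolynomial ι K ⧸ J) = n + 1 →
    ∀ ε : ℝ, 0 < ε → ∃ (G : MvPolynomial ι K) (C : ℝ), G ∉ J ∧ (∃ d, G.IsHomogeneous d) ∧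
      ∀ p : ι → K, IsPt J p → eval p G ≠ 0 → hCan J p ≤ ε * logHeight p + C

end Pool.Agent.Lib.MP_17a322_nt.ABN
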