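import Pool.Agent.Lib.MP_17a322_nt.JAC.Main
import Pool.Agent.Lib.MP_17a322_nt.ABN.AI
import Pool.Agent.Lib.MP_17a322_nt.ABN.A6b
import Pool.Agent.Lib.MP_17a322_nt.ABN.A6c

/-!
The abc inequality for forms in `n + 1` variables and Vojta's conjecture in dimension `n`: the theorem.
-/

universe u

namespace Pool.Agent.Lib.MP_17a322_nt.ABN

open Pool.Agent.Lib.MP_17a322_nt.EQ
open Pool.Agent.Lib.MP_17a322_nt.JAC

/-- The abc inequality for forms in `n + 1` variables implies Vojta's conjecture in dimension `n`. -/
theorem vojta_of_forms {K : Type u} [Field K] [NumberField K] (n : ℕ) (h : ABCForms K n) :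
    VojtaTrunc K n ∧ Vojta K n ∧ VojtaGaussDim K n :=
  ⟨trunc_of_abc n h, (hz_main K n).2.2.1 (trunc_of_abc n h), gauss_of_abc n h⟩

/-- The abc inequality for forms in any number of variables is equivalent to the inequality for
Jacobian minors. -/
theorem forms_iff_jac (K : Type u) [Field K] [NumberField K] : (∀ n, ABCForms K n) ↔ JacIneq K :=
  (abcForms_iff K).trans (abc_iff_gauss K).1

end Pool.Agent.Lib.MP_17a322_nt.ABN
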