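import Pool.Agent.Lib.MP_17a322_nt.JAC.B1

/-!
Definitions for the proof that the abc inequality for forms implies Vojta's conjecture in the same
dimension: logarithmic differentials and valuation rings.
-/

universe u

namespace Pool.Agent.Lib.MP_17a322_nt.ABN

open MvPolynomial
open Pool.Agent.Lib.MP_17a322_nt.JAC

section

variable {F α : Type*} [Field F] [Fintype α] [DecidableEq α]

/-- The determinant of the logarithmic differentials of the elements `b k`. -/
noncomputable def GG (δ : α → F → F) (b : α → F) : F :=
  (Matrix.of fun k l => δ l (b k) / b k).det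

/-- At the valuation ring `A` every `N i` is at most a number `D k` times the determinant of the
logarithmic differentials of elements of `T`. -/
def Le (δ : α → F → F) {Λ Λ' : Type*} (A : ValuationSubring F) (T : Set F) (N : Λ → F) (D : Λ' → F) :
    Prop :=
  ∀ i, ∃ (k : Λ') (b : α → F), (∀ j, b j ∈ T) ∧ A.valuation (N i) ≤ A.valuation (D k * GG δ b)

/-- The strict version of `Le`. -/
def Lt (δ : α → F → F) {Λ Λ' : Type*} (A : ValuationSubring F) (T : Set F) (N : Λ → F) (D : Λ' → F) :
    Prop :=
  ∀ i, ∃ (k : Λ') (b : α → F), (∀ j, b j ∈ T) ∧ A.valuation (N i) < A.valuation (D k * GG δ b)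

/-- The element `f` is a unit of the valuation ring `A`. -/
def Un (A : ValuationSubring F) (f : F) : Prop := f ∈ A ∧ f⁻¹ ∈ A

/-- The vector of the derivatives of `ψ`, divided by `ψ` if `ψ` is not in `A`. -/
noncomputable def wv (δ : α → F → F) (A : ValuationSubring F) (ψ : F) (l : α) : F :=
  open Classical in if ψ ∈ A then δ l ψ else δ l ψ / ψ

/-- The strict inequality of `Lt` with the logarithmic differentials of the elements of `T` and the
vectors `wv` of the elements of `Ψ`. -/
def Ltw (δ : α → F → F) {Λ Λ' : Type*} (A : ValuationSubring F) (T Ψ : Set F) (N : Λ → F)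
    (D : Λ' → F) : Prop :=
  ∀ i, ∃ (k : Λ') (r : α → α → F),
    (∀ j, (∃ p ∈ T, r j = fun l => δ l p / p) ∨ ∃ ψ ∈ Ψ, r j = wv δ A ψ) ∧
      A.valuation (N i) < A.valuation (D k * (Matrix.of r).det)

end

section

variable {K F α : Type*} [Field K] [Field F] [Algebra K F]

/-- The field generated by the `x l`. -/
def F0 (K : Type*) {F α : Type*} [Field K] [Field F] [Algebra K F] (x : α → F) : Subfield F :=
  Subfield.closure (Set.range (algebraMap K F) ∪ Set.range x)

/-- The values at `x` of the polynomials in the set `P`. -/
def vals (x : α → F) (P : Set (MvPolynomial α K)) : Set F := (fun p => aeval x p) '' P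

end

section

variable {F E α : Type*} [Field F] [Field E] [Algebra F E]

/-- The vector `r` is a combination with coefficients in `O` of logarithmic differentials of elements
of `F₀`. -/
def Rp (δ : α → F → F) (F₀ : Subfield F) (O : ValuationSubring E) (r : α → F) : Prop :=
  (fun l => algebraMap F E (r l)) ∈
    spn O {v : α → E | ∃ b ∈ F₀, b ≠ 0 ∧ v = fun l => algebraMap F E (δ l b / b)}

/-- The same, and the coefficients of the logarithmic differentials of elements which are not units
are in the maximal ideal of `O`. -/
def Rs (δ : α → F → F) (F₀ : Subfield F) (O : ValuationSubring E) (r : α → F) : Prop :=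
  (fun l => algebraMap F E (r l)) ∈
    spn O {v : α → E | ∃ (a : E) (b : F), b ∈ F₀ ∧ b ≠ 0 ∧ a ∈ O ∧
      (O.valuation a < 1 ∨ Un O (algebraMap F E b)) ∧ v = fun l => a * algebraMap F E (δ l b / b)}

end

section

variable {F ι α : Type*} [Field F] [Fintype α] [DecidableEq α]

/-- The determinant of the rows `z (s ·)` and `δ l (z (s ·))`. -/
noncomputable def NZ (δ : α → F → F) (z : ι → F) (s : Option α → ι) : F :=
  (Matrix.of fun a b : Option α => a.elim (z (s b)) fun l => δ l (z (s b))).det

end

end Pool.Agent.Lib.MP_17a322_nt.ABN
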