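import Pool.Agent.Lib.MP_17a322_nt.ABN.N0

universe u

namespace Pool.Agent.Lib.MP_17a322_nt.ABN

open MvPolynomial
open Pool.Agent.Lib.MP_17a322_nt.JAC

/-- the valuation subring of a point of the closed set -/
private def N1_ring {F : Type*} [Field F] (x : F → Bool) (h0 : x 0 = true) (h1 : x 1 = true)
    (ha : ∀ a b, x a = true → x b = true → x (a + b) = true)
    (hm : ∀ a b, x a = true → x b = true → x (a * b) = true)
    (hn : ∀ a, x a = true → x (-a) = true) (hi : ∀ a, x a = true ∨ x a⁻¹ = true) :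
    ValuationSubring F where
  carrier := {f | x f = true}
  mul_mem' := fun {a b} h h' => hm a b h h'
  one_mem' := h1
  add_mem' := fun {a b} h h' => ha a b h h'
  zero_mem' := h0
  neg_mem' := fun {a} h => hn a h
  mem_or_inv_mem' := hi

/-- Compactness of the space of all valuation rings in the constructible topology. -/
theorem compact2 {k F : Type*} [Field k] [Field F] [Algebra k F] {I : Type*} (P : I → ValuationSubring F → Prop)
    (W : I → Set F) (hW : ∀ i, (W i).Finite)
    (hdet : ∀ i (A A' : ValuationSubring F), (∀ w ∈ W i, (w ∈ A ↔ w ∈ A')) → P i A → P i A')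
    (h : ∀ A : ValuationSubring F, (∀ c : k, algebraMap k F c ∈ A) → ∃ i, P i A) :
    ∃ s : Finset I, ∀ A : ValuationSubring F, (∀ c : k, algebraMap k F c ∈ A) → ∃ i ∈ s, P i A := by
  classical
  have hc3 : ∀ (a b c : F) (P : Set (Bool × Bool × Bool)),
      IsClosed {x : F → Bool | (x a, x b, x c) ∈ P} := fun a b c P =>
    (isClosed_discrete P).preimage
      ((continuous_apply a).prodMk ((continuous_apply b).prodMk (continuous_apply c)))
  have hc1 : ∀ a : F, IsClosed {x : F → Bool | x a = true} := fun a =>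
    (isClosed_discrete ({true} : Set Bool)).preimage
      (continuous_apply a : Continuous fun x : F → Bool => x a)
  have ho1 : ∀ a : F, IsOpen {x : F → Bool | x a = true} := fun a =>
    (isOpen_discrete ({true} : Set Bool)).preimage
      (continuous_apply a : Continuous fun x : F → Bool => x a)
  set Z : Set (F → Bool) := {x | x 0 = true ∧ x 1 = true ∧ (∀ c : k, x (algebraMap k F c) = true) ∧
    (∀ a b, x a = true → x b = true → x (a + b) = true) ∧
    (∀ a b, x a = true → x b = true → x (a * b) = true) ∧ (∀ a, x a = true → x (-a) = true) ∧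
    ∀ a, x a = true ∨ x a⁻¹ = true} with hZ
  have hZc : IsClosed Z := by
    rw [hZ]
    refine (hc1 0).inter ((hc1 1).inter (IsClosed.inter ?_ (IsClosed.inter ?_ (IsClosed.inter ?_
      (IsClosed.inter ?_ ?_)))))
    · have e : {x : F → Bool | ∀ c : k, x (algebraMap k F c) = true} =
          ⋂ c : k, {x : F → Bool | x (algebraMap k F c) = true} := by
        ext x
        simp
      change IsClosed {x : F → Bool | ∀ c : k, x (algebraMap k F c) = true}
      rw [e]
      exact isClosed_iInter fun c => hc1 _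
    · have e : {x : F → Bool | ∀ a b, x a = true → x b = true → x (a + b) = true} =
          ⋂ a, ⋂ b, {x : F → Bool | (x a, x b, x (a + b)) ∈
            {t : Bool × Bool × Bool | t.1 = true → t.2.1 = true → t.2.2 = true}} := by
        ext x
        simp
      change IsClosed {x : F → Bool | ∀ a b, x a = true → x b = true → x (a + b) = true}
      rw [e]
      exact isClosed_iInter fun a => isClosed_iInter fun b => hc3 _ _ _ _
    · have e : {x : F → Bool | ∀ a b, x a = true → x b = true → x (a * b) = true} =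
          ⋂ a, ⋂ b, {x : F → Bool | (x a, x b, x (a * b)) ∈
            {t : Bool × Bool × Bool | t.1 = true → t.2.1 = true → t.2.2 = true}} := by
        ext x
        simp
      change IsClosed {x : F → Bool | ∀ a b, x a = true → x b = true → x (a * b) = true}
      rw [e]
      exact isClosed_iInter fun a => isClosed_iInter fun b => hc3 _ _ _ _
    · have e : {x : F → Bool | ∀ a, x a = true → x (-a) = true} =
          ⋂ a, {x : F → Bool | (x a, x a, x (-a)) ∈
            {t : Bool × Bool × Bool | t.1 = true → t.2.1 = true → t.2.2 = true}} := by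
        ext x
        simp
      change IsClosed {x : F → Bool | ∀ a, x a = true → x (-a) = true}
      rw [e]
      exact isClosed_iInter fun a => hc3 _ _ _ _
    · have e : {x : F → Bool | ∀ a, x a = true ∨ x a⁻¹ = true} =
          ⋂ a, {x : F → Bool | (x a, x a, x a⁻¹) ∈
            {t : Bool × Bool × Bool | t.1 = true ∨ t.2.2 = true}} := by
        ext x
        simp
      change IsClosed {x : F → Bool | ∀ a, x a = true ∨ x a⁻¹ = true}
      rw [e]
      exact isClosed_iInter fun a => hc3 _ _ _ _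
  have hU : ∀ i, IsOpen {x : F → Bool | ∃ A : ValuationSubring F, P i A ∧
      ∀ w ∈ W i, (x w = true ↔ w ∈ A)} := by
    intro i
    have e : {x : F → Bool | ∃ A : ValuationSubring F, P i A ∧ ∀ w ∈ W i, (x w = true ↔ w ∈ A)} =
        ⋃ (A : ValuationSubring F) (_ : P i A), ⋂ w ∈ W i, {x : F → Bool | (x w = true ↔ w ∈ A)} := by
      ext x
      simp
    rw [e]
    refine isOpen_iUnion fun A => isOpen_iUnion fun _ => (hW i).isOpen_biInter fun w _ => ?_
    exact (isOpen_discrete {t : Bool | (t = true ↔ w ∈ A)}).preimage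
      (continuous_apply w : Continuous fun x : F → Bool => x w)
  have hcov : Z ⊆ ⋃ i, {x : F → Bool | ∃ A : ValuationSubring F, P i A ∧
      ∀ w ∈ W i, (x w = true ↔ w ∈ A)} := by
    rintro x ⟨h0, h1, hk, ha, hm, hn, hi⟩
    obtain ⟨i, hPi⟩ := h (N1_ring x h0 h1 ha hm hn hi) fun c => hk c
    exact Set.mem_iUnion.2 ⟨i, N1_ring x h0 h1 ha hm hn hi, hPi, fun w _ => Iff.rfl⟩
  obtain ⟨s, hs⟩ := hZc.isCompact.elim_finite_subcover _ hU hcov
  refine ⟨s, fun A hA => ?_⟩
  have hx : (fun f : F => decide (f ∈ A)) ∈ Z := by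
    refine ⟨?_, ?_, ?_, ?_, ?_, ?_, ?_⟩
    · exact decide_eq_true A.zero_mem
    · exact decide_eq_true A.one_mem
    · exact fun c => decide_eq_true (hA c)
    · exact fun a b h h' => decide_eq_true (A.add_mem _ _ (of_decide_eq_true h) (of_decide_eq_true h'))
    · exact fun a b h h' => decide_eq_true (A.mul_mem _ _ (of_decide_eq_true h) (of_decide_eq_true h'))
    · exact fun a h => decide_eq_true (A.neg_mem _ (of_decide_eq_true h))
    · exact fun a => (A.mem_or_inv_mem a).imp (fun h => decide_eq_true h) fun h => decide_eq_true h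
  obtain ⟨i, hi⟩ := Set.mem_iUnion.1 (hs hx)
  obtain ⟨his, A', hPA', hif⟩ := Set.mem_iUnion.1 hi
  refine ⟨i, his, hdet i A' A (fun w hw => ?_) hPA'⟩
  have := hif w hw
  simp only [decide_eq_true_eq] at this
  exact this.symm

/-- The relation `≤` of valuations depends on one membership. -/
private theorem N1_le {F : Type*} [Field F] (A A' : ValuationSubring F) (a b : F)
    (h : a / b ∈ A ↔ a / b ∈ A') (hab : A.valuation a ≤ A.valuation b) :
    A'.valuation a ≤ A'.valuation b := by
  by_cases hb : b = 0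
  · subst hb
    rw [map_zero, le_zero_iff, map_eq_zero] at hab
    rw [hab]
  · have h1 : A.valuation b ≠ 0 := (map_ne_zero _).2 hb
    have h2 : A'.valuation b ≠ 0 := (map_ne_zero _).2 hb
    have h3 : a / b ∈ A := by
      rw [← A.valuation_le_one_iff, map_div₀]
      exact (div_le_one₀ (zero_lt_iff.2 h1)).2 hab
    have h4 := h.1 h3
    rw [← A'.valuation_le_one_iff, map_div₀] at h4
    exact (div_le_one₀ (zero_lt_iff.2 h2)).1 h4

/-- The relation `<` of valuations depends on one membership. -/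
private theorem N1_lt {F : Type*} [Field F] (A A' : ValuationSubring F) (a b : F)
    (h : b / a ∈ A ↔ b / a ∈ A') (hab : A.valuation a < A.valuation b) :
    A'.valuation a < A'.valuation b := by
  by_contra hc
  exact absurd (N1_le A' A b a h.symm (not_lt.1 hc)) (not_le.2 hab)

/-- The condition `Le` depends only on finitely many memberships. -/
theorem Le_det {F α Λ Λ' : Type*} [Field F] [Fintype α] [DecidableEq α] [Finite Λ] [Finite Λ'] (δ : α → F → F) (T : Set F)
    (hT : T.Finite) (N : Λ → F) (D : Λ' → F) :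
    ∃ W : Set F, W.Finite ∧ ∀ A A' : ValuationSubring F, (∀ w ∈ W, (w ∈ A ↔ w ∈ A')) →
      Le δ A T N D → Le δ A' T N D := by
  classical
  have hfin : (Set.pi Set.univ fun _ : α => T).Finite := Set.Finite.pi fun _ => hT
  refine ⟨(fun t : Λ × Λ' × (α → F) => N t.1 / (D t.2.1 * GG δ t.2.2)) ''
    (Set.univ ×ˢ (Set.univ ×ˢ (Set.pi Set.univ fun _ : α => T))),
    ((Set.finite_univ.prod (Set.finite_univ.prod hfin)).image _), fun A A' hW hA i => ?_⟩
  obtain ⟨k, b, hb, hle⟩ := hA i
  exact ⟨k, b, hb, N1_le A A' _ _ (hW _ ⟨(i, k, b), ⟨trivial, trivial, fun j _ => hb j⟩, rfl⟩) hle⟩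

/-- The condition `Lt` depends only on finitely many memberships. -/
theorem Lt_det {F α Λ Λ' : Type*} [Field F] [Fintype α] [DecidableEq α] [Finite Λ] [Finite Λ'] (δ : α → F → F) (T : Set F)
    (hT : T.Finite) (N : Λ → F) (D : Λ' → F) :
    ∃ W : Set F, W.Finite ∧ ∀ A A' : ValuationSubring F, (∀ w ∈ W, (w ∈ A ↔ w ∈ A')) →
      Lt δ A T N D → Lt δ A' T N D := by
  classical
  have hfin : (Set.pi Set.univ fun _ : α => T).Finite := Set.Finite.pi fun _ => hT
  refine ⟨(fun t : Λ × Λ' × (α → F) => (D t.2.1 * GG δ t.2.2) / N t.1) ''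
    (Set.univ ×ˢ (Set.univ ×ˢ (Set.pi Set.univ fun _ : α => T))),
    ((Set.finite_univ.prod (Set.finite_univ.prod hfin)).image _), fun A A' hW hA i => ?_⟩
  obtain ⟨k, b, hb, hle⟩ := hA i
  exact ⟨k, b, hb, N1_lt A A' _ _ (hW _ ⟨(i, k, b), ⟨trivial, trivial, fun j _ => hb j⟩, rfl⟩) hle⟩

/-- The condition `Ltw` depends only on finitely many memberships. -/
theorem Ltw_det {F α Λ Λ' : Type*} [Field F] [Fintype α] [DecidableEq α] [Finite Λ] [Finite Λ'] (δ : α → F → F) (T Ψ : Set F)
    (hT : T.Finite) (hΨ : Ψ.Finite) (N : Λ → F) (D : Λ' → F) :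
    ∃ W : Set F, W.Finite ∧ ∀ A A' : ValuationSubring F, (∀ w ∈ W, (w ∈ A ↔ w ∈ A')) →
      Ltw δ A T Ψ N D → Ltw δ A' T Ψ N D := by
  classical
  set R : Set (α → F) := ((fun p l => δ l p / p) '' T) ∪
    (((fun ψ l => δ l ψ) '' Ψ) ∪ ((fun ψ l => δ l ψ / ψ) '' Ψ)) with hR
  have hRf : R.Finite := (hT.image _).union ((hΨ.image _).union (hΨ.image _))
  have hfin : (Set.pi Set.univ fun _ : α => R).Finite := Set.Finite.pi fun _ => hRf
  refine ⟨Ψ ∪ (fun t : Λ × Λ' × (α → α → F) => (D t.2.1 * (Matrix.of t.2.2).det) / N t.1) ''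
    (Set.univ ×ˢ (Set.univ ×ˢ (Set.pi Set.univ fun _ : α => R))),
    hΨ.union ((Set.finite_univ.prod (Set.finite_univ.prod hfin)).image _), fun A A' hW hA i => ?_⟩
  obtain ⟨k, r, hr, hle⟩ := hA i
  have hrR : ∀ j, r j ∈ R := by
    intro j
    rcases hr j with ⟨p, hp, e⟩ | ⟨ψ, hψ, e⟩
    · exact Or.inl ⟨p, hp, e.symm⟩
    · by_cases hA0 : ψ ∈ A
      · refine Or.inr (Or.inl ⟨ψ, hψ, ?_⟩)
        rw [e]
        funext l
        simp only [wv, if_pos hA0]
      · refine Or.inr (Or.inr ⟨ψ, hψ, ?_⟩)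
        rw [e]
        funext l
        simp only [wv, if_neg hA0]
  refine ⟨k, r, fun j => ?_, N1_lt A A' _ _ (hW _ (Or.inr
    ⟨(i, k, r), ⟨trivial, trivial, fun j _ => hrR j⟩, rfl⟩)) hle⟩
  rcases hr j with hp | ⟨ψ, hψ, e⟩
  · exact Or.inl hp
  · refine Or.inr ⟨ψ, hψ, ?_⟩
    rw [e]
    funext l
    have hiff := hW ψ (Or.inl hψ)
    by_cases hA0 : ψ ∈ A
    · simp only [wv, if_pos hA0, if_pos (hiff.1 hA0)]
    · simp only [wv, if_neg hA0, if_neg (fun h => hA0 (hiff.2 h))]

end Pool.Agent.Lib.MP_17a322_nt.ABN
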