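import Pool.Agent.Lib.MP_17a322_nt.ABN.N1

universe u

namespace Pool.Agent.Lib.MP_17a322_nt.ABN

open MvPolynomial
open Pool.Agent.Lib.MP_17a322_nt.JAC

private theorem N11_le_mono {F α Λ Λ' : Type*} [Field F] [Fintype α] [DecidableEq α]
    {δ : α → F → F} {A : ValuationSubring F} {T T' : Set F} (hT : T ⊆ T') {N : Λ → F} {D : Λ' → F}
    (h : Le δ A T N D) : Le δ A T' N D := by
  intro i
  obtain ⟨k, b, hb, h1⟩ := h i
  exact ⟨k, b, fun j => hT (hb j), h1⟩

private theorem N11_ltw_mono {F α Λ Λ' : Type*} [Field F] [Fintype α] [DecidableEq α]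
    {δ : α → F → F} {A : ValuationSubring F} {T Ψ Ψ' : Set F} (hT : Ψ ⊆ Ψ') {N : Λ → F} {D : Λ' → F}
    (h : Ltw δ A T Ψ N D) : Ltw δ A T Ψ' N D := by
  intro i
  obtain ⟨k, r, hr, h1⟩ := h i
  refine ⟨k, r, fun j => ?_, h1⟩
  rcases hr j with h2 | ⟨ψ, hψ, h2⟩
  · exact Or.inl h2
  · exact Or.inr ⟨ψ, hT hψ, h2⟩

private theorem N11_vals_finite {K F α : Type*} [Field K] [Field F] [Algebra K F] (x : α → F)
    (P : Finset (MvPolynomial α K)) : (vals x (P : Set (MvPolynomial α K))).Finite :=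
  P.finite_toSet.image _

/-- A finite set of polynomials for all valuation rings. -/
theorem fam_a {K F α Λ Λ' : Type*} [Field K] [Field F] [Algebra K F] [Fintype α] [DecidableEq α] [Finite Λ] [Finite Λ'] (x : α → F)
    (δ : α → F → F) (N : Λ → F) (D : Λ' → F)
    (h : ∀ A : ValuationSubring F, (∀ c : K, algebraMap K F c ∈ A) →
      ∃ P : Finset (MvPolynomial α K), (∀ p ∈ P, p ≠ 0 ∧ aeval x p ≠ 0) ∧ Le δ A (vals x (P : Set (MvPolynomial α K))) N D) :
    ∃ P : Finset (MvPolynomial α K), (∀ p ∈ P, p ≠ 0 ∧ aeval x p ≠ 0) ∧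
      ∀ A : ValuationSubring F, (∀ c : K, algebraMap K F c ∈ A) → Le δ A (vals x (P : Set (MvPolynomial α K))) N D := by
  classical
  have h0 : ∀ i : {P : Finset (MvPolynomial α K) // ∀ p ∈ P, p ≠ 0 ∧ aeval x p ≠ 0},
      ∃ W : Set F, W.Finite ∧ ∀ A A' : ValuationSubring F, (∀ w ∈ W, (w ∈ A ↔ w ∈ A')) →
        Le δ A (vals x (i.1 : Set (MvPolynomial α K))) N D →
          Le δ A' (vals x (i.1 : Set (MvPolynomial α K))) N D :=
    fun i => Le_det δ _ (N11_vals_finite x i.1) N D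
  choose W hW1 hW2 using h0
  obtain ⟨s, hs⟩ := compact2 (k := K)
    (fun (i : {P : Finset (MvPolynomial α K) // ∀ p ∈ P, p ≠ 0 ∧ aeval x p ≠ 0}) A =>
      Le δ A (vals x (i.1 : Set (MvPolynomial α K))) N D) W hW1 hW2 (fun A hA => by
        obtain ⟨P, hP, h1⟩ := h A hA
        exact ⟨⟨P, hP⟩, h1⟩)
  refine ⟨s.biUnion fun i => i.1, fun p hp => ?_, fun A hA => ?_⟩
  · obtain ⟨i, -, hi⟩ := Finset.mem_biUnion.1 hp
    exact i.2 p hi
  · obtain ⟨i, hi, h1⟩ := hs A hA
    refine N11_le_mono (Set.image_mono fun p hp => ?_) h1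
    exact Finset.mem_coe.2 (Finset.mem_biUnion.2 ⟨i, hi, Finset.mem_coe.1 hp⟩)

/-- A finite set of pencils for all valuation rings at which some `p ∈ P` is not a unit. -/
theorem fam_b {K F α Λ Λ' : Type*} [Field K] [Field F] [Algebra K F] [Fintype α] [DecidableEq α] [Finite Λ] [Finite Λ'] (x : α → F)
    (δ : α → F → F) (N : Λ → F) (D : Λ' → F) (P : Finset (MvPolynomial α K)) (Q : Set (MvPolynomial α K × MvPolynomial α K))
    (h : ∀ A : ValuationSubring F, (∀ c : K, algebraMap K F c ∈ A) → (∃ p ∈ P, ¬ Un A (aeval x p)) →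
      ∃ S : Finset (MvPolynomial α K × MvPolynomial α K), (S : Set (MvPolynomial α K × MvPolynomial α K)) ⊆ Q ∧
        Ltw δ A (vals x (P : Set (MvPolynomial α K))) ((fun q => aeval x q.1 / aeval x q.2) '' (S : Set (MvPolynomial α K × MvPolynomial α K))) N D) :
    ∃ S : Finset (MvPolynomial α K × MvPolynomial α K), (S : Set (MvPolynomial α K × MvPolynomial α K)) ⊆ Q ∧
      ∀ A : ValuationSubring F, (∀ c : K, algebraMap K F c ∈ A) → (∃ p ∈ P, ¬ Un A (aeval x p)) →
        Ltw δ A (vals x (P : Set (MvPolynomial α K))) ((fun q => aeval x q.1 / aeval x q.2) '' (S : Set (MvPolynomial α K × MvPolynomial α K))) N D := by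
  classical
  have h0 : ∀ i : {S : Finset (MvPolynomial α K × MvPolynomial α K) //
      (S : Set (MvPolynomial α K × MvPolynomial α K)) ⊆ Q},
      ∃ W : Set F, W.Finite ∧ ∀ A A' : ValuationSubring F, (∀ w ∈ W, (w ∈ A ↔ w ∈ A')) →
        Ltw δ A (vals x (P : Set (MvPolynomial α K))) ((fun q => aeval x q.1 / aeval x q.2) ''
          (i.1 : Set (MvPolynomial α K × MvPolynomial α K))) N D →
        Ltw δ A' (vals x (P : Set (MvPolynomial α K))) ((fun q => aeval x q.1 / aeval x q.2) ''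
          (i.1 : Set (MvPolynomial α K × MvPolynomial α K))) N D :=
    fun i => Ltw_det δ _ _ (N11_vals_finite x P) (i.1.finite_toSet.image _) N D
  choose W hW1 hW2 using h0
  have hV := N11_vals_finite x P
  obtain ⟨s, hs⟩ := compact2 (k := K)
    (fun (i : {S : Finset (MvPolynomial α K × MvPolynomial α K) //
        (S : Set (MvPolynomial α K × MvPolynomial α K)) ⊆ Q}) A =>
      (∀ p ∈ P, Un A (aeval x p)) ∨
        Ltw δ A (vals x (P : Set (MvPolynomial α K))) ((fun q => aeval x q.1 / aeval x q.2) ''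
          (i.1 : Set (MvPolynomial α K × MvPolynomial α K))) N D)
    (fun i => W i ∪ (vals x (P : Set (MvPolynomial α K)) ∪
      (fun w => w⁻¹) '' vals x (P : Set (MvPolynomial α K))))
    (fun i => (hW1 i).union (hV.union (hV.image _))) (fun i A A' hAA h1 => by
      rcases h1 with h1 | h1
      · refine Or.inl fun p hp => ?_
        have hp' : aeval x p ∈ vals x (P : Set (MvPolynomial α K)) :=
          ⟨p, Finset.mem_coe.2 hp, rfl⟩
        obtain ⟨h2, h3⟩ := h1 p hp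
        exact ⟨(hAA _ (Or.inr (Or.inl hp'))).1 h2,
          (hAA _ (Or.inr (Or.inr ⟨_, hp', rfl⟩))).1 h3⟩
      · exact Or.inr (hW2 i A A' (fun w hw => hAA w (Or.inl hw)) h1)) (fun A hA => by
      by_cases h1 : ∃ p ∈ P, ¬ Un A (aeval x p)
      · obtain ⟨S, hS, h2⟩ := h A hA h1
        exact ⟨⟨S, hS⟩, Or.inr h2⟩
      · push Not at h1
        exact ⟨⟨∅, by rw [Finset.coe_empty]; exact Set.empty_subset _⟩, Or.inl h1⟩)
  refine ⟨s.biUnion fun i => i.1, fun q hq => ?_, fun A hA hp => ?_⟩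
  · obtain ⟨i, -, hi⟩ := Finset.mem_biUnion.1 (Finset.mem_coe.1 hq)
    exact i.2 (Finset.mem_coe.2 hi)
  · obtain ⟨i, hi, h1⟩ := hs A hA
    rcases h1 with h1 | h1
    · obtain ⟨p, hp, h2⟩ := hp
      exact absurd (h1 p hp) h2
    · refine N11_ltw_mono (Set.image_mono fun q hq => ?_) h1
      exact Finset.mem_coe.2 (Finset.mem_biUnion.2 ⟨i, hi, Finset.mem_coe.1 hq⟩)

end Pool.Agent.Lib.MP_17a322_nt.ABN
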