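import Pool.Agent.Lib.MP_17a322_nt.ABN.N0
import Pool.Agent.Lib.MP_17a322_nt.JAC.S2b

universe u

namespace Pool.Agent.Lib.MP_17a322_nt.ABN

open MvPolynomial
open Pool.Agent.Lib.MP_17a322_nt.JAC

/-- The pencils `(u, v)`: `v` is a product of elements of `P`. -/
def Pen {K α : Type*} [Field K] (P : Set (MvPolynomial α K)) : Set (MvPolynomial α K × MvPolynomial α K) :=
  {q | q.2 ∈ Submonoid.closure P}

section

variable {K F α : Type*} [Field K] [Field F] [Algebra K F] [Fintype α] [DecidableEq α]

/-- A finite set of polynomials that do not vanish at `x`: a quotient of two products of elements of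
the set has value at most one and at most the values of the elements and of their inverses. -/
theorem N12_aux (x : α → F) (A : ValuationSubring F) (P : Finset (MvPolynomial α K)) (hP : ∀ p ∈ P, aeval x p ≠ 0) :
    ∃ h₁ ∈ Submonoid.closure (P : Set (MvPolynomial α K)), ∃ h₂ ∈ Submonoid.closure (P : Set (MvPolynomial α K)),
      aeval x h₁ ≠ 0 ∧ aeval x h₂ ≠ 0 ∧ A.valuation (aeval x h₁ / aeval x h₂) ≤ 1 ∧
      (∀ p ∈ P, A.valuation (aeval x h₁ / aeval x h₂) ≤ A.valuation (aeval x p) ∧
        A.valuation (aeval x h₁ / aeval x h₂) ≤ A.valuation (aeval x p)⁻¹) := by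
  classical
  induction P using Finset.induction_on with
  | empty =>
      refine ⟨1, Submonoid.one_mem _, 1, Submonoid.one_mem _, ?_, ?_, ?_, ?_⟩
      · rw [map_one]; exact one_ne_zero
      · rw [map_one]; exact one_ne_zero
      · rw [map_one, div_one, map_one]
      · intro p hp
        exact absurd hp (Finset.notMem_empty p)
  | insert p P hpP ih =>
      obtain ⟨h₁, hh₁, h₂, hh₂, e₁, e₂, hle, hall⟩ := ih fun q hq => hP q (Finset.mem_insert_of_mem hq)
      have hsub : (P : Set (MvPolynomial α K)) ⊆ ((insert p P : Finset (MvPolynomial α K)) : Set (MvPolynomial α K)) := by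
        intro q hq
        exact Finset.mem_coe.mpr (Finset.mem_insert_of_mem (Finset.mem_coe.mp hq))
      have hpm : p ∈ Submonoid.closure ((insert p P : Finset (MvPolynomial α K)) : Set (MvPolynomial α K)) :=
        Submonoid.subset_closure (Finset.mem_coe.mpr (Finset.mem_insert_self p P))
      have hp0 : aeval x p ≠ 0 := hP p (Finset.mem_insert_self p P)
      have hv0 : A.valuation (aeval x p) ≠ 0 := (map_ne_zero _).mpr hp0
      rcases le_total (A.valuation (aeval x p)) 1 with h | h
      · have hi : 1 ≤ A.valuation (aeval x p)⁻¹ := by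
          rw [map_inv₀]
          exact (one_le_inv₀ (zero_lt_iff.mpr hv0)).mpr h
        have key : A.valuation (aeval x (p * h₁) / aeval x h₂) =
            A.valuation (aeval x p) * A.valuation (aeval x h₁ / aeval x h₂) := by
          rw [map_mul (aeval x), mul_div_assoc, map_mul]
        refine ⟨p * h₁, Submonoid.mul_mem _ hpm (Submonoid.closure_mono hsub hh₁), h₂,
          Submonoid.closure_mono hsub hh₂, ?_, e₂, ?_, ?_⟩
        · rw [map_mul]; exact mul_ne_zero hp0 e₁
        · rw [key]; exact mul_le_one' h hle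
        · intro q hq
          rw [key]
          rcases Finset.mem_insert.mp hq with rfl | hq
          · exact ⟨mul_le_of_le_one_right' hle, (mul_le_one' h hle).trans hi⟩
          · exact ⟨(mul_le_of_le_one_left' h).trans (hall q hq).1,
              (mul_le_of_le_one_left' h).trans (hall q hq).2⟩
      · have hi : A.valuation (aeval x p)⁻¹ ≤ 1 := by
          rw [map_inv₀]
          exact inv_le_one_of_one_le₀ h
        have key : A.valuation (aeval x h₁ / aeval x (p * h₂)) =
            A.valuation (aeval x p)⁻¹ * A.valuation (aeval x h₁ / aeval x h₂) := by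
          have h0 : aeval x (p * h₂) = aeval x p * aeval x h₂ := map_mul _ _ _
          rw [← map_mul A.valuation, h0]
          refine congrArg _ ?_
          rw [div_eq_mul_inv, div_eq_mul_inv, mul_inv]
          ring
        refine ⟨h₁, Submonoid.closure_mono hsub hh₁, p * h₂, Submonoid.mul_mem _ hpm
          (Submonoid.closure_mono hsub hh₂), e₁, ?_, ?_, ?_⟩
        · rw [map_mul]; exact mul_ne_zero hp0 e₂
        · rw [key]; exact mul_le_one' hi hle
        · intro q hq
          rw [key]
          rcases Finset.mem_insert.mp hq with rfl | hq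
          · exact ⟨(mul_le_one' hi hle).trans h, mul_le_of_le_one_right' hle⟩
          · exact ⟨(mul_le_of_le_one_left' hi).trans (hall q hq).1,
              (mul_le_of_le_one_left' hi).trans (hall q hq).2⟩

/-- A quotient of two products of elements of `P` whose value is smaller than one and at most the
values of all the elements of `P` and of their inverses. -/
theorem exists_h (x : α → F) (A : ValuationSubring F) (P : Finset (MvPolynomial α K)) (hP : ∀ p ∈ P, aeval x p ≠ 0)
    (hu : ∃ p ∈ P, ¬ Un A (aeval x p)) :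
    ∃ h₁ ∈ Submonoid.closure (P : Set (MvPolynomial α K)), ∃ h₂ ∈ Submonoid.closure (P : Set (MvPolynomial α K)),
      aeval x h₁ ≠ 0 ∧ aeval x h₂ ≠ 0 ∧ A.valuation (aeval x h₁ / aeval x h₂) < 1 ∧
      ∀ p ∈ P, A.valuation (aeval x h₁ / aeval x h₂) ≤ A.valuation (aeval x p) ∧
        A.valuation (aeval x h₁ / aeval x h₂) ≤ A.valuation (aeval x p)⁻¹ := by
  obtain ⟨h₁, hh₁, h₂, hh₂, e₁, e₂, _, hall⟩ := N12_aux x A P hP
  refine ⟨h₁, hh₁, h₂, hh₂, e₁, e₂, ?_, hall⟩
  obtain ⟨p, hp, hn⟩ := hu
  obtain ⟨ha, hb⟩ := hall p hp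
  by_contra hc
  rw [not_lt] at hc
  have hp0 : aeval x p ≠ 0 := hP p hp
  have hv0 : A.valuation (aeval x p) ≠ 0 := (map_ne_zero _).mpr hp0
  have h1 : 1 ≤ A.valuation (aeval x p) := hc.trans ha
  have h2 : 1 ≤ A.valuation (aeval x p)⁻¹ := hc.trans hb
  apply hn
  refine ⟨?_, ?_⟩
  · rw [← ValuationSubring.valuation_le_one_iff]
    rw [map_inv₀] at h2
    exact (one_le_inv₀ (zero_lt_iff.mpr hv0)).mp h2
  · rw [← ValuationSubring.valuation_le_one_iff, map_inv₀]
    exact inv_le_one_of_one_le₀ h1

/-- Logarithmic differentials of products of elements of `P`. -/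
theorem dlog_mon (x : α → F) (δ : α → Derivation K F F) (P : Set (MvPolynomial α K)) (hP : ∀ p ∈ P, aeval x p ≠ 0)
    (v : MvPolynomial α K) (hv : v ∈ Submonoid.closure P) (A : ValuationSubring F) :
    (fun l => δ l (aeval x v) / aeval x v) ∈
      spn A {r : α → F | ∃ p ∈ vals x P, r = fun l => δ l p / p} := by
  have hne : ∀ v ∈ Submonoid.closure P, aeval x v ≠ 0 := by
    intro v hv
    induction hv using Submonoid.closure_induction with
    | mem p hp => exact hP p hp
    | one => rw [map_one]; exact one_ne_zero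
    | mul a b _ _ ha hb => rw [map_mul]; exact mul_ne_zero ha hb
  induction hv using Submonoid.closure_induction with
  | mem p hp => exact mem_spn A _ ⟨aeval x p, ⟨p, hp, rfl⟩, rfl⟩
  | one =>
      have : (fun l => δ l (aeval x (1 : MvPolynomial α K)) / aeval x (1 : MvPolynomial α K)) = 0 := by
        funext l
        rw [map_one, Derivation.map_one_eq_zero, zero_div]
        rfl
      rw [this]
      exact AddSubgroup.zero_mem _
  | mul a b ha hb iha ihb =>
      have : (fun l => δ l (aeval x (a * b)) / aeval x (a * b)) =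
          (fun l => δ l (aeval x a) / aeval x a) + fun l => δ l (aeval x b) / aeval x b := by
        funext l
        have h1 := hne a ha
        have h2 := hne b hb
        rw [Pi.add_apply, map_mul, Derivation.leibniz, smul_eq_mul, smul_eq_mul]
        field_simp
        ring
      rw [this]
      exact AddSubgroup.add_mem _ iha ihb

/-- The value of a polynomial is bounded by a power of `A.valuation h⁻¹`. -/
theorem poly_bound (x : α → F) (A : ValuationSubring F) (hA : ∀ c : K, algebraMap K F c ∈ A) (h : F) (hh0 : h ≠ 0)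
    (hh : A.valuation h < 1) (hx : ∀ l, A.valuation (x l) ≤ A.valuation h⁻¹) (q : MvPolynomial α K) :
    ∃ n : ℕ, A.valuation (aeval x q) ≤ A.valuation h⁻¹ ^ n := by
  have hv0 : A.valuation h ≠ 0 := (map_ne_zero _).mpr hh0
  have h1 : 1 ≤ A.valuation h⁻¹ := by
    rw [map_inv₀]
    exact (one_le_inv₀ (zero_lt_iff.mpr hv0)).mpr hh.le
  induction q using MvPolynomial.induction_on with
  | C a =>
      refine ⟨0, ?_⟩
      rw [aeval_C, pow_zero]
      exact (ValuationSubring.valuation_le_one_iff A _).mpr (hA a)
  | add p q hp hq =>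
      obtain ⟨n, hn⟩ := hp
      obtain ⟨m, hm⟩ := hq
      refine ⟨max n m, ?_⟩
      rw [map_add]
      exact (Valuation.map_add _ _ _).trans (max_le (hn.trans (pow_le_pow_right' h1 (le_max_left _ _)))
        (hm.trans (pow_le_pow_right' h1 (le_max_right _ _))))
  | mul_X p i hp =>
      obtain ⟨n, hn⟩ := hp
      refine ⟨n + 1, ?_⟩
      rw [map_mul, aeval_X, map_mul, pow_succ]
      exact mul_le_mul' hn (hx i)

/-- From a determinant with rows in the span of a set `W` of vectors to one with rows in `W`. -/
theorem det_spn (A : ValuationSubring F) (W : Set (α → F)) (hW : W.Nonempty) (r : α → α → F) (hr : ∀ j, r j ∈ spn A W) :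
    ∃ w : α → α → F, (∀ j, w j ∈ W) ∧ A.valuation (Matrix.of r).det ≤ A.valuation (Matrix.of w).det := by
  obtain ⟨w, hw, e, he, hdet⟩ := detSpan A W hW r hr
  have h1 : (Matrix.of r).det = e * (Matrix.of w).det := hdet
  refine ⟨w, hw, ?_⟩
  rw [h1, map_mul]
  exact mul_le_of_le_one_left' ((ValuationSubring.valuation_le_one_iff A e).mpr he)

end

end Pool.Agent.Lib.MP_17a322_nt.ABN
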