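import Pool.Agent.Lib.MP_17a322_nt.ABN.N0
import Pool.Agent.Lib.MP_17a322_nt.JAC.S3

universe u

namespace Pool.Agent.Lib.MP_17a322_nt.ABN

open MvPolynomial
open Pool.Agent.Lib.MP_17a322_nt.JAC

private theorem N2a_C {F σ : Type*} [Field F] (a : F) :
    algebraMap (MvPolynomial σ F) (FractionRing (MvPolynomial σ F)) (C a) =
      algebraMap F (FractionRing (MvPolynomial σ F)) a := by
  rw [IsScalarTower.algebraMap_apply F (MvPolynomial σ F) (FractionRing (MvPolynomial σ F)),
    MvPolynomial.algebraMap_eq]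

private theorem N2a_mem_iff {F σ : Type*} [Field F] {A : ValuationSubring F}
    {O : ValuationSubring (FractionRing (MvPolynomial σ F))}
    (h1 : ∀ P : MvPolynomial σ F, algebraMap (MvPolynomial σ F) (FractionRing (MvPolynomial σ F)) P ∈ O ↔
        ∀ m, P.coeff m ∈ A) (a : F) :
    algebraMap F (FractionRing (MvPolynomial σ F)) a ∈ O ↔ a ∈ A := by
  classical
  rw [← N2a_C, h1]
  constructor
  · intro h
    have h2 := h 0
    rwa [coeff_zero_C] at h2
  · intro h m
    rw [coeff_C]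
    split_ifs
    · exact h
    · exact A.zero_mem

private theorem N2a_X {F σ : Type*} [Field F] {A : ValuationSubring F}
    {O : ValuationSubring (FractionRing (MvPolynomial σ F))}
    (h1 : ∀ P : MvPolynomial σ F, algebraMap (MvPolynomial σ F) (FractionRing (MvPolynomial σ F)) P ∈ O ↔
        ∀ m, P.coeff m ∈ A)
    (h2 : ∀ P : MvPolynomial σ F, (∃ m, P.coeff m ≠ 0 ∧ (P.coeff m)⁻¹ ∈ A) →
        (algebraMap (MvPolynomial σ F) (FractionRing (MvPolynomial σ F)) P)⁻¹ ∈ O) (s : σ) :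
    algebraMap (MvPolynomial σ F) (FractionRing (MvPolynomial σ F)) (X s) ∈ O ∧
      (algebraMap (MvPolynomial σ F) (FractionRing (MvPolynomial σ F)) (X s))⁻¹ ∈ O := by
  classical
  constructor
  · rw [h1]
    intro m
    rw [coeff_X]
    split_ifs
    · exact A.one_mem
    · exact A.zero_mem
  · apply h2
    refine ⟨Finsupp.single s 1, ?_, ?_⟩
    · rw [coeff_X, if_pos rfl]; exact one_ne_zero
    · rw [coeff_X, if_pos rfl, inv_one]; exact A.one_mem

private theorem N2a_X_ne {F σ : Type*} [Field F] (s : σ) :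
    algebraMap (MvPolynomial σ F) (FractionRing (MvPolynomial σ F)) (X s) ≠ 0 := by
  intro h
  have h3 : (X s : MvPolynomial σ F) = 0 :=
    (IsFractionRing.injective (MvPolynomial σ F) (FractionRing (MvPolynomial σ F)))
      (h.trans (map_zero _).symm)
  exact X_ne_zero s h3

private theorem N2a_zpow {E : Type*} [Field E] (O : ValuationSubring E) {x : E} (hx : x ∈ O)
    (hx' : x⁻¹ ∈ O) (n : ℤ) : x ^ n ∈ O := by
  rcases n with n | n
  · rw [Int.ofNat_eq_natCast, zpow_natCast]
    exact O.pow_mem hx n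
  · rw [zpow_negSucc, ← inv_pow]
    exact O.pow_mem hx' _

private theorem N2a_alg {F σ : Type*} [Field F] (F0 : Subfield F)
    (halg : ∀ f : F, IsAlgebraic F0 f) (t : σ → F) (ht : ∀ s, t s ≠ 0)
    (T : σ → FractionRing (MvPolynomial σ F))
    (hT : ∀ s, T s = algebraMap (MvPolynomial σ F) _ (X s) * algebraMap F _ (t s))
    (f : FractionRing (MvPolynomial σ F)) :
    IsAlgebraic (Subfield.closure
      (algebraMap F (FractionRing (MvPolynomial σ F)) '' F0 ∪ Set.range T)) f := by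
  obtain ⟨E0, hE0⟩ : ∃ E0, E0 = Subfield.closure
    (algebraMap F (FractionRing (MvPolynomial σ F)) '' F0 ∪ Set.range T) := ⟨_, rfl⟩
  rw [← hE0]
  have hF0 : ∀ a : F0, algebraMap F (FractionRing (MvPolynomial σ F)) a ∈ E0 := by
    intro a
    rw [hE0]
    exact Subfield.subset_closure (Or.inl ⟨a, a.2, rfl⟩)
  have hTE : ∀ s, T s ∈ E0 := by
    intro s
    rw [hE0]
    exact Subfield.subset_closure (Or.inr ⟨s, rfl⟩)
  let φ : F0 →+* E0 := ((algebraMap F (FractionRing (MvPolynomial σ F))).comp F0.subtype).codRestrict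
    E0 hF0
  have hφ : Function.Injective φ := φ.injective
  have hFalg : ∀ a : F, algebraMap F (FractionRing (MvPolynomial σ F)) a ∈
      algebraicClosure E0 (FractionRing (MvPolynomial σ F)) := by
    intro a
    rw [mem_algebraicClosure_iff]
    obtain ⟨p, hp0, hp⟩ := halg a
    refine ⟨p.map φ, ?_, ?_⟩
    · rwa [Ne, Polynomial.map_eq_zero_iff hφ]
    · rw [Polynomial.aeval_def, Polynomial.eval₂_map]
      rw [Polynomial.aeval_def] at hp
      have h3 := congrArg (algebraMap F (FractionRing (MvPolynomial σ F))) hp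
      rw [Polynomial.hom_eval₂, map_zero] at h3
      exact h3
  have hXalg : ∀ s, algebraMap (MvPolynomial σ F) (FractionRing (MvPolynomial σ F)) (X s) ∈
      algebraicClosure E0 (FractionRing (MvPolynomial σ F)) := by
    intro s
    have h3 : algebraMap (MvPolynomial σ F) (FractionRing (MvPolynomial σ F)) (X s) =
        T s / algebraMap F _ (t s) := by
      rw [hT, mul_div_cancel_right₀]
      intro h
      exact ht s ((map_eq_zero _).1 h)
    rw [h3]
    exact div_mem ((algebraicClosure E0 (FractionRing (MvPolynomial σ F))).algebraMap_mem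
      ⟨T s, hTE s⟩) (hFalg (t s))
  have hP : ∀ P : MvPolynomial σ F,
      algebraMap (MvPolynomial σ F) (FractionRing (MvPolynomial σ F)) P ∈
        algebraicClosure E0 (FractionRing (MvPolynomial σ F)) := by
    intro P
    induction P using MvPolynomial.induction_on with
    | C a => rw [N2a_C]; exact hFalg a
    | add P Q hP hQ => rw [map_add]; exact add_mem hP hQ
    | mul_X P s hP => rw [map_mul]; exact mul_mem hP (hXalg s)
  obtain ⟨P, Q, _, rfl⟩ := IsFractionRing.div_surjective (A := MvPolynomial σ F) f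
  exact mem_algebraicClosure_iff.1 (div_mem (hP P) (hP Q))

private theorem N2a_E6 {E V : Type*} [Field E] [CharZero E] [AddCommGroup V] [Module E V]
    (O : ValuationSubring E) (hO : ∀ n : ℕ, n ≠ 0 → (n : E)⁻¹ ∈ O) (E0 : Subfield E)
    (halg : ∀ f : E, IsAlgebraic E0 f)
    (hv : ∀ f : E, f ≠ 0 → ∃ b ∈ E0, b ≠ 0 ∧ f / b ∈ O ∧ b / f ∈ O) (D : E → V)
    (hadd : ∀ a b, D (a + b) = D a + D b) (hmul : ∀ a b, D (a * b) = a • D b + b • D a) (y : E)
    (hy : y ∈ O) : D y ∈ spn O (D '' {b | b ∈ E0 ∧ b ∈ O}) :=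
  E6 O hO E0 halg hv
    (Derivation.mk' (AddMonoidHom.mk' D hadd).toIntLinearMap hmul) y hy

private theorem N2a_one {E V : Type*} [Field E] [AddCommGroup V] [Module E V] (D : E → V)
    (hD : ∀ x y, D (x * y) = x • D y + y • D x) : D 1 = 0 := by
  have h := hD 1 1
  rw [mul_one, one_smul] at h
  exact left_eq_add.mp h

private theorem N2a_ldmul {E V : Type*} [Field E] [AddCommGroup V] [Module E V] (D : E → V)
    (hD : ∀ x y, D (x * y) = x • D y + y • D x)
    {x y : E} (hx : x ≠ 0) (hy : y ≠ 0) :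
    (x * y)⁻¹ • D (x * y) = x⁻¹ • D x + y⁻¹ • D y := by
  have e1 : (x * y)⁻¹ * y = x⁻¹ := by field_simp
  have e2 : (x * y)⁻¹ * x = y⁻¹ := by field_simp
  rw [hD, smul_add, smul_smul, smul_smul, e1, e2, add_comm]

private theorem N2a_ldinv {E V : Type*} [Field E] [AddCommGroup V] [Module E V] (D : E → V)
    (hD : ∀ x y, D (x * y) = x • D y + y • D x)
    {x : E} (hx : x ≠ 0) : (x⁻¹)⁻¹ • D x⁻¹ = -(x⁻¹ • D x) := by
  have h := N2a_ldmul D hD hx (inv_ne_zero hx)
  rw [mul_inv_cancel₀ hx, N2a_one D hD, smul_zero] at h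
  exact eq_neg_of_add_eq_zero_right h.symm

private theorem N2a_ldpow {E V : Type*} [Field E] [AddCommGroup V] [Module E V] (D : E → V)
    (hD : ∀ x y, D (x * y) = x • D y + y • D x)
    {x : E} (hx : x ≠ 0) (n : ℕ) : (x ^ n)⁻¹ • D (x ^ n) = (n : E) • (x⁻¹ • D x) := by
  induction n with
  | zero => rw [pow_zero, N2a_one D hD, smul_zero, Nat.cast_zero, zero_smul]
  | succ n ih => rw [pow_succ, N2a_ldmul D hD (pow_ne_zero n hx) hx, ih, Nat.cast_succ, add_smul, one_smul]

private theorem N2a_ldzpow {E V : Type*} [Field E] [AddCommGroup V] [Module E V] (D : E → V)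
    (hD : ∀ x y, D (x * y) = x • D y + y • D x)
    {x : E} (hx : x ≠ 0) (n : ℤ) : (x ^ n)⁻¹ • D (x ^ n) = (n : E) • (x⁻¹ • D x) := by
  rcases n with n | n
  · rw [Int.ofNat_eq_natCast, zpow_natCast, Int.cast_natCast]
    exact N2a_ldpow D hD hx n
  · rw [zpow_negSucc, N2a_ldinv D hD (pow_ne_zero _ hx), N2a_ldpow D hD hx, Int.cast_negSucc, neg_smul]

private theorem N2a_ldprod {E V σ : Type*} [Field E] [AddCommGroup V] [Module E V] (D : E → V)
    (hD : ∀ x y, D (x * y) = x • D y + y • D x)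
    (s : Finset σ) (f : σ → E) (hf : ∀ i, f i ≠ 0) :
    (∏ i ∈ s, f i)⁻¹ • D (∏ i ∈ s, f i) = ∑ i ∈ s, (f i)⁻¹ • D (f i) := by
  classical
  induction s using Finset.induction_on with
  | empty => rw [Finset.prod_empty, Finset.sum_empty, N2a_one D hD, smul_zero]
  | insert a s ha ih =>
    rw [Finset.prod_insert ha, Finset.sum_insert ha,
      N2a_ldmul D hD (hf a) (Finset.prod_ne_zero_iff.mpr fun i _ => hf i), ih]


private theorem N2a_fin {E V : Type*} [Field E] [AddCommGroup V] [Module E V]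
    (O : ValuationSubring E) (W : Set V) (v : V) (hv : v ∈ spn O W) :
    ∃ (m : ℕ) (a : Fin m → E) (w : Fin m → V), (∀ i, a i ∈ O) ∧ (∀ i, w i ∈ W) ∧
      v = ∑ i, a i • w i := by
  unfold spn at hv
  induction hv using AddSubgroup.closure_induction with
  | mem v hv =>
    obtain ⟨a, ha, b, hb, rfl⟩ := hv
    exact ⟨1, fun _ => a, fun _ => b, fun _ => ha, fun _ => hb, by simp⟩
  | zero => exact ⟨0, Fin.elim0, Fin.elim0, fun i => i.elim0, fun i => i.elim0, by simp⟩
  | add v w _ _ hv hw =>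
    obtain ⟨m, a, x, ha, hx, rfl⟩ := hv
    obtain ⟨n, b, y, hb, hy, rfl⟩ := hw
    refine ⟨m + n, Fin.append a b, Fin.append x y, ?_, ?_, ?_⟩
    · intro i
      refine Fin.addCases (fun i => ?_) (fun i => ?_) i
      · rw [Fin.append_left]; exact ha i
      · rw [Fin.append_right]; exact hb i
    · intro i
      refine Fin.addCases (fun i => ?_) (fun i => ?_) i
      · rw [Fin.append_left]; exact hx i
      · rw [Fin.append_right]; exact hy i
    · rw [Fin.sum_univ_add]
      simp only [Fin.append_left, Fin.append_right]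
  | neg v _ hv =>
    obtain ⟨m, a, x, ha, hx, rfl⟩ := hv
    refine ⟨m, fun i => - a i, x, fun i => O.neg_mem _ (ha i), hx, ?_⟩
    simp only [neg_smul, Finset.sum_neg_distrib]

/-- The differential of a monomial in `T s = X s * t s`. -/
private theorem N2a_ld {F E α σ : Type*} [Field F] [Field E] [Fintype α] [DecidableEq α] [Fintype σ]
    [DecidableEq σ]
    (δ : α → F → F) (A : F →+* E) (D : E → (α ⊕ σ → E)) (hD : ∀ x y, D (x * y) = x • D y + y • D x)
    (hD1 : ∀ f : F, D (A f) = Sum.elim (fun l => A (δ l f)) (fun _ => 0)) (X' : σ → E) (hX0 : ∀ s, X' s ≠ 0)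
    (hD2 : ∀ s, D (X' s) = Sum.elim (fun _ => 0) (Pi.single s (X' s)))
    (t : σ → F) (ht : ∀ s, t s ≠ 0) (T : σ → E) (hT : ∀ s, T s = X' s * A (t s))
    (g : F × (σ → ℤ)) (hg : g.1 ≠ 0) :
    D (vl T (A g.1, g.2)) = vl T (A g.1, g.2) • (Sum.elim (fun l => A (δ l g.1 / g.1)) (fun _ => 0) +
      ∑ s, ((g.2 s : ℤ) : E) • ((Sum.elim (fun _ => 0) (Pi.single s 1) : α ⊕ σ → E) +
        Sum.elim (fun l => A (δ l (t s) / t s)) (fun _ => 0))) := by
  have hAi : Function.Injective A := A.injective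
  have hA0 : ∀ x : F, x ≠ 0 → A x ≠ 0 := fun x hx h => hx (hAi (h.trans A.map_zero.symm))
  have hT0 : ∀ s, T s ≠ 0 := fun s => by rw [hT]; exact mul_ne_zero (hX0 s) (hA0 _ (ht s))
  have ldA : ∀ b : F, b ≠ 0 → (A b)⁻¹ • D (A b) = Sum.elim (fun l => A (δ l b / b)) (fun _ => 0) := by
    intro b hb
    rw [hD1 b]
    funext j
    rcases j with l | s
    · simp only [Pi.smul_apply, Sum.elim_inl, smul_eq_mul, map_div₀]
      rw [inv_mul_eq_div]
    · simp only [Pi.smul_apply, Sum.elim_inr, smul_eq_mul, mul_zero]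
  have ldX : ∀ s, (X' s)⁻¹ • D (X' s) = Sum.elim (fun _ => 0) (Pi.single s 1) := by
    intro s
    rw [hD2 s]
    funext j
    rcases j with l | r
    · simp only [Pi.smul_apply, Sum.elim_inl, smul_eq_mul, mul_zero]
    · simp only [Pi.smul_apply, Sum.elim_inr, smul_eq_mul]
      by_cases hr : r = s
      · subst hr
        rw [Pi.single_eq_same, Pi.single_eq_same, inv_mul_cancel₀ (hX0 r)]
      · rw [Pi.single_eq_of_ne hr, Pi.single_eq_of_ne hr, mul_zero]
  have ldT : ∀ s, (T s)⁻¹ • D (T s) =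
      Sum.elim (fun _ => 0) (Pi.single s 1) + Sum.elim (fun l => A (δ l (t s) / t s)) (fun _ => 0) := by
    intro s
    rw [hT s, N2a_ldmul D hD (hX0 s) (hA0 _ (ht s)), ldX, ldA _ (ht s)]
  have hu' : vl T (A g.1, g.2) = A g.1 * ∏ s, T s ^ g.2 s := rfl
  have hu0 : vl T (A g.1, g.2) ≠ 0 := by
    rw [hu']
    exact mul_ne_zero (hA0 _ hg) (Finset.prod_ne_zero_iff.mpr fun s _ => zpow_ne_zero _ (hT0 s))
  have ldu : (vl T (A g.1, g.2))⁻¹ • D (vl T (A g.1, g.2)) =
      Sum.elim (fun l => A (δ l g.1 / g.1)) (fun _ => 0) +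
      ∑ s, ((g.2 s : ℤ) : E) • ((Sum.elim (fun _ => 0) (Pi.single s 1) : α ⊕ σ → E) +
        Sum.elim (fun l => A (δ l (t s) / t s)) (fun _ => 0)) := by
    rw [hu', N2a_ldmul D hD (hA0 _ hg)
      (Finset.prod_ne_zero_iff.mpr fun s _ => zpow_ne_zero _ (hT0 s)), ldA _ hg,
      N2a_ldprod D hD _ _ (fun s => zpow_ne_zero _ (hT0 s))]
    congr 1
    refine Finset.sum_congr rfl fun s _ => ?_
    rw [N2a_ldzpow D hD (hT0 s), ldT]
  rw [← ldu, smul_smul, mul_inv_cancel₀ hu0, one_smul]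

/-- Differentials of the elements of the valuation ring `A` in the Gauss extension `O`: they are
combinations with coefficients in `O` of differentials of monomials in `A`. -/
theorem SP {k F α σ : Type*} [Field k] [CharZero k] [Field F] [Algebra k F] [Fintype α] [DecidableEq α] [Fintype σ] [DecidableEq σ]
    (δ : α → Derivation k F F) (F₀ : Subfield F) (halg : ∀ f : F, IsAlgebraic F₀ f) (A : ValuationSubring F)
    (hA : ∀ c : k, algebraMap k F c ∈ A) (t : σ → F) (ht : ∀ s, t s ≠ 0)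
    (hv : ∀ f : F, f ≠ 0 → ∃ g : F × (σ → ℤ), g.1 ∈ F₀ ∧ g.1 ≠ 0 ∧ f / vl t g ∈ A ∧ vl t g / f ∈ A) :
    ∃ (O : ValuationSubring (FractionRing (MvPolynomial σ F))) (T : σ → FractionRing (MvPolynomial σ F)),
      (∀ a : F, algebraMap F (FractionRing (MvPolynomial σ F)) a ∈ O ↔ a ∈ A) ∧ (∀ s, T s ≠ 0) ∧
      (∀ s, T s / algebraMap F (FractionRing (MvPolynomial σ F)) (t s) ∈ O ∧
        algebraMap F (FractionRing (MvPolynomial σ F)) (t s) / T s ∈ O) ∧
      ∀ y ∈ A, ∃ (m : ℕ) (a : Fin m → FractionRing (MvPolynomial σ F)) (g : Fin m → F × (σ → ℤ)),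
        (∀ i, a i ∈ O) ∧ (∀ i, (g i).1 ∈ F₀ ∧ (g i).1 ≠ 0 ∧ vl t (g i) ∈ A) ∧
        (∀ l, algebraMap F (FractionRing (MvPolynomial σ F)) (δ l y) =
          ∑ i, a i * vl T (algebraMap F (FractionRing (MvPolynomial σ F)) (g i).1, (g i).2) *
            algebraMap F (FractionRing (MvPolynomial σ F)) (δ l (g i).1 / (g i).1)) ∧
        ∀ s, ∑ i, a i * vl T (algebraMap F (FractionRing (MvPolynomial σ F)) (g i).1, (g i).2) * ((g i).2 s :
          FractionRing (MvPolynomial σ F)) = 0 := by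
  have hF : CharZero F := charZero_of_injective_algebraMap (algebraMap k F).injective
  have hE : CharZero (FractionRing (MvPolynomial σ F)) :=
    charZero_of_injective_algebraMap (algebraMap F (FractionRing (MvPolynomial σ F))).injective
  obtain ⟨O, h1, h2⟩ := gauss (σ := σ) A
  obtain ⟨D, hD1, hD2⟩ := derE (σ := σ) δ
  obtain ⟨T, hTdef⟩ : ∃ T : σ → FractionRing (MvPolynomial σ F),
      ∀ s, T s = algebraMap (MvPolynomial σ F) _ (X s) * algebraMap F _ (t s) := ⟨_, fun s => rfl⟩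
  have hX := fun s => N2a_X h1 h2 s
  have hmem := fun a => N2a_mem_iff (σ := σ) h1 a
  have halgE := N2a_alg F₀ halg t ht T hTdef
  have hsemi := fun f hf hf0 => semi A O h1 h2 F₀ t ht T hTdef D f hf hf0
  obtain ⟨E0, hE0⟩ : ∃ E0, E0 = Subfield.closure
    (algebraMap F (FractionRing (MvPolynomial σ F)) '' F₀ ∪ Set.range T) := ⟨_, rfl⟩
  rw [← hE0] at halgE hsemi
  have hF₀ : ∀ a ∈ F₀, algebraMap F (FractionRing (MvPolynomial σ F)) a ∈ E0 := by
    intro a ha
    rw [hE0]
    exact Subfield.subset_closure (Or.inl ⟨a, ha, rfl⟩)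
  have hTE : ∀ s, T s ∈ E0 := by
    intro s
    rw [hE0]
    exact Subfield.subset_closure (Or.inr ⟨s, rfl⟩)
  have hO : ∀ n : ℕ, n ≠ 0 → (n : FractionRing (MvPolynomial σ F))⁻¹ ∈ O := by
    intro n _
    have h3 : (n : FractionRing (MvPolynomial σ F))⁻¹ =
        algebraMap F _ (algebraMap k F ((n : k)⁻¹)) := by
      rw [map_inv₀, map_inv₀, map_natCast, map_natCast]
    rw [h3, hmem]
    exact hA _
  have hvl : ∀ g : F × (σ → ℤ), vl T (algebraMap F _ g.1, g.2) =
      algebraMap F _ (vl t g) * ∏ s, (algebraMap (MvPolynomial σ F)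
        (FractionRing (MvPolynomial σ F)) (X s)) ^ g.2 s := by
    intro g
    rw [vl, vl, map_mul, map_prod, mul_assoc, ← Finset.prod_mul_distrib]
    congr 1
    refine Finset.prod_congr rfl fun s _ => ?_
    rw [hTdef, mul_zpow, map_zpow₀, mul_comm]
  have hXz : ∀ (s : σ) (n : ℤ), (algebraMap (MvPolynomial σ F)
      (FractionRing (MvPolynomial σ F)) (X s)) ^ n ∈ O := fun s n =>
    N2a_zpow O (hX s).1 (hX s).2 n
  have hXp : ∀ m : σ → ℤ, (∏ s, (algebraMap (MvPolynomial σ F)
      (FractionRing (MvPolynomial σ F)) (X s)) ^ m s) ∈ O := fun m =>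
    prod_mem fun s _ => hXz s (m s)
  have hXp' : ∀ m : σ → ℤ, (∏ s, (algebraMap (MvPolynomial σ F)
      (FractionRing (MvPolynomial σ F)) (X s)) ^ m s)⁻¹ ∈ O := by
    intro m
    rw [← Finset.prod_inv_distrib]
    refine prod_mem fun s _ => ?_
    rw [← zpow_neg]
    exact hXz s _
  have hXp0 : ∀ m : σ → ℤ, (∏ s, (algebraMap (MvPolynomial σ F)
      (FractionRing (MvPolynomial σ F)) (X s)) ^ m s) ≠ 0 := fun m =>
    Finset.prod_ne_zero_iff.2 fun s _ => zpow_ne_zero _ (N2a_X_ne s)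
  have hvl0 : ∀ g : F × (σ → ℤ), g.1 ≠ 0 → vl t g ≠ 0 := by
    intro g hg
    rw [vl]
    exact mul_ne_zero hg (Finset.prod_ne_zero_iff.2 fun s _ => zpow_ne_zero _ (ht s))
  have hv' : ∀ f : FractionRing (MvPolynomial σ F), f ≠ 0 →
      ∃ b ∈ E0, b ≠ 0 ∧ f / b ∈ O ∧ b / f ∈ O := by
    intro f hf
    obtain ⟨a, ha0, ha1, ha2⟩ := gauss_val A O h1 h2 f hf
    obtain ⟨g, hg0, hg1, hg2, hg3⟩ := hv a ha0
    have ha0' : algebraMap F (FractionRing (MvPolynomial σ F)) a ≠ 0 := fun h =>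
      ha0 ((map_eq_zero _).1 h)
    have hg0' : algebraMap F (FractionRing (MvPolynomial σ F)) (vl t g) ≠ 0 := fun h =>
      hvl0 g hg1 ((map_eq_zero _).1 h)
    have hXg := hXp0 g.2
    refine ⟨vl T (algebraMap F _ g.1, g.2), ?_, ?_, ?_, ?_⟩
    · rw [vl]
      exact mul_mem (hF₀ _ hg0) (prod_mem fun s _ => zpow_mem (hTE s) _)
    · rw [hvl]
      exact mul_ne_zero hg0' hXg
    · have h3 : f / vl T (algebraMap F _ g.1, g.2) = (f / algebraMap F _ a) *
          algebraMap F _ (a / vl t g) * (∏ s, (algebraMap (MvPolynomial σ F)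
            (FractionRing (MvPolynomial σ F)) (X s)) ^ g.2 s)⁻¹ := by
        rw [hvl, map_div₀]
        field_simp
      rw [h3]
      exact mul_mem (mul_mem ha1 ((hmem _).2 hg2)) (hXp' _)
    · have h3 : vl T (algebraMap F _ g.1, g.2) / f = (algebraMap F _ a / f) *
          algebraMap F _ (vl t g / a) * (∏ s, (algebraMap (MvPolynomial σ F)
            (FractionRing (MvPolynomial σ F)) (X s)) ^ g.2 s) := by
        rw [hvl, map_div₀]
        field_simp
      rw [h3]
      exact mul_mem (mul_mem ha2 ((hmem _).2 hg3)) (hXp _)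
  obtain ⟨W, hW⟩ : ∃ W : Set (α ⊕ σ → FractionRing (MvPolynomial σ F)),
      W = {v | ∃ g : F × (σ → ℤ), g.1 ∈ F₀ ∧ g.1 ≠ 0 ∧ vl t g ∈ A ∧
        v = D (vl T (algebraMap F _ g.1, g.2))} := ⟨_, rfl⟩
  have hspan : ∀ f ∈ O, D f ∈ spn O W := by
    intro f hf
    have h3 := N2a_E6 O hO E0 halgE hv' (fun f => D f) (fun a b => D.map_add a b)
      (fun a b => D.leibniz a b) f hf
    refine spn_mono O ?_ h3
    rintro v ⟨b, ⟨hb0, hb⟩, rfl⟩
    rw [hW]
    exact hsemi b hb hb0
  have hX0 : ∀ s, algebraMap (MvPolynomial σ F) (FractionRing (MvPolynomial σ F)) (X s) ≠ 0 :=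
    fun s => N2a_X_ne s
  have ht0 : ∀ s, algebraMap F (FractionRing (MvPolynomial σ F)) (t s) ≠ 0 := fun s h =>
    ht s ((map_eq_zero _).1 h)
  refine ⟨O, T, hmem, fun s => ?_, fun s => ⟨?_, ?_⟩, fun y hy => ?_⟩
  · rw [hTdef]
    exact mul_ne_zero (hX0 s) (ht0 s)
  · rw [hTdef, mul_div_cancel_right₀ _ (ht0 s)]
    exact (hX s).1
  · have h3 : algebraMap F (FractionRing (MvPolynomial σ F)) (t s) / T s =
        (algebraMap (MvPolynomial σ F) (FractionRing (MvPolynomial σ F)) (X s))⁻¹ := by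
      have h4 := hX0 s
      have h5 := ht0 s
      rw [hTdef]
      field_simp
    rw [h3]
    exact (hX s).2
  · obtain ⟨m, a, w, ha, hw, hsum⟩ := N2a_fin O W _ (hspan _ ((hmem y).2 hy))
    rw [hW] at hw
    choose g hg0 hg1 hgA hgw using hw
    have hld : ∀ i, w i = _ := fun i => (hgw i).trans
      (N2a_ld (fun l => ⇑(δ l)) (algebraMap F (FractionRing (MvPolynomial σ F))) (fun x => D x)
        (fun x y => D.leibniz x y) hD1
        (fun s => algebraMap (MvPolynomial σ F) (FractionRing (MvPolynomial σ F)) (X s))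
        hX0 hD2 t ht T hTdef (g i) (hg1 i))
    have hinr : ∀ s, ∑ i, a i * vl T (algebraMap F (FractionRing (MvPolynomial σ F)) (g i).1, (g i).2) *
        ((g i).2 s : FractionRing (MvPolynomial σ F)) = 0 := by
      intro s
      have h3 := congrFun hsum (Sum.inr s)
      rw [hD1 y, Sum.elim_inr, Finset.sum_apply] at h3
      rw [h3]
      refine Finset.sum_congr rfl fun i _ => ?_
      rw [hld i]
      simp only [Pi.smul_apply, Pi.add_apply, Finset.sum_apply, Sum.elim_inr, smul_eq_mul, zero_add,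
        add_zero]
      rw [Finset.sum_eq_single s]
      · rw [Pi.single_eq_same, mul_one, mul_assoc]
      · intro r _ hr
        rw [Pi.single_eq_of_ne (Ne.symm hr), mul_zero]
      · intro h
        exact absurd (Finset.mem_univ _) h
    refine ⟨m, a, g, ha, fun i => ⟨hg0 i, hg1 i, hgA i⟩, fun l => ?_, hinr⟩
    have h3 := congrFun hsum (Sum.inl l)
    rw [hD1 y, Sum.elim_inl, Finset.sum_apply] at h3
    rw [h3]
    have h4 : ∀ i, (a i • w i) (Sum.inl l) =
        a i * vl T (algebraMap F (FractionRing (MvPolynomial σ F)) (g i).1, (g i).2) *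
          algebraMap F (FractionRing (MvPolynomial σ F)) (δ l (g i).1 / (g i).1) +
        ∑ s, (a i * vl T (algebraMap F (FractionRing (MvPolynomial σ F)) (g i).1, (g i).2) *
          ((g i).2 s : FractionRing (MvPolynomial σ F))) *
            algebraMap F (FractionRing (MvPolynomial σ F)) (δ l (t s) / t s) := by
      intro i
      rw [hld i]
      simp only [Pi.smul_apply, Pi.add_apply, Finset.sum_apply, Sum.elim_inl, smul_eq_mul, zero_add]
      rw [mul_add, mul_add, Finset.mul_sum, Finset.mul_sum]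
      congr 1
      · ring
      · refine Finset.sum_congr rfl fun s _ => ?_
        ring
    have h5 : ∑ i, ∑ s, (a i * vl T (algebraMap F (FractionRing (MvPolynomial σ F)) (g i).1, (g i).2) *
          ((g i).2 s : FractionRing (MvPolynomial σ F))) *
            algebraMap F (FractionRing (MvPolynomial σ F)) (δ l (t s) / t s) = 0 := by
      rw [Finset.sum_comm]
      refine Finset.sum_eq_zero fun s _ => ?_
      rw [← Finset.sum_mul, hinr s, zero_mul]
    rw [Finset.sum_congr rfl fun i _ => h4 i, Finset.sum_add_distrib, h5, add_zero]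

end Pool.Agent.Lib.MP_17a322_nt.ABN
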