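import Pool.Agent.Lib.MP_17a322_nt.ABN.N2a
import Pool.Agent.Lib.MP_17a322_nt.JAC.T1a
import Pool.Agent.Lib.MP_17a322_nt.JAC.T1b

universe u

namespace Pool.Agent.Lib.MP_17a322_nt.ABN

open MvPolynomial
open Pool.Agent.Lib.MP_17a322_nt.JAC

section N2bLog

variable {k F : Type*} [Field k] [Field F] [Algebra k F] (D : Derivation k F F)

private theorem N2b_log_mul {x y : F} (hx : x ≠ 0) (hy : y ≠ 0) :
    D (x * y) / (x * y) = D x / x + D y / y := by
  rw [Derivation.leibniz, smul_eq_mul, smul_eq_mul]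
  field_simp
  ring

private theorem N2b_log_inv {x : F} (hx : x ≠ 0) : D x⁻¹ / x⁻¹ = -(D x / x) := by
  have h := N2b_log_mul D hx (inv_ne_zero hx)
  rw [mul_inv_cancel₀ hx, Derivation.map_one_eq_zero, zero_div] at h
  exact (neg_eq_of_add_eq_zero_right h.symm).symm

private theorem N2b_log_pow {x : F} (hx : x ≠ 0) (n : ℕ) : D (x ^ n) / x ^ n = n * (D x / x) := by
  induction n with
  | zero => simp
  | succ n ih =>
    rw [pow_succ, N2b_log_mul D (pow_ne_zero _ hx) hx, ih]
    push_cast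
    ring

private theorem N2b_log_zpow {x : F} (hx : x ≠ 0) (n : ℤ) : D (x ^ n) / x ^ n = n * (D x / x) := by
  cases n with
  | ofNat n => simpa using N2b_log_pow D hx n
  | negSucc n =>
    rw [zpow_negSucc, N2b_log_inv D (pow_ne_zero _ hx), N2b_log_pow D hx]
    push_cast
    ring

private theorem N2b_log_prod {σ : Type*} (s : Finset σ) (x : σ → F) (hx : ∀ i, x i ≠ 0) :
    D (∏ i ∈ s, x i) / (∏ i ∈ s, x i) = ∑ i ∈ s, D (x i) / x i := by
  classical
  induction s using Finset.induction_on with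
  | empty => simp
  | insert a s ha ih =>
    rw [Finset.prod_insert ha, Finset.sum_insert ha,
      N2b_log_mul D (hx a) (Finset.prod_ne_zero_iff.2 fun i _ => hx i), ih]

end N2bLog

private theorem N2b_un_val {F : Type*} [Field F] (A : ValuationSubring F) {f : F} (hf : f ≠ 0) :
    Un A f ↔ A.valuation f = 1 := by
  have h0 : 0 < A.valuation f := zero_lt_iff.2 ((Valuation.ne_zero_iff _).2 hf)
  constructor
  · rintro ⟨h1, h2⟩
    refine le_antisymm ((A.valuation_le_one_iff _).2 h1) ?_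
    have h3 := (A.valuation_le_one_iff _).2 h2
    rw [map_inv₀] at h3
    exact (inv_le_one₀ h0).1 h3
  · intro h
    refine ⟨(A.valuation_le_one_iff _).1 h.le, (A.valuation_le_one_iff _).1 ?_⟩
    rw [map_inv₀, h, inv_one]

section N2bCore

variable {k F E α σ : Type*} [Field k] [CharZero k] [Field F] [Algebra k F] [Field E] [Algebra F E]
  [Fintype σ]

omit [CharZero k] in
private theorem N2b_nat_inv (A : ValuationSubring F) (hA : ∀ c : k, algebraMap k F c ∈ A) (n : ℕ) :
    ((n : F)⁻¹) ∈ A := by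
  have h := hA ((n : k)⁻¹)
  rwa [map_inv₀, map_natCast] at h

private theorem N2b_val_vl (O : ValuationSubring E)
    (t : σ → F) (ht : ∀ s, t s ≠ 0) (T : σ → E) (hT0 : ∀ s, T s ≠ 0)
    (hTt : ∀ s, T s / algebraMap F E (t s) ∈ O ∧ algebraMap F E (t s) / T s ∈ O) (g : F × (σ → ℤ)) :
    O.valuation (vl T (algebraMap F E g.1, g.2)) = O.valuation (algebraMap F E (vl t g)) := by
  have h1 : ∀ s, O.valuation (T s) = O.valuation (algebraMap F E (t s)) := by
    intro s
    have ht' : algebraMap F E (t s) ≠ 0 := (map_ne_zero _).2 (ht s)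
    have h2 : Un O (T s / algebraMap F E (t s)) := ⟨(hTt s).1, by rw [inv_div]; exact (hTt s).2⟩
    rw [N2b_un_val O (div_ne_zero (hT0 s) ht'), map_div₀] at h2
    exact (div_eq_one_iff_eq ((Valuation.ne_zero_iff _).2 ht')).1 h2
  unfold vl
  simp only [map_mul, map_prod, map_zpow₀, h1]

private theorem N2b_core (δ : α → Derivation k F F) (F₀ : Subfield F) (A : ValuationSubring F)
    (hA : ∀ c : k, algebraMap k F c ∈ A) (t : σ → F) (ht : ∀ s, t s ≠ 0)
    (O : ValuationSubring E) (hOA : ∀ f : F, algebraMap F E f ∈ O ↔ f ∈ A)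
    (T : σ → E) (hT0 : ∀ s, T s ≠ 0)
    (hTt : ∀ s, T s / algebraMap F E (t s) ∈ O ∧ algebraMap F E (t s) / T s ∈ O)
    (b : σ → F) (q : σ → ℕ) (hb : ∀ s, b s ∈ F₀) (hb0 : ∀ s, b s ≠ 0) (hq : ∀ s, 0 < q s)
    (hbt : ∀ s, Un A (b s * t s ^ q s))
    (a : E) (ha : a ∈ O) (g : F × (σ → ℤ)) (hg : g.1 ∈ F₀) (hg0 : g.1 ≠ 0) (hgA : vl t g ∈ A) :
    (fun l => a * vl T (algebraMap F E g.1, g.2) * (algebraMap F E (δ l g.1 / g.1) -
      ∑ s, (g.2 s : E) * algebraMap F E ((q s : F)⁻¹ * (δ l (b s) / b s)))) ∈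
    spn O {v : α → E | ∃ (a : E) (b : F), b ∈ F₀ ∧ b ≠ 0 ∧ a ∈ O ∧
      (O.valuation a < 1 ∨ Un O (algebraMap F E b)) ∧ v = fun l => a * algebraMap F E (δ l b / b)} := by
  classical
  have : CharZero F := charZero_of_injective_algebraMap (algebraMap k F).injective
  have hvl := N2b_val_vl O t ht T hT0 hTt g
  have hne : ∀ f : F, f ≠ 0 → algebraMap F E f ≠ 0 := fun f hf => (map_ne_zero _).2 hf
  have hvt0 : vl t g ≠ 0 := by
    unfold vl
    exact mul_ne_zero hg0 (Finset.prod_ne_zero_iff.2 fun s _ => zpow_ne_zero _ (ht s))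
  have hnn : ∀ n : ℕ, algebraMap F E ((n : F)⁻¹) ∈ O := fun n => (hOA _).2 (N2b_nat_inv A hA n)
  have hint : ∀ n : ℤ, (n : E) ∈ O := fun n => intCast_mem O n
  set V : E := vl T (algebraMap F E g.1, g.2) with hV
  have hVO : V ∈ O := by
    rw [← O.valuation_le_one_iff, hvl, O.valuation_le_one_iff, hOA]
    exact hgA
  by_cases hun : Un A (vl t g)
  · -- the unit case
    set Q : ℕ := ∏ s, q s with hQ
    have hQ0 : 0 < Q := Finset.prod_pos fun s _ => hq s
    have hdvd : ∀ s, q s * (Q / q s) = Q := fun s =>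
      Nat.mul_div_cancel' (Finset.dvd_prod_of_mem _ (Finset.mem_univ s))
    set c : F := g.1 ^ Q * ∏ s, b s ^ (-(g.2 s) * ((Q / q s : ℕ) : ℤ)) with hc
    have hcF : c ∈ F₀ := by
      rw [hc]
      exact mul_mem (pow_mem hg _) (prod_mem fun s _ => zpow_mem (hb s) _)
    have hp0 : ∏ s, b s ^ (-(g.2 s) * ((Q / q s : ℕ) : ℤ)) ≠ 0 :=
      Finset.prod_ne_zero_iff.2 fun s _ => zpow_ne_zero _ (hb0 s)
    have hc0 : c ≠ 0 := mul_ne_zero (pow_ne_zero _ hg0) hp0
    have hcval : A.valuation c = 1 := by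
      have h1 := (N2b_un_val A hvt0).1 hun
      have h2 : ∀ s, A.valuation (b s * t s ^ q s) = 1 := fun s =>
        (N2b_un_val A (mul_ne_zero (hb0 s) (pow_ne_zero _ (ht s)))).1 (hbt s)
      have h3 : c = (vl t g) ^ Q * ∏ s, (b s * t s ^ q s) ^ (-(g.2 s) * ((Q / q s : ℕ) : ℤ)) := by
        rw [hc]
        unfold vl
        rw [mul_pow, mul_assoc, ← Finset.prod_pow, ← Finset.prod_mul_distrib]
        congr 1
        refine Finset.prod_congr rfl fun s _ => ?_
        rw [mul_zpow, ← zpow_natCast (t s) (q s), ← zpow_mul, ← zpow_natCast (t s ^ g.2 s) Q,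
          ← zpow_mul, mul_left_comm, ← zpow_add₀ (ht s)]
        have h4 : g.2 s * (Q : ℤ) + (q s : ℤ) * (-(g.2 s) * ((Q / q s : ℕ) : ℤ)) = 0 := by
          have h5 : ((q s : ℤ)) * ((Q / q s : ℕ) : ℤ) = (Q : ℤ) := by exact_mod_cast hdvd s
          rw [← h5]
          ring
        rw [h4, zpow_zero, mul_one]
      rw [h3, map_mul, map_pow, h1, one_pow, one_mul, map_prod]
      refine Finset.prod_eq_one fun s _ => ?_
      rw [map_zpow₀, h2, one_zpow]
    have hcO : Un O (algebraMap F E c) := by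
      have h1 := (N2b_un_val A hc0).2 hcval
      exact ⟨(hOA _).2 h1.1, by rw [← map_inv₀]; exact (hOA _).2 h1.2⟩
    have hlog : ∀ l, δ l g.1 / g.1 - ∑ s, (g.2 s : F) * ((q s : F)⁻¹ * (δ l (b s) / b s)) =
        (Q : F)⁻¹ * (δ l c / c) := by
      intro l
      rw [hc, N2b_log_mul _ (pow_ne_zero _ hg0) hp0, N2b_log_pow _ hg0,
        N2b_log_prod _ _ _ fun s => zpow_ne_zero _ (hb0 s), mul_add, ← mul_assoc,
        inv_mul_cancel₀ (Nat.cast_ne_zero.2 hQ0.ne'), one_mul, sub_eq_add_neg, Finset.mul_sum,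
        ← Finset.sum_neg_distrib]
      congr 1
      refine Finset.sum_congr rfl fun s _ => ?_
      rw [N2b_log_zpow _ (hb0 s)]
      have h5 : ((q s : F)) * ((Q / q s : ℕ) : F) = (Q : F) := by exact_mod_cast hdvd s
      have h6 : (q s : F) ≠ 0 := Nat.cast_ne_zero.2 (hq s).ne'
      have h7 : (Q : F) ≠ 0 := Nat.cast_ne_zero.2 hQ0.ne'
      have h8 : (q s : F)⁻¹ = (Q : F)⁻¹ * ((Q / q s : ℕ) : F) := by
        rw [← h5, mul_inv]
        have h9 : ((Q / q s : ℕ) : F) ≠ 0 := by
          intro h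
          rw [h, mul_zero] at h5
          exact h7 h5.symm
        rw [mul_assoc, inv_mul_cancel₀ h9, mul_one]
      rw [h8, Int.cast_mul, Int.cast_neg, Int.cast_natCast]
      ring
    have hfin : (fun l => a * V * (algebraMap F E (δ l g.1 / g.1) -
        ∑ s, (g.2 s : E) * algebraMap F E ((q s : F)⁻¹ * (δ l (b s) / b s)))) =
        (a * V * algebraMap F E ((Q : F)⁻¹)) • fun l => (1 : E) * algebraMap F E (δ l c / c) := by
      funext l
      rw [Pi.smul_apply, smul_eq_mul, one_mul, mul_assoc (a * V), ← map_mul, ← hlog l, map_sub, map_sum]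
      simp only [map_mul, map_intCast]
    rw [hfin]
    exact subset_spn O _ (mul_mem (mul_mem ha hVO) (hnn Q)) ⟨1, c, hcF, hc0, O.one_mem, Or.inr hcO, rfl⟩
  · -- not a unit
    have hlt : O.valuation (a * V) < 1 := by
      have h1 : O.valuation a ≤ 1 := (O.valuation_le_one_iff _).2 ha
      have h2 : O.valuation V < 1 := by
        rw [hvl]
        refine lt_of_le_of_ne ((O.valuation_le_one_iff _).2 ((hOA _).2 hgA)) fun h => ?_
        have h3 := (N2b_un_val O (hne _ hvt0)).2 h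
        apply hun
        refine ⟨hgA, ?_⟩
        rw [← hOA, map_inv₀]
        exact h3.2
      rw [map_mul]
      exact lt_of_le_of_lt (mul_le_of_le_one_left' h1) h2
    have haV : a * V ∈ O := mul_mem ha hVO
    have hmem : ∀ f : F, f ∈ F₀ → f ≠ 0 → (fun l => (a * V) * algebraMap F E (δ l f / f)) ∈
        {v : α → E | ∃ (a : E) (b : F), b ∈ F₀ ∧ b ≠ 0 ∧ a ∈ O ∧
        (O.valuation a < 1 ∨ Un O (algebraMap F E b)) ∧
        v = fun l => a * algebraMap F E (δ l b / b)} := fun f hf hf0 =>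
      ⟨a * V, f, hf, hf0, haV, Or.inl hlt, rfl⟩
    have hfin : (fun l => a * V * (algebraMap F E (δ l g.1 / g.1) -
        ∑ s, (g.2 s : E) * algebraMap F E ((q s : F)⁻¹ * (δ l (b s) / b s)))) =
        (fun l => (a * V) * algebraMap F E (δ l g.1 / g.1)) -
        ∑ s, ((g.2 s : E) * algebraMap F E ((q s : F)⁻¹)) •
          fun l => (a * V) * algebraMap F E (δ l (b s) / b s) := by
      funext l
      rw [Pi.sub_apply, Finset.sum_apply, mul_sub, Finset.mul_sum]
      congr 1
      refine Finset.sum_congr rfl fun s _ => ?_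
      rw [Pi.smul_apply, smul_eq_mul, map_mul]
      ring
    rw [hfin]
    refine sub_mem (mem_spn O _ (hmem _ hg hg0)) (sum_mem fun s _ => ?_)
    exact subset_spn O _ (mul_mem (hint _) (hnn _)) (hmem _ (hb s) (hb0 s))

end N2bCore

/-- Tame extensions: differentials of elements of `A` and logarithmic differentials. -/
theorem LE {k F : Type u} {α : Type} [Field k] [CharZero k] [Field F] [Algebra k F] [Fintype α] [DecidableEq α]
    (δ : α → Derivation k F F) (F₀ : Subfield F) [FiniteDimensional F₀ F] (A : ValuationSubring F)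
    (hA : ∀ c : k, algebraMap k F c ∈ A) :
    ∃ (E : Type u) (_ : Field E) (_ : Algebra F E) (O : ValuationSubring E),
      (∀ f : F, algebraMap F E f ∈ O ↔ f ∈ A) ∧
      (∀ y ∈ A, Rs (fun l => δ l) F₀ O fun l => δ l y) ∧
      ∀ y : F, y ≠ 0 → Rp (fun l => δ l) F₀ O fun l => δ l y / y := by
  classical
  have : CharZero F := charZero_of_injective_algebraMap (algebraMap k F).injective
  obtain ⟨N, t, ht, hv⟩ := vlist A F₀
  have halg : ∀ f : F, IsAlgebraic F₀ f := fun f => Algebra.IsAlgebraic.isAlgebraic f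
  obtain ⟨O, T, hOA, hT0, hTt, hSP⟩ := SP δ F₀ halg A hA t ht hv
  choose b q hb hb0 hq hbt hbt' using fun s => torsion A F₀ (t s) (halg (t s)) (ht s)
  have hRs : ∀ y ∈ A, Rs (fun l => δ l) F₀ O fun l => δ l y := by
    intro y hy
    obtain ⟨m, a, g, ha, hg, hd, hz⟩ := hSP y hy
    unfold Rs
    have h1 : (fun l => algebraMap F (FractionRing (MvPolynomial (Fin N) F)) (δ l y)) =
        ∑ i, fun l => a i * vl T (algebraMap F (FractionRing (MvPolynomial (Fin N) F)) (g i).1, (g i).2) *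
          (algebraMap F (FractionRing (MvPolynomial (Fin N) F)) (δ l (g i).1 / (g i).1) -
          ∑ s, ((g i).2 s : FractionRing (MvPolynomial (Fin N) F)) *
            algebraMap F (FractionRing (MvPolynomial (Fin N) F)) ((q s : F)⁻¹ * (δ l (b s) / b s))) := by
      funext l
      rw [Finset.sum_apply]
      simp only [mul_sub]
      rw [Finset.sum_sub_distrib, ← hd l]
      have h2 : ∑ i, a i * vl T (algebraMap F (FractionRing (MvPolynomial (Fin N) F)) (g i).1, (g i).2) *
          ∑ s, ((g i).2 s : FractionRing (MvPolynomial (Fin N) F)) *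
            algebraMap F (FractionRing (MvPolynomial (Fin N) F)) ((q s : F)⁻¹ * (δ l (b s) / b s)) = 0 := by
        simp only [Finset.mul_sum]
        rw [Finset.sum_comm]
        refine Finset.sum_eq_zero fun s _ => ?_
        have h3 := hz s
        simp only [← mul_assoc]
        rw [← Finset.sum_mul, h3, zero_mul]
      rw [h2, sub_zero]
    rw [h1]
    refine sum_mem fun i _ => ?_
    exact N2b_core δ F₀ A hA t ht O hOA T hT0 hTt b q hb hb0 hq (fun s => ⟨hbt s, hbt' s⟩) (a i) (ha i)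
      (g i) (hg i).1 (hg i).2.1 (hg i).2.2
  refine ⟨FractionRing (MvPolynomial (Fin N) F), inferInstance, inferInstance, O, hOA, hRs, ?_⟩
  intro y hy
  obtain ⟨c, n, hc, hc0, hn, hw, hw'⟩ := torsion A F₀ y (halg y) hy
  have h1 := hRs _ hw
  unfold Rs at h1
  unfold Rp
  have hw0 : c * y ^ n ≠ 0 := mul_ne_zero hc0 (pow_ne_zero _ hy)
  have h2 : (fun l => algebraMap F (FractionRing (MvPolynomial (Fin N) F)) (δ l (c * y ^ n))) ∈
      spn O {v : α → FractionRing (MvPolynomial (Fin N) F) | ∃ b ∈ F₀, b ≠ 0 ∧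
        v = fun l => algebraMap F (FractionRing (MvPolynomial (Fin N) F)) (δ l b / b)} := by
    refine spn_mono O ?_ h1
    rintro v ⟨a, b', hb', hb'0, ha, -, rfl⟩
    exact subset_spn O _ ha ⟨b', hb', hb'0, rfl⟩
  have h3 : (fun l => algebraMap F (FractionRing (MvPolynomial (Fin N) F)) (δ l y / y)) =
      algebraMap F (FractionRing (MvPolynomial (Fin N) F)) ((n : F)⁻¹) •
      (algebraMap F (FractionRing (MvPolynomial (Fin N) F)) ((c * y ^ n)⁻¹) •
        (fun l => algebraMap F (FractionRing (MvPolynomial (Fin N) F)) (δ l (c * y ^ n))) -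
        fun l => algebraMap F (FractionRing (MvPolynomial (Fin N) F)) (δ l c / c)) := by
    funext l
    simp only [Pi.smul_apply, Pi.sub_apply, smul_eq_mul]
    rw [← map_mul, ← map_sub, ← map_mul]
    congr 1
    have h4 := N2b_log_mul (δ l) hc0 (pow_ne_zero n hy)
    rw [N2b_log_pow _ hy] at h4
    rw [inv_mul_eq_div (c * y ^ n), h4, add_sub_cancel_left, ← mul_assoc,
      inv_mul_cancel₀ (Nat.cast_ne_zero.2 hn.ne'), one_mul]
  rw [h3]
  refine smul_mem_spn O _ ((hOA _).2 (N2b_nat_inv A hA n)) (sub_mem (smul_mem_spn O _ ((hOA _).2 hw') h2) ?_)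
  exact mem_spn O _ ⟨c, hc, hc0, rfl⟩

end Pool.Agent.Lib.MP_17a322_nt.ABN
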