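import Pool.Agent.Lib.MP_17a322_nt.ABN.N0
import Pool.Agent.Lib.MP_17a322_nt.EQ.G0

universe u

namespace Pool.Agent.Lib.MP_17a322_nt.ABN

open MvPolynomial
open Pool.Agent.Lib.MP_17a322_nt.JAC

open Pool.Agent.Lib.MP_17a322_nt.EQ

/-- A functional which vanishes on the tangent space is a combination of differentials of elements of
the ideal. -/
theorem N8_ann {K : Type u} [Field K] {ι : Type} [Fintype ι] (J : Ideal (MvPolynomial ι K)) {L : Type u} [Field L] [Algebra K L]
    (p : ι → L) (φ : (ι → L) →ₗ[L] L) (h : ∀ y ∈ Tan J p, φ y = 0) :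
    ∃ (m : ℕ) (c : Fin m → L) (G : Fin m → MvPolynomial ι K), (∀ i, G i ∈ J) ∧ φ = ∑ i, c i • dif p (G i) := by
  set W : Submodule L (Module.Dual L (ι → L)) :=
    Submodule.span L ((fun F => dif p F) '' (J : Set (MvPolynomial ι K))) with hW
  have h1 : φ ∈ W := by
    rw [← Subspace.dualCoannihilator_dualAnnihilator_eq (W := W), Submodule.mem_dualAnnihilator]
    intro y hy
    refine h y ?_
    rw [Submodule.mem_dualCoannihilator] at hy
    simp only [Tan, Submodule.mem_iInf, LinearMap.mem_ker]
    intro F hF
    exact hy _ (Submodule.subset_span ⟨F, hF, rfl⟩)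
  rw [hW, Submodule.mem_span_set'] at h1
  obtain ⟨m, c, g, hg⟩ := h1
  choose G hG using fun i => (g i).2
  refine ⟨m, c, G, fun i => (hG i).1, ?_⟩
  rw [← hg]
  exact Finset.sum_congr rfl fun i _ => congrArg _ (hG i).2.symm

/-- Nakayama's lemma for finitely many vectors over a valuation ring. -/
theorem N8_nak {F V : Type*} [Field F] [AddCommGroup V] [Module F V] (A : ValuationSubring F) {ι' ι'' : Type*} [Fintype ι'] [Fintype ι'']
    (m : ι' → V) (m' : ι'' → V)
    (h : ∀ i, ∃ (a : ι'' → F) (c : ι' → F), (∀ j, a j ∈ A) ∧ (∀ j, A.valuation (c j) < 1) ∧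
      m i = ∑ j, a j • m' j + ∑ j, c j • m j) :
    ∀ i, ∃ a : ι'' → F, (∀ j, a j ∈ A) ∧ m i = ∑ j, a j • m' j := by
  classical
  choose a c ha hc hm using h
  set C : Matrix ι' ι' A := Matrix.of fun i j =>
    (⟨c i j, (A.valuation_le_one_iff _).1 (hc i j).le⟩ : A) with hC
  have hdet : IsUnit (1 - C).det := by
    rw [← IsLocalRing.residue_ne_zero_iff_isUnit, RingHom.map_det]
    have h2 : (IsLocalRing.residue A).mapMatrix (1 - C) = 1 := by
      rw [map_sub, map_one]
      have h3 : (IsLocalRing.residue A).mapMatrix C = 0 := by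
        ext i j
        rw [RingHom.mapMatrix_apply, Matrix.map_apply, Matrix.zero_apply,
          IsLocalRing.residue_eq_zero_iff]
        exact (ValuationSubring.valuation_lt_one_iff A (C i j)).2 (hc i j)
      rw [h3, sub_zero]
    rw [h2, Matrix.det_one]
    exact one_ne_zero
  have hB : (1 - C)⁻¹ * (1 - C) = 1 := Matrix.nonsing_inv_mul _ hdet
  set B := (1 - C)⁻¹ with hBd
  have hk : ∀ k, ∑ j, (((1 - C) k j : A) : F) • m j = ∑ j, a k j • m' j := by
    intro k
    have h4 : ∑ j, (((1 - C) k j : A) : F) • m j = m k - ∑ j, c k j • m j := by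
      have h5 : ∀ j, (((1 - C) k j : A) : F) • m j = (if k = j then m j else 0) - c k j • m j := by
        intro j
        rw [Matrix.sub_apply, Matrix.one_apply]
        by_cases hkj : k = j
        · rw [if_pos hkj, if_pos hkj, hC, Matrix.of_apply]
          push_cast
          rw [sub_smul, one_smul]
        · rw [if_neg hkj, if_neg hkj, hC, Matrix.of_apply]
          push_cast
          rw [sub_smul, zero_smul]
      rw [Finset.sum_congr rfl fun j _ => h5 j, Finset.sum_sub_distrib, Finset.sum_ite_eq,
        if_pos (Finset.mem_univ k)]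
    rw [h4]
    nth_rewrite 1 [hm k]
    rw [add_sub_cancel_right]
  intro i
  refine ⟨fun j => ∑ k, ((B i k : A) : F) * a k j, fun j => ?_, ?_⟩
  · exact sum_mem fun k _ => A.mul_mem _ _ (B i k).2 (ha k j)
  · have h6 : m i = ∑ k, ((B i k : A) : F) • ∑ j, (((1 - C) k j : A) : F) • m j := by
      have h7 : ∀ j, (((B * (1 - C)) i j : A) : F) = ∑ k, ((B i k : A) : F) * (((1 - C) k j : A) : F) := by
        intro j
        rw [Matrix.mul_apply]
        push_cast
        rfl
      calc m i = ∑ j, (((B * (1 - C)) i j : A) : F) • m j := by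
            rw [hB]
            rw [Finset.sum_eq_single i]
            · rw [Matrix.one_apply_eq]
              push_cast
              rw [one_smul]
            · intro j _ hj
              rw [Matrix.one_apply_ne hj.symm]
              push_cast
              rw [zero_smul]
            · intro hi
              exact absurd (Finset.mem_univ i) hi
        _ = ∑ j, ∑ k, ((B i k : A) : F) • (((1 - C) k j : A) : F) • m j := by
            refine Finset.sum_congr rfl fun j _ => ?_
            rw [h7, Finset.sum_smul]
            exact Finset.sum_congr rfl fun k _ => mul_smul _ _ _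
        _ = _ := by
            rw [Finset.sum_comm]
            exact Finset.sum_congr rfl fun k _ => (Finset.smul_sum).symm
    rw [h6]
    simp_rw [hk, Finset.smul_sum, Finset.sum_smul, mul_smul]
    rw [Finset.sum_comm]

end Pool.Agent.Lib.MP_17a322_nt.ABN
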